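import Pool.Agent.CMerg.PAlg

set_option autoImplicit false

/-!
# Chordal Mergelyan theorem, step 2 (G): the elementary building blocks
-/

namespace Pool.Agent.CMerg

open Complex Metric Set Filter Topology Polynomial

namespace GB

/-- the component of `z₀` reaches the distance `δ` -/
theorem exists_far {K : Set ℂ} (hK : IsCompact K) (hcon : IsPreconnected Kᶜ) {z₀ : ℂ}
    (hz₀ : z₀ ∉ K) {δ : ℝ} (hδ : 0 < δ) :
    ∃ b ∈ connectedComponentIn (Kᶜ ∩ ball z₀ (2 * δ)) z₀, δ ≤ ‖b - z₀‖ := by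
  by_contra hcon'
  push Not at hcon'
  set O : Set ℂ := Kᶜ ∩ ball z₀ (2 * δ) with hO
  have hOo : IsOpen O := hK.isClosed.isOpen_compl.inter isOpen_ball
  have hzO : z₀ ∈ O := ⟨hz₀, mem_ball_self (by linarith)⟩
  set V : Set ℂ := connectedComponentIn O z₀ with hV
  have hVo : IsOpen V := hOo.connectedComponentIn
  have hzV : z₀ ∈ V := mem_connectedComponentIn hzO
  have hVb : V ⊆ closedBall z₀ δ := fun x hx => by
    rw [mem_closedBall, dist_eq_norm]
    exact (hcon' x hx).le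
  have hcl : closure V ⊆ closedBall z₀ δ := closure_minimal hVb isClosed_closedBall
  have hsub : Kᶜ ⊆ V := by
    refine hcon.subset_left_of_subset_union (v := (closure V)ᶜ) hVo
      (isClosed_closure (s := V)).isOpen_compl ?_ ?_ ⟨z₀, hz₀, hzV⟩
    · rw [Set.disjoint_left]
      exact fun x hx hx' => hx' (subset_closure hx)
    · intro x hx
      by_cases hxc : x ∈ closure V
      · left
        have hxO : x ∈ O := by
          refine ⟨hx, ?_⟩
          have := hcl hxc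
          rw [mem_closedBall] at this
          rw [mem_ball]
          linarith
        have hpre : IsPreconnected (insert x V) := by
          refine (isPreconnected_connectedComponentIn (F := O) (x := z₀)).subset_closure
            (subset_insert _ _) ?_
          rintro y (rfl | hy)
          · exact hxc
          · exact subset_closure hy
        have h1 : insert x V ⊆ connectedComponentIn O z₀ := by
          refine hpre.subset_connectedComponentIn (mem_insert_of_mem _ hzV) ?_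
          rintro y (rfl | hy)
          · exact hxO
          · exact connectedComponentIn_subset _ _ hy
        exact h1 (mem_insert _ _)
      · exact Or.inr hxc
  obtain ⟨R, hR⟩ := hK.isBounded.subset_ball z₀
  set w : ℂ := z₀ + ((max R δ : ℝ) : ℂ) with hw
  have hwn : ‖w - z₀‖ = max R δ := by
    rw [hw, add_sub_cancel_left, Complex.norm_real, Real.norm_of_nonneg (by positivity)]
  have hwK : w ∈ Kᶜ := fun h => by
    have h1 := hR h
    rw [mem_ball, dist_eq_norm, hwn] at h1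
    linarith [le_max_left R δ]
  have h2 := hcon' w (hsub hwK)
  rw [hwn] at h2
  linarith [le_max_right R δ]

theorem re_pos {z₀ z a : ℂ} {δ : ℝ} (hδ : 0 < δ) (ha : ‖a - z₀‖ < 2 * δ)
    (hz : 2 * δ ≤ ‖z - z₀‖) : 0 < ((z - a) * (starRingEnd ℂ) (z - z₀)).re := by
  have h1 : (z - a) * (starRingEnd ℂ) (z - z₀) =
      ((‖z - z₀‖ ^ 2 : ℝ) : ℂ) - (a - z₀) * (starRingEnd ℂ) (z - z₀) := by
    rw [← Complex.normSq_eq_norm_sq, ← Complex.mul_conj]
    ring
  rw [h1, Complex.sub_re, Complex.ofReal_re]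
  have h2 : ((a - z₀) * (starRingEnd ℂ) (z - z₀)).re ≤ ‖a - z₀‖ * ‖z - z₀‖ := by
    refine (Complex.re_le_norm _).trans ?_
    rw [norm_mul, Complex.norm_conj]
  nlinarith [norm_nonneg (a - z₀)]

/-- the logarithm of `(z-a)/(z-b)` -/
theorem exists_log {K : Set ℂ} (hK : IsCompact K) (hcon : IsPreconnected Kᶜ) {z₀ : ℂ}
    (hz₀ : z₀ ∉ K) {δ : ℝ} (hδ : 0 < δ) {b : ℂ}
    (hb : b ∈ connectedComponentIn (Kᶜ ∩ ball z₀ (2 * δ)) z₀) :
    ∃ l : ℂ → ℂ, PA K l ∧ (∀ z ∈ K, Complex.exp (l z) = (z - z₀) / (z - b)) ∧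
      ∀ z ∈ K, 2 * δ ≤ ‖z - z₀‖ → l z = Complex.log ((z - z₀) * (starRingEnd ℂ) (z - z₀)) -
        Complex.log ((z - b) * (starRingEnd ℂ) (z - z₀)) := by
  set O : Set ℂ := Kᶜ ∩ ball z₀ (2 * δ) with hO
  have hOo : IsOpen O := hK.isClosed.isOpen_compl.inter isOpen_ball
  have hzO : z₀ ∈ O := ⟨hz₀, mem_ball_self (by linarith)⟩
  set V : Set ℂ := connectedComponentIn O z₀ with hV
  have hVo : IsOpen V := hOo.connectedComponentIn
  have hzV : z₀ ∈ V := mem_connectedComponentIn hzO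
  have hVO : V ⊆ O := connectedComponentIn_subset _ _
  have hbK : b ∉ K := (hVO hb).1
  refine preconn_all (V := V) isPreconnected_connectedComponentIn
    (fun a => ∃ l : ℂ → ℂ, PA K l ∧ (∀ z ∈ K, Complex.exp (l z) = (z - a) / (z - b)) ∧
      ∀ z ∈ K, 2 * δ ≤ ‖z - z₀‖ → l z = Complex.log ((z - a) * (starRingEnd ℂ) (z - z₀)) -
        Complex.log ((z - b) * (starRingEnd ℂ) (z - z₀))) ?_ hb ?_ z₀ hzV
  · intro x hx
    obtain ⟨ε, hε, hball⟩ := Metric.isOpen_iff.1 hVo x hx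
    refine ⟨ε / 4, by positivity, (ball_subset_ball (by linarith)).trans hball, ?_⟩
    rintro a ha a' ha' ⟨l, hl, hl', hl''⟩
    have haV : a ∈ V := hball (ball_subset_ball (by linarith) ha)
    have ha'V : a' ∈ V := hball (ball_subset_ball (by linarith) ha')
    have haK : a ∉ K := (hVO haV).1
    have ha2 : ‖a - z₀‖ < 2 * δ := by
      have := (hVO haV).2
      rwa [mem_ball, dist_eq_norm] at this
    have hu : PA K fun z => (a' - a) * (z - a)⁻¹ := (PA.inv_sub hK hcon haK).const_mul _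
    have hza : ∀ z ∈ K, 3 / 4 * ε ≤ ‖z - a‖ := by
      intro z hz
      have h1 : ε ≤ ‖z - x‖ := by
        by_contra h
        push Not at h
        exact (hVO (hball (by rw [mem_ball, dist_eq_norm]; exact h))).1 hz
      have h2 : ‖a - x‖ < ε / 4 := by rw [← dist_eq_norm]; exact ha
      have h3 : ‖z - x‖ ≤ ‖z - a‖ + ‖a - x‖ := norm_sub_le_norm_sub_add_norm_sub _ _ _
      linarith
    have haa : ‖a' - a‖ ≤ ε / 2 := by
      have h2 : ‖a - x‖ < ε / 4 := by rw [← dist_eq_norm]; exact ha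
      have h3 : ‖a' - x‖ < ε / 4 := by rw [← dist_eq_norm]; exact ha'
      have h4 : ‖a' - a‖ ≤ ‖a' - x‖ + ‖x - a‖ := norm_sub_le_norm_sub_add_norm_sub _ _ _
      rw [norm_sub_rev x a] at h4
      linarith
    have hr : ∀ z ∈ K, ‖(a' - a) * (z - a)⁻¹‖ ≤ 2 / 3 := by
      intro z hz
      rw [norm_mul, norm_inv]
      have h3 := hza z hz
      have h4 : 0 < ‖z - a‖ := lt_of_lt_of_le (by positivity) h3
      rw [← div_eq_mul_inv, div_le_iff₀ h4]
      linarith
    have hne : ∀ z ∈ K, z - a ≠ 0 := fun z hz =>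
      norm_pos_iff.1 (lt_of_lt_of_le (by positivity) (hza z hz))
    have h6 : ∀ z ∈ K, 1 - (a' - a) * (z - a)⁻¹ ≠ 0 := by
      intro z hz h
      have h7 := hr z hz
      rw [← sub_eq_zero.1 h] at h7
      norm_num at h7
    have h8 : ∀ z ∈ K, (z - a) * (1 - (a' - a) * (z - a)⁻¹) = z - a' := by
      intro z hz
      have := hne z hz
      field_simp
      ring
    refine ⟨fun z => l z + Complex.log (1 - (a' - a) * (z - a)⁻¹),
      hl.add (hu.log_one_sub hK (by norm_num) (by norm_num) hr), fun z hz => ?_,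
      fun z hz hfar => ?_⟩
    · rw [Complex.exp_add, hl' z hz, Complex.exp_log (h6 z hz), ← h8 z hz]
      ring
    · have h9 : (z - a') * (starRingEnd ℂ) (z - z₀) =
          ((z - a) * (starRingEnd ℂ) (z - z₀)) * (1 - (a' - a) * (z - a)⁻¹) := by
        rw [← h8 z hz]
        ring
      have hp := re_pos hδ ha2 hfar
      have hx0 : (z - a) * (starRingEnd ℂ) (z - z₀) ≠ 0 := by
        intro h
        rw [h, Complex.zero_re] at hp
        exact lt_irrefl _ hp
      have hq : 0 < (1 - (a' - a) * (z - a)⁻¹).re := by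
        rw [Complex.sub_re, Complex.one_re]
        have := (Complex.re_le_norm ((a' - a) * (z - a)⁻¹)).trans (hr z hz)
        linarith
      have h10 : Complex.log ((z - a') * (starRingEnd ℂ) (z - z₀)) =
          Complex.log ((z - a) * (starRingEnd ℂ) (z - z₀)) +
            Complex.log (1 - (a' - a) * (z - a)⁻¹) := by
        rw [h9, Complex.log_mul_eq_add_log_iff hx0 (h6 z hz)]
        have i1 := abs_lt.1 (Complex.abs_arg_lt_pi_div_two_iff.2 (Or.inl hp))
        have i2 := abs_lt.1 (Complex.abs_arg_lt_pi_div_two_iff.2 (Or.inl hq))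
        constructor
        · linarith [i1.1, i2.1]
        · linarith [i1.2, i2.2]
      show l z + Complex.log (1 - (a' - a) * (z - a)⁻¹) = _
      rw [h10, hl'' z hz hfar]
      ring
  · refine ⟨fun _ => 0, PA.const 0, fun z hz => ?_, fun z hz _ => by ring⟩
    have : z - b ≠ 0 := by
      intro h
      exact hbK (by rw [← sub_eq_zero.1 h]; exact hz)
    rw [Complex.exp_zero, div_self this]

/-- the pointwise facts -/
theorem point {z z₀ b φ : ℂ} (hb : b ≠ z₀) (hzb : z ≠ b) (hφ : φ ^ 2 = (z - z₀) / (z - b)) :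
    ∃ y : ℂ, y ≠ 0 ∧ y = (φ - 1) / (φ + 1) ∧
      4 / (b - z₀) ^ 2 * ((φ - 1) * (φ - 1) * (z - b)) = y / ((b - z₀) / 4) ∧
      z - (z₀ + b) / 2 = (b - z₀) / 4 * (y + y⁻¹) := by
  have h1 : z - b ≠ 0 := sub_ne_zero.2 hzb
  have h2 : b - z₀ ≠ 0 := sub_ne_zero.2 hb
  have h3 : φ ^ 2 * (z - b) = z - z₀ := by rw [hφ]; field_simp
  have h4 : (φ + 1) * (φ - 1) * (z - b) = b - z₀ := by linear_combination h3
  have h5 : φ + 1 ≠ 0 := by
    intro h
    rw [h] at h4
    apply h2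
    rw [← h4]
    ring
  have h6 : φ - 1 ≠ 0 := by
    intro h
    rw [h] at h4
    apply h2
    rw [← h4]
    ring
  refine ⟨(φ - 1) / (φ + 1), div_ne_zero h6 h5, rfl, ?_, ?_⟩
  · have e1 : (φ - 1) / (φ + 1) = (φ - 1) * (φ - 1) * (z - b) / (b - z₀) := by
      rw [← h4]
      field_simp
    rw [e1]
    field_simp
  · rw [← h4, inv_div]
    field_simp
    linear_combination (-4) * h3

theorem norm_lt_one {φ : ℂ} (h : 0 < φ.re) : ‖(φ - 1) / (φ + 1)‖ < 1 := by
  have h1 : ‖φ - 1‖ ^ 2 < ‖φ + 1‖ ^ 2 := by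
    rw [← Complex.normSq_eq_norm_sq, ← Complex.normSq_eq_norm_sq, Complex.normSq_apply,
      Complex.normSq_apply]
    simp only [Complex.sub_re, Complex.one_re, Complex.sub_im, Complex.one_im, Complex.add_re,
      Complex.add_im]
    nlinarith
  have h2 : ‖φ - 1‖ < ‖φ + 1‖ := lt_of_pow_lt_pow_left₀ 2 (norm_nonneg _) h1
  rw [norm_div, div_lt_one (lt_of_le_of_lt (norm_nonneg _) h2)]
  exact h2

end GB

open GB in
theorem g : Stmt_G := by
  refine ⟨68, by norm_num, ?_⟩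
  intro K z₀ δ hK hcon hz₀ hδ
  obtain ⟨b, hbV, hbδ⟩ := exists_far hK hcon hz₀ hδ
  have hbO := connectedComponentIn_subset _ _ hbV
  have hbK : b ∉ K := hbO.1
  have hb2 : ‖b - z₀‖ < 2 * δ := by
    have := hbO.2
    rwa [mem_ball, dist_eq_norm] at this
  have hbz : b ≠ z₀ := by
    intro h
    rw [h, sub_self, norm_zero] at hbδ
    linarith
  obtain ⟨l, hl, hl1, hl2⟩ := exists_log hK hcon hz₀ hδ hbV
  have hφPA : PA K fun z => Complex.exp (1 / 2 * l z) := (hl.const_mul (1 / 2)).exp hK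
  have hφ : ∀ z ∈ K, Complex.exp (1 / 2 * l z) ^ 2 = (z - z₀) / (z - b) := by
    intro z hz
    rw [← hl1 z hz, ← Complex.exp_nat_mul]
    congr 1
    push_cast
    ring
  have hzb : ∀ z ∈ K, z ≠ b := fun z hz h => hbK (h ▸ hz)
  set c : ℂ := (b - z₀) / 4 with hc
  have hcn : ‖c‖ = ‖b - z₀‖ / 4 := by rw [hc, norm_div]; norm_num
  have hc1 : δ / 4 ≤ ‖c‖ := by rw [hcn]; linarith
  have hc2 : ‖c‖ < δ / 2 := by rw [hcn]; linarith
  have hc0 : 0 < ‖c‖ := by linarith
  have hmz : ‖(z₀ + b) / 2 - z₀‖ < δ := by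
    have : (z₀ + b) / 2 - z₀ = (b - z₀) / 2 := by ring
    rw [this, norm_div]
    norm_num
    linarith
  -- far points
  have hfar : ∀ z ∈ K, 2 * δ ≤ ‖z - z₀‖ → ‖(Complex.exp (1 / 2 * l z) - 1) /
      (Complex.exp (1 / 2 * l z) + 1)‖ < 1 := by
    intro z hz hf
    apply norm_lt_one
    have p1 := re_pos (a := z₀) hδ (by simpa using (by linarith : (0 : ℝ) < 2 * δ)) hf
    have p2 := re_pos (a := b) hδ hb2 hf
    have i1 := abs_lt.1 (Complex.abs_arg_lt_pi_div_two_iff.2 (Or.inl p1))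
    have i2 := abs_lt.1 (Complex.abs_arg_lt_pi_div_two_iff.2 (Or.inl p2))
    rw [Complex.exp_re]
    refine mul_pos (Real.exp_pos _) (Real.cos_pos_of_mem_Ioo ?_)
    have e1 : (1 / 2 * l z).im = 1 / 2 * ((Complex.log ((z - z₀) * (starRingEnd ℂ) (z - z₀))).im -
        (Complex.log ((z - b) * (starRingEnd ℂ) (z - z₀))).im) := by
      rw [hl2 z hz hf]
      simp [Complex.mul_im]
    rw [e1, Complex.log_im, Complex.log_im]
    constructor
    · linarith [i1.1, i2.2]
    · linarith [i1.2, i2.1]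
  refine ⟨(z₀ + b) / 2, fun z => 4 / (b - z₀) ^ 2 *
    ((Complex.exp (1 / 2 * l z) - 1) * (Complex.exp (1 / 2 * l z) - 1) * (z - b)), by linarith,
    ?_, ?_, ?_⟩
  · have h1 : PA K fun z => Complex.exp (1 / 2 * l z) - 1 := hφPA.sub (PA.const 1)
    exact (PA.mul hK (PA.mul hK h1 h1) (PA.ident.sub (PA.const b))).const_mul _
  · intro z hz
    obtain ⟨y, hy0, hy, hg, hm⟩ := point hbz (hzb z hz) (hφ z hz)
    rw [← hc] at hg hm
    beta_reduce
    rw [hg, norm_div]
    have hy17 : ‖y‖ ≤ 17 := by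
      by_contra hcon'
      push Not at hcon'
      have h1 : ‖y⁻¹‖ ≤ 1 := by
        rw [norm_inv]
        exact inv_le_one_of_one_le₀ (by linarith)
      have h2 : 16 ≤ ‖y + y⁻¹‖ := by
        have : ‖y‖ ≤ ‖y + y⁻¹‖ + ‖y⁻¹‖ := by
          calc ‖y‖ = ‖(y + y⁻¹) - y⁻¹‖ := by rw [add_sub_cancel_right]
            _ ≤ _ := norm_sub_le _ _
        linarith
      have h3 : 4 * δ ≤ ‖z - (z₀ + b) / 2‖ := by
        rw [hm, norm_mul]
        nlinarith
      have h4 : ‖z - (z₀ + b) / 2‖ ≤ ‖z - z₀‖ + ‖z₀ - (z₀ + b) / 2‖ :=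
        norm_sub_le_norm_sub_add_norm_sub _ _ _
      rw [norm_sub_rev z₀] at h4
      have h5 := hfar z hz (by linarith)
      rw [← hy] at h5
      linarith
    rw [div_le_div_iff₀ hc0 hδ]
    nlinarith
  · intro z hz hzf
    obtain ⟨y, hy0, hy, hg, hm⟩ := point hbz (hzb z hz) (hφ z hz)
    rw [← hc] at hg hm
    have hy1 : ‖y‖ < 1 := by
      rw [hy]
      exact hfar z hz (by linarith)
    have hyp : 0 < ‖y‖ := norm_pos_iff.2 hy0
    have hzm : 0 < ‖z - (z₀ + b) / 2‖ := by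
      have h4 : ‖z - z₀‖ ≤ ‖z - (z₀ + b) / 2‖ + ‖(z₀ + b) / 2 - z₀‖ :=
        norm_sub_le_norm_sub_add_norm_sub _ _ _
      linarith
    have hkey : ‖y‖ * ‖z - (z₀ + b) / 2‖ ≤ 2 * ‖c‖ := by
      rw [hm, norm_mul]
      have h1 : ‖y‖ * ‖y + y⁻¹‖ ≤ 2 := by
        rw [← norm_mul, mul_add, mul_inv_cancel₀ hy0]
        calc ‖y * y + 1‖ ≤ ‖y * y‖ + ‖(1 : ℂ)‖ := norm_add_le _ _
          _ ≤ 1 + 1 := by
              rw [norm_mul, norm_one]
              gcongr
              nlinarith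
          _ = 2 := by norm_num
      calc ‖y‖ * (‖c‖ * ‖y + y⁻¹‖) = (‖y‖ * ‖y + y⁻¹‖) * ‖c‖ := by ring
        _ ≤ 2 * ‖c‖ := by gcongr
    have hgn : ‖y / c‖ ≤ 2 / ‖z - (z₀ + b) / 2‖ := by
      rw [norm_div, div_le_div_iff₀ hc0 hzm]
      exact hkey
    constructor
    · beta_reduce
      rw [hg]
      refine hgn.trans ?_
      gcongr
      norm_num
    · have hne : z - (z₀ + b) / 2 ≠ 0 := norm_pos_iff.1 hzm
      have hcne : c ≠ 0 := norm_pos_iff.1 hc0
      have e2 : y / c - 1 / (z - (z₀ + b) / 2) = y ^ 2 / (z - (z₀ + b) / 2) := by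
        have h7 : y * (z - (z₀ + b) / 2) = c * (y ^ 2 + 1) := by
          rw [hm]
          field_simp
        rw [div_sub_div _ _ hcne hne, div_eq_div_iff (mul_ne_zero hcne hne) hne]
        linear_combination (z - (z₀ + b) / 2) * h7
      beta_reduce
      rw [hg, e2, norm_div, norm_pow]
      have h8 : ‖y‖ ^ 2 * ‖z - (z₀ + b) / 2‖ ^ 2 ≤ δ ^ 2 := by
        have h9 : ‖y‖ * ‖z - (z₀ + b) / 2‖ ≤ δ := by linarith
        rw [← mul_pow]
        exact pow_le_pow_left₀ (by positivity) h9 2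
      rw [div_le_div_iff₀ hzm (by positivity)]
      have h10 : ‖z - (z₀ + b) / 2‖ ^ 3 = ‖z - (z₀ + b) / 2‖ ^ 2 * ‖z - (z₀ + b) / 2‖ := by ring
      rw [h10, ← mul_assoc]
      have h11 : δ ^ 2 ≤ 68 * δ ^ 2 := by nlinarith
      nlinarith

end Pool.Agent.CMerg
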