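import Pool.Agent.CMerg.Defs

set_option autoImplicit false

/-!
# Chordal Mergelyan theorem: continuous logarithms (Step 3)
-/

namespace Pool.Agent.CMerg

open Complex Metric Set Filter Topology MeasureTheory Polynomial

/-- Branches of the logarithm of a holomorphic function are holomorphic. -/
theorem logHol : Stmt_LogHol := by
  intro K f w hf hw
  refine ⟨hw.1, ?_⟩
  intro z hz
  have hint : interior K ∈ 𝓝 z := isOpen_interior.mem_nhds hz
  have hfd : DifferentiableAt ℂ f z := hf.2.differentiableAt hint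
  have hwc : ContinuousAt w z :=
    hw.1.continuousAt (mem_interior_iff_mem_nhds.1 hz)
  have hzK : z ∈ K := interior_subset hz
  have hfz : f z ≠ 0 := by
    rw [← hw.2 z hzK]
    exact Complex.exp_ne_zero _
  have hone : f z / f z = 1 := div_self hfz
  have hd1 : DifferentiableAt ℂ (fun y => w z + Complex.log (f y / f z)) z := by
    refine (differentiableAt_const _).add ?_
    refine DifferentiableAt.clog (hfd.div_const _) ?_
    rw [hone]
    exact Complex.one_mem_slitPlane
  have hev : w =ᶠ[𝓝 z] fun y => w z + Complex.log (f y / f z) := by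
    have h1 : ∀ᶠ y in 𝓝 z, ‖w y - w z‖ < 1 := by
      have := (hwc.sub continuousAt_const : ContinuousAt (fun y => w y - w z) z).norm
      have h2 : ‖w z - w z‖ < 1 := by simp
      exact this.eventually_lt continuousAt_const h2
    filter_upwards [h1, hint] with y hy hyK
    have hyK' : y ∈ K := interior_subset hyK
    have e1 : Complex.exp (w y - w z) = f y / f z := by
      rw [Complex.exp_sub, hw.2 y hyK', hw.2 z hzK]
    have him : |(w y - w z).im| < 1 := lt_of_le_of_lt (Complex.abs_im_le_norm _) hy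
    have hpi : (1 : ℝ) < Real.pi := by linarith [Real.pi_gt_three]
    rw [← e1, Complex.log_exp]
    · ring
    · rw [abs_lt] at him
      linarith [him.1]
    · rw [abs_lt] at him
      linarith [him.2]
  exact (hd1.congr_of_eventuallyEq hev).differentiableWithinAt

/-- `1 - u` has a logarithm if `‖u‖ < 1`. -/
private lemma one_sub_slit {u : ℂ} (hu : ‖u‖ < 1) : 1 - u ∈ Complex.slitPlane := by
  refine Or.inl ?_
  have := Complex.re_le_norm u
  simp only [Complex.sub_re, Complex.one_re]
  linarith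

/-- A function close to one has a continuous logarithm. -/
private lemma br_near {K : Set ℂ} {u : ℂ → ℂ} (hu : ContinuousOn u K) (h : ∀ z ∈ K, ‖u z‖ < 1) :
    IsBr K (fun z => 1 - u z) (fun z => Complex.log (1 - u z)) := by
  refine ⟨ContinuousOn.clog (continuousOn_const.sub hu) fun z hz => one_sub_slit (h z hz), ?_⟩
  intro z hz
  refine Complex.exp_log ?_
  exact Complex.slitPlane_ne_zero (one_sub_slit (h z hz))

private lemma IsBr.mul {K : Set ℂ} {f g w v : ℂ → ℂ} (hf : IsBr K f w) (hg : IsBr K g v) :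
    IsBr K (fun z => f z * g z) (fun z => w z + v z) :=
  ⟨hf.1.add hg.1, fun z hz => by rw [Complex.exp_add, hf.2 z hz, hg.2 z hz]⟩

private lemma IsBr.div {K : Set ℂ} {f g w v : ℂ → ℂ} (hf : IsBr K f w) (hg : IsBr K g v) :
    IsBr K (fun z => f z / g z) (fun z => w z - v z) :=
  ⟨hf.1.sub hg.1, fun z hz => by rw [Complex.exp_sub, hf.2 z hz, hg.2 z hz]⟩

private lemma IsBr.congr' {K : Set ℂ} {f g w : ℂ → ℂ} (hf : IsBr K f w) (h : ∀ z ∈ K, g z = f z) :
    IsBr K g w := ⟨hf.1, fun z hz => by rw [hf.2 z hz, h z hz]⟩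

/-- Linear factors have continuous logarithms. -/
private lemma br_linear {K : Set ℂ} (hK : IsCompact K) (hc : IsPreconnected Kᶜ) {a : ℂ} (ha : a ∉ K) :
    ∃ w : ℂ → ℂ, IsBr K (fun z => z - a) w := by
  classical
  rcases K.eq_empty_or_nonempty with rfl | hne
  · exact ⟨fun _ => 0, continuousOn_empty _, fun z hz => absurd hz (notMem_empty z)⟩
  let S : Set ℂ := {b | b ∉ K ∧ ∃ w : ℂ → ℂ, IsBr K (fun z => z - b) w}
  let T : Set ℂ := {b | b ∉ K ∧ ¬ ∃ w : ℂ → ℂ, IsBr K (fun z => z - b) w}
  -- the local statement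
  have hloc : ∀ b ∉ K, ∃ r > 0, ∀ b' : ℂ, ‖b' - b‖ < r →
      b' ∉ K ∧ ((∃ w : ℂ → ℂ, IsBr K (fun z => z - b') w) ↔
        ∃ w : ℂ → ℂ, IsBr K (fun z => z - b) w) := by
    intro b hb
    have hbo : Kᶜ ∈ 𝓝 b := hK.isClosed.isOpen_compl.mem_nhds hb
    obtain ⟨r, hr, hrb⟩ := Metric.mem_nhds_iff.1 hbo
    refine ⟨r, hr, ?_⟩
    intro b' hb'
    have hfar : ∀ z ∈ K, r ≤ ‖z - b‖ := by
      intro z hz
      by_contra hlt
      push Not at hlt
      have : z ∈ ball b r := by rwa [mem_ball, dist_eq_norm]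
      exact hrb this hz
    have hb'K : b' ∉ K := by
      intro hmem
      have := hfar b' hmem
      linarith
    have hu : ContinuousOn (fun z : ℂ => (b' - b) / (z - b)) K := by
      refine continuousOn_const.div (continuousOn_id.sub continuousOn_const) ?_
      intro z hz h0
      have := hfar z hz
      rw [h0, norm_zero] at this
      linarith
    have hne' : ∀ z ∈ K, z - b ≠ 0 := by
      intro z hz h0
      have := hfar z hz
      rw [h0, norm_zero] at this
      linarith
    have hbr := br_near hu (by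
      intro z hz
      rw [norm_div]
      have h1 := hfar z hz
      rw [div_lt_one (by linarith)]
      linarith)
    have hne2 : ∀ z ∈ K, z - b' ≠ 0 := by
      intro z hz h0
      have : z = b' := by linear_combination h0
      exact hb'K (this ▸ hz)
    refine ⟨hb'K, ?_, ?_⟩
    · rintro ⟨w, hw⟩
      refine ⟨_, (hw.div hbr).congr' ?_⟩
      intro z hz
      have h1 := hne' z hz
      have h2 := hne2 z hz
      have h3 : 1 - (b' - b) / (z - b) = (z - b') / (z - b) := by
        field_simp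
        ring
      simp only [h3]
      field_simp
    · rintro ⟨w, hw⟩
      refine ⟨_, (hw.mul hbr).congr' ?_⟩
      intro z hz
      have h1 := hne' z hz
      have h3 : 1 - (b' - b) / (z - b) = (z - b') / (z - b) := by
        field_simp
        ring
      simp only [h3]
      field_simp
  have hSo : IsOpen S := by
    rw [Metric.isOpen_iff]
    rintro b ⟨hb, hbw⟩
    obtain ⟨r, hr, hrb⟩ := hloc b hb
    refine ⟨r, hr, ?_⟩
    intro b' hb'
    rw [mem_ball, dist_eq_norm] at hb'
    obtain ⟨h1, h2⟩ := hrb b' hb'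
    exact ⟨h1, h2.2 hbw⟩
  have hTo : IsOpen T := by
    rw [Metric.isOpen_iff]
    rintro b ⟨hb, hbw⟩
    obtain ⟨r, hr, hrb⟩ := hloc b hb
    refine ⟨r, hr, ?_⟩
    intro b' hb'
    rw [mem_ball, dist_eq_norm] at hb'
    obtain ⟨h1, h2⟩ := hrb b' hb'
    exact ⟨h1, fun h => hbw (h2.1 h)⟩
  have hSne : (Kᶜ ∩ S).Nonempty := by
    obtain ⟨R, hR⟩ := hK.isBounded.subset_closedBall (0 : ℂ)
    have hR0 : ∀ z ∈ K, ‖z‖ ≤ R := by
      intro z hz
      have := hR hz
      rwa [mem_closedBall, dist_zero_right] at this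
    have hRnn : 0 ≤ R := by
      obtain ⟨z, hz⟩ := hne
      exact (norm_nonneg z).trans (hR0 z hz)
    have hb0 : ((R + 1 : ℝ) : ℂ) ≠ 0 := by
      rw [Ne, Complex.ofReal_eq_zero]
      linarith
    have hbn : ‖((R + 1 : ℝ) : ℂ)‖ = R + 1 := by
      rw [Complex.norm_real, Real.norm_of_nonneg (by linarith)]
    have hbK : ((R + 1 : ℝ) : ℂ) ∉ K := by
      intro h
      have := hR0 _ h
      rw [hbn] at this
      linarith
    refine ⟨((R + 1 : ℝ) : ℂ), hbK, hbK, ?_⟩
    have hu : ContinuousOn (fun z : ℂ => z / ((R + 1 : ℝ) : ℂ)) K :=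
      continuousOn_id.div_const _
    have hbr := br_near hu (by
      intro z hz
      rw [norm_div, hbn, div_lt_one (by linarith)]
      linarith [hR0 z hz])
    have hcst : IsBr K (fun _ => -((R + 1 : ℝ) : ℂ))
        (fun _ => Complex.log (-((R + 1 : ℝ) : ℂ))) :=
      ⟨continuousOn_const, fun z _ => Complex.exp_log (neg_ne_zero.2 hb0)⟩
    refine ⟨_, (hcst.mul hbr).congr' ?_⟩
    intro z hz
    field_simp
    ring
  by_contra hcon
  have hTne : (Kᶜ ∩ T).Nonempty := ⟨a, ha, ha, hcon⟩
  have hcov : Kᶜ ⊆ S ∪ T := by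
    intro b hb
    by_cases h : ∃ w : ℂ → ℂ, IsBr K (fun z => z - b) w
    · exact Or.inl ⟨hb, h⟩
    · exact Or.inr ⟨hb, h⟩
  obtain ⟨b, _, hb1, hb2⟩ := hc S T hSo hTo hcov hSne hTne
  exact hb2.2 hb1.2

/-- Polynomials without zeros on `K` have continuous logarithms. -/
private lemma br_poly {K : Set ℂ} (hK : IsCompact K) (hc : IsPreconnected Kᶜ) (p : ℂ[X])
    (hp0 : p ≠ 0) (hp : ∀ z ∈ K, p.eval z ≠ 0) : ∃ w : ℂ → ℂ, IsBr K (fun z => p.eval z) w := by
  have hsp : p.Splits := IsAlgClosed.splits p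
  have hprod : ∀ s : Multiset ℂ, (∀ a ∈ s, a ∉ K) →
      ∃ w : ℂ → ℂ, IsBr K (fun z => (s.map fun a => z - a).prod) w := by
    intro s
    induction s using Multiset.induction_on with
    | empty =>
      intro _
      exact ⟨fun _ => 0, continuousOn_const, fun z _ => by simp⟩
    | cons a s ih =>
      intro hs
      obtain ⟨w, hw⟩ := ih fun b hb => hs b (Multiset.mem_cons_of_mem hb)
      obtain ⟨v, hv⟩ := br_linear hK hc (hs a (Multiset.mem_cons_self a s))
      refine ⟨_, (hv.mul hw).congr' ?_⟩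
      intro z _
      simp
  obtain ⟨w, hw⟩ := hprod p.roots (by
    intro a ha haK
    exact hp a haK ((Polynomial.mem_roots hp0).1 ha))
  have hlc : p.leadingCoeff ≠ 0 := Polynomial.leadingCoeff_ne_zero.2 hp0
  have hcst : IsBr K (fun _ => p.leadingCoeff) (fun _ => Complex.log p.leadingCoeff) :=
    ⟨continuousOn_const, fun z _ => Complex.exp_log hlc⟩
  refine ⟨_, (hcst.mul hw).congr' ?_⟩
  intro z _
  conv_lhs => rw [hsp.eq_prod_roots]
  rw [Polynomial.eval_mul, Polynomial.eval_C, Polynomial.eval_multiset_prod, Multiset.map_map]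
  simp

/-- Zero-free functions have continuous logarithms. -/
theorem log (hM : Stmt_Mergelyan) : Stmt_Log := by
  intro K f hK hc hf hne
  rcases K.eq_empty_or_nonempty with rfl | hKne
  · exact ⟨fun _ => 0, continuousOn_empty _, fun z hz => absurd hz (notMem_empty z)⟩
  obtain ⟨z₀, hz₀, hmin⟩ := hK.exists_isMinOn hKne hf.1.norm
  have hm : 0 < ‖f z₀‖ := norm_pos_iff.2 (hne z₀ hz₀)
  obtain ⟨p, hp⟩ := hM K f hK hc hf (‖f z₀‖ / 2) (by linarith)
  have hclose : ∀ z ∈ K, ‖p.eval z - f z‖ < ‖f z‖ := by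
    intro z hz
    have h1 := hp z hz
    have h2 : ‖f z₀‖ ≤ ‖f z‖ := hmin hz
    linarith
  have hpne : ∀ z ∈ K, p.eval z ≠ 0 := by
    intro z hz h0
    have := hclose z hz
    rw [h0, zero_sub, norm_neg] at this
    exact lt_irrefl _ this
  have hp0 : p ≠ 0 := by
    rintro rfl
    exact hpne z₀ hz₀ (by simp)
  obtain ⟨w, hw⟩ := br_poly hK hc p hp0 hpne
  have hu : ContinuousOn (fun z => (f z - p.eval z) / f z) K :=
    (hf.1.sub p.continuous.continuousOn).div hf.1 hne
  have hbr := br_near hu (by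
    intro z hz
    rw [norm_div, div_lt_one (norm_pos_iff.2 (hne z hz)), ← norm_neg, neg_sub]
    exact hclose z hz)
  refine ⟨_, (hw.div hbr).congr' ?_⟩
  intro z hz
  have h1 := hne z hz
  have h2 := hpne z hz
  have h3 : 1 - (f z - p.eval z) / f z = p.eval z / f z := by
    field_simp
    ring
  simp only [h3]
  field_simp

end Pool.Agent.CMerg
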