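import Pool.Agent.CMerg.Defs
import Pool.Agent.BlMat.C1

set_option autoImplicit false

/-!
# Mergelyan's theorem from the elementary building blocks

`merg : Stmt_G → Stmt_Smooth → Stmt_Mergelyan` (Rudin, Real and complex analysis, 20.5).
-/

namespace Pool.Agent.CMerg

open Complex Metric Set Filter Topology MeasureTheory Polynomial
open scoped ContDiff

namespace MM

/-! ### Algebra of `PA` -/

theorem pa_zero (K : Set ℂ) : PA K (fun _ => 0) := by
  intro ε hε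
  exact ⟨0, fun z _ => by simpa using hε⟩

theorem pa_add {K : Set ℂ} {g h : ℂ → ℂ} (hg : PA K g) (hh : PA K h) :
    PA K (fun z => g z + h z) := by
  intro ε hε
  obtain ⟨p, hp⟩ := hg (ε / 2) (by positivity)
  obtain ⟨q, hq⟩ := hh (ε / 2) (by positivity)
  refine ⟨p + q, fun z hz => ?_⟩
  have h1 := hp z hz
  have h2 := hq z hz
  rw [eval_add]
  calc ‖p.eval z + q.eval z - (g z + h z)‖ = ‖(p.eval z - g z) + (q.eval z - h z)‖ := by ring_nf
    _ ≤ ‖p.eval z - g z‖ + ‖q.eval z - h z‖ := norm_add_le _ _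
    _ < ε := by linarith

theorem pa_const_mul {K : Set ℂ} {g : ℂ → ℂ} (c : ℂ) (hg : PA K g) :
    PA K (fun z => c * g z) := by
  intro ε hε
  obtain ⟨p, hp⟩ := hg (ε / (‖c‖ + 1)) (by positivity)
  refine ⟨Polynomial.C c * p, fun z hz => ?_⟩
  have h1 := hp z hz
  rw [eval_mul, eval_C, ← mul_sub, norm_mul]
  rw [lt_div_iff₀ (by positivity)] at h1
  have h2 := norm_nonneg (p.eval z - g z)
  nlinarith

theorem pa_sq {K : Set ℂ} {g : ℂ → ℂ} {B : ℝ} (hB : ∀ z ∈ K, ‖g z‖ ≤ B) (hg : PA K g) :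
    PA K (fun z => g z ^ 2) := by
  intro ε hε
  obtain ⟨p, hp⟩ := hg (min 1 (ε / (2 * |B| + 2))) (by positivity)
  refine ⟨p ^ 2, fun z hz => ?_⟩
  have h1 := hp z hz
  have h2 : ‖p.eval z - g z‖ < 1 := h1.trans_le (min_le_left _ _)
  have h3 : ‖p.eval z - g z‖ < ε / (2 * |B| + 2) := h1.trans_le (min_le_right _ _)
  have h4 := hB z hz
  have h5 : ‖g z‖ ≤ |B| := h4.trans (le_abs_self B)
  have h6 : ‖p.eval z + g z‖ ≤ 2 * |B| + 1 := by
    have : p.eval z + g z = (p.eval z - g z) + 2 * g z := by ring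
    rw [this]
    refine (norm_add_le _ _).trans ?_
    rw [norm_mul, RCLike.norm_ofNat]
    linarith
  rw [lt_div_iff₀ (by positivity)] at h3
  rw [eval_pow, sq_sub_sq, norm_mul]
  have h7 := norm_nonneg (p.eval z - g z)
  have h8 := norm_nonneg (p.eval z + g z)
  nlinarith

theorem pa_sum {ι : Type*} {K : Set ℂ} (s : Finset ι) (g : ι → ℂ → ℂ)
    (hg : ∀ i ∈ s, PA K (g i)) : PA K (fun z => ∑ i ∈ s, g i z) := by
  classical
  induction s using Finset.induction_on with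
  | empty => simpa using pa_zero K
  | insert a s ha ih =>
    have h1 := pa_add (hg a (Finset.mem_insert_self a s))
      (ih fun i hi => hg i (Finset.mem_insert_of_mem hi))
    intro ε hε
    obtain ⟨p, hp⟩ := h1 ε hε
    refine ⟨p, fun z hz => ?_⟩
    have := hp z hz
    simp only [Finset.sum_insert ha]
    exact this

/-! ### The dominating kernel -/

/-- The dominating kernel. -/
noncomputable def kern (A B R : ℝ) (w : ℂ) : ℝ :=
  (ball (0 : ℂ) R).indicator (fun w => ‖w‖⁻¹ + A) w + B * (1 + ‖w‖) ^ (-(3 : ℝ))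

theorem kern_nonneg {A B R : ℝ} (hA : 0 ≤ A) (hB : 0 ≤ B) (w : ℂ) : 0 ≤ kern A B R w := by
  unfold kern
  have h1 : 0 ≤ (ball (0 : ℂ) R).indicator (fun w => ‖w‖⁻¹ + A) w :=
    indicator_nonneg (fun w _ => by positivity) _
  positivity

theorem integrable_kern (A B R : ℝ) : Integrable (kern A B R) := by
  unfold kern
  refine Integrable.add ?_ ?_
  · have h1 := Pool.Agent.BlMat.C1.integrableOn_inv_ball R
    have h2 : IntegrableOn (fun _ : ℂ => A) (ball (0 : ℂ) R) :=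
      integrableOn_const measure_ball_lt_top.ne
    exact (h1.add h2).integrable_indicator measurableSet_ball
  · refine (integrable_one_add_norm ?_).const_mul B
    rw [Complex.finrank_real_complex]
    norm_num

theorem kern_near {A B R : ℝ} (hB : 0 ≤ B) {w : ℂ} (hw : ‖w‖ < R) :
    ‖w‖⁻¹ + A ≤ kern A B R w := by
  unfold kern
  rw [indicator_of_mem (by simpa using hw)]
  have : 0 ≤ B * (1 + ‖w‖) ^ (-(3 : ℝ)) := by positivity
  linarith

theorem kern_far {A B R : ℝ} (hA : 0 ≤ A) (hB : 0 ≤ B) {w : ℂ} (hw : 1 ≤ ‖w‖) :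
    B / (8 * ‖w‖ ^ 3) ≤ kern A B R w := by
  unfold kern
  have h1 : 0 ≤ (ball (0 : ℂ) R).indicator (fun w => ‖w‖⁻¹ + A) w :=
    indicator_nonneg (fun w _ => by positivity) _
  have h2 : (1 + ‖w‖) ^ (-(3 : ℝ)) = ((1 + ‖w‖) ^ 3)⁻¹ := by
    rw [Real.rpow_neg (by positivity)]
    congr 1
    exact_mod_cast Real.rpow_natCast (1 + ‖w‖) 3
  rw [h2]
  have h3 : (1 + ‖w‖) ^ 3 ≤ 8 * ‖w‖ ^ 3 := by
    calc (1 + ‖w‖) ^ 3 ≤ (2 * ‖w‖) ^ 3 := by gcongr; linarith
      _ = 8 * ‖w‖ ^ 3 := by ring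
  have h4 : B / (8 * ‖w‖ ^ 3) ≤ B * ((1 + ‖w‖) ^ 3)⁻¹ := by
    rw [div_eq_mul_inv]
    gcongr
  linarith

theorem kernel_bound {C δ : ℝ} (hC : 1 ≤ C) (hδ : 0 < δ) {z₀ m z s w : ℂ}
    (hm : ‖m - z₀‖ ≤ 2 * δ) (hb : ‖w‖ ≤ C / δ)
    (hfar : C * δ ≤ ‖z - z₀‖ → ‖w‖ ≤ C / ‖z - m‖ ∧ ‖w - 1 / (z - m)‖ ≤ C * δ ^ 2 / ‖z - m‖ ^ 3)
    (hs : ‖s - z₀‖ < 2 * δ) :
    ‖1 / (z - s) - (w + (s - m) * w ^ 2)‖ ≤
      δ⁻¹ * kern (5 * C ^ 2) (8 * (64 + 16 * C + 8 * C ^ 2)) (C + 8) ((δ⁻¹ : ℝ) • (z - s)) := by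
  have hd : ‖s - m‖ ≤ 4 * δ := by
    have : s - m = (s - z₀) - (m - z₀) := by ring
    rw [this]
    exact (norm_sub_le _ _).trans (by linarith)
  have hC0 : 0 < C := by linarith
  have hn : ‖(δ⁻¹ : ℝ) • (z - s)‖ = ‖z - s‖ / δ := by
    rw [norm_smul, Real.norm_of_nonneg (by positivity)]
    field_simp
  by_cases hr : ‖z - s‖ < (C + 8) * δ
  · have h1 := kern_near (A := 5 * C ^ 2) (B := 8 * (64 + 16 * C + 8 * C ^ 2)) (R := C + 8)
      (by positivity) (w := (δ⁻¹ : ℝ) • (z - s)) (by rw [hn, div_lt_iff₀ hδ]; exact hr)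
    rw [hn] at h1
    have h2 : ‖1 / (z - s)‖ = ‖z - s‖⁻¹ := by rw [norm_div, norm_one, one_div]
    have h3 : ‖w + (s - m) * w ^ 2‖ ≤ δ⁻¹ * (5 * C ^ 2) := by
      calc ‖w + (s - m) * w ^ 2‖ ≤ ‖w‖ + ‖s - m‖ * ‖w‖ ^ 2 := by
            refine (norm_add_le _ _).trans ?_
            rw [norm_mul, norm_pow]
        _ ≤ C / δ + 4 * δ * (C / δ) ^ 2 := by gcongr
        _ = δ⁻¹ * (C + 4 * C ^ 2) := by field_simp
        _ ≤ δ⁻¹ * (5 * C ^ 2) := by
            gcongr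
            nlinarith
    calc ‖1 / (z - s) - (w + (s - m) * w ^ 2)‖ ≤ ‖1 / (z - s)‖ + ‖w + (s - m) * w ^ 2‖ :=
          norm_sub_le _ _
      _ ≤ ‖z - s‖⁻¹ + δ⁻¹ * (5 * C ^ 2) := by rw [h2]; gcongr
      _ = δ⁻¹ * ((‖z - s‖ / δ)⁻¹ + 5 * C ^ 2) := by
          rw [inv_div]
          field_simp
      _ ≤ _ := by gcongr
  · rw [not_lt] at hr
    have hr8 : 8 * δ ≤ ‖z - s‖ := by nlinarith
    have hr0 : 0 < ‖z - s‖ := by linarith
    have h1 : C * δ ≤ ‖z - z₀‖ := by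
      have : z - s = (z - z₀) - (s - z₀) := by ring
      have h2 : ‖z - s‖ ≤ ‖z - z₀‖ + ‖s - z₀‖ := by rw [this]; exact norm_sub_le _ _
      nlinarith
    obtain ⟨h2, h3⟩ := hfar h1
    have hρ : ‖z - s‖ / 2 ≤ ‖z - m‖ := by
      have : z - s = (z - m) - (s - m) := by ring
      have h2 : ‖z - s‖ ≤ ‖z - m‖ + ‖s - m‖ := by rw [this]; exact norm_sub_le _ _
      linarith
    have hρ0 : 0 < ‖z - m‖ := by linarith
    have hzm : z - m ≠ 0 := norm_pos_iff.mp hρ0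
    have hzs : z - s ≠ 0 := norm_pos_iff.mp hr0
    have hid : 1 / (z - s) - (w + (s - m) * w ^ 2) = (s - m) ^ 2 / ((z - m) ^ 2 * (z - s)) -
        (w - 1 / (z - m)) - (s - m) * ((w - 1 / (z - m)) * (w + 1 / (z - m))) := by
      field_simp
      ring
    have hT1 : ‖(s - m) ^ 2 / ((z - m) ^ 2 * (z - s))‖ ≤ 64 * (δ ^ 2 / ‖z - s‖ ^ 3) := by
      rw [norm_div, norm_mul, norm_pow, norm_pow]
      calc ‖s - m‖ ^ 2 / (‖z - m‖ ^ 2 * ‖z - s‖) ≤
            (4 * δ) ^ 2 / ((‖z - s‖ / 2) ^ 2 * ‖z - s‖) := by gcongr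
        _ = 64 * (δ ^ 2 / ‖z - s‖ ^ 3) := by
            field_simp
            ring
    have hT2 : ‖w - 1 / (z - m)‖ ≤ 8 * C * (δ ^ 2 / ‖z - s‖ ^ 3) := by
      calc ‖w - 1 / (z - m)‖ ≤ C * δ ^ 2 / ‖z - m‖ ^ 3 := h3
        _ ≤ C * δ ^ 2 / (‖z - s‖ / 2) ^ 3 := by gcongr
        _ = 8 * C * (δ ^ 2 / ‖z - s‖ ^ 3) := by
            field_simp
            ring
    have hT3 : ‖(s - m) * ((w - 1 / (z - m)) * (w + 1 / (z - m)))‖ ≤
        (C + 1) * (8 * C * (δ ^ 2 / ‖z - s‖ ^ 3)) := by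
      rw [norm_mul, norm_mul]
      have h4 : ‖w + 1 / (z - m)‖ ≤ (C + 1) / (4 * δ) := by
        calc ‖w + 1 / (z - m)‖ ≤ ‖w‖ + ‖1 / (z - m)‖ := norm_add_le _ _
          _ ≤ C / ‖z - m‖ + 1 / ‖z - m‖ := by
              rw [norm_div, norm_one]
              gcongr
          _ = (C + 1) / ‖z - m‖ := by ring
          _ ≤ (C + 1) / (4 * δ) := by
              gcongr
              linarith
      calc ‖s - m‖ * (‖w - 1 / (z - m)‖ * ‖w + 1 / (z - m)‖) ≤
            (4 * δ) * ((8 * C * (δ ^ 2 / ‖z - s‖ ^ 3)) * ((C + 1) / (4 * δ))) := by gcongr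
        _ = _ := by
            field_simp
    have hk := kern_far (A := 5 * C ^ 2) (B := 8 * (64 + 16 * C + 8 * C ^ 2)) (R := C + 8)
      (by positivity) (by positivity) (w := (δ⁻¹ : ℝ) • (z - s)) (by
        rw [hn, le_div_iff₀ hδ]
        linarith)
    rw [hn] at hk
    rw [hid]
    calc _ ≤ 64 * (δ ^ 2 / ‖z - s‖ ^ 3) + 8 * C * (δ ^ 2 / ‖z - s‖ ^ 3) +
          (C + 1) * (8 * C * (δ ^ 2 / ‖z - s‖ ^ 3)) := by
          refine (norm_sub_le _ _).trans ?_
          gcongr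
          refine (norm_sub_le _ _).trans ?_
          gcongr
      _ = δ⁻¹ * (8 * (64 + 16 * C + 8 * C ^ 2) / (8 * (‖z - s‖ / δ) ^ 3)) := by
          field_simp
          ring
      _ ≤ _ := by gcongr

theorem integral_kern_comp (A B R : ℝ) {δ : ℝ} (hδ : 0 < δ) (z : ℂ) :
    Integrable (fun s : ℂ => kern A B R ((δ⁻¹ : ℝ) • (z - s))) ∧
    ∫ s : ℂ, kern A B R ((δ⁻¹ : ℝ) • (z - s)) = δ ^ 2 * ∫ w, kern A B R w := by
  constructor
  · have h1 : Integrable (fun w : ℂ => kern A B R ((δ⁻¹ : ℝ) • w)) :=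
      (integrable_comp_smul_iff volume (kern A B R) (inv_ne_zero hδ.ne')).mpr
        (integrable_kern A B R)
    exact h1.comp_sub_left z
  · rw [integral_sub_left_eq_self (fun w : ℂ => kern A B R ((δ⁻¹ : ℝ) • w)) volume z,
      Measure.integral_comp_inv_smul_of_nonneg volume _ hδ.le, Complex.finrank_real_complex,
      smul_eq_mul]

/-! ### The approximation of the smoothed function -/

theorem continuous_dzb {h : ℂ → ℂ} (hh : ContDiff ℝ 1 h) : Continuous (dzb h) := by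
  have h1 := hh.continuous_fderiv one_ne_zero
  have h2 : dzb h = fun z => (fderiv ℝ h z 1 + I * fderiv ℝ h z I) / 2 := rfl
  rw [h2]
  exact ((h1.clm_apply continuous_const).add
    (continuous_const.mul (h1.clm_apply continuous_const))).div_const 2

theorem hasCompactSupport_dzb {h : ℂ → ℂ} (hs : HasCompactSupport h) :
    HasCompactSupport (dzb h) := by
  have h1 := hs.fderiv_apply ℝ (1 : ℂ)
  have h2 := hs.fderiv_apply ℝ I
  have h3 := h1.add (h2.mul_left (f := fun _ : ℂ => I))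
  have h4 : dzb h = fun z => (fderiv ℝ h z 1 + I * fderiv ℝ h z I) / 2 := rfl
  rw [h4]
  exact h3.comp_left (g := fun w : ℂ => w / 2) (by simp)

/-- Covering of the support. -/
theorem exists_cover {K : Set ℂ} {v : ℂ → ℂ} {δ : ℝ} (hδ : 0 < δ) (hv : HasCompactSupport v)
    (h0 : ∀ z, closedBall z δ ⊆ interior K → v z = 0) :
    ∃ (n : ℕ) (c : Fin n → ℂ), (∀ j, c j ∉ K) ∧ tsupport v ⊆ ⋃ j, ball (c j) (2 * δ) := by
  have h1 : tsupport v ⊆ ⋃ c ∈ Kᶜ, ball c (2 * δ) := by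
    intro s hs
    obtain ⟨y, hy, hsy⟩ := Metric.mem_closure_iff.mp hs (δ / 2) (by positivity)
    have h2 : ¬ closedBall y δ ⊆ interior K := fun h => hy (h0 y h)
    obtain ⟨w, hw, hwK⟩ := not_subset.mp h2
    have h3 : w ∈ closure Kᶜ := by rwa [closure_compl]
    obtain ⟨c, hc, hwc⟩ := Metric.mem_closure_iff.mp h3 (δ / 2) (by positivity)
    refine mem_iUnion₂.mpr ⟨c, hc, ?_⟩
    rw [mem_ball]
    rw [mem_closedBall] at hw
    have h4 := dist_triangle s y c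
    have h5 := dist_triangle y w c
    rw [dist_comm y w] at h5
    linarith
  obtain ⟨b, hbK, hbf, hb⟩ := IsCompact.elim_finite_subcover_image hv.isCompact
    (fun c _ => isOpen_ball) h1
  obtain ⟨n, c, hc⟩ : ∃ (n : ℕ) (c : Fin n → ℂ), range c = b := by
    obtain ⟨n, e, -, he⟩ := hbf.fin_param
    exact ⟨n, e, he⟩
  refine ⟨n, c, fun j => hbK (hc ▸ mem_range_self j), ?_⟩
  refine hb.trans ?_
  intro s hs
  obtain ⟨y, hy, hsy⟩ := mem_iUnion₂.mp hs
  rw [← hc] at hy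
  obtain ⟨j, rfl⟩ := hy
  exact mem_iUnion.mpr ⟨j, hsy⟩

theorem approx {C : ℝ} (hC : 1 ≤ C)
    (hG : ∀ (K : Set ℂ) (z₀ : ℂ) (δ : ℝ), IsCompact K → IsPreconnected Kᶜ → z₀ ∉ K → 0 < δ →
    ∃ (m : ℂ) (g : ℂ → ℂ), ‖m - z₀‖ ≤ 2 * δ ∧ PA K g ∧ (∀ z ∈ K, ‖g z‖ ≤ C / δ) ∧
      ∀ z ∈ K, C * δ ≤ ‖z - z₀‖ → ‖g z‖ ≤ C / ‖z - m‖ ∧
        ‖g z - 1 / (z - m)‖ ≤ C * δ ^ 2 / ‖z - m‖ ^ 3)
    {K : Set ℂ} (hK : IsCompact K) (hKc : IsPreconnected Kᶜ) {h : ℂ → ℂ} {δ M : ℝ} (hδ : 0 < δ)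
    (hh : ContDiff ℝ 1 h) (hs : HasCompactSupport h) (hM : ∀ z, ‖dzb h z‖ ≤ M / δ)
    (h0 : ∀ z, closedBall z δ ⊆ interior K → dzb h z = 0) :
    ∃ G : ℂ → ℂ, PA K G ∧ ∀ z ∈ K, ‖h z - G z‖ ≤
      Real.pi⁻¹ * M * ∫ w, kern (5 * C ^ 2) (8 * (64 + 16 * C + 8 * C ^ 2)) (C + 8) w := by
  have hM0 : 0 ≤ M := by
    have h1 := (norm_nonneg _).trans (hM 0)
    rw [div_nonneg_iff] at h1
    rcases h1 with h1 | h1
    · exact h1.1
    · linarith [h1.2]
  have hvc := continuous_dzb hh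
  have hvs := hasCompactSupport_dzb hs
  obtain ⟨n, c, hcK, hcov⟩ := exists_cover hδ hvs h0
  choose m g hm hg hgb hgf using fun j => hG K (c j) δ hK hKc (hcK j) hδ
  set v := dzb h with hvdef
  let X : Fin n → Set ℂ := disjointed fun j => ball (c j) (2 * δ)
  have hXm : ∀ j, MeasurableSet (X j) := by
    intro j
    simp only [X, disjointed_apply, Finset.sup_set_eq_biUnion]
    exact measurableSet_ball.diff (Finset.measurableSet_biUnion _ fun i _ => measurableSet_ball)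
  have hXs : ∀ j, X j ⊆ ball (c j) (2 * δ) := fun j => disjointed_subset _ j
  have hXd : Pairwise fun i j => Disjoint (X i) (X j) := disjoint_disjointed _
  have hXU : ⋃ j, X j = ⋃ j, ball (c j) (2 * δ) := iUnion_disjointed
  let A : Fin n → ℂ := fun j => (Real.pi : ℂ)⁻¹ * ∫ s in X j, v s
  let B : Fin n → ℂ := fun j => (Real.pi : ℂ)⁻¹ * ∫ s in X j, v s * (s - m j)
  refine ⟨fun z => ∑ j, (A j * g j z + B j * g j z ^ 2), ?_, ?_⟩
  · refine pa_sum _ _ fun j _ => pa_add (pa_const_mul _ (hg j)) (pa_const_mul _ ?_)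
    exact pa_sq (hgb j) (hg j)
  intro z hz
  have hi1 : Integrable v := hvc.integrable_of_hasCompactSupport hvs
  have hi2 : ∀ j, Integrable (fun s => v s * (s - m j)) := fun j =>
    (hvc.mul (by fun_prop)).integrable_of_hasCompactSupport hvs.mul_right
  let Q : Fin n → ℂ → ℂ := fun j s => g j z + (s - m j) * g j z ^ 2
  have hi3 : ∀ j, Integrable (fun s => v s * Q j s) := by
    intro j
    refine (hvc.mul ?_).integrable_of_hasCompactSupport hvs.mul_right
    simp only [Q]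
    fun_prop
  have hi4 : ∀ j, Integrable ((X j).indicator fun s => v s * Q j s) := fun j =>
    (hi3 j).indicator (hXm j)
  have hG1 : ∑ j, (A j * g j z + B j * g j z ^ 2) =
      (Real.pi : ℂ)⁻¹ * ∫ s, ∑ j, (X j).indicator (fun s => v s * Q j s) s := by
    rw [integral_finsetSum _ fun j _ => hi4 j, Finset.mul_sum]
    refine Finset.sum_congr rfl fun j _ => ?_
    rw [integral_indicator (hXm j)]
    have h1 : ∫ s in X j, v s * Q j s =
        (∫ s in X j, v s) * g j z + (∫ s in X j, v s * (s - m j)) * g j z ^ 2 := by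
      rw [← integral_mul_const, ← integral_mul_const, ← integral_add]
      · refine integral_congr_ae (Eventually.of_forall fun s => ?_)
        simp only [Q]
        ring
      · exact (hi1.mul_const _).integrableOn
      · exact ((hi2 j).mul_const _).integrableOn
    rw [h1]
    simp only [A, B]
    ring
  have hR : ∃ R B : ℝ, 0 < R ∧ (∀ z, R < ‖z‖ → v z = 0) ∧ (∀ z, ‖v z‖ ≤ B) :=
    Pool.Agent.BlMat.C1.exists_radius hvc hvs
  obtain ⟨R, B', -, hR0, hB'⟩ := hR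
  have hi5 : Integrable (fun s => v s / (z - s)) := by
    have h1 := (Pool.Agent.BlMat.C1.integrable_integrand hvc hR0 hB' z).comp_sub_left z
    refine h1.congr (Eventually.of_forall fun s => ?_)
    simp
  have hh1 : h z = (Real.pi : ℂ)⁻¹ * ∫ s, v s / (z - s) := by
    have h1 := Pool.Agent.BlMat.C1.cauchyT_dzb hh hs z
    have h2 := integral_sub_left_eq_self (fun w : ℂ => v (z - w) / w) volume z
    simp only [sub_sub_cancel] at h2
    rw [h2]
    exact h1.symm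
  have hi6 : Integrable (fun s => ∑ j, (X j).indicator (fun s => v s * Q j s) s) :=
    integrable_finsetSum _ fun j _ => hi4 j
  beta_reduce
  rw [hG1, hh1, ← mul_sub, ← integral_sub hi5 hi6, norm_mul, norm_inv, Complex.norm_real,
    Real.norm_of_nonneg Real.pi_pos.le, mul_assoc]
  refine mul_le_mul_of_nonneg_left ?_ (by positivity)
  obtain ⟨hik, hk⟩ := integral_kern_comp (5 * C ^ 2) (8 * (64 + 16 * C + 8 * C ^ 2)) (C + 8) hδ z
  have hfin : M * ∫ w, kern (5 * C ^ 2) (8 * (64 + 16 * C + 8 * C ^ 2)) (C + 8) w =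
      ∫ s : ℂ, (M / δ ^ 2) * kern (5 * C ^ 2) (8 * (64 + 16 * C + 8 * C ^ 2)) (C + 8)
        ((δ⁻¹ : ℝ) • (z - s)) := by
    rw [integral_const_mul, hk]
    field_simp
  rw [hfin]
  refine norm_integral_le_of_norm_le (hik.const_mul _) (Eventually.of_forall fun s => ?_)
  have hkn : 0 ≤ kern (5 * C ^ 2) (8 * (64 + 16 * C + 8 * C ^ 2)) (C + 8)
      ((δ⁻¹ : ℝ) • (z - s)) := kern_nonneg (by positivity) (by positivity) _
  by_cases hst : s ∈ tsupport v
  · have h1 := hcov hst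
    rw [← hXU] at h1
    obtain ⟨j, hj⟩ := mem_iUnion.mp h1
    have h2 : ∑ i, (X i).indicator (fun s => v s * Q i s) s = v s * Q j s := by
      rw [Finset.sum_eq_single j]
      · rw [indicator_of_mem hj]
      · intro i _ hij
        rw [indicator_of_notMem]
        intro hi
        exact (Set.disjoint_left.mp (hXd hij)) hi hj
      · intro hn
        exact absurd (Finset.mem_univ j) hn
    rw [h2]
    have h3 : v s / (z - s) - v s * Q j s = v s * (1 / (z - s) - Q j s) := by ring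
    rw [h3, norm_mul]
    have h4 : ‖s - c j‖ < 2 * δ := by
      have := hXs j hj
      rwa [mem_ball, dist_eq_norm] at this
    have h5 := kernel_bound hC hδ (s := s) (hm j) (hgb j z hz) (hgf j z hz) h4
    calc ‖v s‖ * ‖1 / (z - s) - Q j s‖ ≤ (M / δ) * (δ⁻¹ *
          kern (5 * C ^ 2) (8 * (64 + 16 * C + 8 * C ^ 2)) (C + 8) ((δ⁻¹ : ℝ) • (z - s))) := by
          gcongr
          exact hM s
      _ = _ := by
          field_simp
  · have h1 : v s = 0 := image_eq_zero_of_notMem_tsupport hst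
    have h2 : ∑ i, (X i).indicator (fun s => v s * Q i s) s = 0 := by
      refine Finset.sum_eq_zero fun i _ => ?_
      by_cases hi : s ∈ X i
      · rw [indicator_of_mem hi, h1, zero_mul]
      · rw [indicator_of_notMem hi]
    rw [h2, h1]
    simp only [zero_div, sub_zero, norm_zero]
    positivity

/-- Tietze extension with compact support. -/
theorem exists_ext {K : Set ℂ} (hK : IsCompact K) {f : ℂ → ℂ} (hf : ContinuousOn f K) :
    ∃ F : ℂ → ℂ, Continuous F ∧ HasCompactSupport F ∧ EqOn F f K := by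
  obtain ⟨F, hF⟩ := ContinuousMap.exists_restrict_eq hK.isClosed ⟨K.domRestrict f, hf.domRestrict⟩
  obtain ⟨χ, h1, -, h3, -⟩ := exists_continuous_one_zero_of_isCompact hK isClosed_empty
    (disjoint_empty K)
  refine ⟨fun z => (χ z : ℂ) * F z, ?_, ?_, ?_⟩
  · exact (continuous_ofReal.comp χ.continuous).mul F.continuous
  · have h4 : HasCompactSupport (fun z => (χ z : ℂ)) := h3.comp_left (g := fun x : ℝ => (x : ℂ))
      (by simp)
    exact h4.mul_right
  · intro z hz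
    have h4 : F z = f z := by
      have := congrArg (fun φ => φ ⟨z, hz⟩) hF
      exact this
    have h5 : χ z = 1 := h1 hz
    simp [h4, h5]

end MM

/-- Mergelyan's theorem. -/
theorem merg (hG : Stmt_G) (hS : Stmt_Smooth) : Stmt_Mergelyan := by
  obtain ⟨C, hC, hG⟩ := hG
  obtain ⟨C', hC', hS⟩ := hS
  intro K f hK hKc hf ε hε
  obtain ⟨F, hFc, hFs, hFf⟩ := MM.exists_ext hK hf.1
  have hFd : DifferentiableOn ℂ F (interior K) :=
    hf.2.congr fun z hz => hFf (interior_subset hz)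
  set I₀ := ∫ w, MM.kern (5 * C ^ 2) (8 * (64 + 16 * C + 8 * C ^ 2)) (C + 8) w with hI
  have hI0 : 0 ≤ I₀ := integral_nonneg fun w => MM.kern_nonneg (by positivity) (by positivity) w
  set T := Real.pi⁻¹ * C' * I₀ with hT
  have hT0 : 0 ≤ T := by positivity
  have hε' : 0 < ε / (2 * (1 + T)) := by positivity
  obtain ⟨δ, hδ, hS⟩ := hS F (interior K) (ε / (2 * (1 + T))) hFc hFs isOpen_interior hFd hε'
  obtain ⟨h, hh, hhs, hh1, hh2, hh3⟩ := hS δ hδ le_rfl
  obtain ⟨G, hGp, hGa⟩ := MM.approx hC hG hK hKc hδ (hh.of_le (by simp)) hhs hh2 hh3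
  obtain ⟨p, hp⟩ := hGp (ε / 2) (by positivity)
  refine ⟨p, fun z hz => ?_⟩
  have h1 := hp z hz
  have h2 := hGa z hz
  have h3 := hh1 z
  rw [hFf hz] at h3
  have h4 : p.eval z - f z = (p.eval z - G z) - (h z - G z) + (h z - f z) := by ring
  have h5 : Real.pi⁻¹ * (C' * (ε / (2 * (1 + T)))) * I₀ + ε / (2 * (1 + T)) = ε / 2 := by
    have : Real.pi⁻¹ * (C' * (ε / (2 * (1 + T)))) * I₀ = T * (ε / (2 * (1 + T))) := by
      rw [hT]
      ring
    rw [this]
    field_simp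
    ring
  rw [h4]
  calc ‖(p.eval z - G z) - (h z - G z) + (h z - f z)‖
      ≤ ‖p.eval z - G z‖ + ‖h z - G z‖ + ‖h z - f z‖ := by
        refine (norm_add_le _ _).trans ?_
        gcongr
        exact norm_sub_le _ _
    _ < ε := by linarith

end Pool.Agent.CMerg
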