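import Pool.Agent.CMerg.Defs
import Pool.Agent.BlMat.C1

/-!
# Chordal Mergelyan theorem, module Smooth: smoothing by convolution
-/

set_option autoImplicit false

namespace Pool.Agent.CMerg

open Complex Metric Set Filter Topology MeasureTheory
open scoped ContDiff Convolution

namespace Sm

/-- The mollifier: a smooth nonnegative function of integral one supported in the unit disc. -/
noncomputable def bmp : ContDiffBump (0 : ℂ) := ⟨1 / 2, 1, by norm_num, by norm_num⟩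

noncomputable def mol (w : ℂ) : ℝ := bmp.normed volume w

theorem contDiff_mol : ContDiff ℝ ∞ mol := bmp.contDiff_normed

theorem mol_nonneg (w : ℂ) : 0 ≤ mol w := bmp.nonneg_normed w

theorem integral_mol : ∫ w, mol w = 1 := bmp.integral_normed

theorem hasCompactSupport_mol : HasCompactSupport mol := bmp.hasCompactSupport_normed

theorem mol_eq_zero {w : ℂ} (hw : 1 ≤ ‖w‖) : mol w = 0 := by
  by_contra h
  have h1 : w ∈ Function.support (bmp.normed (volume : Measure ℂ)) := h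
  rw [bmp.support_normed_eq] at h1
  have h2 : ‖w‖ < 1 := by simpa [bmp] using h1
  linarith

theorem exists_bound_mol : ∃ M : ℝ, 0 < M ∧ ∀ w, ‖fderiv ℝ mol w‖ ≤ M := by
  have h1 : Continuous (fderiv ℝ mol) :=
    contDiff_mol.continuous_fderiv (by simp)
  obtain ⟨M, hM⟩ := h1.bounded_above_of_compact_support (hasCompactSupport_mol.fderiv (𝕜 := ℝ))
  exact ⟨max M 1, by positivity, fun w => (hM w).trans (le_max_left _ _)⟩

/-- The scaled mollifier, complex valued. -/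
noncomputable def sm (δ : ℝ) (w : ℂ) : ℂ := (((δ ^ 2)⁻¹ * mol (δ⁻¹ • w) : ℝ) : ℂ)

variable {δ : ℝ}

theorem contDiff_sm (δ : ℝ) : ContDiff ℝ ∞ (sm δ) := by
  unfold sm
  refine Complex.ofRealCLM.contDiff.comp ?_
  exact contDiff_const.mul (contDiff_mol.comp (contDiff_const_smul δ⁻¹))

theorem sm_eq_zero (hδ : 0 < δ) {w : ℂ} (hw : δ ≤ ‖w‖) : sm δ w = 0 := by
  unfold sm
  rw [mol_eq_zero, mul_zero, Complex.ofReal_zero]
  rw [norm_smul, Real.norm_of_nonneg (inv_nonneg.mpr hδ.le)]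
  rwa [← div_eq_inv_mul, one_le_div hδ]

theorem hasCompactSupport_sm (hδ : 0 < δ) : HasCompactSupport (sm δ) := by
  refine HasCompactSupport.intro (isCompact_closedBall (0 : ℂ) δ) fun w hw => ?_
  rw [mem_closedBall_zero_iff, not_le] at hw
  exact sm_eq_zero hδ hw.le

theorem norm_sm (hδ : 0 < δ) (w : ℂ) : ‖sm δ w‖ = (δ ^ 2)⁻¹ * mol (δ⁻¹ • w) := by
  unfold sm
  rw [Complex.norm_real, Real.norm_of_nonneg]
  have := mol_nonneg (δ⁻¹ • w)
  positivity

theorem integral_norm_sm (hδ : 0 < δ) : ∫ w, ‖sm δ w‖ = 1 := by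
  have h1 : (fun w => ‖sm δ w‖) = fun w : ℂ => (δ ^ 2)⁻¹ * mol (δ⁻¹ • w) := by
    funext w
    exact norm_sm hδ w
  rw [h1, integral_const_mul, Measure.integral_comp_smul, integral_mol,
    Complex.finrank_real_complex, smul_eq_mul, mul_one, abs_of_nonneg (by positivity)]
  field_simp

theorem integral_sm (hδ : 0 < δ) : ∫ w, sm δ w = 1 := by
  have h1 : (fun w => sm δ w) = fun w => ((‖sm δ w‖ : ℝ) : ℂ) := by
    funext w
    rw [norm_sm hδ w]
    rfl
  rw [h1]
  have h2 : ∫ w, ((‖sm δ w‖ : ℝ) : ℂ) = ((∫ w, ‖sm δ w‖ : ℝ) : ℂ) := integral_ofReal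
  rw [h2, integral_norm_sm hδ, Complex.ofReal_one]

theorem fderiv_sm (δ : ℝ) (w v : ℂ) :
    fderiv ℝ (sm δ) w v = (((δ ^ 2)⁻¹ * (δ⁻¹ * fderiv ℝ mol (δ⁻¹ • w) v) : ℝ) : ℂ) := by
  have h1 : HasFDerivAt mol (fderiv ℝ mol (δ⁻¹ • w)) (δ⁻¹ • w) :=
    (contDiff_mol.differentiable (by simp) _).hasFDerivAt
  have h2 : HasFDerivAt (fun z : ℂ => δ⁻¹ • z) (δ⁻¹ • ContinuousLinearMap.id ℝ ℂ) w :=
    (hasFDerivAt_id w).const_smul δ⁻¹
  have h3 := (h1.comp w h2).const_mul ((δ ^ 2)⁻¹)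
  have h4 : HasFDerivAt (sm δ) _ w := (Complex.ofRealCLM.hasFDerivAt).comp w h3
  rw [h4.fderiv]
  simp

theorem norm_fderiv_sm_apply (hδ : 0 < δ) {M : ℝ} (hM : ∀ w, ‖fderiv ℝ mol w‖ ≤ M) (w v : ℂ) :
    ‖fderiv ℝ (sm δ) w v‖ ≤ M * (δ ^ 3)⁻¹ * ‖v‖ := by
  rw [fderiv_sm δ, Complex.norm_real, norm_mul, norm_mul,
    Real.norm_of_nonneg (by positivity : 0 ≤ (δ ^ 2)⁻¹),
    Real.norm_of_nonneg (by positivity : 0 ≤ δ⁻¹)]
  have h1 := (fderiv ℝ mol (δ⁻¹ • w)).le_opNorm v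
  have h2 := hM (δ⁻¹ • w)
  have h3 : (δ ^ 3)⁻¹ = (δ ^ 2)⁻¹ * δ⁻¹ := by
    rw [pow_succ δ 2, mul_inv]
  calc (δ ^ 2)⁻¹ * (δ⁻¹ * ‖fderiv ℝ mol (δ⁻¹ • w) v‖)
      ≤ (δ ^ 2)⁻¹ * (δ⁻¹ * (M * ‖v‖)) := by
        gcongr
        exact h1.trans (by gcongr)
    _ = M * (δ ^ 3)⁻¹ * ‖v‖ := by rw [h3]; ring

theorem norm_dzb_sm (hδ : 0 < δ) {M : ℝ} (hM : ∀ w, ‖fderiv ℝ mol w‖ ≤ M) (w : ℂ) :
    ‖dzb (sm δ) w‖ ≤ M * (δ ^ 3)⁻¹ := by
  show ‖(fderiv ℝ (sm δ) w 1 + I * fderiv ℝ (sm δ) w I) / 2‖ ≤ _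
  have h1 := norm_fderiv_sm_apply hδ hM w 1
  have h2 := norm_fderiv_sm_apply hδ hM w I
  rw [norm_one, mul_one] at h1
  rw [Complex.norm_I, mul_one] at h2
  rw [norm_div, Complex.norm_ofNat]
  have h3 : ‖fderiv ℝ (sm δ) w 1 + I * fderiv ℝ (sm δ) w I‖ ≤
      ‖fderiv ℝ (sm δ) w 1‖ + ‖fderiv ℝ (sm δ) w I‖ := by
    refine (norm_add_le _ _).trans ?_
    rw [norm_mul, Complex.norm_I, one_mul]
  linarith

theorem fderiv_sm_eq_zero (hδ : 0 < δ) {w : ℂ} (hw : δ < ‖w‖) : fderiv ℝ (sm δ) w = 0 := by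
  have h1 : sm δ =ᶠ[𝓝 w] fun _ => (0 : ℂ) := by
    have h2 : {z : ℂ | δ < ‖z‖} ∈ 𝓝 w := (isOpen_lt continuous_const continuous_norm).mem_nhds hw
    filter_upwards [h2] with z hz
    exact sm_eq_zero hδ hz.le
  rw [h1.fderiv_eq]
  simp

theorem dzb_sm_eq_zero (hδ : 0 < δ) {w : ℂ} (hw : δ < ‖w‖) : dzb (sm δ) w = 0 := by
  show (fderiv ℝ (sm δ) w 1 + I * fderiv ℝ (sm δ) w I) / 2 = 0
  rw [fderiv_sm_eq_zero hδ hw]
  simp

theorem continuous_fderiv_sm (δ : ℝ) (v : ℂ) : Continuous fun w => fderiv ℝ (sm δ) w v :=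
  ((contDiff_sm δ).continuous_fderiv (by simp)).clm_apply continuous_const

theorem continuous_dzb_sm (δ : ℝ) : Continuous (dzb (sm δ)) := by
  show Continuous fun w => (fderiv ℝ (sm δ) w 1 + I * fderiv ℝ (sm δ) w I) / 2
  exact ((continuous_fderiv_sm δ 1).add (continuous_const.mul (continuous_fderiv_sm δ I))).div_const _

/-- the integral of the Wirtinger derivative of a compactly supported function vanishes -/
theorem integral_dzb {v : ℂ → ℂ} (hv : ContDiff ℝ 1 v) (hs : HasCompactSupport v) :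
    ∫ w, dzb v w = 0 := by
  show ∫ w, (fderiv ℝ v w 1 + I * fderiv ℝ v w I) / 2 = 0
  have h1 : ∀ h : ℂ, Integrable fun w => fderiv ℝ v w h := fun h =>
    ((hv.continuous_fderiv one_ne_zero).clm_apply continuous_const).integrable_of_hasCompactSupport
      (hs.fderiv_apply ℝ h)
  rw [integral_div, integral_add (h1 1) ((h1 I).const_mul I), integral_const_mul,
    Pool.Agent.BlMat.C1.integral_fderiv_eq_zero hv hs,
    Pool.Agent.BlMat.C1.integral_fderiv_eq_zero hv hs]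
  simp

/-- the smoothing of `f` -/
noncomputable def smo (f : ℂ → ℂ) (δ : ℝ) : ℂ → ℂ :=
  f ⋆[ContinuousLinearMap.mul ℝ ℂ, volume] sm δ

variable {f : ℂ → ℂ}

theorem smo_apply (f : ℂ → ℂ) (δ : ℝ) (z : ℂ) : smo f δ z = ∫ t, f t * sm δ (z - t) := rfl

theorem smo_apply' (f : ℂ → ℂ) (δ : ℝ) (z : ℂ) : smo f δ z = ∫ s, f (z - s) * sm δ s := by
  rw [smo_apply, ← integral_sub_left_eq_self (fun s => f s * sm δ (z - s)) volume z]
  simp

theorem contDiff_smo (hf : Continuous f) (hδ : 0 < δ) : ContDiff ℝ ∞ (smo f δ) :=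
  (hasCompactSupport_sm hδ).contDiff_convolution_right _ hf.locallyIntegrable (contDiff_sm δ)

theorem hasCompactSupport_smo (hs : HasCompactSupport f) (hδ : 0 < δ) :
    HasCompactSupport (smo f δ) := by
  unfold smo
  exact HasCompactSupport.convolution (L := ContinuousLinearMap.mul ℝ ℂ)
    (hcf := hs) (hcg := hasCompactSupport_sm hδ)

theorem integrable_aux {f g : ℂ → ℂ} (hf : Continuous f) (hg : Continuous g)
    (hs : HasCompactSupport g) (z : ℂ) : Integrable fun s => f (z - s) * g s := by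
  refine Continuous.integrable_of_hasCompactSupport ?_ hs.mul_left
  exact (hf.comp (continuous_const.sub continuous_id)).mul hg

theorem fderiv_smo (hf : Continuous f) (hs : HasCompactSupport f) (hδ : 0 < δ) (z v : ℂ) :
    fderiv ℝ (smo f δ) z v = ∫ s, f (z - s) * fderiv ℝ (sm δ) s v := by
  have h1 := (hasCompactSupport_sm hδ).hasFDerivAt_convolution_right
    (ContinuousLinearMap.mul ℝ ℂ) (μ := volume) hf.locallyIntegrable
    ((contDiff_sm δ).of_le (by exact_mod_cast le_top)) z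
  have h2 : fderiv ℝ (smo f δ) z = _ := h1.fderiv
  rw [h2]
  have h3 : Integrable fun t => ((ContinuousLinearMap.mul ℝ ℂ).precompR ℂ) (f t)
      (fderiv ℝ (sm δ) (z - t)) := by
    refine Continuous.integrable_of_hasCompactSupport ?_ ?_
    · refine ((ContinuousLinearMap.continuous _).comp hf).clm_apply ?_
      exact ((contDiff_sm δ).continuous_fderiv (by simp)).comp (continuous_const.sub continuous_id)
    · refine hs.mono' ?_
      intro t ht
      refine subset_tsupport _ ?_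
      intro h
      apply ht
      show ((ContinuousLinearMap.mul ℝ ℂ).precompR ℂ) (f t) (fderiv ℝ (sm δ) (z - t)) = 0
      rw [h]
      simp
  show (∫ t, ((ContinuousLinearMap.mul ℝ ℂ).precompR ℂ) (f t) (fderiv ℝ (sm δ) (z - t))) v = _
  rw [ContinuousLinearMap.integral_apply h3]
  have h4 : ∀ t, (((ContinuousLinearMap.mul ℝ ℂ).precompR ℂ) (f t)
      (fderiv ℝ (sm δ) (z - t))) v = f t * fderiv ℝ (sm δ) (z - t) v := by
    intro t
    rfl
  simp_rw [h4]
  rw [← integral_sub_left_eq_self (fun s => f s * fderiv ℝ (sm δ) (z - s) v) volume z]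
  simp

theorem dzb_smo (hf : Continuous f) (hs : HasCompactSupport f) (hδ : 0 < δ) (z : ℂ) :
    dzb (smo f δ) z = ∫ s, f (z - s) * dzb (sm δ) s := by
  show (fderiv ℝ (smo f δ) z 1 + I * fderiv ℝ (smo f δ) z I) / 2 =
    ∫ s, f (z - s) * ((fderiv ℝ (sm δ) s 1 + I * fderiv ℝ (sm δ) s I) / 2)
  rw [fderiv_smo hf hs hδ, fderiv_smo hf hs hδ]
  have h1 : ∀ v : ℂ, Integrable fun s => f (z - s) * fderiv ℝ (sm δ) s v := fun v =>
    integrable_aux hf (continuous_fderiv_sm δ v) ((hasCompactSupport_sm hδ).fderiv_apply ℝ v) z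
  rw [← integral_const_mul, ← integral_add (h1 1) ((h1 I).const_mul I), ← integral_div]
  congr 1
  funext s
  ring

/-- the closeness to `f` -/
theorem norm_smo_sub_le (hf : Continuous f) (hδ : 0 < δ) {ε : ℝ}
    (hε : ∀ z s : ℂ, ‖s‖ ≤ δ → ‖f (z - s) - f z‖ ≤ ε) (z : ℂ) : ‖smo f δ z - f z‖ ≤ ε := by
  have hi : Integrable (sm δ) :=
    (contDiff_sm δ).continuous.integrable_of_hasCompactSupport (hasCompactSupport_sm hδ)
  have h1 : smo f δ z - f z = ∫ s, (f (z - s) - f z) * sm δ s := by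
    have h2 : ∫ s, f z * sm δ s = f z := by
      rw [integral_const_mul, integral_sm hδ, mul_one]
    have h3 := integrable_aux hf (contDiff_sm δ).continuous (hasCompactSupport_sm hδ) z
    have h4 : Integrable fun s => f z * sm δ s := hi.const_mul _
    have h5 : ∫ s, (f (z - s) - f z) * sm δ s =
        ∫ s, (f (z - s) * sm δ s - f z * sm δ s) := by
      congr 1
      funext s
      ring
    rw [smo_apply', h5, integral_sub h3 h4, h2]
  rw [h1]
  have h5 : ∀ s, ‖(f (z - s) - f z) * sm δ s‖ ≤ ε * ‖sm δ s‖ := by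
    intro s
    rw [norm_mul]
    by_cases hsd : ‖s‖ ≤ δ
    · gcongr
      exact hε z s hsd
    · rw [sm_eq_zero hδ (not_le.mp hsd).le]
      simp
  calc ‖∫ s, (f (z - s) - f z) * sm δ s‖ ≤ ∫ s, ε * ‖sm δ s‖ :=
        norm_integral_le_of_norm_le (hi.norm.const_mul ε) (Eventually.of_forall h5)
    _ = ε := by rw [integral_const_mul, integral_norm_sm hδ, mul_one]

/-- the bound of the Wirtinger derivative -/
theorem norm_dzb_smo_le (hf : Continuous f) (hs : HasCompactSupport f) (hδ : 0 < δ) {ε M : ℝ}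
    (hM : ∀ w, ‖fderiv ℝ mol w‖ ≤ M) (hε0 : 0 ≤ ε)
    (hε : ∀ z s : ℂ, ‖s‖ ≤ δ → ‖f (z - s) - f z‖ ≤ ε) (z : ℂ) :
    ‖dzb (smo f δ) z‖ ≤ Real.pi * M * ε / δ := by
  have hM0 : 0 ≤ M := (norm_nonneg _).trans (hM 0)
  have hcd : HasCompactSupport (dzb (sm δ)) := by
    refine HasCompactSupport.intro (isCompact_closedBall (0 : ℂ) δ) fun w hw => ?_
    rw [mem_closedBall_zero_iff, not_le] at hw
    exact dzb_sm_eq_zero hδ hw
  have hi : Integrable (dzb (sm δ)) :=
    (continuous_dzb_sm δ).integrable_of_hasCompactSupport hcd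
  have h1 : dzb (smo f δ) z = ∫ s, (f (z - s) - f z) * dzb (sm δ) s := by
    have h2 : ∫ s, f z * dzb (sm δ) s = 0 := by
      rw [integral_const_mul, integral_dzb ((contDiff_sm δ).of_le (by exact_mod_cast le_top))
        (hasCompactSupport_sm hδ), mul_zero]
    have h3 := integrable_aux hf (continuous_dzb_sm δ) hcd z
    have h4 : Integrable fun s => f z * dzb (sm δ) s := hi.const_mul _
    rw [dzb_smo hf hs hδ, ← sub_zero (∫ s, f (z - s) * dzb (sm δ) s), ← h2, ← integral_sub h3 h4]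
    congr 1
    funext s
    ring
  have h6 : ∀ s, s ∉ closedBall (0 : ℂ) δ → (f (z - s) - f z) * dzb (sm δ) s = 0 := by
    intro s hsd
    rw [mem_closedBall_zero_iff, not_le] at hsd
    rw [dzb_sm_eq_zero hδ hsd, mul_zero]
  rw [h1, ← setIntegral_eq_integral_of_forall_compl_eq_zero h6]
  have h7 : ∀ s ∈ closedBall (0 : ℂ) δ,
      ‖(f (z - s) - f z) * dzb (sm δ) s‖ ≤ ε * (M * (δ ^ 3)⁻¹) := by
    intro s hsd
    rw [mem_closedBall_zero_iff] at hsd
    rw [norm_mul]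
    exact mul_le_mul (hε z s hsd) (norm_dzb_sm hδ hM s) (norm_nonneg _) hε0
  have h8 := norm_setIntegral_le_of_norm_le_const
    (measure_closedBall_lt_top (μ := (volume : Measure ℂ)) (x := (0 : ℂ)) (r := δ)) h7
  refine h8.trans (le_of_eq ?_)
  rw [measureReal_def, Complex.volume_closedBall, ENNReal.toReal_mul, ENNReal.toReal_pow,
    ENNReal.toReal_ofReal hδ.le]
  have h9 : ((NNReal.pi : NNReal) : ENNReal).toReal = Real.pi := rfl
  rw [h9]
  field_simp

/-- the smoothing is holomorphic where `f` is -/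
theorem dzb_smo_eq_zero {U : Set ℂ} (hf : Continuous f) (hs : HasCompactSupport f)
    (hU : IsOpen U) (hfU : DifferentiableOn ℂ f U) (hδ : 0 < δ) {z : ℂ}
    (hz : closedBall z δ ⊆ U) : dzb (smo f δ) z = 0 := by
  rw [dzb_smo hf hs hδ]
  have hin : ∀ s : ℂ, ‖s‖ ≤ δ → z - s ∈ U := by
    intro s hsd
    apply hz
    rw [mem_closedBall, dist_eq_norm]
    simpa using hsd
  have hzero : ∀ s : ℂ, δ < ‖s‖ → (fun s => f (z - s) * sm δ s) =ᶠ[𝓝 s] fun _ => (0 : ℂ) := by
    intro s hsd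
    have h2 : {w : ℂ | δ < ‖w‖} ∈ 𝓝 s := (isOpen_lt continuous_const continuous_norm).mem_nhds hsd
    filter_upwards [h2] with w hw
    rw [sm_eq_zero hδ hw.le, mul_zero]
  have hG : ContDiff ℝ 1 fun s => f (z - s) * sm δ s := by
    rw [contDiff_iff_contDiffAt]
    intro s
    by_cases hsd : ‖s‖ ≤ δ
    · have h1 : ContDiffAt ℂ 1 f (z - s) :=
        (hfU.analyticAt (hU.mem_nhds (hin s hsd))).contDiffAt
      have h2 : ContDiffAt ℝ 1 f (z - s) := h1.restrict_scalars ℝ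
      have h3 : ContDiffAt ℝ 1 (fun s => f (z - s)) s :=
        h2.comp s (contDiffAt_const.sub contDiffAt_id)
      exact h3.mul ((contDiff_sm δ).of_le (by exact_mod_cast le_top)).contDiffAt
    · exact (contDiffAt_const (c := (0 : ℂ))).congr_of_eventuallyEq (hzero s (not_le.mp hsd))
  have hGs : HasCompactSupport fun s => f (z - s) * sm δ s :=
    HasCompactSupport.mul_left (hasCompactSupport_sm hδ)
  rw [← integral_dzb hG hGs]
  congr 1
  funext s
  by_cases hsd : ‖s‖ ≤ δ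
  · have h1 : DifferentiableAt ℂ f (z - s) := hfU.differentiableAt (hU.mem_nhds (hin s hsd))
    have h2 : HasFDerivAt f ((fderiv ℂ f (z - s)).restrictScalars ℝ) (z - s) :=
      h1.hasFDerivAt.restrictScalars ℝ
    have h3 : HasFDerivAt (fun s : ℂ => z - s) (-ContinuousLinearMap.id ℝ ℂ) s :=
      (hasFDerivAt_id s).const_sub z
    have h4 := h2.comp s h3
    have h5 : HasFDerivAt (sm δ) (fderiv ℝ (sm δ) s) s :=
      ((contDiff_sm δ).differentiable (by simp) s).hasFDerivAt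
    have h6 := h4.mul h5
    have h7 : fderiv ℝ (fun s => f (z - s) * sm δ s) s = _ := h6.fderiv
    show f (z - s) * ((fderiv ℝ (sm δ) s 1 + I * fderiv ℝ (sm δ) s I) / 2) =
      (fderiv ℝ (fun s => f (z - s) * sm δ s) s 1 +
        I * fderiv ℝ (fun s => f (z - s) * sm δ s) s I) / 2
    rw [h7]
    have h8 : fderiv ℂ f (z - s) I = I * fderiv ℂ f (z - s) 1 := by
      have := (fderiv ℂ f (z - s)).map_smul I 1
      simpa using this
    simp only [add_apply, smul_apply,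
      ContinuousLinearMap.comp_apply, neg_apply,
      ContinuousLinearMap.id_apply, ContinuousLinearMap.coe_restrictScalars', map_neg,
      Function.comp_apply, smul_eq_mul, h8]
    linear_combination (sm δ s) * (fderiv ℂ f (z - s) 1) / 2 * Complex.I_sq
  · have h1 := (hzero s (not_le.mp hsd)).fderiv_eq (𝕜 := ℝ)
    rw [dzb_sm_eq_zero hδ (not_le.mp hsd), mul_zero]
    show 0 = (fderiv ℝ (fun s => f (z - s) * sm δ s) s 1 +
        I * fderiv ℝ (fun s => f (z - s) * sm δ s) s I) / 2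
    rw [h1]
    simp

end Sm

open Sm in
/-- **Smoothing.** -/
theorem smooth : Stmt_Smooth := by
  obtain ⟨M, hM0, hM⟩ := exists_bound_mol
  refine ⟨Real.pi * M, by positivity, ?_⟩
  intro f U ε hf hs hU hfU hε
  have huc : UniformContinuous f := hf.uniformContinuous_of_tendsto_cocompact
    (x := 0) (hs.is_zero_at_infty)
  obtain ⟨δ₀, hδ₀, h⟩ := Metric.uniformContinuous_iff.mp huc ε hε
  refine ⟨δ₀ / 2, by positivity, fun δ hδ hδ' => ?_⟩
  have hosc : ∀ z s : ℂ, ‖s‖ ≤ δ → ‖f (z - s) - f z‖ ≤ ε := by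
    intro z s hsd
    have h1 : dist (z - s) z < δ₀ := by
      rw [dist_eq_norm]
      have : z - s - z = -s := by ring
      rw [this, norm_neg]
      linarith
    have h2 := h h1
    rw [dist_eq_norm] at h2
    exact h2.le
  refine ⟨smo f δ, contDiff_smo hf hδ, hasCompactSupport_smo hs hδ,
    fun z => norm_smo_sub_le hf hδ hosc z,
    fun z => norm_dzb_smo_le hf hs hδ hM hε.le hosc z,
    fun z hz => dzb_smo_eq_zero hf hs hU hfU hδ hz⟩

end Pool.Agent.CMerg
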