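import Pool.Agent.CMerg.Defs
import Pool.Agent.BlMat.Basic

set_option autoImplicit false

/-!
# Chordal Mergelyan theorem, Step 7: almost holomorphic cut-offs
-/

namespace Pool.Agent.CMerg

open Complex Metric Set Filter Topology MeasureTheory
open scoped ContDiff

namespace AHCaux

theorem closed_le {Z : Set ℂ} {lam : ℂ → ℝ} (hZ : IsCompact Z) (hl : ContinuousOn lam Z) (a : ℝ) :
    IsClosed {z | z ∈ Z ∧ lam z ≤ a} := by
  have h := hl.preimage_isClosed_of_isClosed hZ.isClosed (isClosed_Iic (a := a))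
  exact h

theorem closed_ge {Z : Set ℂ} {lam : ℂ → ℝ} (hZ : IsCompact Z) (hl : ContinuousOn lam Z) (a : ℝ) :
    IsClosed {z | z ∈ Z ∧ a ≤ lam z} := by
  have h := hl.preimage_isClosed_of_isClosed hZ.isClosed (isClosed_Ici (a := a))
  exact h

/-- Smooth cut-offs. -/
theorem cut {Z : Set ℂ} {lam : ℂ → ℝ} (hZ : IsCompact Z) (hl : ContinuousOn lam Z) {a b : ℝ}
    (hab : a < b) :
    ∃ s : ℂ → ℝ, ContDiff ℝ ∞ s ∧ (∀ z, 0 ≤ s z ∧ s z ≤ 1) ∧ (∀ z ∈ Z, lam z ≤ a → s z = 0) ∧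
      (∀ z ∈ Z, b ≤ lam z → s z = 1) ∧
      ∃ M : ℝ, 0 < M ∧ ∀ z ∈ Z, ‖dzb (fun z => (s z : ℂ)) z‖ ≤ M := by
  have hd : Disjoint {z | z ∈ Z ∧ lam z ≤ a} {z | z ∈ Z ∧ b ≤ lam z} := by
    rw [Set.disjoint_left]
    rintro z ⟨_, h1⟩ ⟨_, h2⟩
    linarith
  obtain ⟨f, h0, h1, h01⟩ := exists_contMDiffMap_zero_one_of_isClosed (n := (⊤ : ℕ∞))
    (modelWithCornersSelf ℝ ℂ)
    (closed_le hZ hl a) (closed_ge hZ hl b) hd
  have hs : ContDiff ℝ ∞ (f : ℂ → ℝ) := f.contMDiff.contDiff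
  have hs' : ContDiff ℝ 1 (fun z => ((f z : ℝ) : ℂ)) := by
    have h2 : ContDiff ℝ 1 (f : ℂ → ℝ) := hs.of_le (by exact_mod_cast le_top)
    exact Complex.ofRealCLM.contDiff.comp h2
  refine ⟨f, hs, fun z => ⟨(h01 z).1, (h01 z).2⟩, fun z hz h => h0 ⟨hz, h⟩, fun z hz h => h1 ⟨hz, h⟩, ?_⟩
  have hc : Continuous (dzb (fun z => ((f z : ℝ) : ℂ))) := Pool.Agent.BlMat.continuous_dzb hs'
  obtain ⟨M, hM⟩ := hZ.exists_bound_of_continuousOn hc.continuousOn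
  exact ⟨|M| + 1, by positivity, fun z hz => (hM z hz).trans (by linarith [le_abs_self M])⟩

/-- The Wirtinger derivative of a `[0,1]`-valued function vanishes where its value is `0`. -/
theorem dzb_zero {s : ℂ → ℝ} (h01 : ∀ z, 0 ≤ s z ∧ s z ≤ 1) (hs : Differentiable ℝ s) {z : ℂ}
    (hz : s z = 0 ∨ s z = 1) : dzb (fun z => (s z : ℂ)) z = 0 := by
  have h1 : fderiv ℝ s z = 0 := by
    rcases hz with hz | hz
    · exact IsLocalMin.fderiv_eq_zero (Filter.Eventually.of_forall fun w => by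
        rw [hz]; exact (h01 w).1)
    · exact IsLocalMax.fderiv_eq_zero (Filter.Eventually.of_forall fun w => by
        rw [hz]; exact (h01 w).2)
  have h2 : HasFDerivAt (fun z => (s z : ℂ)) (Complex.ofRealCLM.comp (fderiv ℝ s z)) z :=
    Complex.ofRealCLM.hasFDerivAt.comp z (hs z).hasFDerivAt
  show Pool.Agent.BlMat.dzb _ z = 0
  rw [Pool.Agent.BlMat.dzb, h2.fderiv, h1]
  simp

/-- The sigmoid `1 / (1 + exp (-q))`. -/
noncomputable def sig (q : ℂ) : ℂ := 1 / (1 + Complex.exp (-q))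

theorem exp_re_nonneg {q : ℂ} (h : |q.im| ≤ 1) :
    0 ≤ (Complex.exp (-q)).re ∧ ∀ θ : ℝ, |q.im| ≤ θ / 2 →
      |(Complex.exp (-q)).im| ≤ θ * (Complex.exp (-q)).re := by
  have hcos : 1 / 2 ≤ Real.cos (-q).im := by
    have h1 := Real.one_sub_sq_div_two_le_cos (x := (-q).im)
    have h2 : (-q).im ^ 2 ≤ 1 := by
      rw [neg_im, neg_sq, ← sq_abs]
      nlinarith [abs_nonneg q.im]
    linarith
  have he := Real.exp_pos (-q).re
  rw [Complex.exp_re, Complex.exp_im]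
  constructor
  · positivity
  intro θ hθ
  have hsin : |Real.sin (-q).im| ≤ θ * Real.cos (-q).im := by
    have h1 : |Real.sin (-q).im| ≤ |(-q).im| := Real.abs_sin_le_abs
    rw [neg_im, abs_neg] at h1
    have h3 : 0 ≤ θ := by linarith [abs_nonneg q.im]
    rw [neg_im] at hcos ⊢
    nlinarith
  rw [abs_mul, abs_of_pos he]
  nlinarith

theorem one_add_ne {w : ℂ} (h : 0 ≤ w.re) : 1 + w ≠ 0 := by
  intro h0
  have := congrArg Complex.re h0
  simp at this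
  linarith

theorem re_inv_one_add {w : ℂ} (h : 0 ≤ w.re) :
    0 ≤ (1 / (1 + w)).re ∧ (1 / (1 + w)).re ≤ 1 ∧ ∀ θ : ℝ, 0 ≤ θ → |w.im| ≤ θ * w.re →
      |(1 / (1 + w)).im| ≤ θ * (1 / (1 + w)).re := by
  have hn : 0 < normSq (1 + w) := normSq_pos.mpr (one_add_ne h)
  have hre : (1 / (1 + w)).re = (1 + w.re) / normSq (1 + w) := by
    rw [one_div, inv_re]; simp
  have him : (1 / (1 + w)).im = -w.im / normSq (1 + w) := by
    rw [one_div, inv_im]; simp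
  rw [hre, him]
  refine ⟨by positivity, ?_, ?_⟩
  · rw [div_le_one hn, normSq_apply]
    simp
    nlinarith [mul_self_nonneg w.im]
  · intro θ hθ hw
    rw [abs_div, abs_neg, abs_of_pos hn, ← mul_div_assoc]
    gcongr
    nlinarith

theorem norm_inv_one_add {w : ℂ} (h : 0 ≤ w.re) (h0 : w ≠ 0) : ‖1 / (1 + w)‖ ≤ ‖w‖⁻¹ := by
  have hw : 0 < ‖w‖ := norm_pos_iff.mpr h0
  rw [norm_div, norm_one, one_div]
  apply inv_anti₀ hw
  rw [← sq_le_sq₀ hw.le (norm_nonneg _), ← Complex.normSq_eq_norm_sq, ← Complex.normSq_eq_norm_sq,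
    normSq_apply, normSq_apply]
  simp
  nlinarith

theorem sig_one_sub {q : ℂ} (h : |q.im| ≤ 1) : 1 - sig q = sig (-q) := by
  have h1 : (1 : ℂ) + Complex.exp (-q) ≠ 0 := one_add_ne (exp_re_nonneg h).1
  have h2 : (1 : ℂ) + Complex.exp q ≠ 0 := by
    have := one_add_ne (exp_re_nonneg (q := -q) (by simpa using h)).1
    simpa using this
  have h3 := Complex.exp_ne_zero q
  rw [sig, sig, neg_neg]
  rw [sub_eq_iff_eq_add, div_add_div _ _ h2 h1, eq_div_iff (mul_ne_zero h2 h1)]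
  rw [Complex.exp_neg]
  field_simp
  ring

theorem sig_norm {q : ℂ} (h : |q.im| ≤ 1) : ‖sig q‖ ≤ Real.exp q.re := by
  have := norm_inv_one_add (exp_re_nonneg h).1 (Complex.exp_ne_zero _)
  rw [Complex.norm_exp, neg_re, ← Real.exp_neg, neg_neg] at this
  exact this

theorem sig_re {q : ℂ} (h : |q.im| ≤ 1) :
    0 ≤ (sig q).re ∧ (sig q).re ≤ 1 ∧ ∀ θ : ℝ, 0 ≤ θ → |q.im| ≤ θ / 2 →
      |(sig q).im| ≤ θ * (sig q).re := by
  obtain ⟨h1, h2⟩ := exp_re_nonneg h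
  obtain ⟨h3, h4, h5⟩ := re_inv_one_add h1
  exact ⟨h3, h4, fun θ hθ hq => h5 θ hθ (h2 θ hq)⟩

theorem sig_cont {X : Set ℂ} {q : ℂ → ℂ} (hq : ContinuousOn q X) (h : ∀ z ∈ X, |(q z).im| ≤ 1) :
    ContinuousOn (fun z => sig (q z)) X := by
  unfold sig
  apply ContinuousOn.div continuousOn_const
  · exact continuousOn_const.add (Complex.continuous_exp.comp_continuousOn hq.neg)
  · exact fun z hz => one_add_ne (exp_re_nonneg (h z hz)).1

theorem sig_diff {X : Set ℂ} {q : ℂ → ℂ} (hq : DifferentiableOn ℂ q X)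
    (h : ∀ z ∈ X, |(q z).im| ≤ 1) : DifferentiableOn ℂ (fun z => sig (q z)) X := by
  unfold sig
  apply DifferentiableOn.div (differentiableOn_const _)
  · exact (differentiableOn_const _).add hq.neg.cexp
  · exact fun z hz => one_add_ne (exp_re_nonneg (h z hz)).1

theorem two_le_infty : (2 : WithTop ℕ∞) ≤ ∞ := WithTop.coe_le_coe.mpr le_top

theorem ofReal_contDiff {s : ℂ → ℝ} (hs : ContDiff ℝ ∞ s) :
    ContDiff ℝ ∞ (fun z => ((s z : ℝ) : ℂ)) :=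
  Complex.ofRealCLM.contDiff.comp hs

/-- The scaled cut-off is almost holomorphic. -/
theorem ahol_scaled {P Z : Set ℂ} {χ : ℂ → ℝ} {M K : ℝ} (hPZ : P ⊆ Z) (hs : ContDiff ℝ ∞ χ)
    (hM : ∀ z ∈ Z, ‖dzb (fun z => (χ z : ℂ)) z‖ ≤ M) (hK : 0 ≤ K) :
    AHol P (fun z => (K : ℂ) * (χ z : ℂ)) (K * M) := by
  have h1 := ofReal_contDiff hs
  have h2 : ContDiff ℝ ∞ (fun z => (K : ℂ) * (χ z : ℂ)) := contDiff_const.mul h1
  refine ⟨h2.continuous.continuousOn, (h2.of_le two_le_infty).contDiffOn, ?_⟩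
  intro z hz
  have hd : DifferentiableAt ℝ (fun z => ((χ z : ℝ) : ℂ)) z :=
    (h1.differentiable (by simp)) z
  have h3 := (Pool.Agent.BlMat.dz_mul (F := fun _ => (K : ℂ)) (G := fun z => (χ z : ℂ)) (z := z)
    (differentiableAt_const _) hd).2
  rw [(Pool.Agent.BlMat.dz_const (K : ℂ) z).2, zero_mul, add_zero] at h3
  show ‖Pool.Agent.BlMat.dzb (fun z => (K : ℂ) * (χ z : ℂ)) z‖ ≤ K * M
  rw [h3, norm_mul, Complex.norm_real, Real.norm_of_nonneg hK]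
  exact mul_le_mul_of_nonneg_left (hM z (hPZ (interior_subset hz))) hK

/-- The Wirtinger derivative of the combination of two cut-offs and a holomorphic function. -/
theorem dzb_comb {s₁ s₂ : ℂ → ℝ} {t : ℂ → ℂ} {z : ℂ} (h₁ : ContDiff ℝ ∞ s₁) (h₂ : ContDiff ℝ ∞ s₂)
    (ht : DifferentiableAt ℂ t z) :
    dzb (fun z => (s₁ z : ℂ) * (1 - (s₂ z : ℂ)) * t z + (s₂ z : ℂ)) z =
      (1 - (s₂ z : ℂ)) * t z * dzb (fun z => (s₁ z : ℂ)) z
        + (1 - (s₁ z : ℂ) * t z) * dzb (fun z => (s₂ z : ℂ)) z := by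
  have d₁ : DifferentiableAt ℝ (fun z => ((s₁ z : ℝ) : ℂ)) z :=
    ((ofReal_contDiff h₁).differentiable (by simp)) z
  have d₂ : DifferentiableAt ℝ (fun z => ((s₂ z : ℝ) : ℂ)) z :=
    ((ofReal_contDiff h₂).differentiable (by simp)) z
  have dt : DifferentiableAt ℝ t z := ht.restrictScalars ℝ
  have d₃ : DifferentiableAt ℝ (fun z => (1 : ℂ) - ((s₂ z : ℝ) : ℂ)) z :=
    (differentiableAt_const _).sub d₂
  have d₄ : DifferentiableAt ℝ (fun z => ((s₁ z : ℝ) : ℂ) * ((1 : ℂ) - ((s₂ z : ℝ) : ℂ))) z :=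
    d₁.mul d₃
  have e₁ := (Pool.Agent.BlMat.dz_add (d₄.mul dt) d₂).2
  have e₂ := (Pool.Agent.BlMat.dz_mul d₄ dt).2
  have e₃ := (Pool.Agent.BlMat.dz_mul d₁ d₃).2
  have e₄ := (Pool.Agent.BlMat.dz_sub (differentiableAt_const (1 : ℂ)) d₂).2
  have e₅ := (Pool.Agent.BlMat.dz_const 1 z).2
  have e₆ := (Pool.Agent.BlMat.dzb_eq_zero_of_differentiableAt ht).1
  simp only [dzb]
  simp only [Pi.mul_apply] at e₁
  have e₁' : Pool.Agent.BlMat.dzb
      (fun z => (s₁ z : ℂ) * (1 - (s₂ z : ℂ)) * t z + (s₂ z : ℂ)) z = _ := e₁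
  rw [e₁']
  have e₂' : Pool.Agent.BlMat.dzb
      ((fun z => ((s₁ z : ℝ) : ℂ) * ((1 : ℂ) - ((s₂ z : ℝ) : ℂ))) * t) z = _ := e₂
  rw [e₂', e₃, e₄, e₅, e₆]
  ring

end AHCaux

open AHCaux in
theorem ahc (hC : Stmt_Corr) : Stmt_AHC := by
  obtain ⟨C, hC0, hC⟩ := hC
  intro Z lam l₀ l₃ θ hZ hl h03 hθ
  obtain ⟨l₁, l₂, h01, h12, h23⟩ : ∃ l₁ l₂ : ℝ, l₀ < l₁ ∧ l₁ < l₂ ∧ l₂ < l₃ :=
    ⟨l₀ + (l₃ - l₀) / 3, l₀ + 2 * (l₃ - l₀) / 3, by linarith, by linarith, by linarith⟩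
  obtain ⟨χ, χs, χ01, χ0, χ1, M₁, hM₁, χM⟩ := cut hZ hl h12
  obtain ⟨s₁, s₁s, s₁01, s₁0, s₁1, M₂, hM₂, s₁M⟩ := cut hZ hl h01
  obtain ⟨s₂, s₂s, s₂01, s₂0, s₂1, M₃, hM₃, s₂M⟩ := cut hZ hl h23
  obtain ⟨s, ss, s01, s0, s1, M₄, hM₄, sM⟩ := cut hZ hl h03
  obtain ⟨τ, hτ, hτ1, hτθ⟩ : ∃ τ : ℝ, 0 < τ ∧ τ ≤ 1 ∧ τ ≤ θ / 2 :=
    ⟨min 1 (θ / 2), by positivity, min_le_left _ _, min_le_right _ _⟩
  refine ⟨τ / (2 * C * M₁), Real.exp 1 * (M₂ + M₃) + M₄, by positivity, by positivity,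
    ⟨s, ss, s01, s0, s1, fun z hz => (sM z hz).trans ?_⟩, ?_⟩
  · have := Real.exp_pos 1
    nlinarith [mul_pos this hM₂, mul_pos this hM₃]
  intro P α hP hα hvol
  obtain ⟨hPZ, hPc, -⟩ := hP
  have hPcomp : IsCompact P := hZ.of_isClosed_subset hPc hPZ
  have hsα : 0 < √α := Real.sqrt_pos.mpr hα
  obtain ⟨K, hKdef⟩ : ∃ K : ℝ, K = τ / (C * M₁ * √α) := ⟨_, rfl⟩
  have hK : 0 < K := by rw [hKdef]; positivity
  have hKτ : C * (K * M₁) * √α = τ := by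
    rw [hKdef]
    field_simp
  have hexp : -(τ / (2 * C * M₁)) / √α = -(K / 2) := by
    rw [hKdef]
    field_simp
  obtain ⟨p, ⟨hpc, hpd⟩, hp⟩ := hC P (fun z => (K : ℂ) * (χ z : ℂ)) (K * M₁) α hPcomp
    (ahol_scaled hPZ χs χM hK.le) (by positivity) hα.le hvol
  simp only [hKτ] at hp
  obtain ⟨q, hq⟩ : ∃ q : ℂ → ℂ, ∀ z, q z = p z - (K / 2 : ℝ) := ⟨fun z => p z - (K / 2 : ℝ), fun z => rfl⟩
  have hqe : q = fun z => p z - (K / 2 : ℝ) := funext hq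
  have hqim : ∀ z ∈ P, |(q z).im| ≤ τ := by
    intro z hz
    have h1 := (Complex.abs_im_le_norm _).trans (hp z hz)
    have h2 : (p z - (K : ℂ) * (χ z : ℂ)).im = (q z).im := by
      rw [hq]
      simp
    rwa [h2] at h1
  have hqim1 : ∀ z ∈ P, |(q z).im| ≤ 1 := fun z hz => (hqim z hz).trans hτ1
  have hqre : ∀ z ∈ P, |(q z).re - (K * χ z - K / 2)| ≤ τ := by
    intro z hz
    have h1 := (Complex.abs_re_le_norm _).trans (hp z hz)
    have h2 : (p z - (K : ℂ) * (χ z : ℂ)).re = (q z).re - (K * χ z - K / 2) := by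
      rw [hq]
      simp
    rwa [h2] at h1
  have hqc : ContinuousOn q P := by
    rw [hqe]; exact hpc.sub continuousOn_const
  have hqd : DifferentiableOn ℂ q (interior P) := by
    rw [hqe]; exact hpd.sub (differentiableOn_const _)
  have htc : ContinuousOn (fun z => sig (q z)) P := sig_cont hqc hqim1
  have htd : DifferentiableOn ℂ (fun z => sig (q z)) (interior P) :=
    sig_diff hqd fun z hz => hqim1 z (interior_subset hz)
  have hsmall0 : ∀ z ∈ P, χ z = 0 → ‖sig (q z)‖ ≤ Real.exp 1 * Real.exp (-(K / 2)) := by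
    intro z hz h
    have h1 := hqre z hz
    rw [h, abs_le] at h1
    refine (sig_norm (hqim1 z hz)).trans ?_
    rw [← Real.exp_add]
    apply Real.exp_le_exp.mpr
    linarith [h1.2]
  have hsmall1 : ∀ z ∈ P, χ z = 1 → ‖1 - sig (q z)‖ ≤ Real.exp 1 * Real.exp (-(K / 2)) := by
    intro z hz h
    have h1 := hqre z hz
    rw [h, abs_le] at h1
    rw [sig_one_sub (hqim1 z hz)]
    refine (sig_norm (by rw [neg_im, abs_neg]; exact hqim1 z hz)).trans ?_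
    rw [← Real.exp_add]
    apply Real.exp_le_exp.mpr
    rw [neg_re]
    linarith [h1.1]
  have hE := Real.exp_pos 1
  have hE' := Real.exp_pos (-(K / 2))
  have c₁ := ofReal_contDiff s₁s
  have c₂ := ofReal_contDiff s₂s
  refine ⟨fun z => (s₁ z : ℂ) * (1 - (s₂ z : ℂ)) * sig (q z) + (s₂ z : ℂ), ⟨?_, ?_, ?_⟩, ?_, ?_, ?_⟩
  · exact (((c₁.continuous.mul (continuous_const.sub c₂.continuous)).continuousOn).mul htc).add
      c₂.continuous.continuousOn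
  · have ht2 : ContDiffOn ℝ 2 (fun z => sig (q z)) (interior P) :=
      (htd.contDiffOn isOpen_interior).restrict_scalars ℝ
    have c₁' : ContDiff ℝ 2 (fun z => ((s₁ z : ℝ) : ℂ)) := c₁.of_le two_le_infty
    have c₂' : ContDiff ℝ 2 (fun z => ((s₂ z : ℝ) : ℂ)) := c₂.of_le two_le_infty
    exact (((c₁'.mul (contDiff_const.sub c₂')).contDiffOn).mul ht2).add c₂'.contDiffOn
  · intro z hz
    have hzP := interior_subset hz
    have hzZ := hPZ hzP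
    have htz : DifferentiableAt ℂ (fun z => sig (q z)) z :=
      htd.differentiableAt (isOpen_interior.mem_nhds hz)
    rw [dzb_comb s₁s s₂s htz, hexp]
    have hs₁d : Differentiable ℝ s₁ := s₁s.differentiable (by simp)
    have hs₂d : Differentiable ℝ s₂ := s₂s.differentiable (by simp)
    rcases le_total (lam z) l₁ with h | h
    · have e2 : s₂ z = 0 := s₂0 z hzZ (by linarith)
      rw [dzb_zero s₂01 hs₂d (Or.inl e2), e2]
      have h5 := hsmall0 z hzP (χ0 z hzZ h)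
      have h6 := s₁M z hzZ
      simp only [ofReal_zero, sub_zero, one_mul, mul_zero, add_zero]
      rw [norm_mul]
      calc ‖sig (q z)‖ * ‖dzb (fun z => (s₁ z : ℂ)) z‖
          ≤ (Real.exp 1 * Real.exp (-(K / 2))) * M₂ :=
            mul_le_mul h5 h6 (norm_nonneg _) (by positivity)
        _ ≤ (Real.exp 1 * (M₂ + M₃) + M₄) * Real.exp (-(K / 2)) := by
            nlinarith [mul_pos hE' hM₄, mul_pos (mul_pos hE hE') hM₃]
    · have e1 : s₁ z = 1 := s₁1 z hzZ h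
      rw [dzb_zero s₁01 hs₁d (Or.inr e1), e1]
      simp only [ofReal_one, one_mul, mul_zero, zero_add]
      rcases le_total (lam z) l₂ with h' | h'
      · have e2 : s₂ z = 0 := s₂0 z hzZ h'
        rw [dzb_zero s₂01 hs₂d (Or.inl e2)]
        simp only [mul_zero, norm_zero]
        positivity
      · have h5 := hsmall1 z hzP (χ1 z hzZ h')
        have h6 := s₂M z hzZ
        rw [norm_mul]
        calc ‖1 - sig (q z)‖ * ‖dzb (fun z => (s₂ z : ℂ)) z‖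
            ≤ (Real.exp 1 * Real.exp (-(K / 2))) * M₃ :=
              mul_le_mul h5 h6 (norm_nonneg _) (by positivity)
          _ ≤ (Real.exp 1 * (M₂ + M₃) + M₄) * Real.exp (-(K / 2)) := by
              nlinarith [mul_pos hE' hM₄, mul_pos (mul_pos hE hE') hM₂]
  · intro z hz h
    have e1 : s₁ z = 0 := s₁0 z (hPZ hz) h
    have e2 : s₂ z = 0 := s₂0 z (hPZ hz) (by linarith)
    simp [e1, e2]
  · intro z hz h
    have e2 : s₂ z = 1 := s₂1 z (hPZ hz) h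
    simp [e2]
  · intro z hz
    obtain ⟨r0, r1, r2⟩ := sig_re (hqim1 z hz)
    have r3 := r2 θ hθ.le ((hqim z hz).trans hτθ)
    obtain ⟨a0, a1⟩ := s₁01 z
    obtain ⟨b0, b1⟩ := s₂01 z
    have hre : ((s₁ z : ℂ) * (1 - (s₂ z : ℂ)) * sig (q z) + (s₂ z : ℂ)).re =
        s₁ z * (1 - s₂ z) * (sig (q z)).re + s₂ z := by
      have : (s₁ z : ℂ) * (1 - (s₂ z : ℂ)) * sig (q z) + (s₂ z : ℂ) =
          ((s₁ z * (1 - s₂ z) : ℝ) : ℂ) * sig (q z) + ((s₂ z : ℝ) : ℂ) := by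
        push_cast; ring
      rw [this, add_re, re_ofReal_mul, ofReal_re]
    have him : ((s₁ z : ℂ) * (1 - (s₂ z : ℂ)) * sig (q z) + (s₂ z : ℂ)).im =
        s₁ z * (1 - s₂ z) * (sig (q z)).im := by
      have : (s₁ z : ℂ) * (1 - (s₂ z : ℂ)) * sig (q z) + (s₂ z : ℂ) =
          ((s₁ z * (1 - s₂ z) : ℝ) : ℂ) * sig (q z) + ((s₂ z : ℝ) : ℂ) := by
        push_cast; ring
      rw [this, add_im, im_ofReal_mul, ofReal_im, add_zero]
    have hm : 0 ≤ s₁ z * (1 - s₂ z) := mul_nonneg a0 (by linarith)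
    have hm1 : s₁ z * (1 - s₂ z) ≤ 1 - s₂ z := by nlinarith
    show 0 ≤ ((s₁ z : ℂ) * (1 - (s₂ z : ℂ)) * sig (q z) + (s₂ z : ℂ)).re ∧
      ((s₁ z : ℂ) * (1 - (s₂ z : ℂ)) * sig (q z) + (s₂ z : ℂ)).re ≤ 1 ∧
      |((s₁ z : ℂ) * (1 - (s₂ z : ℂ)) * sig (q z) + (s₂ z : ℂ)).im| ≤
        θ * ((s₁ z : ℂ) * (1 - (s₂ z : ℂ)) * sig (q z) + (s₂ z : ℂ)).re
    rw [hre, him]
    refine ⟨by positivity, ?_, ?_⟩
    · have : s₁ z * (1 - s₂ z) * (sig (q z)).re ≤ (1 - s₂ z) * 1 :=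
        mul_le_mul hm1 r1 r0 (by linarith)
      linarith
    · rw [abs_mul, abs_of_nonneg hm]
      have h7 := mul_le_mul_of_nonneg_left r3 hm
      nlinarith [mul_nonneg hθ.le b0]

end Pool.Agent.CMerg
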