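import Pool.Agent.CMerg.Defs

set_option autoImplicit false

/-!
# Gluing over finite clopen partitions, and rules for the Wirtinger derivative
-/

namespace Pool.Agent.CMerg

open Complex Metric Set Filter Topology MeasureTheory
open scoped ContDiff

/-! ### rules for `dzb` -/

theorem dzb_def (F : ℂ → ℂ) (z : ℂ) : dzb F z = (fderiv ℝ F z 1 + I * fderiv ℝ F z I) / 2 := rfl

theorem dzb_congr {F G : ℂ → ℂ} {z : ℂ} (h : F =ᶠ[𝓝 z] G) : dzb F z = dzb G z := by
  rw [dzb_def, dzb_def, h.fderiv_eq]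

theorem dzb_hol {F : ℂ → ℂ} {z : ℂ} (h : DifferentiableAt ℂ F z) : dzb F z = 0 := by
  have h1 : HasFDerivAt F ((fderiv ℂ F z).restrictScalars ℝ) z :=
    h.hasFDerivAt.restrictScalars ℝ
  rw [dzb_def, h1.fderiv]
  have h2 : (fderiv ℂ F z).restrictScalars ℝ I = I * (fderiv ℂ F z).restrictScalars ℝ 1 := by
    have := (fderiv ℂ F z).map_smul I 1
    rw [smul_eq_mul, mul_one, smul_eq_mul] at this
    exact this
  rw [h2, ← mul_assoc, I_mul_I]
  ring

theorem dzb_add {F G : ℂ → ℂ} {z : ℂ} (hF : DifferentiableAt ℝ F z)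
    (hG : DifferentiableAt ℝ G z) : dzb (fun z => F z + G z) z = dzb F z + dzb G z := by
  have h1 : HasFDerivAt (fun z => F z + G z) (fderiv ℝ F z + fderiv ℝ G z) z :=
    hF.hasFDerivAt.add hG.hasFDerivAt
  rw [dzb_def, h1.fderiv, dzb_def, dzb_def]
  simp only [_root_.add_apply]
  ring

theorem dzb_mul {F G : ℂ → ℂ} {z : ℂ} (hF : DifferentiableAt ℝ F z)
    (hG : DifferentiableAt ℝ G z) :
    dzb (fun z => F z * G z) z = F z * dzb G z + G z * dzb F z := by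
  have h1 : HasFDerivAt (fun z => F z * G z) (F z • fderiv ℝ G z + G z • fderiv ℝ F z) z :=
    hF.hasFDerivAt.mul hG.hasFDerivAt
  rw [dzb_def, h1.fderiv, dzb_def, dzb_def]
  simp only [_root_.add_apply, _root_.smul_apply, smul_eq_mul]
  ring

/-- `A + σ (B - A)` with holomorphic `A`, `B` -/
theorem dzb_interp {A B σ : ℂ → ℂ} {z : ℂ} (hA : DifferentiableAt ℂ A z)
    (hB : DifferentiableAt ℂ B z) (hσ : DifferentiableAt ℝ σ z) :
    dzb (fun z => A z + σ z * (B z - A z)) z = (B z - A z) * dzb σ z := by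
  have hBA : DifferentiableAt ℂ (fun z => B z - A z) z := hB.sub hA
  have h1 : DifferentiableAt ℝ (fun z => σ z * (B z - A z)) z :=
    hσ.mul (hBA.restrictScalars ℝ)
  rw [dzb_add (hA.restrictScalars ℝ) h1, dzb_hol hA, dzb_mul hσ (hBA.restrictScalars ℝ),
    dzb_hol hBA]
  ring

/-! ### the classes -/

theorem AHol.mono {X : Set ℂ} {Φ : ℂ → ℂ} {κ κ' : ℝ} (h : AHol X Φ κ) (hκ : κ ≤ κ') :
    AHol X Φ κ' :=
  ⟨h.1, h.2.1, fun z hz => (h.2.2 z hz).trans hκ⟩

theorem AHol.subset {X Y : Set ℂ} {Φ : ℂ → ℂ} {κ : ℝ} (h : AHol X Φ κ) (hY : Y ⊆ X) :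
    AHol Y Φ κ :=
  ⟨h.1.mono hY, h.2.1.mono (interior_mono hY), fun z hz => h.2.2 z (interior_mono hY hz)⟩

theorem Hol.ahol {X : Set ℂ} {Φ : ℂ → ℂ} (h : Hol X Φ) : AHol X Φ 0 := by
  refine ⟨h.1, ?_, fun z hz => ?_⟩
  · exact (h.2.contDiffOn isOpen_interior).restrict_scalars ℝ
  · rw [dzb_hol (h.2.differentiableAt (isOpen_interior.mem_nhds hz)), norm_zero]

theorem AHol.congr {X : Set ℂ} {Φ Ψ : ℂ → ℂ} {κ : ℝ} (h : AHol X Φ κ)
    (hΨ : ∀ z ∈ X, Ψ z = Φ z) : AHol X Ψ κ := by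
  refine ⟨h.1.congr hΨ, h.2.1.congr fun z hz => hΨ z (interior_subset hz), fun z hz => ?_⟩
  rw [dzb_congr (G := Φ)]
  · exact h.2.2 z hz
  · filter_upwards [isOpen_interior.mem_nhds hz] with y hy
    exact hΨ y (interior_subset hy)

/-- near a point of a clopen piece, the set `Z` is the piece -/
theorem Clop.nhds {Z P : Set ℂ} (h : Clop Z P) {z : ℂ} (hz : z ∈ P) :
    (Z \ P)ᶜ ∈ 𝓝 z ∧ Z ∩ (Z \ P)ᶜ = P := by
  refine ⟨h.2.2.isOpen_compl.mem_nhds fun h1 => h1.2 hz, ?_⟩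
  ext y
  constructor
  · rintro ⟨h1, h2⟩
    by_contra h3
    exact h2 ⟨h1, h3⟩
  · intro h1
    exact ⟨h.1 h1, fun h2 => h2.2 h1⟩

theorem Clop.interior {Z P : Set ℂ} (h : Clop Z P) : interior P = interior Z ∩ P := by
  refine Subset.antisymm (subset_inter (interior_mono h.1) interior_subset) ?_
  rintro z ⟨hz, hzP⟩
  obtain ⟨h1, h2⟩ := h.nhds hzP
  rw [mem_interior_iff_mem_nhds] at hz ⊢
  rw [← h2]
  exact Filter.inter_mem hz h1

/-- **Gluing over a finite (or infinite) clopen cover.** -/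
theorem AHol.glue {Z : Set ℂ} {ι : Type*} {P : ι → Set ℂ} {Φ : ℂ → ℂ} {κ : ℝ}
    (hP : ∀ i, Clop Z (P i)) (hU : Z ⊆ ⋃ i, P i) (h : ∀ i, AHol (P i) Φ κ) : AHol Z Φ κ := by
  refine ⟨fun z hz => ?_, fun z hz => ?_, fun z hz => ?_⟩
  · obtain ⟨i, hi⟩ := mem_iUnion.1 (hU hz)
    obtain ⟨h1, h2⟩ := (hP i).nhds hi
    have h3 := (h i).1 z hi
    rw [← h2] at h3
    exact (continuousWithinAt_inter h1).1 h3
  · obtain ⟨i, hi⟩ := mem_iUnion.1 (hU (interior_subset hz))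
    have h3 : z ∈ _root_.interior (P i) := by
      rw [(hP i).interior]
      exact ⟨hz, hi⟩
    exact ((h i).2.1.contDiffAt (isOpen_interior.mem_nhds h3)).contDiffWithinAt
  · obtain ⟨i, hi⟩ := mem_iUnion.1 (hU (interior_subset hz))
    have h3 : z ∈ _root_.interior (P i) := by
      rw [(hP i).interior]
      exact ⟨hz, hi⟩
    exact (h i).2.2 z h3

/-- a function given on the pieces of a clopen partition -/
theorem AHol.exists_glue {Z : Set ℂ} {n : ℕ} {P : Fin n → Set ℂ} {κ : ℝ}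
    (hP : ∀ i, Clop Z (P i)) (hd : Pairwise fun i j => Disjoint (P i) (P j))
    (hU : (⋃ i, P i) = Z) (Ψ : Fin n → ℂ → ℂ) (h : ∀ i, AHol (P i) (Ψ i) κ) :
    ∃ Φ : ℂ → ℂ, AHol Z Φ κ ∧ ∀ i, ∀ z ∈ P i, Φ z = Ψ i z := by
  classical
  let Φ : ℂ → ℂ := fun z => if hz : ∃ i, z ∈ P i then Ψ hz.choose z else 0
  have hΦ : ∀ i, ∀ z ∈ P i, Φ z = Ψ i z := by
    intro i z hz
    have h1 : ∃ i, z ∈ P i := ⟨i, hz⟩
    have h2 : h1.choose = i := by
      by_contra hne
      exact disjoint_left.1 (hd hne) h1.choose_spec hz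
    show (if hz : ∃ i, z ∈ P i then Ψ hz.choose z else 0) = Ψ i z
    rw [dif_pos h1, h2]
  exact ⟨Φ, AHol.glue hP hU.ge fun i => (h i).congr (hΦ i), hΦ⟩

/-! ### branches -/

/-- two branches differ by `2 π i k` with a continuous integer valued function -/
theorem IsBr.exists_int {X : Set ℂ} {F w w' : ℂ → ℂ} (h : IsBr X F w) (h' : IsBr X F w') :
    ∃ k : ℂ → ℤ, ContinuousOn k X ∧ ∀ z ∈ X, w' z = w z + k z * (2 * Real.pi * I) := by
  have h1 : ∀ z ∈ X, ∃ n : ℤ, w' z = w z + n * (2 * Real.pi * I) := fun z hz =>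
    Complex.exp_eq_exp_iff_exists_int.1 (by rw [h.2 z hz, h'.2 z hz])
  let k : ℂ → ℤ := fun z => round ((w' z - w z).im / (2 * Real.pi))
  have hk : ∀ z ∈ X, w' z = w z + k z * (2 * Real.pi * I) ∧
      (k z : ℝ) = (w' z - w z).im / (2 * Real.pi) := by
    intro z hz
    obtain ⟨n, hn⟩ := h1 z hz
    have h2 : (w' z - w z).im / (2 * Real.pi) = n := by
      rw [hn]
      have : w z + n * (2 * Real.pi * I) - w z = ((n * (2 * Real.pi) : ℝ) : ℂ) * I := by
        push_cast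
        ring
      rw [this, Complex.im_ofReal_mul, Complex.I_im]
      have hpi : (2 * Real.pi : ℝ) ≠ 0 := by positivity
      field_simp
    have h3 : k z = n := by
      show round ((w' z - w z).im / (2 * Real.pi)) = n
      rw [h2, round_intCast]
    rw [h3, h2]
    exact ⟨hn, rfl⟩
  refine ⟨k, ?_, fun z hz => (hk z hz).1⟩
  have hc : ContinuousOn (fun z => (k z : ℝ)) X := by
    refine ContinuousOn.congr ?_ fun z hz => (hk z hz).2
    exact (Complex.continuous_im.comp_continuousOn (h'.1.sub h.1)).div_const _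
  exact (Int.isClosedEmbedding_coe_real.isInducing.continuousOn_iff).2 hc

end Pool.Agent.CMerg
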