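import Pool.Agent.CMerg.Defs
import Pool.Agent.BlMat.Basic

set_option autoImplicit false

/-! # Chordal Mergelyan theorem: the core approximation from the global almost holomorphic function -/

namespace Pool.Agent.CMerg

open Complex Metric Set Filter Topology MeasureTheory Polynomial
open scoped ContDiff Manifold

theorem Dat.isClosed_up {L E : Set ℂ} {F : ℂ → ℂ} (h : Dat L E F) (a : ℝ) :
    IsClosed (up L E F a) := by
  have hcl : IsClosed L := h.cpt.isClosed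
  have h1 := h.cont
  rw [_root_.continuousOn_iff'] at h1
  obtain ⟨O, hO, hOe⟩ := h1 {w | ‖w‖ < a} (isOpen_lt continuous_norm continuous_const)
  have : up L E F a = L \ (O ∩ Eᶜ) := by
    ext z
    simp only [up, mem_setOf_eq, mem_diff, mem_inter_iff, mem_compl_iff, not_and, not_not]
    constructor
    · rintro ⟨hz, h2⟩
      refine ⟨hz, fun hzO => ?_⟩
      by_contra hzE
      rcases h2 with h2 | h2
      · exact hzE h2
      · have : z ∈ F ⁻¹' {w | ‖w‖ < a} ∩ (L \ E) := by rw [hOe]; exact ⟨hzO, hz, hzE⟩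
        exact absurd this.1 (not_lt.mpr h2)
    · rintro ⟨hz, h2⟩
      refine ⟨hz, ?_⟩
      by_cases hzE : z ∈ E
      · exact Or.inl hzE
      · right
        by_contra hlt
        push Not at hlt
        have : z ∈ O ∩ (L \ E) := by rw [← hOe]; exact ⟨hlt, hz, hzE⟩
        exact hzE (h2 this.1)
  rw [this]
  exact hcl.sdiff (hO.inter h.cl.isOpen_compl)

theorem Dat.eventually_up {L E : Set ℂ} {F : ℂ → ℂ} (h : Dat L E F) {a : ℝ} {z : ℂ}
    (hz : z ∈ E ∨ a < ‖F z‖) : ∀ᶠ z' in 𝓝[L] z, z' ∈ L ∧ (z' ∈ E ∨ a < ‖F z'‖) := by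
  have hc : IsClosed {z | z ∈ L \ E ∧ ‖F z‖ ≤ a} := (h.lev a).isClosed
  have hn : z ∉ {z | z ∈ L \ E ∧ ‖F z‖ ≤ a} := by
    rintro ⟨h1, h2⟩
    rcases hz with h3 | h3
    · exact h1.2 h3
    · linarith
  have h1 : ∀ᶠ z' in 𝓝[L] z, z' ∉ {z | z ∈ L \ E ∧ ‖F z‖ ≤ a} :=
    mem_nhdsWithin_of_mem_nhds (hc.isOpen_compl.mem_nhds hn)
  filter_upwards [h1, self_mem_nhdsWithin] with z' h2 h3
  refine ⟨h3, ?_⟩
  by_contra h4
  push Not at h4
  exact h2 ⟨⟨h3, h4.1⟩, h4.2⟩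

theorem Dat.eventually_low {L E : Set ℂ} {F : ℂ → ℂ} (h : Dat L E F) {a : ℝ} {z : ℂ}
    (hz : z ∉ E) (hz' : ‖F z‖ < a) : ∀ᶠ z' in 𝓝[L] z, z' ∈ L ∧ z' ∉ E ∧ ‖F z'‖ < a := by
  have hn : z ∉ up L E F a := by
    rintro ⟨h1, h2⟩
    rcases h2 with h3 | h3
    · exact hz h3
    · linarith
  have h1 : ∀ᶠ z' in 𝓝[L] z, z' ∉ up L E F a :=
    mem_nhdsWithin_of_mem_nhds ((h.isClosed_up a).isOpen_compl.mem_nhds hn)
  filter_upwards [h1, self_mem_nhdsWithin] with z' h2 h3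
  refine ⟨h3, fun h4 => h2 ⟨h3, Or.inl h4⟩, ?_⟩
  by_contra h4
  push Not at h4
  exact h2 ⟨h3, Or.inr h4⟩

theorem contDiffAt_of_diffOn {U : Set ℂ} {f : ℂ → ℂ} (hU : IsOpen U) (hf : DifferentiableOn ℂ f U)
    {z : ℂ} (hz : z ∈ U) : ContDiffAt ℝ 2 f z :=
  ((hf.analyticAt (hU.mem_nhds hz)).contDiffAt (n := 2)).restrict_scalars ℝ

theorem core (hC : Stmt_Corr) (hG : Stmt_Glob) : Stmt_Core := by
  obtain ⟨C, hC0, hCorr⟩ := hC
  intro L E F hD ε ρ hε
  obtain ⟨X₀, hGlob⟩ := hG L E F hD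
  obtain ⟨x0, hx0, hx1, hx2⟩ : ∃ x0 : ℝ, X₀ ≤ x0 ∧ ρ ≤ 4 / 3 * Real.exp x0 ∧
      ρ + 1 ≤ Real.exp (x0 / 20 - 1) := by
    have t1 : Tendsto (fun x : ℝ => 4 / 3 * Real.exp x) atTop atTop :=
      Real.tendsto_exp_atTop.const_mul_atTop (by norm_num)
    have t2 : Tendsto (fun x : ℝ => Real.exp (x / 20 - 1)) atTop atTop := by
      refine Real.tendsto_exp_atTop.comp ?_
      exact tendsto_atTop_add_const_right _ _ (tendsto_id.atTop_div_const (by norm_num))
    exact ((eventually_ge_atTop X₀).and ((t1.eventually_ge_atTop ρ).and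
      (t2.eventually_ge_atTop (ρ + 1)))).exists
  obtain ⟨r, hr⟩ : ∃ r : ℝ, r = Real.exp x0 := ⟨_, rfl⟩
  have hr0 : 0 < r := hr ▸ Real.exp_pos x0
  rw [← hr] at hx1
  -- the cut-off
  have hA0 : IsClosed {z | z ∈ L \ E ∧ ‖F z‖ ≤ 7 / 6 * r} := (hD.lev _).isClosed
  have hA1 : IsClosed (up L E F (4 / 3 * r)) := hD.isClosed_up _
  have hdisj : Disjoint {z | z ∈ L \ E ∧ ‖F z‖ ≤ 7 / 6 * r} (up L E F (4 / 3 * r)) := by
    rw [Set.disjoint_left]
    rintro z ⟨h1, h2⟩ ⟨h3, h4⟩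
    rcases h4 with h4 | h4
    · exact h1.2 h4
    · linarith
  obtain ⟨χ, h0, h1, hχ⟩ := exists_contMDiffMap_zero_one_nhds_of_isClosed 𝓘(ℝ, ℂ) (n := ⊤)
    hA0 hA1 hdisj
  have hχs : ContDiff ℝ ∞ (fun z : ℂ => χ z) := χ.contMDiff.contDiff
  obtain ⟨c, hc⟩ : ∃ c : ℂ → ℂ, c = fun z => ((χ z : ℝ) : ℂ) := ⟨_, rfl⟩
  have hcs : ContDiff ℝ ∞ c := by
    rw [hc]; exact Complex.ofRealCLM.contDiff.comp hχs
  have hcd : ∀ z, DifferentiableAt ℝ c z := fun z => (hcs.differentiable (by simp)) z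
  obtain ⟨M, hM0, hM⟩ : ∃ M : ℝ, 0 ≤ M ∧ ∀ z ∈ L, ‖dzb c z‖ ≤ M := by
    have h2 : Continuous (Pool.Agent.BlMat.dzb c) :=
      Pool.Agent.BlMat.continuous_dzb (hcs.of_le (by exact_mod_cast le_top))
    obtain ⟨M, hM⟩ := hD.cpt.exists_bound_of_continuousOn h2.continuousOn
    exact ⟨max M 0, le_max_right _ _, fun z hz => (hM z hz).trans (le_max_left _ _)⟩
  have hc0 : ∀ z, z ∈ L → z ∉ E → ‖F z‖ ≤ 7 / 6 * r → c z = 0 := by
    intro z hz hzE hzF
    have := h0.self_of_nhdsSet z ⟨⟨hz, hzE⟩, hzF⟩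
    rw [hc]; simp [this]
  have hc1 : ∀ z, z ∈ up L E F (4 / 3 * r) → c z = 1 := by
    intro z hz
    have := h1.self_of_nhdsSet z hz
    rw [hc]; simp [this]
  have hcle : ∀ z, ‖c z‖ ≤ 1 := by
    intro z
    rw [hc]
    simp only [Complex.norm_real, Real.norm_eq_abs]
    rw [abs_of_nonneg (hχ z).1]
    exact (hχ z).2
  -- constants
  obtain ⟨a, ha⟩ : ∃ a : ℝ, a = (volume L).toReal := ⟨_, rfl⟩
  have ha0 : 0 ≤ a := ha ▸ ENNReal.toReal_nonneg
  have hLfin : volume L ≠ ⊤ := hD.cpt.measure_lt_top.ne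
  have hvol : ∀ X : Set ℂ, X ⊆ L → volume (interior X) ≤ ENNReal.ofReal a := by
    intro X hX
    rw [ha, ENNReal.ofReal_toReal hLfin]
    exact measure_mono (interior_subset.trans hX)
  obtain ⟨δ, hδ0, hδ1, hδ2, hδ3⟩ : ∃ δ : ℝ, 0 < δ ∧ δ ≤ 1 ∧ 4 / 3 * r * (2 * δ) ≤ ε / 2 ∧
      C * (M * (4 / 3 * r * (2 * δ))) * √a ≤ min (ε / 2) 1 := by
    have t1 : Tendsto (fun δ : ℝ => δ) (𝓝[>] 0) (𝓝 0) := tendsto_nhdsWithin_of_tendsto_nhds tendsto_id
    have t2 : Tendsto (fun δ : ℝ => 4 / 3 * r * (2 * δ)) (𝓝[>] 0) (𝓝 0) := by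
      have := (t1.const_mul 2).const_mul (4 / 3 * r)
      simpa using this
    have t3 : Tendsto (fun δ : ℝ => C * (M * (4 / 3 * r * (2 * δ))) * √a) (𝓝[>] 0) (𝓝 0) := by
      have := ((t2.const_mul M).const_mul C).mul_const (√a)
      simpa using this
    have hmin : 0 < min (ε / 2) 1 := lt_min (by linarith) one_pos
    have e1 : ∀ᶠ δ : ℝ in 𝓝[>] 0, δ ≤ 1 := (t1.eventually (gt_mem_nhds one_pos)).mono fun _ h => h.le
    have e2 : ∀ᶠ δ : ℝ in 𝓝[>] 0, 4 / 3 * r * (2 * δ) ≤ ε / 2 :=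
      (t2.eventually (gt_mem_nhds (by linarith))).mono fun _ h => h.le
    have e3 : ∀ᶠ δ : ℝ in 𝓝[>] 0, C * (M * (4 / 3 * r * (2 * δ))) * √a ≤ min (ε / 2) 1 :=
      (t3.eventually (gt_mem_nhds hmin)).mono fun _ h => h.le
    have e0 : ∀ᶠ δ : ℝ in 𝓝[>] 0, 0 < δ := self_mem_nhdsWithin
    exact (e0.and (e1.and (e2.and e3))).exists
  have hη : 0 < δ / (C * (√a + 1)) := by positivity
  obtain ⟨Φ, hΦA, hΦe, hΦr⟩ := hGlob x0 _ hx0 hη
  rw [← hr] at hΦA hΦe hΦr
  have hupc : IsCompact (up L E F r) :=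
    hD.cpt.of_isClosed_subset (hD.isClosed_up r) fun z hz => hz.1
  obtain ⟨Φ₁, hΦ₁, hΦ₁d⟩ := hCorr (up L E F r) Φ _ a hupc hΦA hη.le ha0
    (hvol _ fun z hz => hz.1)
  have hd : ∀ z ∈ up L E F r, ‖Φ₁ z - Φ z‖ ≤ δ := by
    intro z hz
    refine (hΦ₁d z hz).trans ?_
    have hs : √a ≤ √a + 1 := by linarith
    have h3 : C * (δ / (C * (√a + 1))) * √a = δ * (√a / (√a + 1)) := by
      field_simp
    rw [h3]
    have h4 : √a / (√a + 1) ≤ 1 := (div_le_one (by positivity)).2 hs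
    nlinarith
  -- the key estimate
  have hkey : ∀ z ∈ L, z ∉ E → r ≤ ‖F z‖ → ‖F z‖ ≤ 4 / 3 * r →
      ‖exp (Φ₁ z) - F z‖ ≤ 4 / 3 * r * (2 * δ) := by
    intro z hz hzE hz1 hz2
    have e1 := hΦe z ⟨hz, hzE⟩ hz1 hz2
    have hzu : z ∈ up L E F r := ⟨hz, Or.inr hz1⟩
    have e2 : exp (Φ₁ z) - F z = F z * (exp (Φ₁ z - Φ z) - 1) := by
      rw [Complex.exp_sub, e1]
      have hF : F z ≠ 0 := by rw [← e1]; exact Complex.exp_ne_zero _
      field_simp
    rw [e2, norm_mul]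
    have e3 := Complex.norm_exp_sub_one_le ((hd z hzu).trans hδ1)
    have e4 := hd z hzu
    have := norm_nonneg (F z)
    have := norm_nonneg (exp (Φ₁ z - Φ z) - 1)
    gcongr
    linarith
  -- the glued function
  classical
  obtain ⟨G, hGdef⟩ : ∃ G : ℂ → ℂ, G = fun z => if z ∈ E then exp (Φ₁ z) else
    F z + c z * (exp (Φ₁ z) - F z) := ⟨_, rfl⟩
  have hGE : ∀ z, z ∈ up L E F (4 / 3 * r) → G z = exp (Φ₁ z) := by
    intro z hz
    rw [hGdef]
    by_cases h : z ∈ E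
    · simp [h]
    · simp only [h, if_false]
      rw [hc1 z hz]; ring
  have hGn : ∀ z, z ∉ E → G z = F z + c z * (exp (Φ₁ z) - F z) := by
    intro z hz
    rw [hGdef]; simp [hz]
  have hR3 : ∀ z, (z ∈ E ∨ 4 / 3 * r < ‖F z‖) → G =ᶠ[𝓝[L] z] fun z' => exp (Φ₁ z') := by
    intro z hz
    filter_upwards [hD.eventually_up hz] with z' h2
    exact hGE z' ⟨h2.1, h2.2.imp id le_of_lt⟩
  have hR2 : ∀ z, z ∉ E → G =ᶠ[𝓝[L] z] fun z' => F z' + c z' * (exp (Φ₁ z') - F z') := by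
    intro z hz
    filter_upwards [mem_nhdsWithin_of_mem_nhds (hD.cl.isOpen_compl.mem_nhds hz)] with z' h2
    exact hGn z' h2
  have hR1 : ∀ z, z ∉ E → ‖F z‖ < 7 / 6 * r → G =ᶠ[𝓝[L] z] F := by
    intro z hz hz'
    filter_upwards [hD.eventually_low hz hz'] with z' h2
    rw [hGn z' h2.2.1, hc0 z' h2.1 h2.2.1 h2.2.2.le]; ring
  have hup : ∀ z, (z ∈ E ∨ r < ‖F z‖) → up L E F r ∈ 𝓝[L] z := by
    intro z hz
    filter_upwards [hD.eventually_up hz] with z' h2
    exact ⟨h2.1, h2.2.imp id le_of_lt⟩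
  have hΦc : ∀ z ∈ L, (z ∈ E ∨ r < ‖F z‖) → ContinuousWithinAt (fun z' => exp (Φ₁ z')) L z := by
    intro z hz hz'
    have hzu : z ∈ up L E F r := ⟨hz, hz'.imp id le_of_lt⟩
    exact ((hΦ₁.1 z hzu).mono_of_mem_nhdsWithin (hup z hz')).cexp
  have hFc : ∀ z ∈ L, z ∉ E → ContinuousWithinAt F L z := by
    intro z hz hzE
    refine (hD.cont z ⟨hz, hzE⟩).mono_of_mem_nhdsWithin ?_
    filter_upwards [mem_nhdsWithin_of_mem_nhds (hD.cl.isOpen_compl.mem_nhds hzE),
      self_mem_nhdsWithin] with z' h2 h3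
    exact ⟨h3, h2⟩
  have hGc : ContinuousOn G L := by
    intro z hz
    by_cases h3 : z ∈ E ∨ 4 / 3 * r < ‖F z‖
    · have h4 : z ∈ E ∨ r < ‖F z‖ := h3.imp id fun h => by linarith
      exact (hΦc z hz h4).congr_of_eventuallyEq (hR3 z h3)
        ((hR3 z h3).self_of_nhdsWithin hz)
    · push Not at h3
      obtain ⟨hzE, h3⟩ := h3
      by_cases h4 : r < ‖F z‖
      · have e1 := hFc z hz hzE
        have e2 := hΦc z hz (Or.inr h4)
        have e3 : ContinuousWithinAt c L z := hcs.continuous.continuousWithinAt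
        exact (e1.add (e3.mul (e2.sub e1))).congr_of_eventuallyEq (hR2 z hzE)
          ((hR2 z hzE).self_of_nhdsWithin hz)
      · push Not at h4
        have h5 : ‖F z‖ < 7 / 6 * r := by linarith
        exact (hFc z hz hzE).congr_of_eventuallyEq (hR1 z hzE h5)
          ((hR1 z hzE h5).self_of_nhdsWithin hz)
  have hint : ∀ z ∈ interior L, ContDiffAt ℝ 2 G z ∧ ‖dzb G z‖ ≤ M * (4 / 3 * r * (2 * δ)) := by
    intro z hz
    have hzL : z ∈ L := interior_subset hz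
    have hnh : 𝓝[L] z = 𝓝 z := nhdsWithin_eq_nhds.2 (mem_interior_iff_mem_nhds.1 hz)
    have hpos : 0 ≤ M * (4 / 3 * r * (2 * δ)) := by positivity
    have hopen : IsOpen (interior L \ E) := isOpen_interior.sdiff hD.cl
    have hhol : (z ∈ E ∨ r < ‖F z‖) → z ∈ interior (up L E F r) := by
      intro h
      rw [mem_interior_iff_mem_nhds, ← hnh]
      exact hup z h
    have hexp : DifferentiableOn ℂ (fun z' => exp (Φ₁ z')) (interior (up L E F r)) :=
      hΦ₁.2.cexp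
    by_cases h3 : z ∈ E ∨ 4 / 3 * r < ‖F z‖
    · have h4 := hhol (h3.imp id fun h => by linarith)
      have h5 := hR3 z h3
      rw [hnh] at h5
      constructor
      · exact (contDiffAt_of_diffOn isOpen_interior hexp h4).congr_of_eventuallyEq h5
      · have h6 := (Pool.Agent.BlMat.dz_congr h5).2
        have h7 := (Pool.Agent.BlMat.dzb_eq_zero_of_differentiableAt
          (hexp.differentiableAt (isOpen_interior.mem_nhds h4))).1
        rw [dzb, h6, h7, norm_zero]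
        exact hpos
    · push Not at h3
      obtain ⟨hzE, h3⟩ := h3
      have hzo : z ∈ interior L \ E := ⟨hz, hzE⟩
      have hFd : DifferentiableAt ℂ F z := hD.hol.differentiableAt (hopen.mem_nhds hzo)
      by_cases h4 : r < ‖F z‖
      · have h5 := hhol (Or.inr h4)
        have h6 := hR2 z hzE
        rw [hnh] at h6
        have hed : DifferentiableAt ℂ (fun z' => exp (Φ₁ z')) z :=
          hexp.differentiableAt (isOpen_interior.mem_nhds h5)
        constructor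
        · refine ContDiffAt.congr_of_eventuallyEq ?_ h6
          have e1 := contDiffAt_of_diffOn hopen hD.hol hzo
          have e2 := contDiffAt_of_diffOn isOpen_interior hexp h5
          have e3 : ContDiffAt ℝ 2 c z := (contDiff_infty.1 hcs 2).contDiffAt
          exact e1.add (e3.mul (e2.sub e1))
        · have h7 := (Pool.Agent.BlMat.dz_congr h6).2
          have e1 : DifferentiableAt ℝ F z := hFd.restrictScalars ℝ
          have e2 : DifferentiableAt ℝ (fun z' => exp (Φ₁ z')) z := hed.restrictScalars ℝ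
          have k1 := (Pool.Agent.BlMat.dz_add e1 ((hcd z).mul (e2.sub e1))).2
          have k2 := (Pool.Agent.BlMat.dz_mul (hcd z) (e2.sub e1)).2
          have k3 := (Pool.Agent.BlMat.dz_sub e2 e1).2
          have z1 := (Pool.Agent.BlMat.dzb_eq_zero_of_differentiableAt hFd).1
          have z2 := (Pool.Agent.BlMat.dzb_eq_zero_of_differentiableAt hed).1
          have h8 : dzb G z = dzb c z * (exp (Φ₁ z) - F z) := by
            rw [dzb, h7]
            refine k1.trans ?_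
            rw [z1]
            refine (congrArg (fun t => 0 + t) k2).trans ?_
            rw [show Pool.Agent.BlMat.dzb ((fun z' => exp (Φ₁ z')) - F) z = 0 from ?_]
            · simp
            · exact k3.trans (by rw [z1, z2, sub_zero])
          rw [h8, norm_mul]
          exact mul_le_mul (hM z hzL) (hkey z hzL hzE h4.le h3) (norm_nonneg _) hM0
      · push Not at h4
        have h5 : ‖F z‖ < 7 / 6 * r := by linarith
        have h6 := hR1 z hzE h5
        rw [hnh] at h6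
        constructor
        · exact (contDiffAt_of_diffOn hopen hD.hol hzo).congr_of_eventuallyEq h6
        · have h7 := (Pool.Agent.BlMat.dz_congr h6).2
          have h8 := (Pool.Agent.BlMat.dzb_eq_zero_of_differentiableAt hFd).1
          rw [dzb, h7, h8, norm_zero]
          exact hpos
  have hGA : AHol L G (M * (4 / 3 * r * (2 * δ))) :=
    ⟨hGc, fun z hz => (hint z hz).1.contDiffWithinAt, fun z hz => (hint z hz).2⟩
  obtain ⟨g, hg, hgd⟩ := hCorr L G _ a hD.cpt hGA (by positivity) ha0 (hvol _ subset_rfl)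
  have hgG : ∀ z ∈ L, ‖g z - G z‖ ≤ min (ε / 2) 1 := fun z hz => (hgd z hz).trans hδ3
  refine ⟨4 / 3 * r, g, hx1, hg, ?_, ?_⟩
  · rintro z ⟨hz, hzE⟩ hzF
    have e1 : ‖g z - G z‖ ≤ ε / 2 := (hgG z hz).trans (min_le_left _ _)
    have e2 : ‖G z - F z‖ ≤ ε / 2 := by
      rw [hGn z hzE]
      by_cases h3 : ‖F z‖ ≤ 7 / 6 * r
      · rw [hc0 z hz hzE h3]; simp; linarith
      · push Not at h3
        have e3 := hkey z hz hzE (by linarith) hzF
        have e4 : F z + c z * (exp (Φ₁ z) - F z) - F z = c z * (exp (Φ₁ z) - F z) := by ring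
        rw [e4, norm_mul]
        have e5 := hcle z
        have e6 := norm_nonneg (exp (Φ₁ z) - F z)
        nlinarith [norm_nonneg (c z)]
    have e3 : g z - F z = (g z - G z) + (G z - F z) := by ring
    rw [e3]
    exact (norm_add_le _ _).trans (by linarith)
  · intro z hz hz'
    have hz3 : z ∈ up L E F (4 / 3 * r) := ⟨hz, hz'⟩
    have hz1 : z ∈ up L E F r := ⟨hz, hz'.imp id fun h => by linarith⟩
    have e1 : ‖g z - G z‖ ≤ 1 := (hgG z hz).trans (min_le_right _ _)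
    have e2 : ‖G z‖ = Real.exp (Φ₁ z).re := by rw [hGE z hz3, Complex.norm_exp]
    have e3 : x0 / 20 - 1 ≤ (Φ₁ z).re := by
      have h4 := hΦr z hz1
      have h5 := (Complex.abs_re_le_norm (Φ₁ z - Φ z)).trans ((hd z hz1).trans hδ1)
      rw [Complex.sub_re] at h5
      have h6 := (abs_le.1 h5).1
      linarith
    have e4 : Real.exp (x0 / 20 - 1) ≤ ‖G z‖ := by rw [e2]; exact Real.exp_le_exp.2 e3
    have e5 : ‖G z‖ ≤ ‖g z‖ + ‖g z - G z‖ := by
      have := norm_sub_le (g z) (g z - G z)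
      simpa using this
    linarith

end Pool.Agent.CMerg
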