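import Mathlib

set_option autoImplicit false

/-!
# Chordal Mergelyan theorem: the definitions used in the final statement
-/

namespace Pool.Agent.CMerg

open Polynomial

/-- The chordal distance on the Riemann sphere. -/
noncomputable def chord : OnePoint ℂ → OnePoint ℂ → ℝ
  | some a, some b => ‖a - b‖ / (√(1 + ‖a‖ ^ 2) * √(1 + ‖b‖ ^ 2))
  | some a, none => 1 / √(1 + ‖a‖ ^ 2)
  | none, some b => 1 / √(1 + ‖b‖ ^ 2)
  | none, none => 0

/-- The class `M(L)`. -/
def InM (L : Set ℂ) (f : ℂ → OnePoint ℂ) : Prop :=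
  ContinuousOn f L ∧ ∀ x ∈ interior L,
    (∀ z ∈ connectedComponentIn (interior L) x, f z = OnePoint.infty) ∨
      ∃ h : ℂ → ℂ, DifferentiableOn ℂ h (connectedComponentIn (interior L) x) ∧
        ∀ z ∈ connectedComponentIn (interior L) x, f z = (h z : OnePoint ℂ)

/-- `f` is on `L` the limit of a sequence of polynomials, uniformly for the chordal distance. -/
def ChordLim (L : Set ℂ) (f : ℂ → OnePoint ℂ) : Prop :=
  ∃ p : ℕ → ℂ[X], ∀ ε : ℝ, 0 < ε → ∃ N : ℕ, ∀ n ≥ N, ∀ z ∈ L,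
    chord (((p n).eval z : ℂ) : OnePoint ℂ) (f z) < ε

end Pool.Agent.CMerg
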