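import Mathlib
import Pool.Agent.BlMat.Defs
import Pool.Agent.CMerg.MDefs

set_option autoImplicit false

/-!
# Chordal Mergelyan theorem: definitions and statements of the modules

Each module proves `theorem xxx : Stmt_Xxx`; the assembly modules take the other statements
as hypotheses.
-/

namespace Pool.Agent.CMerg

open Complex Metric Set Filter Topology MeasureTheory Polynomial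
open scoped ContDiff

/-- The Wirtinger derivative with respect to the conjugate variable. -/
noncomputable abbrev dzb (F : ℂ → ℂ) (z : ℂ) : ℂ := Pool.Agent.BlMat.dzb F z

/-- `g` is a uniform limit of polynomials on `K`. -/
def PA (K : Set ℂ) (g : ℂ → ℂ) : Prop :=
  ∀ ε : ℝ, 0 < ε → ∃ p : ℂ[X], ∀ z ∈ K, ‖p.eval z - g z‖ < ε

/-- Continuous on `K`, holomorphic in the interior. -/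
def Hol (K : Set ℂ) (g : ℂ → ℂ) : Prop :=
  ContinuousOn g K ∧ DifferentiableOn ℂ g (interior K)

/-- Continuous on `X`, twice continuously differentiable inside, with small Wirtinger derivative. -/
def AHol (X : Set ℂ) (Φ : ℂ → ℂ) (κ : ℝ) : Prop :=
  ContinuousOn Φ X ∧ ContDiffOn ℝ 2 Φ (interior X) ∧ ∀ z ∈ interior X, ‖dzb Φ z‖ ≤ κ

/-- `w` is a continuous branch of `log F` on `X`. -/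
def IsBr (X : Set ℂ) (F w : ℂ → ℂ) : Prop :=
  ContinuousOn w X ∧ ∀ z ∈ X, Complex.exp (w z) = F z

/-- `P` is relatively clopen in the closed set `Z`. -/
def Clop (Z P : Set ℂ) : Prop := P ⊆ Z ∧ IsClosed P ∧ IsClosed (Z \ P)

/-- The data: a compact set `L` with connected complement, the set `E ⊆ L` of infinities and the
finite values `F` of a function in the class `M(L)`. -/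
structure Dat (L E : Set ℂ) (F : ℂ → ℂ) : Prop where
  cpt : IsCompact L
  con : IsPreconnected Lᶜ
  sub : E ⊆ L
  cl : IsClosed E
  cont : ContinuousOn F (L \ E)
  lev : ∀ R : ℝ, IsCompact {z | z ∈ L \ E ∧ ‖F z‖ ≤ R}
  comp : ∀ z ∈ interior L, z ∉ E → Disjoint (connectedComponentIn (interior L) z) E
  hol : DifferentiableOn ℂ F (interior L \ E)

/-- A level zone. -/
def zone (L E : Set ℂ) (F : ℂ → ℂ) (a b : ℝ) : Set ℂ :=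
  {z | z ∈ L \ E ∧ a ≤ ‖F z‖ ∧ ‖F z‖ ≤ b}

/-- The upper level set, infinities included. -/
def up (L E : Set ℂ) (F : ℂ → ℂ) (a : ℝ) : Set ℂ :=
  {z | z ∈ L ∧ (z ∈ E ∨ a ≤ ‖F z‖)}

/-! ### Step 1 -/

def Stmt_Corr : Prop :=
  ∃ C : ℝ, 0 < C ∧ ∀ (X : Set ℂ) (Φ : ℂ → ℂ) (κ a : ℝ), IsCompact X → AHol X Φ κ → 0 ≤ κ → 0 ≤ a →
    volume (interior X) ≤ ENNReal.ofReal a →
    ∃ Ψ : ℂ → ℂ, Hol X Ψ ∧ ∀ z ∈ X, ‖Ψ z - Φ z‖ ≤ C * κ * √a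

/-! ### Step 2: Mergelyan -/

/-- Elementary building blocks of the approximation. -/
def Stmt_G : Prop :=
  ∃ C : ℝ, 1 ≤ C ∧ ∀ (K : Set ℂ) (z₀ : ℂ) (δ : ℝ), IsCompact K → IsPreconnected Kᶜ → z₀ ∉ K → 0 < δ →
    ∃ (m : ℂ) (g : ℂ → ℂ), ‖m - z₀‖ ≤ 2 * δ ∧ PA K g ∧ (∀ z ∈ K, ‖g z‖ ≤ C / δ) ∧
      ∀ z ∈ K, C * δ ≤ ‖z - z₀‖ → ‖g z‖ ≤ C / ‖z - m‖ ∧ ‖g z - 1 / (z - m)‖ ≤ C * δ ^ 2 / ‖z - m‖ ^ 3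

/-- Smoothing. -/
def Stmt_Smooth : Prop :=
  ∃ C : ℝ, 0 < C ∧ ∀ (f : ℂ → ℂ) (U : Set ℂ) (ε : ℝ), Continuous f → HasCompactSupport f → IsOpen U →
    DifferentiableOn ℂ f U → 0 < ε → ∃ δ₀ : ℝ, 0 < δ₀ ∧ ∀ δ : ℝ, 0 < δ → δ ≤ δ₀ →
      ∃ h : ℂ → ℂ, ContDiff ℝ ∞ h ∧ HasCompactSupport h ∧ (∀ z, ‖h z - f z‖ ≤ ε) ∧
        (∀ z, ‖dzb h z‖ ≤ C * ε / δ) ∧ ∀ z, closedBall z δ ⊆ U → dzb h z = 0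

def Stmt_Mergelyan : Prop :=
  ∀ (K : Set ℂ) (f : ℂ → ℂ), IsCompact K → IsPreconnected Kᶜ → Hol K f → PA K f

/-! ### Step 3 -/

def Stmt_Log : Prop :=
  ∀ (K : Set ℂ) (f : ℂ → ℂ), IsCompact K → IsPreconnected Kᶜ → Hol K f → (∀ z ∈ K, f z ≠ 0) →
    ∃ w : ℂ → ℂ, IsBr K f w

/-- Branches of the logarithm of a holomorphic function are holomorphic. -/
def Stmt_LogHol : Prop :=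
  ∀ (K : Set ℂ) (f w : ℂ → ℂ), Hol K f → IsBr K f w → Hol K w

/-! ### Step 4 -/

def Stmt_Holes : Prop :=
  ∀ (L E : Set ℂ) (F : ℂ → ℂ), Dat L E F → ∃ R₀ : ℝ, 0 < R₀ ∧
    ∀ a b : ℝ, R₀ ≤ a → IsPreconnected (zone L E F a b)ᶜ

/-! ### Step 5 -/

def Stmt_EB : Prop :=
  ∀ (X : ℕ → Set ℂ) (F : ℂ → ℂ), Monotone X → (∀ n, IsCompact (X n)) → (∀ n, ∃ w, IsBr (X n) F w) →
    ∃ W : ℂ → ℂ, (∀ z ∈ ⋃ n, X n, Complex.exp (W z) = F z) ∧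
      ∀ (S : Finset ℂ) (n : ℕ), (↑S ⊆ ⋃ n, X n) →
        ∃ (N : ℕ) (w : ℂ → ℂ), n ≤ N ∧ IsBr (X N) F w ∧ ↑S ⊆ X N ∧ ∀ s ∈ S, w s = W s

/-! ### Step 6 -/

def Stmt_Pieces : Prop :=
  ∀ Z : Set ℂ, IsCompact Z → ∃ (m : ℂ → ℝ) (S : ℝ → Finset ℂ),
    (∀ a : ℝ, 0 < a → ∀ s ∈ S a, s ∈ Z ∧ a ≤ m s) ∧
    (∀ a a' : ℝ, 0 < a → 0 < a' → ∀ s ∈ S a', a ≤ m s → s ∈ S a) ∧
    (∀ a : ℝ, 0 < a → ∑ s ∈ S a, m s ≤ (volume (interior Z)).toReal) ∧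
    ∀ (a : ℝ) (k : ℂ → ℤ), 0 < a → ContinuousOn k Z →
      ∃ (n : ℕ) (P : Fin n → Set ℂ), (∀ i, Clop Z (P i)) ∧ (Pairwise fun i j => Disjoint (P i) (P j)) ∧
        (⋃ i, P i) = Z ∧ (∀ i, ∀ z ∈ P i, ∀ z' ∈ P i, k z = k z') ∧
        ∀ i, (∃ s ∈ S a, s ∈ P i ∧ volume (interior (P i)) ≤ ENNReal.ofReal (2 * m s)) ∨
          volume (interior (P i)) ≤ ENNReal.ofReal a

/-! ### Step 7 -/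

def Stmt_AHC : Prop :=
  ∀ (Z : Set ℂ) (lam : ℂ → ℝ) (l₀ l₃ θ : ℝ), IsCompact Z → ContinuousOn lam Z → l₀ < l₃ → 0 < θ →
    ∃ c M : ℝ, 0 < c ∧ 0 < M ∧
      (∃ s : ℂ → ℝ, ContDiff ℝ ∞ s ∧ (∀ z, 0 ≤ s z ∧ s z ≤ 1) ∧ (∀ z ∈ Z, lam z ≤ l₀ → s z = 0) ∧
        (∀ z ∈ Z, l₃ ≤ lam z → s z = 1) ∧ ∀ z ∈ Z, ‖dzb (fun z => (s z : ℂ)) z‖ ≤ M) ∧
      ∀ (P : Set ℂ) (α : ℝ), Clop Z P → 0 < α → volume (interior P) ≤ ENNReal.ofReal α →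
        ∃ σ : ℂ → ℂ, AHol P σ (M * Real.exp (-c / √α)) ∧
          (∀ z ∈ P, lam z ≤ l₀ → σ z = 0) ∧ (∀ z ∈ P, l₃ ≤ lam z → σ z = 1) ∧
          ∀ z ∈ P, 0 ≤ (σ z).re ∧ (σ z).re ≤ 1 ∧ |(σ z).im| ≤ θ * (σ z).re

/-! ### Step 8 -/

def Stmt_Xi : Prop :=
  ∀ b x₀ x₁ : ℝ, 0 < b → 0 < x₀ → x₀ < x₁ → ∃ C₂ H : ℝ, 0 < C₂ ∧ 0 < H ∧
    ∀ K η : ℝ, 0 < K → 0 < η → ∃ J₀ : ℝ, ∀ J : ℝ, J₀ ≤ J →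
      ∀ (S : Finset ℂ) (y T : ℂ → ℝ), (∀ s ∈ S, 0 < T s) → ∑ s ∈ S, (b + C₂ * J / T s) ≤ J / 4 →
      ∃ (Ξ : ℂ → ℂ) (J₁ : ℂ) (D : ℝ), DifferentiableOn ℂ Ξ {w | 0 < w.re} ∧
        (∀ w : ℂ, 0 < w.re → min w.re J / 10 ≤ (Ξ w).re) ∧
        (∀ w : ℂ, 0 < w.re → (Ξ w).re ≤ 3 * J) ∧
        (∀ w : ℂ, 0 < w.re → ‖w‖ ≤ K → ‖Ξ w - w‖ ≤ η) ∧
        (∀ s ∈ S, ∀ w : ℂ, x₀ ≤ w.re → w.re ≤ x₁ → |w.im - y s| ≤ b → (Ξ w).re ≤ T s) ∧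
        (∀ w : ℂ, 0 < w.re → ‖Ξ w - J₁‖ ≤ D / w.re) ∧
        (∀ w w' : ℂ, x₀ ≤ w.re → w.re ≤ x₁ → x₀ ≤ w'.re → w'.re ≤ x₁ → |w.im - w'.im| ≤ 2 * b →
          ‖Ξ w - Ξ w'‖ ≤ H * (Ξ w).re)

/-! ### Step 9 -/

def Stmt_Low : Prop :=
  ∀ (Z : Set ℂ) (F w₀ W : ℂ → ℂ) (x₀ x₁ l₀ l₃ η : ℝ), IsCompact Z → Hol Z F → IsBr Z F w₀ →
    (∀ z ∈ Z, Complex.exp (W z) = F z) → 10 ≤ x₀ → x₀ < x₁ →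
    (∀ z ∈ Z, Real.exp x₀ ≤ ‖F z‖ ∧ ‖F z‖ ≤ Real.exp x₁) → l₀ < l₃ → 0 < η →
    ∃ (Ξ : ℂ → ℂ) (J₁ : ℂ) (D : ℝ) (S : Finset ℂ), DifferentiableOn ℂ Ξ {w | 0 < w.re} ∧ ↑S ⊆ Z ∧
      (∀ w : ℂ, x₀ ≤ w.re → x₀ / 10 ≤ (Ξ w).re) ∧ (∀ w : ℂ, 0 < w.re → ‖Ξ w - J₁‖ ≤ D / w.re) ∧
      ∀ w₁ : ℂ → ℂ, IsBr Z F w₁ → (∀ s ∈ S, w₁ s = W s) → ∃ Φ : ℂ → ℂ, AHol Z Φ η ∧
        (∀ z ∈ Z, ‖F z‖ ≤ l₀ → Complex.exp (Φ z) = F z) ∧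
        (∀ z ∈ Z, l₃ ≤ ‖F z‖ → Φ z = Ξ (w₁ z)) ∧ ∀ z ∈ Z, x₀ / 20 ≤ (Φ z).re

/-! ### Step 10 -/

def Stmt_Up : Prop :=
  ∀ (Z : Set ℂ) (F Ξ : ℂ → ℂ) (J₁ : ℂ) (D x₀ x₁ c₀ l₀ l₃ κ : ℝ), IsCompact Z → Hol Z F →
    DifferentiableOn ℂ Ξ {w | 0 < w.re} → 0 < x₀ → 0 < c₀ → x₀ ≤ x₁ →
    (∀ z ∈ Z, Real.exp x₁ ≤ ‖F z‖) → (∀ w : ℂ, x₀ ≤ w.re → c₀ ≤ (Ξ w).re) →
    (∀ w : ℂ, 0 < w.re → ‖Ξ w - J₁‖ ≤ D / w.re) → l₀ < l₃ → 0 < κ →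
    ∃ S : Finset ℂ, ↑S ⊆ Z ∧ ∀ w w' : ℂ → ℂ, IsBr Z F w → IsBr Z F w' → (∀ s ∈ S, w s = w' s) →
      ∃ Φ : ℂ → ℂ, AHol Z Φ κ ∧ (∀ z ∈ Z, ‖F z‖ ≤ l₀ → Φ z = Ξ (w z)) ∧
        (∀ z ∈ Z, l₃ ≤ ‖F z‖ → Φ z = Ξ (w' z)) ∧ (∀ z ∈ Z, c₀ / 2 ≤ (Φ z).re) ∧
        ∀ z ∈ Z, ‖Φ z - J₁‖ ≤ 4 * D / x₁

/-! ### Step 11 -/

def Stmt_Glob : Prop :=
  ∀ (L E : Set ℂ) (F : ℂ → ℂ), Dat L E F → ∃ X₀ : ℝ, ∀ x₀ η : ℝ, X₀ ≤ x₀ → 0 < η →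
    ∃ Φ : ℂ → ℂ, AHol (up L E F (Real.exp x₀)) Φ η ∧
      (∀ z ∈ L \ E, Real.exp x₀ ≤ ‖F z‖ → ‖F z‖ ≤ 4 / 3 * Real.exp x₀ → Complex.exp (Φ z) = F z) ∧
      ∀ z ∈ up L E F (Real.exp x₀), x₀ / 20 ≤ (Φ z).re

/-! ### Step 12 -/

def Stmt_Core : Prop :=
  ∀ (L E : Set ℂ) (F : ℂ → ℂ), Dat L E F → ∀ ε ρ : ℝ, 0 < ε → ∃ (R : ℝ) (g : ℂ → ℂ), ρ ≤ R ∧ Hol L g ∧
    (∀ z ∈ L \ E, ‖F z‖ ≤ R → ‖g z - F z‖ ≤ ε) ∧ (∀ z ∈ L, (z ∈ E ∨ R ≤ ‖F z‖) → ρ ≤ ‖g z‖)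

/-- Limits lie in `M(L)`. -/
def Stmt_Easy : Prop :=
  ∀ (L : Set ℂ) (f : ℂ → OnePoint ℂ), IsCompact L → ChordLim L f → InM L f

/-- From the core to the class `M(L)`. -/
def Stmt_Hard : Prop :=
  ∀ (L : Set ℂ) (f : ℂ → OnePoint ℂ), IsCompact L → IsConnected Lᶜ → InM L f → ChordLim L f

end Pool.Agent.CMerg
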