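import Pool.Agent.BlMat.C1
import Pool.Agent.CMerg.Defs

set_option autoImplicit false

/-!
# Step 1: correction of an almost holomorphic function by a Cauchy transform
-/

namespace Pool.Agent.CMerg

open Complex Metric Set Filter Topology MeasureTheory
open scoped ComplexConjugate ContDiff

namespace Corr

open Pool.Agent.BlMat (cauchyT)
open Pool.Agent.BlMat.C1 (integrableOn_inv_ball norm_integrand_le integrable_bound)

theorem setIntegral_inv_ball {r : ℝ} (hr : 0 ≤ r) :
    ∫ w in ball (0 : ℂ) r, ‖w‖⁻¹ = 2 * Real.pi * r := by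
  have h := integral_fun_norm_addHaar (volume : Measure ℂ)
    (fun y : ℝ => (Iio r).indicator (fun y => y⁻¹) y)
  have h1 : ∫ w in ball (0 : ℂ) r, ‖w‖⁻¹ =
      ∫ w : ℂ, (Iio r).indicator (fun y : ℝ => y⁻¹) ‖w‖ := by
    rw [← integral_indicator measurableSet_ball]
    refine integral_congr_ae (Eventually.of_forall fun w => ?_)
    simp only [indicator, mem_ball, dist_zero_right, mem_Iio]
  rw [h1, h]
  have h2 : ∫ y in Ioi (0 : ℝ), y ^ (Module.finrank ℝ ℂ - 1) •
      (Iio r).indicator (fun y : ℝ => y⁻¹) y = r := by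
    have h3 : ∀ y ∈ Ioi (0 : ℝ), y ^ (Module.finrank ℝ ℂ - 1) •
        (Iio r).indicator (fun y : ℝ => y⁻¹) y = (Iio r).indicator (fun _ => (1 : ℝ)) y := by
      intro y hy
      have hy0 : y ≠ 0 := ne_of_gt hy
      simp only [Complex.finrank_real_complex, Nat.add_one_sub_one, pow_one, smul_eq_mul]
      by_cases hyr : y ∈ Iio r
      · rw [indicator_of_mem hyr, indicator_of_mem hyr, mul_inv_cancel₀ hy0]
      · rw [indicator_of_notMem hyr, indicator_of_notMem hyr, mul_zero]
    rw [setIntegral_congr_fun measurableSet_Ioi h3, setIntegral_indicator measurableSet_Iio,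
      setIntegral_const, Ioi_inter_Iio, Real.volume_real_Ioo_of_le hr]
    simp
  rw [h2, Complex.finrank_real_complex]
  have h4 : (volume : Measure ℂ).real (ball 0 1) = Real.pi := by
    rw [measureReal_def, Complex.volume_ball]
    simp
  rw [h4]
  simp only [smul_eq_mul, nsmul_eq_mul]
  push_cast
  ring

/-- Bounded measurable densities with bounded support. -/
structure Den (u : ℂ → ℂ) (R B : ℝ) : Prop where
  meas : Measurable u
  supp : ∀ z, R < ‖z‖ → u z = 0
  bd : ∀ z, ‖u z‖ ≤ B

theorem Den.nonneg {u : ℂ → ℂ} {R B : ℝ} (h : Den u R B) : 0 ≤ B :=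
  (norm_nonneg _).trans (h.bd 0)

theorem Den.integrable_integrand {u : ℂ → ℂ} {R B : ℝ} (h : Den u R B) (z : ℂ) :
    Integrable (fun w => u (z - w) / w) := by
  refine Integrable.mono' ((integrable_bound z R).const_mul B) ?_
    (Eventually.of_forall (norm_integrand_le h.supp h.bd z))
  exact ((h.meas.comp (measurable_const.sub measurable_id)).div
    measurable_id).aestronglyMeasurable

theorem Den.integrable {u : ℂ → ℂ} {R B : ℝ} (h : Den u R B) : Integrable u := by
  have h1 : Integrable ((closedBall (0 : ℂ) R).indicator (fun _ => B)) := by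
    refine (integrableOn_const ?_).integrable_indicator measurableSet_closedBall
    exact measure_closedBall_lt_top.ne
  refine Integrable.mono' h1 h.meas.aestronglyMeasurable (Eventually.of_forall fun z => ?_)
  by_cases hz : z ∈ closedBall (0 : ℂ) R
  · rw [indicator_of_mem hz]
    exact h.bd z
  · rw [indicator_of_notMem hz]
    rw [mem_closedBall_zero_iff, not_le] at hz
    simp [h.supp z hz]

theorem Den.cauchyT_sub {u v : ℂ → ℂ} {R B R' B' : ℝ} (hu : Den u R B) (hv : Den v R' B')
    (z : ℂ) : cauchyT (fun s => u s - v s) z = cauchyT u z - cauchyT v z := by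
  simp only [cauchyT]
  rw [← mul_sub, ← integral_sub (hu.integrable_integrand z) (hv.integrable_integrand z)]
  congr 1
  refine integral_congr_ae (Eventually.of_forall fun w => ?_)
  simp only
  ring

/-- The area bound. -/
theorem Den.bound {u : ℂ → ℂ} {R κ : ℝ} (hu : Den u R κ) {U : Set ℂ} (hU : MeasurableSet U)
    (h0 : ∀ z, z ∉ U → u z = 0) {a : ℝ} (ha : 0 < a) (hv : volume U ≤ ENNReal.ofReal a) (z : ℂ) :
    ‖cauchyT u z‖ ≤ Real.pi⁻¹ * (κ * ((2 * Real.pi + 1) * √a)) := by
  have hκ := hu.nonneg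
  set r := √a with hr
  have hr0 : 0 < r := Real.sqrt_pos.mpr ha
  have har : a = r * r := (Real.mul_self_sqrt ha.le).symm
  set V : Set ℂ := (fun w => z - w) ⁻¹' U with hV
  have hVm : MeasurableSet V := (measurable_const.sub measurable_id) hU
  have hVv : volume V = volume U := by
    have := (Measure.measurePreserving_sub_left (volume : Measure ℂ) z).measure_preimage
      hU.nullMeasurableSet
    exact this
  have hVf : volume V ≠ ⊤ := by
    rw [hVv]
    exact (hv.trans_lt ENNReal.ofReal_lt_top).ne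
  have hVr : volume.real V ≤ a := by
    rw [measureReal_def, hVv]
    exact ENNReal.toReal_le_of_le_ofReal ha.le hv
  have hi1 : Integrable (fun w : ℂ => (ball (0 : ℂ) r).indicator (fun w => ‖w‖⁻¹) w) :=
    (integrableOn_inv_ball r).integrable_indicator measurableSet_ball
  have hi2 : Integrable (fun w : ℂ => V.indicator (fun _ => r⁻¹) w) :=
    (integrableOn_const hVf).integrable_indicator hVm
  have h1 : ∀ w, ‖u (z - w) / w‖ ≤ κ * ((ball (0 : ℂ) r).indicator (fun w => ‖w‖⁻¹) w +
      V.indicator (fun _ => r⁻¹) w) := by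
    intro w
    have hb1 : 0 ≤ (ball (0 : ℂ) r).indicator (fun w => ‖w‖⁻¹) w :=
      indicator_nonneg (fun _ _ => inv_nonneg.mpr (norm_nonneg _)) _
    have hb2 : 0 ≤ V.indicator (fun _ => r⁻¹) w :=
      indicator_nonneg (fun _ _ => inv_nonneg.mpr hr0.le) _
    rw [norm_div, div_eq_mul_inv]
    by_cases hw : w ∈ ball (0 : ℂ) r
    · calc ‖u (z - w)‖ * ‖w‖⁻¹ ≤ κ * ‖w‖⁻¹ := by gcongr; exact hu.bd _
        _ = κ * (ball (0 : ℂ) r).indicator (fun w => ‖w‖⁻¹) w := by rw [indicator_of_mem hw]
        _ ≤ _ := by gcongr; linarith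
    · by_cases hz : w ∈ V
      · have h2 : r ≤ ‖w‖ := by simpa using hw
        have h3 : ‖w‖⁻¹ ≤ r⁻¹ := by gcongr
        calc ‖u (z - w)‖ * ‖w‖⁻¹ ≤ κ * r⁻¹ := by gcongr; exact hu.bd _
          _ = κ * V.indicator (fun _ => r⁻¹) w := by rw [indicator_of_mem hz]
          _ ≤ _ := by gcongr; linarith
      · have h2 : u (z - w) = 0 := h0 _ hz
        rw [h2, norm_zero, zero_mul]
        positivity
  have h2 := norm_integral_le_of_norm_le ((hi1.add hi2).const_mul κ) (Eventually.of_forall h1)
  have h3 : ∫ w, κ * ((ball (0 : ℂ) r).indicator (fun w => ‖w‖⁻¹) w +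
      V.indicator (fun _ => r⁻¹) w) = κ * (2 * Real.pi * r + volume.real V * r⁻¹) := by
    rw [integral_const_mul, integral_add hi1 hi2, integral_indicator measurableSet_ball,
      integral_indicator hVm, setIntegral_const, setIntegral_inv_ball hr0.le, smul_eq_mul]
  rw [cauchyT, norm_mul, norm_inv, Complex.norm_real, Real.norm_of_nonneg Real.pi_pos.le]
  have h4 : volume.real V * r⁻¹ ≤ r := by
    calc volume.real V * r⁻¹ ≤ a * r⁻¹ := by gcongr
      _ = r := by rw [har]; field_simp
  have h5 : ‖∫ w, u (z - w) / w‖ ≤ κ * (2 * Real.pi * r + volume.real V * r⁻¹) := by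
    refine h2.trans ?_
    exact h3.le
  calc Real.pi⁻¹ * ‖∫ w, u (z - w) / w‖
      ≤ Real.pi⁻¹ * (κ * (2 * Real.pi * r + volume.real V * r⁻¹)) := by
        gcongr
    _ ≤ Real.pi⁻¹ * (κ * (2 * Real.pi * r + r)) := by gcongr
    _ = _ := by ring

/-- The truncated Cauchy kernel. -/
noncomputable def ker (ρ : ℝ) (w : ℂ) : ℂ := conj w * ((max (‖w‖ ^ 2) (ρ ^ 2) : ℝ) : ℂ)⁻¹

theorem max_pos {ρ : ℝ} (hρ : 0 < ρ) (w : ℂ) : 0 < max (‖w‖ ^ 2) (ρ ^ 2) :=
  lt_of_lt_of_le (by positivity) (le_max_right _ _)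

theorem continuous_ker {ρ : ℝ} (hρ : 0 < ρ) : Continuous (ker ρ) := by
  unfold ker
  refine (continuous_conj).mul (Continuous.inv₀ ?_ ?_)
  · exact continuous_ofReal.comp ((continuous_norm.pow 2).max continuous_const)
  · intro w
    exact_mod_cast (max_pos hρ w).ne'

theorem norm_ker_le {ρ : ℝ} (hρ : 0 < ρ) (w : ℂ) : ‖ker ρ w‖ ≤ ρ⁻¹ := by
  have h := max_pos hρ w
  rw [ker, norm_mul, norm_inv, Complex.norm_real, Real.norm_of_nonneg h.le, RCLike.norm_conj,
    ← div_eq_mul_inv, div_le_iff₀ h]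
  by_cases hw : ρ ≤ ‖w‖
  · calc ‖w‖ = ρ⁻¹ * (ρ * ‖w‖) := by field_simp
      _ ≤ ρ⁻¹ * (‖w‖ * ‖w‖) := by gcongr
      _ = ρ⁻¹ * ‖w‖ ^ 2 := by ring
      _ ≤ _ := by gcongr; exact le_max_left _ _
  · calc ‖w‖ ≤ ρ := (not_le.mp hw).le
      _ = ρ⁻¹ * ρ ^ 2 := by field_simp
      _ ≤ _ := by gcongr; exact le_max_right _ _

theorem ker_sub {ρ : ℝ} (hρ : 0 < ρ) (w : ℂ) :
    ‖w⁻¹ - ker ρ w‖ ≤ (ball (0 : ℂ) ρ).indicator (fun w => ‖w‖⁻¹) w := by
  by_cases hw0 : w = 0
  · subst hw0
    have : (0 : ℂ) ∈ ball (0 : ℂ) ρ := by simpa using hρ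
    rw [indicator_of_mem this]
    simp [ker]
  have hn : 0 < ‖w‖ := norm_pos_iff.mpr hw0
  have h1 : w⁻¹ = conj w * ((‖w‖ ^ 2 : ℝ) : ℂ)⁻¹ := by
    rw [Complex.inv_def, Complex.normSq_eq_norm_sq]
    push_cast
    rfl
  by_cases hw : w ∈ ball (0 : ℂ) ρ
  · rw [indicator_of_mem hw]
    rw [mem_ball_zero_iff] at hw
    have h2 : max (‖w‖ ^ 2) (ρ ^ 2) = ρ ^ 2 := max_eq_right (by gcongr)
    rw [h1, ker, h2, ← mul_sub, norm_mul, RCLike.norm_conj, ← ofReal_inv, ← ofReal_inv,
      ← ofReal_sub, Complex.norm_real]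
    have h3 : (ρ ^ 2)⁻¹ ≤ (‖w‖ ^ 2)⁻¹ := by gcongr
    rw [Real.norm_of_nonneg (by linarith)]
    have h4 : 0 < (ρ ^ 2)⁻¹ := by positivity
    calc ‖w‖ * ((‖w‖ ^ 2)⁻¹ - (ρ ^ 2)⁻¹) ≤ ‖w‖ * (‖w‖ ^ 2)⁻¹ := by gcongr; linarith
      _ = ‖w‖⁻¹ := by field_simp
  · rw [indicator_of_notMem hw]
    rw [mem_ball_zero_iff, not_lt] at hw
    have h2 : max (‖w‖ ^ 2) (ρ ^ 2) = ‖w‖ ^ 2 := max_eq_left (by gcongr)
    rw [h1, ker, h2, sub_self, norm_zero]

theorem Den.continuous {u : ℂ → ℂ} {R B : ℝ} (h : Den u R B) : Continuous (cauchyT u) := by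
  have hB := h.nonneg
  refine continuous_const.mul ?_
  refine continuous_of_uniform_approx_of_continuous ?_
  intro V hV
  obtain ⟨ε, hε, hεV⟩ := Metric.mem_uniformity_dist.mp hV
  -- radius of truncation
  obtain ⟨ρ, hρ, hρε⟩ : ∃ ρ : ℝ, 0 < ρ ∧ B * (2 * Real.pi * ρ) < ε := by
    refine ⟨ε / (2 * (B + 1) * (2 * Real.pi)), by positivity, ?_⟩
    have hpi := Real.pi_pos
    rw [show B * (2 * Real.pi * (ε / (2 * (B + 1) * (2 * Real.pi)))) = ε * (B / (2 * (B + 1))) by
      field_simp]
    have h1 : B / (2 * (B + 1)) < 1 := by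
      rw [div_lt_one (by positivity)]
      linarith
    nlinarith
  refine ⟨fun z => ∫ w, u (z - w) * ker ρ w, ?_, ?_⟩
  · have h1 : (fun z => ∫ w, u (z - w) * ker ρ w) = fun z => ∫ s, u s * ker ρ (z - s) := by
      funext z
      rw [← integral_sub_left_eq_self (fun s => u s * ker ρ (z - s)) volume z]
      simp
    rw [h1]
    refine continuous_of_dominated (bound := fun s => ‖u s‖ * ρ⁻¹) ?_ ?_ ?_ ?_
    · intro z
      exact (h.meas.mul ((continuous_ker hρ).measurable.comp
        (measurable_const.sub measurable_id))).aestronglyMeasurable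
    · intro z
      refine Eventually.of_forall fun s => ?_
      rw [norm_mul]
      gcongr
      exact norm_ker_le hρ _
    · exact h.integrable.norm.mul_const _
    · refine Eventually.of_forall fun s => ?_
      exact continuous_const.mul ((continuous_ker hρ).comp (by fun_prop))
  · intro z
    apply hεV
    have hi2 : Integrable (fun w => u (z - w) * ker ρ w) := by
      have h2 : Integrable (fun w => u (z - w)) := h.integrable.comp_sub_left z
      refine Integrable.mono' (h2.norm.mul_const ρ⁻¹) ?_ (Eventually.of_forall fun w => ?_)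
      · exact ((h.meas.comp (measurable_const.sub measurable_id)).mul
          (continuous_ker hρ).measurable).aestronglyMeasurable
      · rw [norm_mul]
        gcongr
        exact norm_ker_le hρ _
    rw [dist_eq_norm, ← integral_sub (h.integrable_integrand z) hi2]
    have hi3 : Integrable (fun w : ℂ => B * (ball (0 : ℂ) ρ).indicator (fun w => ‖w‖⁻¹) w) :=
      ((integrableOn_inv_ball ρ).integrable_indicator measurableSet_ball).const_mul B
    refine (norm_integral_le_of_norm_le hi3 (Eventually.of_forall fun w => ?_)).trans_lt ?_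
    · rw [div_eq_mul_inv, ← mul_sub, norm_mul]
      gcongr
      · exact h.bd _
      · exact ker_sub hρ w
    · rw [integral_const_mul, integral_indicator measurableSet_ball, setIntegral_inv_ball hρ.le]
      exact hρε

theorem Den.differentiableAt {u : ℂ → ℂ} {R B : ℝ} (h : Den u R B) {z₀ : ℂ} {r : ℝ} (hr : 0 < r)
    (h0 : ∀ z ∈ ball z₀ r, u z = 0) : DifferentiableAt ℂ (cauchyT u) z₀ := by
  have h1 : cauchyT u = fun z => (Real.pi : ℂ)⁻¹ * ∫ s, u s * (z - s)⁻¹ := by
    funext z
    rw [cauchyT, ← integral_sub_left_eq_self (fun s => u s * (z - s)⁻¹) volume z]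
    simp [div_eq_mul_inv]
  rw [h1]
  have hfar : ∀ s z : ℂ, z ∈ ball z₀ (r / 2) → u s ≠ 0 → r / 2 ≤ ‖z - s‖ := by
    intro s z hz hs
    have h2 : s ∉ ball z₀ r := fun h3 => hs (h0 s h3)
    rw [mem_ball, dist_eq_norm, not_lt] at h2
    rw [mem_ball, dist_eq_norm] at hz
    have h3 : ‖s - z₀‖ ≤ ‖z - s‖ + ‖z - z₀‖ := by
      have : s - z₀ = (z - z₀) - (z - s) := by ring
      rw [this]
      exact (norm_sub_le _ _).trans (by linarith)
    linarith
  have hder := (hasDerivAt_integral_of_dominated_loc_of_deriv_le (μ := (volume : Measure ℂ))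
    (F := fun z s => u s * (z - s)⁻¹) (F' := fun z s => -(u s * ((z - s) ^ 2)⁻¹))
    (x₀ := z₀) (s := ball z₀ (r / 2)) (bound := fun s => ‖u s‖ * (4 / r ^ 2))
    (ball_mem_nhds z₀ (by positivity)) ?_ ?_ ?_ ?_ ?_ ?_).2
  · exact (hder.const_mul _).differentiableAt
  · refine Eventually.of_forall fun z => ?_
    exact (h.meas.mul (measurable_const.sub measurable_id).inv).aestronglyMeasurable
  · refine Integrable.mono' (h.integrable.norm.mul_const (2 / r))
      ((h.meas.mul (measurable_const.sub measurable_id).inv).aestronglyMeasurable)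
      (Eventually.of_forall fun s => ?_)
    rw [norm_mul, norm_inv]
    by_cases hs : u s = 0
    · simp [hs]
    · have h2 := hfar s z₀ (mem_ball_self (by positivity)) hs
      gcongr
      calc ‖z₀ - s‖⁻¹ ≤ (r / 2)⁻¹ := by gcongr
        _ = 2 / r := by field_simp
  · exact (h.meas.mul ((measurable_const.sub measurable_id).pow_const 2).inv).neg.aestronglyMeasurable
  · refine Eventually.of_forall fun s z hz => ?_
    rw [norm_neg, norm_mul, norm_inv, norm_pow]
    by_cases hs : u s = 0
    · simp [hs]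
    · have h2 := hfar s z hz hs
      gcongr
      calc (‖z - s‖ ^ 2)⁻¹ ≤ ((r / 2) ^ 2)⁻¹ := by gcongr
        _ = 4 / r ^ 2 := by field_simp; norm_num
  · exact h.integrable.norm.mul_const _
  · refine Eventually.of_forall fun s z hz => ?_
    by_cases hs : u s = 0
    · simp only [hs, zero_mul, neg_zero]
      exact hasDerivAt_const _ _
    · have h2 := hfar s z hz hs
      have h3 : z - s ≠ 0 := by
        intro h4
        rw [h4, norm_zero] at h2
        linarith
      have h4 := (((hasDerivAt_id z).sub_const s).inv h3).const_mul (u s)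
      have h5 : -(u s * ((z - s) ^ 2)⁻¹) = u s * (-1 / (id z - s) ^ 2) := by
        simp only [id, div_eq_mul_inv]
        ring
      rw [h5]
      exact h4

end Corr

open Corr in
theorem corr : Stmt_Corr := by
  refine ⟨Real.pi⁻¹ * (2 * Real.pi + 1), by positivity, ?_⟩
  intro X Φ κ a hX hΦ hκ ha hv
  obtain ⟨hΦc, hΦd, hΦb⟩ := hΦ
  set U := interior X with hU
  have hUo : IsOpen U := isOpen_interior
  have hUm : MeasurableSet U := hUo.measurableSet
  obtain ⟨R, hR⟩ := hX.isBounded.subset_closedBall (0 : ℂ)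
  set u : ℂ → ℂ := U.indicator (dzb Φ) with hu
  have hdm : Measurable (dzb Φ) := by
    have h1 := measurable_fderiv_apply_const ℝ Φ (1 : ℂ)
    have h2 := measurable_fderiv_apply_const ℝ Φ (I : ℂ)
    exact (h1.add (h2.const_mul I)).div_const 2
  have hDen : Den u R κ := by
    refine ⟨hdm.indicator hUm, ?_, ?_⟩
    · intro z hz
      refine indicator_of_notMem (fun h => ?_) _
      have h1 := hR (interior_subset h)
      rw [mem_closedBall_zero_iff] at h1
      linarith
    · intro z
      by_cases hz : z ∈ U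
      · rw [hu, indicator_of_mem hz]
        exact hΦb z hz
      · rw [hu, indicator_of_notMem hz, norm_zero]
        exact hκ
  have hu0 : ∀ z, z ∉ U → u z = 0 := fun z hz => indicator_of_notMem hz _
  refine ⟨fun z => Φ z - Pool.Agent.BlMat.cauchyT u z, ⟨?_, ?_⟩, ?_⟩
  · exact hΦc.sub hDen.continuous.continuousOn
  · intro z₀ hz₀
    apply DifferentiableAt.differentiableWithinAt
    -- a small disc
    obtain ⟨r', hr', hr'U⟩ := Metric.isOpen_iff.mp hUo z₀ hz₀
    set r := r' / 4 with hr
    have hr0 : 0 < r := by positivity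
    have hrU : closedBall z₀ (2 * r) ⊆ U := by
      refine (closedBall_subset_ball ?_).trans hr'U
      rw [hr]
      linarith
    let ψ : ContDiffBump z₀ := ⟨r, 2 * r, hr0, by linarith⟩
    set v : ℂ → ℂ := fun z => (ψ z : ℂ) * dzb Φ z with hv'
    have hdzb : ContDiffOn ℝ 1 (dzb Φ) U := by
      have h1 : ContDiffOn ℝ 1 (fderiv ℝ Φ) U := hΦd.fderiv_of_isOpen hUo (by norm_num)
      have h2 : ContDiffOn ℝ 1 (fun z => fderiv ℝ Φ z 1) U := h1.clm_apply contDiffOn_const
      have h3 : ContDiffOn ℝ 1 (fun z => fderiv ℝ Φ z I) U := h1.clm_apply contDiffOn_const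
      exact (h2.add (contDiffOn_const.mul h3)).div_const 2
    have hψs : tsupport (ψ : ℂ → ℝ) ⊆ U := by
      rw [ψ.tsupport_eq]
      exact hrU
    have hvs : Function.support v ⊆ tsupport (ψ : ℂ → ℝ) := by
      intro z hz
      apply subset_tsupport
      intro h
      apply hz
      simp [hv', h]
    have hvc : HasCompactSupport v := by
      refine HasCompactSupport.of_support_subset_isCompact ψ.hasCompactSupport ?_
      exact hvs
    have hvC : ContDiff ℝ 1 v := by
      rw [contDiff_iff_contDiffAt]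
      intro z
      by_cases hz : z ∈ U
      · have h1 : ContDiffAt ℝ 1 (fun z => ((ψ z : ℝ) : ℂ)) z :=
          ofRealCLM.contDiff.contDiffAt.comp z ψ.contDiffAt
        exact h1.mul (hdzb.contDiffAt (hUo.mem_nhds hz))
      · have h1 : z ∉ tsupport (ψ : ℂ → ℝ) := fun h => hz (hψs h)
        have h2 : v =ᶠ[𝓝 z] fun _ => 0 := by
          filter_upwards [(isClosed_tsupport (ψ : ℂ → ℝ)).isOpen_compl.mem_nhds h1] with y hy
          by_contra h3
          exact hy (hvs h3)
        exact contDiffAt_const.congr_of_eventuallyEq h2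
    have hvDen : Den v R κ := by
      refine ⟨hvC.continuous.measurable, ?_, ?_⟩
      · intro z hz
        by_contra h
        have h1 := hR (interior_subset (hψs (hvs h)))
        rw [mem_closedBall_zero_iff] at h1
        linarith
      · intro z
        by_cases hz : v z = 0
        · rw [hz, norm_zero]
          exact hκ
        · have h1 : z ∈ U := hψs (hvs hz)
          rw [hv', norm_mul, Complex.norm_real, Real.norm_of_nonneg ψ.nonneg]
          calc ψ z * ‖dzb Φ z‖ ≤ 1 * κ := by
                gcongr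
                · exact ψ.le_one
                · exact hΦb z h1
            _ = κ := one_mul κ
    have hwDen : Den (fun s => u s - v s) R (κ + κ) := by
      refine ⟨hDen.meas.sub hvDen.meas, ?_, ?_⟩
      · intro z hz
        rw [hDen.supp z hz, hvDen.supp z hz, sub_zero]
      · intro z
        exact (norm_sub_le _ _).trans (add_le_add (hDen.bd z) (hvDen.bd z))
    have hw0 : ∀ z ∈ ball z₀ r, u z - v z = 0 := by
      intro z hz
      have h1 : z ∈ U := hrU (ball_subset_closedBall (ball_subset_ball (by linarith) hz))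
      have h2 : ψ z = 1 := ψ.one_of_mem_closedBall (ball_subset_closedBall hz)
      rw [hu, indicator_of_mem h1, hv']
      simp [h2]
    have hA : DifferentiableAt ℂ (Pool.Agent.BlMat.cauchyT fun s => u s - v s) z₀ :=
      hwDen.differentiableAt hr0 hw0
    have hB : DifferentiableAt ℂ (fun z => Φ z - Pool.Agent.BlMat.cauchyT v z) z₀ := by
      have h1 : DifferentiableAt ℝ Φ z₀ :=
        (hΦd.contDiffAt (hUo.mem_nhds hz₀)).differentiableAt (by norm_num)
      have h2 : DifferentiableAt ℝ (Pool.Agent.BlMat.cauchyT v) z₀ :=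
        (Pool.Agent.BlMat.C1.contDiff_cauchyT hvC hvc).differentiable one_ne_zero z₀
      refine (Pool.Agent.BlMat.differentiableAt_of_dzb (h1.sub h2) ?_).1
      change Pool.Agent.BlMat.dzb (fun w => Φ w - Pool.Agent.BlMat.cauchyT v w) z₀ = 0
      rw [(Pool.Agent.BlMat.dz_sub h1 h2).2, Pool.Agent.BlMat.C1.dzb_cauchyT hvC hvc]
      have h3 : ψ z₀ = 1 := ψ.one_of_mem_closedBall (mem_closedBall_self hr0.le)
      rw [hv']
      simp [h3]
    have hC : (fun z => Φ z - Pool.Agent.BlMat.cauchyT u z) = fun z =>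
        (Φ z - Pool.Agent.BlMat.cauchyT v z) -
          Pool.Agent.BlMat.cauchyT (fun s => u s - v s) z := by
      funext z
      rw [hDen.cauchyT_sub hvDen z]
      ring
    rw [hC]
    exact hB.sub hA
  · intro z _
    have h1 : ‖Φ z - Pool.Agent.BlMat.cauchyT u z - Φ z‖ = ‖Pool.Agent.BlMat.cauchyT u z‖ := by
      rw [← norm_neg]
      congr 1
      ring
    rw [h1]
    rcases ha.eq_or_lt with ha0 | ha0
    · -- zero area: the interior is empty
      have h2 : U = ∅ := by
        have h3 : volume U = 0 := by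
          rw [← ha0, ENNReal.ofReal_zero] at hv
          simpa using hv
        exact (hUo.measure_eq_zero_iff volume).mp h3
      have h3 : u = fun _ => 0 := by
        rw [hu, h2, indicator_empty]
      rw [h3, ← ha0, Real.sqrt_zero, mul_zero]
      simp [Pool.Agent.BlMat.cauchyT]
    · have h2 := hDen.bound hUm hu0 ha0 hv z
      calc _ ≤ _ := h2
        _ = _ := by ring

end Pool.Agent.CMerg
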