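import Pool.Agent.CMerg.Defs

set_option autoImplicit false

/-!
# Chordal Mergelyan theorem: eventual branches (module EB)
-/

namespace Pool.Agent.CMerg

open Complex Metric Set Filter Topology

namespace EB

/-- two branches differ by a constant on a preconnected set -/
theorem diff_const {X T : Set ℂ} {F u v : ℂ → ℂ} (hu : IsBr X F u) (hv : IsBr X F v)
    (hT : IsPreconnected T) (hTX : T ⊆ X) {z z' : ℂ} (hz : z ∈ T) (hz' : z' ∈ T) :
    u z - v z = u z' - v z' := by
  haveI : DiscreteTopology (AddSubgroup.zmultiples (2 * Real.pi * I : ℂ)) :=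
    NormedSpace.discreteTopology_zmultiples _
  have hc : ContinuousOn (fun x => u x - v x) T := (hu.1.mono hTX).sub (hv.1.mono hTX)
  have hm : MapsTo (fun x => u x - v x) T
      ((AddSubgroup.zmultiples (2 * Real.pi * I : ℂ) : AddSubgroup ℂ) : Set ℂ) := by
    intro x hx
    have h1 : Complex.exp (u x) = Complex.exp (v x) := by
      rw [hu.2 x (hTX hx), hv.2 x (hTX hx)]
    obtain ⟨n, hn⟩ := Complex.exp_eq_exp_iff_exists_int.1 h1
    rw [SetLike.mem_coe, AddSubgroup.mem_zmultiples_iff]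
    refine ⟨n, ?_⟩
    simp only [zsmul_eq_mul]
    rw [hn]
    ring
  exact hT.constant_of_mapsTo ⟨inferInstance⟩ hc hm hz hz'

/-- integer values prescribed at finitely many points extend to locally constant functions -/
theorem exists_lc {Y : Type*} [TopologicalSpace Y] [CompactSpace Y] [T2Space Y] (S : Finset Y)
    (k : Y → ℤ) (hk : ∀ s ∈ S, ∀ s' ∈ S, s' ∈ connectedComponent s → k s = k s') :
    ∃ g : Y → ℤ, IsLocallyConstant g ∧ ∀ s ∈ S, g s = k s := by
  classical
  induction S using Finset.induction_on with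
  | empty => exact ⟨fun _ => 0, IsLocallyConstant.const 0, fun s hs => absurd hs (by simp)⟩
  | insert a S ha ih =>
    obtain ⟨g, hg, hgk⟩ := ih fun s hs s' hs' h =>
      hk s (Finset.mem_insert_of_mem hs) s' (Finset.mem_insert_of_mem hs') h
    by_cases hex : ∃ s' ∈ S, s' ∈ connectedComponent a
    · obtain ⟨s', hs', hc⟩ := hex
      refine ⟨g, hg, fun s hs => ?_⟩
      rcases Finset.mem_insert.1 hs with rfl | hs
      · have h1 : g s = g s' :=
          hg.apply_eq_of_isPreconnected isPreconnected_connectedComponent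
            mem_connectedComponent hc
        rw [h1, hgk s' hs']
        exact (hk s (Finset.mem_insert_self _ _) s' (Finset.mem_insert_of_mem hs') hc).symm
      · exact hgk s hs
    · push Not at hex
      have hsep : ∀ s' ∈ S, ∃ Z : Set Y, IsClopen Z ∧ a ∈ Z ∧ s' ∉ Z := by
        intro s' hs'
        have h1 := hex s' hs'
        rw [connectedComponent_eq_iInter_isClopen, mem_iInter] at h1
        push Not at h1
        obtain ⟨Z, hZ⟩ := h1
        exact ⟨Z.1, Z.2.1, Z.2.2, hZ⟩
      choose! Z hZ1 hZ2 hZ3 using hsep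
      let Q : Set Y := ⋂ s' ∈ S, Z s'
      have hQ : IsClopen Q := isClopen_biInter_finset fun s' hs' => hZ1 s' hs'
      have haQ : a ∈ Q := mem_iInter₂.2 fun s' hs' => hZ2 s' hs'
      have hSQ : ∀ s' ∈ S, s' ∉ Q := fun s' hs' h => hZ3 s' hs' (mem_iInter₂.1 h s' hs')
      refine ⟨fun y => if y ∈ Q then k a else g y, ?_, fun s hs => ?_⟩
      · rw [IsLocallyConstant.iff_eventually_eq]
        intro x
        by_cases hx : x ∈ Q
        · filter_upwards [hQ.isOpen.mem_nhds hx] with y hy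
          simp [hx, hy]
        · filter_upwards [hQ.compl.isOpen.mem_nhds hx,
            (IsLocallyConstant.iff_eventually_eq g).1 hg x] with y hy hy'
          have hy2 : y ∉ Q := hy
          simp [hx, hy2, hy']
      · rcases Finset.mem_insert.1 hs with rfl | hs
        · simp [haQ]
        · have h1 := hSQ s hs
          simp [h1, hgk s hs]

/-- a branch with prescribed values at finitely many points -/
theorem correct {K : Set ℂ} (hK : IsCompact K) {F u : ℂ → ℂ} (hu : IsBr K F u) (W : ℂ → ℂ)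
    (S : Finset ℂ) (hSK : ↑S ⊆ K) (hW : ∀ s ∈ S, Complex.exp (W s) = F s)
    (hd : ∀ s ∈ S, ∀ s' ∈ S, s' ∈ connectedComponentIn K s → W s - u s = W s' - u s') :
    ∃ w, IsBr K F w ∧ ∀ s ∈ S, w s = W s := by
  classical
  haveI : CompactSpace K := isCompact_iff_compactSpace.1 hK
  have h1 : ∀ s ∈ S, ∃ n : ℤ, W s = u s + n * (2 * Real.pi * I) := by
    intro s hs
    apply Complex.exp_eq_exp_iff_exists_int.1
    rw [hW s hs, hu.2 s (hSK hs)]
  choose! k hk using h1
  have hpi : (2 * Real.pi * I : ℂ) ≠ 0 := Complex.two_pi_I_ne_zero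
  obtain ⟨g, hg, hgk⟩ := exists_lc (Y := K) (S.subtype (· ∈ K)) (fun y => k y.1) (by
    intro s hs s' hs' hc
    rw [Finset.mem_subtype] at hs hs'
    have h2 : s'.1 ∈ connectedComponentIn K s.1 := by
      rw [connectedComponentIn_eq_image s.2]
      exact ⟨s', hc, rfl⟩
    have h3 := hd s.1 hs s'.1 hs' h2
    rw [hk s.1 hs, hk s'.1 hs'] at h3
    have h4 : (k s.1 : ℂ) * (2 * Real.pi * I) = (k s'.1 : ℂ) * (2 * Real.pi * I) := by
      linear_combination h3
    exact_mod_cast mul_right_cancel₀ hpi h4)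
  refine ⟨fun z => if h : z ∈ K then u z + (g ⟨z, h⟩ : ℂ) * (2 * Real.pi * I) else 0, ⟨?_, ?_⟩, ?_⟩
  · rw [continuousOn_iff_continuous_domRestrict]
    have h5 : K.domRestrict (fun z => if h : z ∈ K then u z + (g ⟨z, h⟩ : ℂ) * (2 * Real.pi * I)
        else 0) = fun y : K => u y.1 + (g y : ℂ) * (2 * Real.pi * I) := by
      funext y
      exact dif_pos y.2
    rw [h5]
    have h6 : Continuous fun y : K => u y.1 := continuousOn_iff_continuous_domRestrict.1 hu.1
    have h7 : Continuous fun y : K => (g y : ℂ) :=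
      (hg.comp (fun n : ℤ => (n : ℂ))).continuous
    exact h6.add (h7.mul continuous_const)
  · intro z hz
    simp only [hz, dite_true]
    rw [Complex.exp_add, hu.2 z hz]
    have := Complex.exp_int_mul_two_pi_mul_I (g ⟨z, hz⟩)
    rw [this, mul_one]
  · intro s hs
    have hsK := hSK hs
    simp only [hsK, dite_true]
    rw [hgk ⟨s, hsK⟩ (Finset.mem_subtype.2 hs)]
    exact (hk s hs).symm

end EB

open EB in
theorem eb : Stmt_EB := by
  classical
  intro X F hmono hcpt hbr
  choose w hw using hbr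
  -- linked points
  have hmonoC : ∀ {m n : ℕ}, m ≤ n → ∀ {z z' : ℂ}, z' ∈ connectedComponentIn (X m) z →
      z' ∈ connectedComponentIn (X n) z := fun h _ _ hz => connectedComponentIn_mono _ (hmono h) hz
  have hmemX : ∀ {n : ℕ} {z z' : ℂ}, z' ∈ connectedComponentIn (X n) z → z ∈ X n ∧ z' ∈ X n := by
    intro n z z' h
    refine ⟨?_, connectedComponentIn_subset _ _ h⟩
    by_contra hz
    rw [connectedComponentIn_eq_empty hz] at h
    exact h
  have hbrle : ∀ {m n : ℕ}, m ≤ n → IsBr (X m) F (w n) := fun h =>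
    ⟨(hw _).1.mono (hmono h), fun z hz => (hw _).2 z (hmono h hz)⟩
  have hdiff : ∀ {m n n' : ℕ}, m ≤ n → m ≤ n' → ∀ {z z' : ℂ}, z' ∈ connectedComponentIn (X m) z →
      w n z' - w n z = w n' z' - w n' z := by
    intro m n n' h h' z z' hz
    have h1 := diff_const (hbrle h) (hbrle h') isPreconnected_connectedComponentIn
      (connectedComponentIn_subset _ _) hz (mem_connectedComponentIn (hmemX hz).1)
    linear_combination h1
  let R : ℂ → ℂ → Prop := fun z z' => ∃ n, z' ∈ connectedComponentIn (X n) z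
  have hsym : ∀ {n : ℕ} {z z' : ℂ}, z' ∈ connectedComponentIn (X n) z →
      z ∈ connectedComponentIn (X n) z' := by
    intro n z z' h
    rw [← connectedComponentIn_eq h]
    exact mem_connectedComponentIn (hmemX h).1
  let st : Setoid (⋃ n, X n : Set ℂ) :=
    { r := fun a b => R a.1 b.1
      iseqv := ⟨fun a => by
          obtain ⟨n, hn⟩ := mem_iUnion.1 a.2
          exact ⟨n, mem_connectedComponentIn hn⟩, fun {a b} h => by
          obtain ⟨n, hn⟩ := h
          exact ⟨n, hsym hn⟩, fun {a b c} h h' => by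
          obtain ⟨n, hn⟩ := h
          obtain ⟨m, hm⟩ := h'
          refine ⟨max n m, ?_⟩
          have h1 := hmonoC (le_max_left n m) hn
          have h2 := hmonoC (le_max_right n m) hm
          rw [connectedComponentIn_eq h1]
          exact h2⟩ }
  let rep : (⋃ n, X n : Set ℂ) → (⋃ n, X n : Set ℂ) := fun a => (Quotient.mk st a).out
  have hrep : ∀ a, ∃ n, a.1 ∈ connectedComponentIn (X n) (rep a).1 := fun a => Quotient.mk_out a
  have hrep2 : ∀ a b : (⋃ n, X n : Set ℂ), R a.1 b.1 → rep a = rep b := by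
    intro a b h
    have : Quotient.mk st a = Quotient.mk st b := Quotient.sound h
    show (Quotient.mk st a).out = (Quotient.mk st b).out
    rw [this]
  choose N hN using hrep
  have hlev : ∀ a : (⋃ n, X n : Set ℂ), ∃ n, a.1 ∈ X n := fun a => mem_iUnion.1 a.2
  choose lv hlv using hlev
  let W : ℂ → ℂ := fun z => if h : z ∈ ⋃ n, X n then
    w (lv (rep ⟨z, h⟩)) (rep ⟨z, h⟩).1 + (w (N ⟨z, h⟩) z - w (N ⟨z, h⟩) (rep ⟨z, h⟩).1) else 0
  have hWdef : ∀ a : (⋃ n, X n : Set ℂ), W a.1 =
      w (lv (rep a)) (rep a).1 + (w (N a) a.1 - w (N a) (rep a).1) := by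
    intro a
    show (if h : a.1 ∈ ⋃ n, X n then _ else _) = _
    rw [dif_pos a.2]
  have hWexp : ∀ z ∈ ⋃ n, X n, Complex.exp (W z) = F z := by
    intro z hz
    rw [hWdef ⟨z, hz⟩, Complex.exp_add, Complex.exp_sub]
    have h1 := hN ⟨z, hz⟩
    have h2 := hmemX h1
    rw [(hw _).2 _ (hlv _), (hw _).2 _ h2.2, (hw _).2 _ h2.1]
    have h3 : F (rep ⟨z, hz⟩).1 ≠ 0 := by
      rw [← (hw _).2 _ h2.1]
      exact Complex.exp_ne_zero _
    field_simp
  have hWdiff : ∀ {m : ℕ} {z z' : ℂ}, z' ∈ connectedComponentIn (X m) z →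
      W z' - W z = w m z' - w m z := by
    intro m z z' h
    have hz := (hmemX h).1
    have hz' := (hmemX h).2
    have e := hrep2 ⟨z, mem_iUnion.2 ⟨m, hz⟩⟩ ⟨z', mem_iUnion.2 ⟨m, hz'⟩⟩ ⟨m, h⟩
    rw [hWdef ⟨z, mem_iUnion.2 ⟨m, hz⟩⟩, hWdef ⟨z', mem_iUnion.2 ⟨m, hz'⟩⟩, ← e]
    have h1 := hN ⟨z, mem_iUnion.2 ⟨m, hz⟩⟩
    have h2 := hN ⟨z', mem_iUnion.2 ⟨m, hz'⟩⟩
    rw [← e] at h2
    set a := N ⟨z, mem_iUnion.2 ⟨m, hz⟩⟩
    set b := N ⟨z', mem_iUnion.2 ⟨m, hz'⟩⟩
    set r := (rep ⟨z, mem_iUnion.2 ⟨m, hz⟩⟩).1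
    set c := max m (max a b)
    have h3 := hdiff (n := a) (n' := c) le_rfl (by omega) h1
    have h4 := hdiff (n := b) (n' := c) le_rfl (by omega) h2
    have h5 := hdiff (n := m) (n' := c) le_rfl (by omega) h
    simp only at h3 h4 h5 ⊢
    linear_combination h4 - h3 - h5
  refine ⟨W, hWexp, fun S n hS => ?_⟩
  -- a level containing all points of `S`
  obtain ⟨M, hM⟩ : ∃ M, ↑S ⊆ X M := by
    have : ∀ s ∈ S, ∃ k, s ∈ X k := fun s hs => mem_iUnion.1 (hS hs)
    choose! l hl using this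
    refine ⟨S.sup l, fun s hs => hmono (Finset.le_sup hs) (hl s hs)⟩
  have hM' : ↑S ⊆ X (max n M) := hM.trans (hmono (le_max_right _ _))
  obtain ⟨v, hv, hvS⟩ := correct (hcpt (max n M)) (hw (max n M)) W S hM'
    (fun s hs => hWexp s (hS hs)) (fun s _ s' _ hc => by
      have := hWdiff hc
      linear_combination -this)
  exact ⟨max n M, v, le_max_left _ _, hv, hM', hvS⟩

end Pool.Agent.CMerg
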