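import Mathlib
import Pool.Agent.CMerg.Defs

set_option autoImplicit false

/-!
# Chordal limits of polynomials lie in the class `M(L)`
-/

namespace Pool.Agent.CMerg

open Complex Metric Set Filter Topology Polynomial

/-- a model of the sphere -/
noncomputable def sph : OnePoint ℂ → ℂ × ℝ
  | some a => (a / (1 + ‖a‖ ^ 2 : ℝ), 1 / (1 + ‖a‖ ^ 2))
  | none => (0, 0)

theorem sph_coe (a : ℂ) : sph (a : OnePoint ℂ) = (a / (1 + ‖a‖ ^ 2 : ℝ), 1 / (1 + ‖a‖ ^ 2)) := rfl

theorem sph_infty : sph OnePoint.infty = (0, 0) := rfl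

theorem chord_coe (a b : ℂ) : chord (a : OnePoint ℂ) (b : OnePoint ℂ) =
    ‖a - b‖ / (√(1 + ‖a‖ ^ 2) * √(1 + ‖b‖ ^ 2)) := rfl

theorem chord_coe_infty (a : ℂ) : chord (a : OnePoint ℂ) OnePoint.infty =
    1 / √(1 + ‖a‖ ^ 2) := rfl

theorem chord_nonneg (a : ℂ) (b : OnePoint ℂ) : 0 ≤ chord (a : OnePoint ℂ) b := by
  induction b using OnePoint.rec with
  | infty => rw [chord_coe_infty]; positivity
  | coe b => rw [chord_coe]; positivity

/-- the model is Lipschitz -/
theorem dist_sph_le (a : ℂ) (b : OnePoint ℂ) :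
    dist (sph (a : OnePoint ℂ)) (sph b) ≤ 2 * chord (a : OnePoint ℂ) b := by
  have hsa : 0 < √(1 + ‖a‖ ^ 2) := by positivity
  have hsa2 : √(1 + ‖a‖ ^ 2) ^ 2 = 1 + ‖a‖ ^ 2 := Real.sq_sqrt (by positivity)
  have ha1 : ‖a‖ ≤ √(1 + ‖a‖ ^ 2) := Real.le_sqrt_of_sq_le (by linarith)
  have ha2 : 1 ≤ √(1 + ‖a‖ ^ 2) := by
    rw [Real.one_le_sqrt]
    nlinarith [sq_nonneg ‖a‖]
  set A := √(1 + ‖a‖ ^ 2) with hA
  induction b using OnePoint.rec with
  | infty =>
    rw [sph_infty, sph_coe, chord_coe_infty, Prod.dist_eq, dist_zero_right, dist_zero_right,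
      ← hA]
    apply max_le
    · rw [norm_div, norm_real, Real.norm_of_nonneg (by positivity), ← hsa2]
      rw [div_le_iff₀ (by positivity)]
      have : 2 * (1 / A) * A ^ 2 = 2 * A := by field_simp
      rw [this]
      linarith
    · rw [Real.norm_of_nonneg (by positivity), ← hsa2, div_le_iff₀ (by positivity)]
      have : 2 * (1 / A) * A ^ 2 = 2 * A := by field_simp
      rw [this]
      linarith
  | coe b =>
    have hsb : 0 < √(1 + ‖b‖ ^ 2) := by positivity
    have hsb2 : √(1 + ‖b‖ ^ 2) ^ 2 = 1 + ‖b‖ ^ 2 := Real.sq_sqrt (by positivity)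
    have hb1 : ‖b‖ ≤ √(1 + ‖b‖ ^ 2) := Real.le_sqrt_of_sq_le (by linarith)
    have hb2 : 1 ≤ √(1 + ‖b‖ ^ 2) := by
      rw [Real.one_le_sqrt]
      nlinarith [sq_nonneg ‖b‖]
    set B := √(1 + ‖b‖ ^ 2) with hB
    rw [sph_coe, sph_coe, chord_coe, Prod.dist_eq, ← hA, ← hB]
    have hr : 2 * (‖a - b‖ / (A * B)) * (A ^ 2 * B ^ 2) = 2 * ‖a - b‖ * (A * B) := by
      field_simp
    apply max_le
    · rw [dist_eq_norm]
      have h1 : a / ((1 + ‖a‖ ^ 2 : ℝ) : ℂ) - b / ((1 + ‖b‖ ^ 2 : ℝ) : ℂ) =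
          ((a - b) + a * b * (starRingEnd ℂ) (b - a)) /
            (((1 + ‖a‖ ^ 2 : ℝ) : ℂ) * ((1 + ‖b‖ ^ 2 : ℝ) : ℂ)) := by
        have h2 : ((1 + ‖a‖ ^ 2 : ℝ) : ℂ) ≠ 0 := by
          norm_cast
          positivity
        have h3 : ((1 + ‖b‖ ^ 2 : ℝ) : ℂ) ≠ 0 := by
          norm_cast
          positivity
        rw [div_sub_div _ _ h2 h3]
        congr 1
        have h4 : ((‖a‖ ^ 2 : ℝ) : ℂ) = a * (starRingEnd ℂ) a := by
          rw [Complex.mul_conj, Complex.normSq_eq_norm_sq]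
        have h5 : ((‖b‖ ^ 2 : ℝ) : ℂ) = b * (starRingEnd ℂ) b := by
          rw [Complex.mul_conj, Complex.normSq_eq_norm_sq]
        rw [Complex.ofReal_add, Complex.ofReal_add, h4, h5, map_sub]
        push_cast
        ring
      rw [h1, norm_div, norm_mul, norm_real, norm_real, Real.norm_of_nonneg (by positivity),
        Real.norm_of_nonneg (by positivity), ← hsa2, ← hsb2, div_le_iff₀ (by positivity), hr]
      refine (norm_add_le _ _).trans ?_
      rw [norm_mul, norm_mul, RCLike.norm_conj, norm_sub_rev b a]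
      have h6 : ‖a‖ * ‖b‖ ≤ A * B := mul_le_mul ha1 hb1 (norm_nonneg _) (by positivity)
      have h7 : 1 ≤ A * B := by nlinarith
      nlinarith [norm_nonneg (a - b)]
    · rw [Real.dist_eq]
      have h1 : 1 / (1 + ‖a‖ ^ 2) - 1 / (1 + ‖b‖ ^ 2) =
          ((‖b‖ - ‖a‖) * (‖b‖ + ‖a‖)) / (A ^ 2 * B ^ 2) := by
        rw [hsa2, hsb2]
        field_simp
        ring
      rw [h1, abs_div, abs_mul, abs_of_nonneg (show 0 ≤ A ^ 2 * B ^ 2 by positivity),
        abs_of_nonneg (show 0 ≤ ‖b‖ + ‖a‖ by positivity), div_le_iff₀ (by positivity), hr]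
      have h2 : |‖b‖ - ‖a‖| ≤ ‖a - b‖ := by
        rw [norm_sub_rev]
        exact abs_norm_sub_norm_le b a
      have h6 : ‖b‖ + ‖a‖ ≤ 2 * (A * B) := by nlinarith
      calc |‖b‖ - ‖a‖| * (‖b‖ + ‖a‖) ≤ ‖a - b‖ * (2 * (A * B)) := by
            gcongr
        _ = 2 * ‖a - b‖ * (A * B) := by ring

theorem sph_injective : Function.Injective sph := by
  intro x y h
  induction x using OnePoint.rec with
  | infty =>
    induction y using OnePoint.rec with
    | infty => rfl
    | coe b =>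
      rw [sph_infty, sph_coe, Prod.mk.injEq] at h
      have : (0 : ℝ) < 1 / (1 + ‖b‖ ^ 2) := by positivity
      exact absurd h.2 this.ne
  | coe a =>
    induction y using OnePoint.rec with
    | infty =>
      rw [sph_infty, sph_coe, Prod.mk.injEq] at h
      have : (0 : ℝ) < 1 / (1 + ‖a‖ ^ 2) := by positivity
      exact absurd h.2 this.ne'
    | coe b =>
      rw [sph_coe, sph_coe, Prod.mk.injEq] at h
      have h1 : (1 + ‖a‖ ^ 2 : ℝ) = 1 + ‖b‖ ^ 2 := by
        have h2 := h.2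
        rw [div_eq_div_iff (by positivity) (by positivity)] at h2
        linarith
      have h2 := h.1
      rw [h1] at h2
      have h3 : ((1 + ‖b‖ ^ 2 : ℝ) : ℂ) ≠ 0 := by
        norm_cast
        positivity
      rw [div_left_inj' h3] at h2
      rw [h2]

theorem continuous_sph : Continuous sph := by
  rw [OnePoint.continuous_iff]
  constructor
  · rw [sph_infty]
    have hcc : coclosedCompact ℂ = cocompact ℂ := coclosedCompact_eq_cocompact
    rw [hcc]
    have hn : Tendsto (fun a : ℂ => ‖a‖) (cocompact ℂ) atTop := tendsto_norm_cocompact_atTop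
    refine Tendsto.prodMk_nhds ?_ ?_
    · rw [tendsto_zero_iff_norm_tendsto_zero]
      refine squeeze_zero (fun _ => norm_nonneg _) ?_ (tendsto_inv_atTop_zero.comp hn)
      intro a
      rw [norm_div, norm_real, Real.norm_of_nonneg (by positivity), Function.comp_apply]
      by_cases ha : ‖a‖ = 0
      · rw [ha]
        simp
      · have ha' : 0 < ‖a‖ := lt_of_le_of_ne (norm_nonneg a) (Ne.symm ha)
        rw [div_le_iff₀ (by positivity)]
        have : ‖a‖⁻¹ * (1 + ‖a‖ ^ 2) = ‖a‖⁻¹ + ‖a‖ := by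
          field_simp
        rw [this]
        have : 0 < ‖a‖⁻¹ := by positivity
        linarith
    · have h2 : Tendsto (fun a : ℂ => 1 + ‖a‖ ^ 2) (cocompact ℂ) atTop :=
        tendsto_atTop_add_const_left _ _ ((tendsto_pow_atTop two_ne_zero).comp hn)
      have h3 := tendsto_inv_atTop_zero.comp h2
      refine h3.congr fun a => ?_
      rw [Function.comp_apply, one_div]
  · have h1 : (fun a : ℂ => sph (a : OnePoint ℂ)) = fun a : ℂ =>
        (a / ((1 + ‖a‖ ^ 2 : ℝ) : ℂ), 1 / (1 + ‖a‖ ^ 2)) := rfl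
    change Continuous (fun a : ℂ => sph (a : OnePoint ℂ))
    rw [h1]
    refine Continuous.prodMk ?_ ?_
    · refine continuous_id.div (by fun_prop) ?_
      intro a
      norm_cast
      positivity
    · refine continuous_const.div (by fun_prop) ?_
      intro a
      positivity

theorem isEmbedding_sph : IsEmbedding sph :=
  (continuous_sph.isClosedEmbedding sph_injective).isEmbedding

theorem continuousOn_of_chordLim {L : Set ℂ} {f : ℂ → OnePoint ℂ} (h : ChordLim L f) :
    ContinuousOn f L := by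
  obtain ⟨p, hp⟩ := h
  rw [isEmbedding_sph.continuousOn_iff]
  have h1 : TendstoUniformlyOn (fun n z => sph (((p n).eval z : ℂ) : OnePoint ℂ)) (sph ∘ f)
      atTop L := by
    rw [Metric.tendstoUniformlyOn_iff]
    intro ε hε
    obtain ⟨N, hN⟩ := hp (ε / 2) (by positivity)
    filter_upwards [eventually_ge_atTop N] with n hn z hz
    rw [dist_comm]
    refine (dist_sph_le _ _).trans_lt ?_
    have := hN n hn z hz
    linarith
  refine h1.continuousOn (Frequently.of_forall fun n => ?_)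
  refine (continuous_sph.comp (OnePoint.continuous_coe.comp ?_)).continuousOn
  exact (p n).continuous

/-- chordal closeness to a bounded value -/
theorem norm_sub_le_of_chord {a b : ℂ} {M ε : ℝ} (hM : ‖b‖ ≤ M) (hε : ε * √(1 + M ^ 2) ≤ 1 / 2)
    (h : chord (a : OnePoint ℂ) (b : OnePoint ℂ) ≤ ε) :
    ‖a - b‖ ≤ 2 * (ε * √(1 + M ^ 2)) * (1 + M) := by
  have hM0 : 0 ≤ M := (norm_nonneg b).trans hM
  rw [chord_coe, div_le_iff₀ (by positivity)] at h
  have hε0 : 0 ≤ ε := by
    by_contra hcon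
    push Not at hcon
    have h1 : 0 < √(1 + ‖a‖ ^ 2) * √(1 + ‖b‖ ^ 2) := by positivity
    nlinarith [norm_nonneg (a - b)]
  have h1 : √(1 + ‖b‖ ^ 2) ≤ √(1 + M ^ 2) := Real.sqrt_le_sqrt (by gcongr)
  have h2 : √(1 + ‖a‖ ^ 2) ≤ 1 + ‖a‖ := by
    rw [Real.sqrt_le_left (by positivity)]
    nlinarith [norm_nonneg a]
  have h3 : ‖a‖ ≤ ‖a - b‖ + M := by
    have : ‖a‖ ≤ ‖a - b‖ + ‖b‖ := by
      have := norm_add_le (a - b) b
      rwa [sub_add_cancel] at this
    linarith
  have h4 : √(1 + ‖a‖ ^ 2) ≤ 1 + M + ‖a - b‖ := by linarith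
  have h5 : ‖a - b‖ ≤ ε * √(1 + M ^ 2) * (1 + M + ‖a - b‖) := by
    calc ‖a - b‖ ≤ ε * (√(1 + ‖a‖ ^ 2) * √(1 + ‖b‖ ^ 2)) := h
      _ ≤ ε * ((1 + M + ‖a - b‖) * √(1 + M ^ 2)) := by gcongr
      _ = _ := by ring
  nlinarith [norm_nonneg (a - b)]

/-- the inverse -/
noncomputable def oinv : OnePoint ℂ → ℂ
  | some a => a⁻¹
  | none => 0

theorem oinv_coe (a : ℂ) : oinv (a : OnePoint ℂ) = a⁻¹ := rfl

theorem oinv_infty : oinv OnePoint.infty = 0 := rfl

theorem one_lt_of_chord {a : ℂ} {y : OnePoint ℂ}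
    (hy : y ∉ ((↑) : ℂ → OnePoint ℂ) '' closedBall 0 3)
    (h : chord (a : OnePoint ℂ) y < 1 / 4) : 1 < ‖a‖ := by
  by_contra hcon
  push Not at hcon
  have h1 : √(1 + ‖a‖ ^ 2) ≤ √2 := Real.sqrt_le_sqrt (by nlinarith [norm_nonneg a])
  have h2 : √2 < 3 / 2 := by
    rw [Real.sqrt_lt' (by norm_num)]
    norm_num
  induction y using OnePoint.rec with
  | infty =>
    rw [chord_coe_infty, div_lt_div_iff₀ (by positivity) (by norm_num)] at h
    linarith
  | coe b =>
    have hb : 3 < ‖b‖ := by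
      by_contra hb
      push Not at hb
      exact hy ⟨b, by simpa using hb, rfl⟩
    rw [chord_coe, div_lt_div_iff₀ (by positivity) (by norm_num)] at h
    have h3 : √(1 + ‖b‖ ^ 2) ≤ 10 / 9 * ‖b‖ := by
      rw [Real.sqrt_le_left (by positivity)]
      nlinarith
    have h4 : ‖b‖ - ‖a‖ ≤ ‖a - b‖ := by
      rw [norm_sub_rev]
      exact norm_sub_norm_le b a
    have h5 : √(1 + ‖a‖ ^ 2) * √(1 + ‖b‖ ^ 2) ≤ 3 / 2 * (10 / 9 * ‖b‖) := by
      apply mul_le_mul (by linarith) h3 (Real.sqrt_nonneg _) (by norm_num)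
    linarith

theorem inv_sub_le {a : ℂ} {y : OnePoint ℂ} (ha : 1 < ‖a‖)
    (hy : y ∉ ((↑) : ℂ → OnePoint ℂ) '' closedBall 0 3) :
    ‖a⁻¹ - oinv y‖ ≤ 4 * chord (a : OnePoint ℂ) y := by
  have ha0 : a ≠ 0 := by
    rintro rfl
    rw [norm_zero] at ha
    linarith
  have hsa : √(1 + ‖a‖ ^ 2) ≤ 2 * ‖a‖ := by
    rw [Real.sqrt_le_left (by positivity)]
    nlinarith
  induction y using OnePoint.rec with
  | infty =>
    rw [chord_coe_infty, oinv_infty, sub_zero, norm_inv, inv_eq_one_div, mul_one_div,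
      div_le_div_iff₀ (by positivity) (by positivity)]
    linarith [norm_nonneg a]
  | coe b =>
    have hb : 3 < ‖b‖ := by
      by_contra hb
      push Not at hb
      exact hy ⟨b, by simpa using hb, rfl⟩
    have hb0 : b ≠ 0 := by
      rintro rfl
      rw [norm_zero] at hb
      linarith
    have hsb : √(1 + ‖b‖ ^ 2) ≤ 2 * ‖b‖ := by
      rw [Real.sqrt_le_left (by positivity)]
      nlinarith
    have h1 : a⁻¹ - b⁻¹ = (b - a) / (a * b) := by
      field_simp
    rw [chord_coe, oinv_coe, h1, norm_div, norm_mul, norm_sub_rev b a, ← mul_div_assoc,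
      div_le_div_iff₀ (by positivity) (by positivity)]
    have h2 : √(1 + ‖a‖ ^ 2) * √(1 + ‖b‖ ^ 2) ≤ 4 * (‖a‖ * ‖b‖) := by
      calc √(1 + ‖a‖ ^ 2) * √(1 + ‖b‖ ^ 2) ≤ (2 * ‖a‖) * (2 * ‖b‖) := by gcongr
        _ = _ := by ring
    nlinarith [norm_nonneg (a - b)]

/-- the set of infinities is open in the interior -/
theorem infinities_open {L : Set ℂ} {f : ℂ → OnePoint ℂ} (h : ChordLim L f) {z₀ : ℂ}
    (hz₀ : z₀ ∈ interior L) (hf : f z₀ = OnePoint.infty) : ∀ᶠ z in 𝓝 z₀, f z = OnePoint.infty := by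
  have hcont := continuousOn_of_chordLim h
  obtain ⟨p, hp⟩ := h
  have hU : IsOpen (((↑) : ℂ → OnePoint ℂ) '' closedBall 0 3)ᶜ :=
    OnePoint.isOpen_compl_image_coe.mpr ⟨isClosed_closedBall, isCompact_closedBall _ _⟩
  have hmem : f z₀ ∈ (((↑) : ℂ → OnePoint ℂ) '' closedBall 0 3)ᶜ := by
    rw [hf]
    rintro ⟨b, -, hb⟩
    exact OnePoint.coe_ne_infty b hb
  have hev : ∀ᶠ z in 𝓝 z₀, z ∈ L ∧ f z ∈ (((↑) : ℂ → OnePoint ℂ) '' closedBall 0 3)ᶜ := by
    have h1 : L ∈ 𝓝 z₀ := mem_interior_iff_mem_nhds.mp hz₀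
    exact (Filter.eventually_of_mem h1 fun _ h => h).and
      ((hcont.continuousAt h1).eventually (hU.mem_nhds hmem))
  obtain ⟨r, hr, hball⟩ := Metric.nhds_basis_closedBall.mem_iff.mp hev
  obtain ⟨N₀, hN₀⟩ := hp (1 / 4) (by norm_num)
  have hone : ∀ n, N₀ ≤ n → ∀ z ∈ closedBall z₀ r, 1 < ‖(p n).eval z‖ := by
    intro n hn z hz
    exact one_lt_of_chord (hball hz).2 (hN₀ n hn z (hball hz).1)
  let g : ℂ → ℂ := fun z => oinv (f z)
  have hunif : TendstoUniformlyOn (fun n z => ((p n).eval z)⁻¹) g atTop (closedBall z₀ r) := by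
    rw [Metric.tendstoUniformlyOn_iff]
    intro ε hε
    obtain ⟨N, hN⟩ := hp (ε / 4) (by positivity)
    filter_upwards [eventually_ge_atTop N, eventually_ge_atTop N₀] with n hn hn' z hz
    rw [dist_comm, dist_eq_norm]
    refine (inv_sub_le (hone n hn' z hz) (hball hz).2).trans_lt ?_
    have := hN n hn z (hball hz).1
    linarith
  have hdiff : DifferentiableOn ℂ g (ball z₀ r) := by
    refine (hunif.mono ball_subset_closedBall).tendstoLocallyUniformlyOn.differentiableOn ?_
      isOpen_ball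
    filter_upwards [eventually_ge_atTop N₀] with n hn
    intro z hz
    refine ((p n).differentiableAt.inv ?_).differentiableWithinAt
    intro h0
    have := hone n hn z (ball_subset_closedBall hz)
    rw [h0, norm_zero] at this
    linarith
  have han : AnalyticAt ℂ g z₀ := hdiff.analyticAt (ball_mem_nhds z₀ hr)
  rcases han.eventually_eq_zero_or_eventually_ne_zero with h0 | h0
  · filter_upwards [h0, hev] with z hz hz'
    have h1 := hz'.2
    change oinv (f z) = 0 at hz
    generalize f z = y at *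
    induction y using OnePoint.rec with
    | infty => rfl
    | coe b =>
      rw [oinv_coe, inv_eq_zero] at hz
      subst hz
      exact absurd ⟨0, by simp, rfl⟩ h1
  · exfalso
    rw [eventually_nhdsWithin_iff] at h0
    obtain ⟨ρ', hρ', hball'⟩ := Metric.eventually_nhds_iff_ball.mp h0
    let ρ : ℝ := min r ρ' / 2
    have hρ : 0 < ρ := by positivity
    have hρr : ρ < r := by
      have : min r ρ' ≤ r := min_le_left _ _
      change min r ρ' / 2 < r
      linarith
    have hρρ : ρ < ρ' := by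
      have : min r ρ' ≤ ρ' := min_le_right _ _
      change min r ρ' / 2 < ρ'
      linarith
    have hsub : sphere z₀ ρ ⊆ ball z₀ r := fun z hz => by
      rw [mem_sphere] at hz
      rw [mem_ball, hz]
      exact hρr
    have hgne : ∀ z ∈ sphere z₀ ρ, g z ≠ 0 := by
      intro z hz
      rw [mem_sphere] at hz
      apply hball' z (by rw [mem_ball, hz]; exact hρρ)
      intro hzz
      rw [Set.mem_singleton_iff] at hzz
      rw [hzz, dist_self] at hz
      linarith
    have hcomp : IsCompact (sphere z₀ ρ) := isCompact_sphere _ _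
    have hne : (sphere z₀ ρ).Nonempty := NormedSpace.sphere_nonempty.mpr hρ.le
    obtain ⟨z₁, hz₁, hmin⟩ := hcomp.exists_isMinOn hne
      ((hdiff.continuousOn.mono hsub).norm)
    have hc : 0 < ‖g z₁‖ := norm_pos_iff.mpr (hgne z₁ hz₁)
    set c := ‖g z₁‖ with hcdef
    have hmin' : ∀ z ∈ sphere z₀ ρ, c ≤ ‖g z‖ := fun z hz => hmin hz
    obtain ⟨N₁, hN₁⟩ := (Metric.tendstoUniformlyOn_iff.mp hunif (c / 2) (by positivity)).exists_forall_of_atTop
    obtain ⟨N₂, hN₂⟩ := hp (1 / (2 * √(1 + (2 / c) ^ 2))) (by positivity)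
    let n := max N₁ N₂
    have hbd : ∀ z ∈ sphere z₀ ρ, ‖(p n).eval z‖ ≤ 2 / c := by
      intro z hz
      have h1 := hN₁ n (le_max_left _ _) z (ball_subset_closedBall (hsub hz))
      rw [dist_eq_norm] at h1
      have h2 : c / 2 ≤ ‖((p n).eval z)⁻¹‖ := by
        have h3 := norm_sub_norm_le (g z) ((p n).eval z)⁻¹
        have h4 := hmin' z hz
        linarith
      rw [norm_inv] at h2
      rw [le_div_iff₀ hc]
      by_cases h5 : ‖(p n).eval z‖ = 0
      · rw [h5]
        norm_num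
      · have h6 : 0 < ‖(p n).eval z‖ := lt_of_le_of_ne (norm_nonneg _) (Ne.symm h5)
        rw [le_inv_comm₀ (by positivity) h6] at h2
        rw [inv_div] at h2
        rw [le_div_iff₀ hc] at h2
        exact h2
    have hmax : ‖(p n).eval z₀‖ ≤ 2 / c := by
      refine Complex.norm_le_of_forall_mem_frontier_norm_le (U := ball z₀ ρ) isBounded_ball
        ((p n).differentiable.diffContOnCl) ?_ (subset_closure (mem_ball_self hρ))
      intro z hz
      rw [frontier_ball z₀ hρ.ne'] at hz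
      exact hbd z hz
    have h1 := hN₂ n (le_max_right _ _) z₀ (interior_subset hz₀)
    rw [hf, chord_coe_infty, div_lt_div_iff₀ (by positivity) (by positivity), one_mul,
      one_mul] at h1
    have h2 : √(1 + ‖(p n).eval z₀‖ ^ 2) ≤ √(1 + (2 / c) ^ 2) :=
      Real.sqrt_le_sqrt (by gcongr)
    have h3 : 0 < √(1 + (2 / c) ^ 2) := by positivity
    linarith

theorem easy : Stmt_Easy := by
  intro L f hL hlim
  have hcont := continuousOn_of_chordLim hlim
  refine ⟨hcont, ?_⟩
  intro x hx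
  set V := connectedComponentIn (interior L) x with hV
  have hVo : IsOpen V := isOpen_interior.connectedComponentIn
  have hVL : V ⊆ interior L := connectedComponentIn_subset _ _
  have hVc : IsPreconnected V := isPreconnected_connectedComponentIn
  have hAo : IsOpen {z | z ∈ V ∧ f z = OnePoint.infty} := by
    rw [isOpen_iff_mem_nhds]
    rintro z ⟨hz, hfz⟩
    filter_upwards [hVo.mem_nhds hz, infinities_open hlim (hVL hz) hfz] with w h1 h2
    exact ⟨h1, h2⟩
  have hBo : IsOpen {z | z ∈ V ∧ f z ≠ OnePoint.infty} :=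
    (hcont.mono (hVL.trans interior_subset)).isOpen_inter_preimage hVo
      (isOpen_compl_singleton (x := OnePoint.infty))
  by_cases hA : ∃ z ∈ V, f z = OnePoint.infty
  · left
    by_contra hcon
    push Not at hcon
    obtain ⟨z₁, hz₁, hfz₁⟩ := hA
    obtain ⟨z₂, hz₂, hfz₂⟩ := hcon
    obtain ⟨z, hz, h1, h2⟩ := hVc _ _ hAo hBo (fun z hz => by
      by_cases h : f z = OnePoint.infty
      · exact Or.inl ⟨hz, h⟩
      · exact Or.inr ⟨hz, h⟩) ⟨z₁, hz₁, hz₁, hfz₁⟩ ⟨z₂, hz₂, hz₂, hfz₂⟩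
    exact h2.2 h1.2
  · right
    push Not at hA
    have hex : ∀ z, ∃ w : ℂ, z ∈ V → f z = (w : OnePoint ℂ) := by
      intro z
      by_cases hz : z ∈ V
      · obtain ⟨w, hw⟩ := OnePoint.ne_infty_iff_exists.mp (hA z hz)
        exact ⟨w, fun _ => hw.symm⟩
      · exact ⟨0, fun h => absurd h hz⟩
    choose h hh using hex
    refine ⟨h, ?_, fun z hz => hh z hz⟩
    obtain ⟨p, hp⟩ := hlim
    have hloc : TendstoLocallyUniformlyOn (fun n z => (p n).eval z) h atTop V := by
      rw [tendstoLocallyUniformlyOn_iff_forall_isCompact hVo]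
      intro K hKV hK
      -- `h` is bounded on `K`
      have hKbd : ∃ M : ℝ, 0 ≤ M ∧ ∀ z ∈ K, ‖h z‖ ≤ M := by
        have hcv : ContinuousOn h V := by
          have h1 : ContinuousOn (fun z => ((h z : ℂ) : OnePoint ℂ)) V :=
            (hcont.mono (hVL.trans interior_subset)).congr fun z hz => (hh z hz).symm
          exact (OnePoint.isOpenEmbedding_coe.isEmbedding.continuousOn_iff).mpr h1
        obtain ⟨M, hM⟩ := hK.exists_bound_of_continuousOn (hcv.mono hKV)
        exact ⟨max M 0, le_max_right _ _, fun z hz => (hM z hz).trans (le_max_left _ _)⟩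
      obtain ⟨M, hM0, hM⟩ := hKbd
      rw [Metric.tendstoUniformlyOn_iff]
      intro ε hε
      have hs : 0 < √(1 + M ^ 2) := by positivity
      let η : ℝ := min (1 / 2) (ε / (4 * (1 + M))) / √(1 + M ^ 2)
      have hη : 0 < η := by positivity
      obtain ⟨N, hN⟩ := hp η hη
      filter_upwards [eventually_ge_atTop N] with n hn z hz
      have h1 := hN n hn z (interior_subset (hVL (hKV hz)))
      rw [hh z (hKV hz)] at h1
      have h2 : η * √(1 + M ^ 2) = min (1 / 2) (ε / (4 * (1 + M))) := by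
        change min (1 / 2) (ε / (4 * (1 + M))) / √(1 + M ^ 2) * √(1 + M ^ 2) = _
        field_simp
      have h3 := norm_sub_le_of_chord (hM z hz) (by rw [h2]; exact min_le_left _ _) h1.le
      rw [h2] at h3
      rw [dist_comm, dist_eq_norm]
      refine lt_of_le_of_lt h3 ?_
      have h4 : min (1 / 2) (ε / (4 * (1 + M))) ≤ ε / (4 * (1 + M)) := min_le_right _ _
      calc 2 * min (1 / 2) (ε / (4 * (1 + M))) * (1 + M)
          ≤ 2 * (ε / (4 * (1 + M))) * (1 + M) := by gcongr
        _ = ε / 2 := by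
            field_simp
            ring
        _ < ε := by linarith
    exact hloc.differentiableOn (Eventually.of_forall fun n => (p n).differentiable.differentiableOn)
      hVo

end Pool.Agent.CMerg
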