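import Pool.Agent.CMerg.Defs

set_option autoImplicit false

/-!
# Chordal Mergelyan theorem, step 11: the global almost holomorphic logarithm
-/

namespace Pool.Agent.CMerg

open Complex Metric Set Filter Topology MeasureTheory

namespace Glob

lemma dzb_zero {f : ℂ → ℂ} {z : ℂ} (h : DifferentiableAt ℂ f z) : dzb f z = 0 := by
  have h1 : fderiv ℝ f z = (fderiv ℂ f z).restrictScalars ℝ := h.fderiv_restrictScalars ℝ
  have h2 : fderiv ℂ f z I = I * fderiv ℂ f z 1 := by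
    have := (fderiv ℂ f z).map_smul I 1
    simpa using this
  simp only [dzb, Pool.Agent.BlMat.dzb, h1, ContinuousLinearMap.coe_restrictScalars', h2]
  rw [← mul_assoc, I_mul_I]
  ring

lemma dzb_congr {f g : ℂ → ℂ} {z : ℂ} (h : f =ᶠ[𝓝 z] g) : dzb f z = dzb g z := by
  simp only [dzb, Pool.Agent.BlMat.dzb, h.fderiv_eq]

/-- The local form of almost holomorphy. -/
def GoodAt (X : Set ℂ) (Φ : ℂ → ℂ) (κ : ℝ) (z : ℂ) : Prop :=
  ContinuousWithinAt Φ X z ∧ (z ∈ interior X → ContDiffAt ℝ 2 Φ z ∧ ‖dzb Φ z‖ ≤ κ)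

lemma aHol_of_good {X : Set ℂ} {Φ : ℂ → ℂ} {κ : ℝ} (h : ∀ z ∈ X, GoodAt X Φ κ z) :
    AHol X Φ κ := by
  refine ⟨fun z hz => (h z hz).1, fun z hz => ?_, fun z hz => ?_⟩
  · exact ((h z (interior_subset hz)).2 hz).1.contDiffWithinAt
  · exact ((h z (interior_subset hz)).2 hz).2

lemma good_of_aHol {X Z U : Set ℂ} {Φ φ : ℂ → ℂ} {κ : ℝ} {z : ℂ} (h : AHol Z φ κ) (hU : U ∈ 𝓝 z)
    (hz : z ∈ X) (hUX : U ∩ X ⊆ Z) (he : ∀ y ∈ U ∩ X, Φ y = φ y) : GoodAt X Φ κ z := by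
  have hzU : z ∈ U ∩ X := ⟨mem_of_mem_nhds hU, hz⟩
  refine ⟨?_, fun hzi => ?_⟩
  · have h1 : ContinuousWithinAt φ (U ∩ X) z := (h.1 z (hUX hzU)).mono hUX
    have h2 : ContinuousWithinAt Φ (U ∩ X) z := h1.congr he (he z hzU)
    rw [inter_comm] at h2
    exact (continuousWithinAt_inter hU).1 h2
  · have h1 : U ∩ X ∈ 𝓝 z := inter_mem hU (mem_interior_iff_mem_nhds.1 hzi)
    have h2 : z ∈ interior Z := mem_interior_iff_mem_nhds.2 (mem_of_superset h1 hUX)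
    have h3 : Φ =ᶠ[𝓝 z] φ := by
      filter_upwards [h1] with y hy using he y hy
    refine ⟨?_, ?_⟩
    · exact (h.2.1.contDiffAt (isOpen_interior.mem_nhds h2)).congr_of_eventuallyEq h3
    · rw [dzb_congr h3]
      exact h.2.2 z h2

lemma aHol_comp {X : Set ℂ} {w Ξ : ℂ → ℂ} {κ : ℝ} (hκ : 0 ≤ κ) (hw : Hol X w)
    (hX : DifferentiableOn ℂ Ξ {w | 0 < w.re}) (hpos : ∀ z ∈ X, 0 < (w z).re) :
    AHol X (fun z => Ξ (w z)) κ := by
  have hopen : IsOpen {w : ℂ | 0 < w.re} := isOpen_lt continuous_const continuous_re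
  have hd : DifferentiableOn ℂ (fun z => Ξ (w z)) (interior X) :=
    hX.comp hw.2 fun z hz => hpos z (interior_subset hz)
  refine ⟨hX.continuousOn.comp hw.1 fun z hz => hpos z hz, ?_, fun z hz => ?_⟩
  · exact (hd.contDiffOn isOpen_interior (n := 2)).restrict_scalars ℝ
  · rw [dzb_zero (hd.differentiableAt (isOpen_interior.mem_nhds hz)), norm_zero]
    exact hκ

section dat

variable {L E : Set ℂ} {F : ℂ → ℂ}

lemma zone_mono {a b a' b' : ℝ} (ha : a' ≤ a) (hb : b ≤ b') : zone L E F a b ⊆ zone L E F a' b' :=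
  fun _ hz => ⟨hz.1, ha.trans hz.2.1, hz.2.2.trans hb⟩

lemma zone_compact (D : Dat L E F) (a b : ℝ) : IsCompact (zone L E F a b) := by
  have h1 : zone L E F a b = {z | z ∈ L \ E ∧ ‖F z‖ ≤ b} ∩ (fun z => ‖F z‖) ⁻¹' Ici a := by
    ext z
    simp only [zone, mem_setOf_eq, mem_inter_iff, mem_preimage, mem_Ici]
    tauto
  have h2 : ContinuousOn (fun z => ‖F z‖) {z | z ∈ L \ E ∧ ‖F z‖ ≤ b} :=
    (D.cont.mono fun z hz => hz.1).norm
  rw [h1]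
  exact (D.lev b).of_isClosed_subset
    (h2.preimage_isClosed_of_isClosed (D.lev b).isClosed isClosed_Ici) inter_subset_left

lemma zone_hol (D : Dat L E F) (a b : ℝ) : Hol (zone L E F a b) F := by
  refine ⟨D.cont.mono fun z hz => hz.1, D.hol.mono fun z hz => ⟨?_, ?_⟩⟩
  · exact interior_mono (fun y hy => hy.1.1) hz
  · exact (interior_subset hz).1.2

lemma nhd_level (D : Dat L E F) {z : ℂ} (hz : z ∈ L \ E) {a b : ℝ} (ha : a < ‖F z‖)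
    (hb : ‖F z‖ < b) : ∃ U ∈ 𝓝 z, ∀ y ∈ U, y ∈ L → y ∉ E ∧ a < ‖F y‖ ∧ ‖F y‖ < b := by
  have h1 : ContinuousWithinAt (fun z => ‖F z‖) (L \ E) z := (D.cont z hz).norm
  have h2 : (fun z => ‖F z‖) ⁻¹' Ioo a b ∈ 𝓝[L \ E] z :=
    h1.preimage_mem_nhdsWithin (Ioo_mem_nhds ha hb)
  obtain ⟨U, hU, hz', hsub⟩ := mem_nhdsWithin.1 h2
  refine ⟨U ∩ Eᶜ, inter_mem (hU.mem_nhds hz') (D.cl.isOpen_compl.mem_nhds hz.2),
    fun y hy hyL => ⟨hy.2, ?_⟩⟩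
  exact hsub ⟨hy.1, hyL, hy.2⟩

/-- Near an infinity the function is large. -/
lemma nhd_inf (D : Dat L E F) {z : ℂ} (hz : z ∈ E) (R : ℝ) :
    ∃ U ∈ 𝓝 z, ∀ y ∈ U, y ∈ L → y ∉ E → R < ‖F y‖ := by
  have h1 : z ∈ {z | z ∈ L \ E ∧ ‖F z‖ ≤ R}ᶜ := fun h => h.1.2 hz
  refine ⟨_, (D.lev R).isClosed.isOpen_compl.mem_nhds h1, fun y hy hyL hyE => ?_⟩
  by_contra hcon
  exact hy ⟨⟨hyL, hyE⟩, not_lt.1 hcon⟩

/-- The component of an interior infinity consists of infinities. -/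
lemma comp_inf (D : Dat L E F) {z : ℂ} (hz : z ∈ E) (hzi : z ∈ interior L) :
    E ∈ 𝓝 z := by
  have h1 : connectedComponentIn (interior L) z ∈ 𝓝 z :=
    (isOpen_interior.connectedComponentIn).mem_nhds (mem_connectedComponentIn hzi)
  refine mem_of_superset h1 fun y hy => ?_
  by_contra hyE
  have hyi : y ∈ interior L := connectedComponentIn_subset _ _ hy
  have h2 := D.comp y hyi hyE
  rw [← connectedComponentIn_eq hy] at h2
  exact Set.disjoint_left.1 h2 (mem_connectedComponentIn hzi) hz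

end dat

/-- The levels. -/
noncomputable def ρ (x₀ : ℝ) (n : ℕ) : ℝ := 2 ^ n * Real.exp x₀

lemma ρ_pos (x₀ : ℝ) (n : ℕ) : 0 < ρ x₀ n := by unfold ρ; positivity

lemma ρ_succ (x₀ : ℝ) (n : ℕ) : ρ x₀ (n + 1) = 2 * ρ x₀ n := by unfold ρ; ring

lemma ρ_mono (x₀ : ℝ) : Monotone (ρ x₀) :=
  monotone_nat_of_le_succ fun n => by rw [ρ_succ]; linarith [ρ_pos x₀ n]

lemma ρ_zero (x₀ : ℝ) : ρ x₀ 0 = Real.exp x₀ := by simp [ρ]

lemma ρ_tendsto (x₀ : ℝ) : Tendsto (ρ x₀) atTop atTop :=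
  (tendsto_pow_atTop_atTop_of_one_lt one_lt_two).atTop_mul_const (Real.exp_pos x₀)

lemma ρ_idx (x₀ v : ℝ) (h : ρ x₀ 0 ≤ v) : ∃ n, ρ x₀ n ≤ v ∧ v < ρ x₀ (n + 1) := by
  classical
  have hex : ∃ n, v < ρ x₀ n := ((ρ_tendsto x₀).eventually_gt_atTop v).exists
  have h1 := Nat.find_spec hex
  have h0 : Nat.find hex ≠ 0 := by
    intro h0
    rw [h0] at h1
    linarith
  obtain ⟨n, hn⟩ := Nat.exists_eq_succ_of_ne_zero h0
  refine ⟨n, ?_, by rw [hn] at h1; exact h1⟩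
  by_contra hcon
  have := Nat.find_min' hex (not_le.1 hcon)
  omega

lemma ρ_unique {x₀ v : ℝ} {n m : ℕ} (hn : ρ x₀ n ≤ v) (hn' : v < ρ x₀ (n + 1)) (hm : ρ x₀ m ≤ v)
    (hm' : v < ρ x₀ (m + 1)) : n = m := by
  rcases lt_trichotomy n m with h | h | h
  · have := ρ_mono x₀ (Nat.succ_le_of_lt h)
    simp only [Nat.succ_eq_add_one] at this
    linarith
  · exact h
  · have := ρ_mono x₀ (Nat.succ_le_of_lt h)
    simp only [Nat.succ_eq_add_one] at this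
    linarith

/-- The gluing. -/
theorem glue {L E : Set ℂ} {F : ℂ → ℂ} (D : Dat L E F) (x₀ η D' : ℝ) (hη : 0 < η)
    (Ξ : ℂ → ℂ) (J₁ : ℂ) (φ w : ℕ → ℂ → ℂ) (N : ℕ → ℕ) (hN : ∀ n, n + 1 ≤ N n)
    (hX : DifferentiableOn ℂ Ξ {w | 0 < w.re}) (hJ : x₀ / 20 ≤ J₁.re) (hD' : 0 ≤ D')
    (hwH : ∀ n, Hol (zone L E F (ρ x₀ 0) (ρ x₀ (N n + 1))) (w n))
    (hwp : ∀ n, ∀ z ∈ zone L E F (ρ x₀ 0) (ρ x₀ (N n + 1)), 0 < (w n z).re)
    (P1 : ∀ n, AHol (zone L E F (ρ x₀ n) (ρ x₀ (n + 1))) (φ n) η)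
    (P2 : ∀ z ∈ zone L E F (ρ x₀ 0) (ρ x₀ 1), ‖F z‖ ≤ 4 / 3 * ρ x₀ 0 →
      Complex.exp (φ 0 z) = F z)
    (P3 : ∀ n, ∀ z ∈ zone L E F (ρ x₀ n) (ρ x₀ (n + 1)), 5 / 3 * ρ x₀ n ≤ ‖F z‖ →
      φ n z = Ξ (w n z))
    (P4 : ∀ n, ∀ z ∈ zone L E F (ρ x₀ (n + 1)) (ρ x₀ (n + 1 + 1)), ‖F z‖ ≤ 4 / 3 * ρ x₀ (n + 1) →
      φ (n + 1) z = Ξ (w n z))
    (P5 : ∀ n, ∀ z ∈ zone L E F (ρ x₀ n) (ρ x₀ (n + 1)), x₀ / 20 ≤ (φ n z).re)
    (P6 : ∀ n, ∀ z ∈ zone L E F (ρ x₀ (n + 1)) (ρ x₀ (n + 1 + 1)),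
      ‖φ (n + 1) z - J₁‖ ≤ 4 * D' / Real.log (ρ x₀ (n + 1))) :
    ∃ Φ : ℂ → ℂ, AHol (up L E F (Real.exp x₀)) Φ η ∧
      (∀ z ∈ L \ E, Real.exp x₀ ≤ ‖F z‖ → ‖F z‖ ≤ 4 / 3 * Real.exp x₀ → Complex.exp (Φ z) = F z) ∧
      ∀ z ∈ up L E F (Real.exp x₀), x₀ / 20 ≤ (Φ z).re := by
  classical
  rw [← ρ_zero] at *
  have hidx0 : ∀ z : ℂ, ∃ n : ℕ, ρ x₀ 0 ≤ ‖F z‖ → ρ x₀ n ≤ ‖F z‖ ∧ ‖F z‖ < ρ x₀ (n + 1) := by
    intro z
    by_cases h : ρ x₀ 0 ≤ ‖F z‖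
    · obtain ⟨n, hn⟩ := ρ_idx x₀ _ h
      exact ⟨n, fun _ => hn⟩
    · exact ⟨0, fun h' => absurd h' h⟩
  choose idx hidx using hidx0
  set Φ : ℂ → ℂ := fun z => if z ∈ E then J₁ else φ (idx z) z with hΦ
  have hΦE : ∀ z ∈ E, Φ z = J₁ := fun z hz => by simp [hΦ, hz]
  have hΦn : ∀ z ∉ E, ∀ n, ρ x₀ n ≤ ‖F z‖ → ‖F z‖ < ρ x₀ (n + 1) → Φ z = φ n z := by
    intro z hz n h1 h2
    have h0 : ρ x₀ 0 ≤ ‖F z‖ := (ρ_mono x₀ (Nat.zero_le n)).trans h1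
    obtain ⟨h3, h4⟩ := hidx z h0
    have : idx z = n := ρ_unique h3 h4 h1 h2
    simp [hΦ, hz, this]
  refine ⟨Φ, ?_, ?_, ?_⟩
  · apply aHol_of_good
    intro z hz
    by_cases hzE : z ∈ E
    · refine ⟨?_, fun hzi => ?_⟩
      · rw [ContinuousWithinAt, hΦE z hzE, Metric.tendsto_nhds]
        intro ε hε
        have hlog : Tendsto (fun n => 4 * D' / Real.log (ρ x₀ (n + 1))) atTop (𝓝 0) := by
          apply Tendsto.const_div_atTop
          exact Real.tendsto_log_atTop.comp ((ρ_tendsto x₀).comp (tendsto_add_atTop_nat 1))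
        obtain ⟨n₀, hn₀⟩ := (eventually_atTop.1 (hlog.eventually_lt_const hε))
        obtain ⟨U, hU, hUF⟩ := nhd_inf D hzE (ρ x₀ (n₀ + 1))
        filter_upwards [inter_mem_nhdsWithin (up L E F (ρ x₀ 0)) hU] with y hy
        by_cases hyE : y ∈ E
        · rw [hΦE y hyE, dist_self]; exact hε
        · have h1 := hUF y hy.2 hy.1.1 hyE
          have h0 : ρ x₀ 0 ≤ ‖F y‖ := (ρ_mono x₀ (Nat.zero_le _)).trans h1.le
          obtain ⟨h3, h4⟩ := hidx y h0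
          have h5 : n₀ + 1 ≤ idx y := by
            by_contra hcon
            have := ρ_mono x₀ (show idx y + 1 ≤ n₀ + 1 by omega)
            linarith
          obtain ⟨m, hm⟩ : ∃ m, idx y = m + 1 := ⟨idx y - 1, by omega⟩
          rw [hm] at h3 h4
          rw [hΦn y hyE (m + 1) h3 h4, dist_eq_norm]
          exact (P6 m y ⟨⟨hy.1.1, hyE⟩, h3, h4.le⟩).trans_lt (hn₀ m (by omega))
      · have hL : z ∈ interior L := interior_mono (fun y hy => hy.1) hzi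
        have hE := comp_inf D hzE hL
        have h3 : Φ =ᶠ[𝓝 z] fun _ => J₁ := by
          filter_upwards [hE] with y hy using hΦE y hy
        refine ⟨contDiffAt_const.congr_of_eventuallyEq h3, ?_⟩
        rw [dzb_congr h3, dzb_zero (differentiableAt_const _), norm_zero]
        exact hη.le
    · have hzL : z ∈ L \ E := ⟨hz.1, hzE⟩
      have hz0 : ρ x₀ 0 ≤ ‖F z‖ := hz.2.resolve_left hzE
      obtain ⟨h3, h4⟩ := hidx z hz0
      rcases Nat.eq_zero_or_pos (idx z) with h0 | h0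
      · rw [h0] at h3 h4
        obtain ⟨U, hU, hUF⟩ := nhd_level D hzL (a := ρ x₀ 0 - 1) (by linarith) h4
        refine good_of_aHol (P1 0) hU hz ?_ ?_
        · rintro y ⟨hyU, hyX⟩
          obtain ⟨h5, h6, h7⟩ := hUF y hyU hyX.1
          exact ⟨⟨hyX.1, h5⟩, hyX.2.resolve_left h5, h7.le⟩
        · rintro y ⟨hyU, hyX⟩
          obtain ⟨h5, h6, h7⟩ := hUF y hyU hyX.1
          exact hΦn y h5 0 (hyX.2.resolve_left h5) h7
      · obtain ⟨m, hm⟩ : ∃ m, idx z = m + 1 := ⟨idx z - 1, by omega⟩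
        rw [hm] at h3 h4
        rcases h3.lt_or_eq with hlt | heq
        · obtain ⟨U, hU, hUF⟩ := nhd_level D hzL hlt h4
          refine good_of_aHol (P1 (m + 1)) hU hz ?_ ?_
          · rintro y ⟨hyU, hyX⟩
            obtain ⟨h5, h6, h7⟩ := hUF y hyU hyX.1
            exact ⟨⟨hyX.1, h5⟩, h6.le, h7.le⟩
          · rintro y ⟨hyU, hyX⟩
            obtain ⟨h5, h6, h7⟩ := hUF y hyU hyX.1
            exact hΦn y h5 (m + 1) h6.le h7
        · have hp := ρ_pos x₀ m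
          have hs := ρ_succ x₀ m
          have hs' := ρ_succ x₀ (m + 1)
          obtain ⟨U, hU, hUF⟩ := nhd_level D hzL (a := 5 / 3 * ρ x₀ m) (b := 4 / 3 * ρ x₀ (m + 1))
            (by linarith) (by linarith)
          have hcomp := aHol_comp hη.le (hwH m) hX (hwp m)
          have hNm : ρ x₀ (m + 1 + 1) ≤ ρ x₀ (N m + 1) := ρ_mono x₀ (by have := hN m; omega)
          refine good_of_aHol hcomp hU hz ?_ ?_
          · rintro y ⟨hyU, hyX⟩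
            obtain ⟨h5, h6, h7⟩ := hUF y hyU hyX.1
            refine ⟨⟨hyX.1, h5⟩, hyX.2.resolve_left h5, ?_⟩
            linarith
          · rintro y ⟨hyU, hyX⟩
            obtain ⟨h5, h6, h7⟩ := hUF y hyU hyX.1
            rcases lt_or_ge ‖F y‖ (ρ x₀ (m + 1)) with h8 | h8
            · rw [hΦn y h5 m (by linarith) h8]
              exact P3 m y ⟨⟨hyX.1, h5⟩, by linarith, h8.le⟩ h6.le
            · rw [hΦn y h5 (m + 1) h8 (by linarith)]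
              exact P4 m y ⟨⟨hyX.1, h5⟩, h8, by linarith⟩ h7.le
  · intro z hz h1 h2
    have hs := ρ_succ x₀ 0
    have hp := ρ_pos x₀ 0
    rw [hΦn z hz.2 0 h1 (by linarith)]
    exact P2 z ⟨hz, h1, by simp only [zero_add] at hs; linarith⟩ h2
  · intro z hz
    by_cases hzE : z ∈ E
    · rw [hΦE z hzE]; exact hJ
    · have hz0 : ρ x₀ 0 ≤ ‖F z‖ := hz.2.resolve_left hzE
      obtain ⟨h3, h4⟩ := hidx z hz0
      rw [hΦn z hzE (idx z) h3 h4]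
      exact P5 _ z ⟨⟨hz.1, hzE⟩, h3, h4.le⟩

end Glob

open Glob

theorem glob (hH : Stmt_Holes) (hl : Stmt_Log) (hL : Stmt_LogHol) (hE : Stmt_EB)
    (hLow : Stmt_Low) (hUp : Stmt_Up) : Stmt_Glob := by
  classical
  intro L E F D
  obtain ⟨R₀, hR₀, hR⟩ := hH L E F D
  refine ⟨max 10 (Real.log R₀), fun x₀ η hx₀ hη => ?_⟩
  have hx10 : 10 ≤ x₀ := (le_max_left _ _).trans hx₀
  have hRx : R₀ ≤ ρ x₀ 0 := by
    rw [ρ_zero, ← Real.exp_log hR₀]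
    exact Real.exp_le_exp.2 ((le_max_right _ _).trans hx₀)
  -- the exhaustion
  set X : ℕ → Set ℂ := fun N => zone L E F (ρ x₀ 0) (ρ x₀ (N + 1)) with hXdef
  have hXmono : Monotone X := fun a b hab =>
    zone_mono le_rfl (ρ_mono x₀ (by omega))
  have hXcpt : ∀ n, IsCompact (X n) := fun n => zone_compact D _ _
  have hne : ∀ n, ∀ z ∈ X n, F z ≠ 0 := by
    intro n z hz h0
    have := hz.2.1
    rw [h0, norm_zero] at this
    linarith [ρ_pos x₀ 0]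
  have hbr : ∀ n, ∃ w, IsBr (X n) F w := fun n =>
    hl (X n) F (hXcpt n) (hR _ _ hRx) (zone_hol D _ _) (hne n)
  obtain ⟨W, hW, hWS⟩ := hE X F hXmono hXcpt hbr
  have hZX : ∀ n, zone L E F (ρ x₀ n) (ρ x₀ (n + 1)) ⊆ X n := fun n =>
    zone_mono (ρ_mono x₀ (Nat.zero_le n)) le_rfl
  have hZU : ∀ n, zone L E F (ρ x₀ n) (ρ x₀ (n + 1)) ⊆ ⋃ n, X n := fun n =>
    (hZX n).trans (subset_iUnion X n)
  -- low zone
  obtain ⟨w₀, hw₀⟩ := hbr 0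
  have hexp1 : Real.exp (x₀ + Real.log 2) = ρ x₀ 1 := by
    rw [Real.exp_add, Real.exp_log two_pos, ρ]
    ring
  have hρ1 : ρ x₀ (0 + 1) = 2 * ρ x₀ 0 := ρ_succ x₀ 0
  have hρ0 := ρ_pos x₀ 0
  obtain ⟨Ξ, J₁, D', S₀, hΞ, hS₀, hΞlow, hΞJ, hlow⟩ := hLow (X 0) F w₀ W x₀ (x₀ + Real.log 2)
    (4 / 3 * ρ x₀ 0) (5 / 3 * ρ x₀ 0) η (hXcpt 0) (zone_hol D _ _) hw₀
    (fun z hz => hW z (hZU 0 hz)) hx10 (by linarith [Real.log_pos one_lt_two])
    (fun z hz => ⟨by rw [← ρ_zero]; exact hz.2.1, by rw [hexp1]; exact hz.2.2⟩)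
    (by linarith) hη
  -- up zones
  have hlogρ : ∀ n, Real.log (ρ x₀ n) = n * Real.log 2 + x₀ := by
    intro n
    rw [ρ, Real.log_mul (by positivity) (Real.exp_pos _).ne', Real.log_pow, Real.log_exp]
  have hup : ∀ n : ℕ, ∃ S : Finset ℂ, ↑S ⊆ zone L E F (ρ x₀ (n + 1)) (ρ x₀ (n + 1 + 1)) ∧
      ∀ w w' : ℂ → ℂ, IsBr (zone L E F (ρ x₀ (n + 1)) (ρ x₀ (n + 1 + 1))) F w →
      IsBr (zone L E F (ρ x₀ (n + 1)) (ρ x₀ (n + 1 + 1))) F w' → (∀ s ∈ S, w s = w' s) →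
      ∃ Φ : ℂ → ℂ, AHol (zone L E F (ρ x₀ (n + 1)) (ρ x₀ (n + 1 + 1))) Φ η ∧
        (∀ z ∈ zone L E F (ρ x₀ (n + 1)) (ρ x₀ (n + 1 + 1)), ‖F z‖ ≤ 4 / 3 * ρ x₀ (n + 1) →
          Φ z = Ξ (w z)) ∧
        (∀ z ∈ zone L E F (ρ x₀ (n + 1)) (ρ x₀ (n + 1 + 1)), 5 / 3 * ρ x₀ (n + 1) ≤ ‖F z‖ →
          Φ z = Ξ (w' z)) ∧
        (∀ z ∈ zone L E F (ρ x₀ (n + 1)) (ρ x₀ (n + 1 + 1)), x₀ / 10 / 2 ≤ (Φ z).re) ∧
        ∀ z ∈ zone L E F (ρ x₀ (n + 1)) (ρ x₀ (n + 1 + 1)),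
          ‖Φ z - J₁‖ ≤ 4 * D' / Real.log (ρ x₀ (n + 1)) := by
    intro n
    have hlog := hlogρ (n + 1)
    have hlog2 := Real.log_pos one_lt_two
    refine hUp _ F Ξ J₁ D' x₀ (Real.log (ρ x₀ (n + 1))) (x₀ / 10) _ _ η (zone_compact D _ _)
      (zone_hol D _ _) hΞ (by linarith) (by linarith) ?_ ?_ hΞlow hΞJ
      (by linarith [ρ_pos x₀ (n + 1)]) hη
    · rw [hlog]
      have : (0 : ℝ) ≤ ((n + 1 : ℕ) : ℝ) * Real.log 2 := by positivity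
      linarith
    · intro z hz
      rw [Real.exp_log (ρ_pos _ _)]
      exact hz.2.1
  choose S hSsub hS using hup
  -- all finite sets
  set T : ℕ → Finset ℂ := fun n => Nat.casesOn n S₀ S with hT
  have hT0 : T 0 = S₀ := rfl
  have hTs : ∀ n, T (n + 1) = S n := fun n => rfl
  have hTsub : ∀ n, (↑(T n) : Set ℂ) ⊆ ⋃ n, X n := by
    intro n
    cases n with
    | zero => exact hS₀.trans (subset_iUnion X 0)
    | succ n => exact (hSsub n).trans (hZU (n + 1))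
  have hwb : ∀ n, ∃ (N : ℕ) (w : ℂ → ℂ), n + 1 ≤ N ∧ IsBr (X N) F w ∧
      ∀ s ∈ T n ∪ T (n + 1), w s = W s := by
    intro n
    obtain ⟨N, w, h1, h2, _, h4⟩ := hWS (T n ∪ T (n + 1)) (n + 1) (by
      rw [Finset.coe_union]
      exact union_subset (hTsub n) (hTsub (n + 1)))
    exact ⟨N, w, h1, h2, h4⟩
  choose N w hN hwbr hwW using hwb
  have hbrmono : ∀ (A B : Set ℂ) (v : ℂ → ℂ), A ⊆ B → IsBr B F v → IsBr A F v :=
    fun A B v hAB hv => ⟨hv.1.mono hAB, fun z hz => hv.2 z (hAB hz)⟩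
  have hsub1 : ∀ n, zone L E F (ρ x₀ n) (ρ x₀ (n + 1)) ⊆ X (N n) := fun n =>
    (hZX n).trans (hXmono (by have := hN n; omega))
  have hsub2 : ∀ n, zone L E F (ρ x₀ (n + 1)) (ρ x₀ (n + 1 + 1)) ⊆ X (N n) := fun n =>
    (hZX (n + 1)).trans (hXmono (hN n))
  obtain ⟨φ₀, hφ₀⟩ := hlow (w 0) (hbrmono _ _ _ (hsub1 0) (hwbr 0))
    (fun s hs => hwW 0 s (Finset.mem_union_left _ hs))
  have hφs : ∀ n, _ := fun n => hS n (w n) (w (n + 1)) (hbrmono _ _ _ (hsub2 n) (hwbr n))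
    (hbrmono _ _ _ (hsub1 (n + 1)) (hwbr (n + 1))) (fun s hs => by
      rw [hwW n s (Finset.mem_union_right _ hs), hwW (n + 1) s (Finset.mem_union_left _ hs)])
  choose φs hφ1 hφ2 hφ3 hφ4 hφ5 using hφs
  set φ : ℕ → ℂ → ℂ := fun n => Nat.casesOn n φ₀ φs with hφ
  have hφz : φ 0 = φ₀ := rfl
  have hφsu : ∀ n, φ (n + 1) = φs n := fun n => rfl
  have hD' : 0 ≤ D' := by
    have := (norm_nonneg _).trans (hΞJ 1 (by simp))
    simpa using this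
  -- the limit value
  have hJ : x₀ / 20 ≤ J₁.re := by
    have h1 : ∀ t : ℝ, x₀ ≤ t → x₀ / 10 - D' / t ≤ J₁.re := by
      intro t ht
      have ht0 : 0 < t := by linarith
      have h2 := hΞlow (t : ℂ) (by simpa using ht)
      have h3 := hΞJ (t : ℂ) (by simpa using ht0)
      have h4 := (abs_re_le_norm (Ξ t - J₁)).trans h3
      rw [sub_re, ofReal_re] at h4
      have := abs_le.1 h4
      linarith [this.2]
    have h2 : Tendsto (fun t : ℝ => x₀ / 10 - D' / t) atTop (𝓝 (x₀ / 10 - 0)) :=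
      tendsto_const_nhds.sub (tendsto_const_nhds.div_atTop tendsto_id)
    have h3 : x₀ / 10 - 0 ≤ J₁.re := le_of_tendsto h2
      (by filter_upwards [eventually_ge_atTop x₀] with t ht using h1 t ht)
    linarith
  refine glue D x₀ η D' hη Ξ J₁ φ w N hN hΞ hJ hD' ?_ ?_ ?_ ?_ ?_ ?_ ?_ ?_
  · exact fun n => hL _ F (w n) (zone_hol D _ _) (hwbr n)
  · intro n z hz
    have h1 := (hwbr n).2 z hz
    have h2 : Real.exp ((w n z).re) = ‖F z‖ := by rw [← h1, Complex.norm_exp]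
    have h3 : Real.exp x₀ ≤ Real.exp ((w n z).re) := by
      rw [h2, ← ρ_zero]; exact hz.2.1
    have := Real.exp_le_exp.1 h3
    linarith
  · intro n
    cases n with
    | zero => exact hφ₀.1
    | succ n => exact hφ1 n
  · exact fun z hz h => hφ₀.2.1 z hz h
  · intro n
    cases n with
    | zero => exact fun z hz h => hφ₀.2.2.1 z hz h
    | succ n => exact fun z hz h => hφ3 n z hz h
  · exact fun n z hz h => hφ2 n z hz h
  · intro n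
    cases n with
    | zero => exact fun z hz => hφ₀.2.2.2 z hz
    | succ n =>
      intro z hz
      have := hφ4 n z hz
      have e : x₀ / 20 = x₀ / 10 / 2 := by ring
      rw [e]
      exact this
  · exact fun n z hz => hφ5 n z hz

end Pool.Agent.CMerg
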