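import Pool.Agent.CMerg.Defs

set_option autoImplicit false

/-!
# Chordal Mergelyan theorem: from the core statement to the class `M(L)`
-/

namespace Pool.Agent.CMerg

open Complex Metric Set Filter Topology MeasureTheory Polynomial
open scoped ContDiff

namespace Hard

theorem chord_coe (a b : ℂ) :
    chord (a : OnePoint ℂ) (b : OnePoint ℂ) = ‖a - b‖ / (√(1 + ‖a‖ ^ 2) * √(1 + ‖b‖ ^ 2)) := rfl

theorem chord_coe_infty (a : ℂ) :
    chord (a : OnePoint ℂ) (OnePoint.infty : OnePoint ℂ) = 1 / √(1 + ‖a‖ ^ 2) := rfl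

theorem one_le_sqrt (a : ℂ) : 1 ≤ √(1 + ‖a‖ ^ 2) := by
  rw [Real.one_le_sqrt]
  have := sq_nonneg ‖a‖
  linarith

theorem norm_le_sqrt (a : ℂ) : ‖a‖ ≤ √(1 + ‖a‖ ^ 2) := by
  apply Real.le_sqrt_of_sq_le
  linarith

theorem chord_le_sub (a b : ℂ) : chord (a : OnePoint ℂ) (b : OnePoint ℂ) ≤ ‖a - b‖ := by
  rw [chord_coe]
  have h1 := one_le_sqrt a
  have h2 := one_le_sqrt b
  have h3 : 1 ≤ √(1 + ‖a‖ ^ 2) * √(1 + ‖b‖ ^ 2) := one_le_mul_of_one_le_of_one_le h1 h2
  exact div_le_self (norm_nonneg _) h3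

theorem chord_le_far {a b : ℂ} {r : ℝ} (hr : 0 < r) (ha : r ≤ ‖a‖) (hb : r ≤ ‖b‖) :
    chord (a : OnePoint ℂ) (b : OnePoint ℂ) ≤ 2 / r := by
  rw [chord_coe]
  have h1 := one_le_sqrt a
  have h2 := one_le_sqrt b
  have h3 := norm_le_sqrt a
  have h4 := norm_le_sqrt b
  set A := √(1 + ‖a‖ ^ 2)
  set B := √(1 + ‖b‖ ^ 2)
  have hA : r ≤ A := ha.trans h3
  have hB : r ≤ B := hb.trans h4
  have hAp : 0 < A := by linarith
  have hBp : 0 < B := by linarith
  rw [div_le_div_iff₀ (mul_pos hAp hBp) hr]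
  have h5 : ‖a - b‖ ≤ A + B := (norm_sub_le a b).trans (add_le_add h3 h4)
  nlinarith [mul_le_mul_of_nonneg_left hA hBp.le, mul_le_mul_of_nonneg_left hB hAp.le,
    mul_le_mul_of_nonneg_right h5 hr.le]

theorem chord_infty_le {a : ℂ} {r : ℝ} (hr : 0 < r) (ha : r ≤ ‖a‖) :
    chord (a : OnePoint ℂ) (OnePoint.infty : OnePoint ℂ) ≤ 1 / r := by
  rw [chord_coe_infty]
  exact one_div_le_one_div_of_le hr (ha.trans (norm_le_sqrt a))

/-- The finite value. -/
noncomputable def fin (x : OnePoint ℂ) : ℂ := Option.getD x 0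

theorem fin_coe (a : ℂ) : fin (a : OnePoint ℂ) = a := rfl

theorem coe_fin {x : OnePoint ℂ} (hx : x ≠ OnePoint.infty) : ((fin x : ℂ) : OnePoint ℂ) = x := by
  induction x using OnePoint.rec with
  | infty => exact absurd rfl hx
  | coe a => rfl

/-- The data of a function in the class `M(L)`. -/
theorem dat {L : Set ℂ} {f : ℂ → OnePoint ℂ} (hL : IsCompact L) (hc : IsConnected Lᶜ)
    (hf : InM L f) : Dat L {z | z ∈ L ∧ f z = OnePoint.infty} (fun z => fin (f z)) := by
  obtain ⟨hcont, hcomp⟩ := hf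
  have hcoe : ∀ z ∈ L \ {z | z ∈ L ∧ f z = OnePoint.infty}, ((fin (f z) : ℂ) : OnePoint ℂ) = f z :=
    fun z hz => coe_fin fun h => hz.2 ⟨hz.1, h⟩
  have hlev : ∀ R : ℝ, {z | z ∈ L \ {z | z ∈ L ∧ f z = OnePoint.infty} ∧ ‖fin (f z)‖ ≤ R} =
      L ∩ f ⁻¹' ((fun a : ℂ => (a : OnePoint ℂ)) '' closedBall 0 R) := by
    intro R
    ext z
    constructor
    · rintro ⟨hz, hR⟩
      refine ⟨hz.1, fin (f z), ?_, hcoe z hz⟩
      rw [mem_closedBall, dist_zero_right]
      exact hR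
    · rintro ⟨hz, a, ha, hfa⟩
      have hfa' : f z = (a : OnePoint ℂ) := hfa.symm
      refine ⟨⟨hz, fun h => ?_⟩, ?_⟩
      · rw [h.2] at hfa'
        exact OnePoint.infty_ne_coe a hfa'
      · rw [hfa', fin_coe]
        rwa [mem_closedBall, dist_zero_right] at ha
  have hcd : ∀ z ∈ interior L, ¬ (z ∈ L ∧ f z = OnePoint.infty) →
      ∃ h : ℂ → ℂ, DifferentiableOn ℂ h (connectedComponentIn (interior L) z) ∧
        ∀ w ∈ connectedComponentIn (interior L) z, f w = (h w : OnePoint ℂ) := by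
    intro z hz hzE
    rcases hcomp z hz with h | h
    · exact absurd ⟨interior_subset hz, h z (mem_connectedComponentIn hz)⟩ hzE
    · exact h
  refine ⟨hL, hc.isPreconnected, fun z hz => hz.1, ?_, ?_, ?_, ?_, ?_⟩
  · exact hcont.preimage_isClosed_of_isClosed hL.isClosed isClosed_singleton
  · have h1 : ContinuousOn (fun z => ((fin (f z) : ℂ) : OnePoint ℂ))
        (L \ {z | z ∈ L ∧ f z = OnePoint.infty}) :=
      (hcont.mono sdiff_subset).congr hcoe
    exact OnePoint.isOpenEmbedding_coe.isEmbedding.continuousOn_iff.2 h1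
  · intro R
    rw [hlev R]
    have hk : IsClosed ((fun a : ℂ => (a : OnePoint ℂ)) '' closedBall 0 R) :=
      ((isCompact_closedBall (0 : ℂ) R).image OnePoint.continuous_coe).isClosed
    exact hL.of_isClosed_subset (hcont.preimage_isClosed_of_isClosed hL.isClosed hk)
      inter_subset_left
  · intro z hz hzE
    obtain ⟨h, -, hh⟩ := hcd z hz hzE
    rw [Set.disjoint_left]
    intro w hw hwE
    have := hh w hw
    rw [hwE.2] at this
    exact OnePoint.infty_ne_coe _ this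
  · intro z hz
    obtain ⟨h, hd, hh⟩ := hcd z hz.1 hz.2
    have hopen : IsOpen (connectedComponentIn (interior L) z) := isOpen_interior.connectedComponentIn
    have hmem : connectedComponentIn (interior L) z ∈ 𝓝 z :=
      hopen.mem_nhds (mem_connectedComponentIn hz.1)
    have h1 : DifferentiableAt ℂ h z := hd.differentiableAt hmem
    have h2 : (fun z => fin (f z)) =ᶠ[𝓝 z] h := by
      filter_upwards [hmem] with w hw
      rw [hh w hw, fin_coe]
    exact (h2.differentiableAt_iff.2 h1).differentiableWithinAt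

theorem exists_poly (hCore : Stmt_Core) (hM : Stmt_Mergelyan) {L : Set ℂ} {f : ℂ → OnePoint ℂ}
    (hL : IsCompact L) (hc : IsConnected Lᶜ) (hf : InM L f) {ε : ℝ} (hε : 0 < ε) :
    ∃ p : ℂ[X], ∀ z ∈ L, chord ((p.eval z : ℂ) : OnePoint ℂ) (f z) < ε := by
  set δ : ℝ := min ε 1 / 4 with hδ
  have hmin : 0 < min ε 1 := lt_min hε one_pos
  have hδ0 : 0 < δ := by positivity
  have hδε : 4 * δ ≤ ε := by
    rw [hδ]
    have := min_le_left ε 1
    linarith
  have hδ1 : 4 * δ ≤ 1 := by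
    rw [hδ]
    have := min_le_right ε 1
    linarith
  set r : ℝ := 1 / δ with hr
  have hr0 : 0 < r := by positivity
  have hrδ : 1 / r = δ := by rw [hr, one_div_one_div]
  obtain ⟨R, g, hρR, hg, hg1, hg2⟩ := hCore L _ _ (dat hL hc hf) δ (r + δ) hδ0
  obtain ⟨p, hp⟩ := hM L g hL hc.isPreconnected hg δ hδ0
  refine ⟨p, fun z hz => ?_⟩
  have hpz := hp z hz
  by_cases hE : f z = OnePoint.infty
  · have h1 := hg2 z hz (Or.inl ⟨hz, hE⟩)
    have h2 : r ≤ ‖p.eval z‖ := by
      have := norm_sub_norm_le (g z) (p.eval z)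
      rw [norm_sub_rev] at this
      linarith
    rw [hE]
    have h3 := chord_infty_le hr0 h2
    rw [hrδ] at h3
    linarith
  · have hzE : z ∈ L \ {z | z ∈ L ∧ f z = OnePoint.infty} := ⟨hz, fun h => hE h.2⟩
    rw [← coe_fin hE]
    rcases le_total ‖fin (f z)‖ R with hR | hR
    · have h1 := hg1 z hzE hR
      have h2 := chord_le_sub (p.eval z) (fin (f z))
      have h3 : ‖p.eval z - fin (f z)‖ ≤ ‖p.eval z - g z‖ + ‖g z - fin (f z)‖ := norm_sub_le_norm_sub_add_norm_sub _ _ _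
      linarith
    · have h1 := hg2 z hz (Or.inr hR)
      have h2 : r ≤ ‖p.eval z‖ := by
        have := norm_sub_norm_le (g z) (p.eval z)
        rw [norm_sub_rev] at this
        linarith
      have h3 : r ≤ ‖fin (f z)‖ := by linarith
      have h4 := chord_le_far hr0 h2 h3
      have h5 : 2 / r = 2 * δ := by rw [← hrδ]; ring
      rw [h5] at h4
      linarith

end Hard

open Hard in
/-- From the core to the class `M(L)`. -/
theorem hard (hCore : Stmt_Core) (hM : Stmt_Mergelyan) : Stmt_Hard := by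
  intro L f hL hc hf
  choose p hp using fun n : ℕ => exists_poly hCore hM hL hc hf (ε := 1 / ((n : ℝ) + 1)) (by positivity)
  refine ⟨p, fun ε hε => ?_⟩
  obtain ⟨N, hN⟩ := exists_nat_one_div_lt hε
  refine ⟨N, fun n hn z hz => (hp n z hz).trans_le ?_⟩
  have h1 : (N : ℝ) ≤ n := by exact_mod_cast hn
  have h2 : (0 : ℝ) ≤ N := Nat.cast_nonneg N
  exact (one_div_le_one_div_of_le (by linarith) (by linarith)).trans hN.le

end Pool.Agent.CMerg
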