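import Pool.Agent.CMerg.Defs

set_option autoImplicit false

/-!
# Chordal Mergelyan theorem: level zones have connected complement
-/

namespace Pool.Agent.CMerg

open Complex Metric Set Filter Topology

/-- If the complement of `Z ⊆ L` is not preconnected, it has a component inside `L`. -/
theorem Holes.exists_component {L Z : Set ℂ} (hL : IsCompact L) (hcon : IsPreconnected Lᶜ)
    (hZ : Z ⊆ L) (hn : ¬ IsPreconnected Zᶜ) : ∃ x ∈ Zᶜ, connectedComponentIn Zᶜ x ⊆ L := by
  by_contra hcontra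
  push Not at hcontra
  obtain ⟨p, hp⟩ : (Lᶜ).Nonempty := by
    rw [Set.nonempty_compl]
    rintro rfl
    exact noncompact_univ ℂ hL
  have hpZ : Lᶜ ⊆ Zᶜ := compl_subset_compl.2 hZ
  have h1 : Lᶜ ⊆ connectedComponentIn Zᶜ p := hcon.subset_connectedComponentIn hp hpZ
  apply hn
  have h2 : Zᶜ = connectedComponentIn Zᶜ p := by
    apply Subset.antisymm
    · intro x hx
      obtain ⟨y, hy, hyL⟩ := not_subset.1 (hcontra x hx)
      have h3 := connectedComponentIn_eq hy
      have h4 := connectedComponentIn_eq (h1 hyL)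
      rw [h4, ← h3]
      exact mem_connectedComponentIn hx
    · exact connectedComponentIn_subset _ _
  rw [h2]
  exact isPreconnected_connectedComponentIn

/-- The frontier of a component of an open set does not meet the set. -/
theorem Holes.frontier_component {Z : Set ℂ} (hZ : IsClosed Z) (x : ℂ) :
    frontier (connectedComponentIn Zᶜ x) ⊆ Z := by
  intro z hz
  by_contra hzZ
  have hopen : IsOpen (connectedComponentIn Zᶜ x) := hZ.isOpen_compl.connectedComponentIn
  obtain ⟨r, hr, hball⟩ := Metric.isOpen_iff.1 hZ.isOpen_compl z hzZ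
  have hzc : z ∈ closure (connectedComponentIn Zᶜ x) := frontier_subset_closure hz
  obtain ⟨y, hyb, hyU⟩ := mem_closure_iff.1 hzc (ball z r) isOpen_ball (mem_ball_self hr)
  have h1 : ball z r ⊆ connectedComponentIn Zᶜ y :=
    (convex_ball z r).isPreconnected.subset_connectedComponentIn hyb hball
  rw [← connectedComponentIn_eq hyU] at h1
  have h2 : z ∈ connectedComponentIn Zᶜ x := h1 (mem_ball_self hr)
  rw [hopen.frontier_eq] at hz
  exact hz.2 h2

section
variable {L E : Set ℂ} {F : ℂ → ℂ}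

theorem Holes.isClosed_zone (D : Dat L E F) (a b : ℝ) : IsClosed (zone L E F a b) := by
  have h1 : IsClosed {z | z ∈ L \ E ∧ ‖F z‖ ≤ b} := (D.lev b).isClosed
  have h2 : ContinuousOn (fun z => ‖F z‖) {z | z ∈ L \ E ∧ ‖F z‖ ≤ b} :=
    (D.cont.mono fun z hz => hz.1).norm
  have h3 := h2.preimage_isClosed_of_isClosed h1 (isClosed_Ici (a := a))
  convert h3 using 1
  ext z
  exact ⟨fun hz => ⟨⟨hz.1, hz.2.2⟩, hz.2.1⟩, fun hz => ⟨hz.1.1, hz.2, hz.1.2⟩⟩

theorem Holes.zone_subset (a b : ℝ) : zone L E F a b ⊆ L := fun _ hz => hz.1.1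

/-- The facts about a component of the complement of a zone which is contained in `L`. -/
theorem Holes.component (D : Dat L E F) {a b : ℝ} (ha : 0 < a) {x : ℂ} (hx : x ∈ (zone L E F a b)ᶜ)
    (hU : connectedComponentIn (zone L E F a b)ᶜ x ⊆ L) :
    IsOpen (connectedComponentIn (zone L E F a b)ᶜ x) ∧
    connectedComponentIn (zone L E F a b)ᶜ x ⊆ interior L \ E ∧
    frontier (connectedComponentIn (zone L E F a b)ᶜ x) ⊆ zone L E F a b ∧
    (frontier (connectedComponentIn (zone L E F a b)ᶜ x)).Nonempty ∧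
    ∃ z ∈ connectedComponentIn (zone L E F a b)ᶜ x, F z = 0 := by
  set Z := zone L E F a b with hZdef
  have hZ : IsClosed Z := Holes.isClosed_zone D a b
  set U := connectedComponentIn Zᶜ x with hUdef
  have hopen : IsOpen U := hZ.isOpen_compl.connectedComponentIn
  have hfr : frontier U ⊆ Z := Holes.frontier_component hZ x
  have hxU : x ∈ U := mem_connectedComponentIn hx
  have hpre : IsPreconnected U := isPreconnected_connectedComponentIn
  have hUint : U ⊆ interior L := hopen.subset_interior_iff.2 hU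
  have hbdd : Bornology.IsBounded U := D.cpt.isBounded.subset hU
  have hfrne : (frontier U).Nonempty := by
    rw [nonempty_iff_ne_empty]
    intro h
    have h1 : IsClopen U := isClopen_iff_frontier_eq_empty.2 h
    rcases isClopen_iff.1 h1 with h2 | h2
    · rw [h2] at hxU
      exact hxU
    · rw [h2] at hU
      have h3 : L = univ := univ_subset_iff.1 hU
      have h4 := D.cpt
      rw [h3] at h4
      exact noncompact_univ ℂ h4
  have hUE : U ⊆ interior L \ E := by
    intro z hz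
    refine ⟨hUint hz, fun hzE => ?_⟩
    have h1 : U ⊆ E := by
      intro z' hz'
      by_contra hz'E
      have h2 := D.comp z' (hUint hz') hz'E
      have h3 : U ⊆ connectedComponentIn (interior L) z' :=
        hpre.subset_connectedComponentIn hz' hUint
      exact disjoint_left.1 h2 (h3 hz) hzE
    obtain ⟨y, hy⟩ := hfrne
    have h2 : y ∈ E := closure_minimal h1 D.cl (frontier_subset_closure hy)
    exact (hfr hy).1.2 h2
  refine ⟨hopen, hUE, hfr, hfrne, ?_⟩
  by_contra hne
  push Not at hne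
  have hclos : closure U ⊆ L \ E := by
    intro z hz
    rcases (closure_eq_self_union_frontier U ▸ hz : z ∈ U ∪ frontier U) with h | h
    · exact ⟨hU h, (hUE h).2⟩
    · exact (hfr h).1
  have hcont : ContinuousOn F (closure U) := D.cont.mono hclos
  have hdiff : DifferentiableOn ℂ F U := D.hol.mono hUE
  have hle : ∀ z ∈ U, ‖F z‖ ≤ b := by
    intro z hz
    exact Complex.norm_le_of_forall_mem_frontier_norm_le hbdd ⟨hdiff, hcont⟩
      (fun y hy => (hfr hy).2.2) (subset_closure hz)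
  have hinv : DiffContOnCl ℂ (fun z => (F z)⁻¹) U := by
    refine ⟨hdiff.inv hne, hcont.inv₀ ?_⟩
    intro z hz
    rcases (closure_eq_self_union_frontier U ▸ hz : z ∈ U ∪ frontier U) with h | h
    · exact hne z h
    · intro h0
      have := (hfr h).2.1
      rw [h0, norm_zero] at this
      linarith
  have hge : ∀ z ∈ U, a ≤ ‖F z‖ := by
    intro z hz
    have h1 : ‖(F z)⁻¹‖ ≤ a⁻¹ :=
      Complex.norm_le_of_forall_mem_frontier_norm_le hbdd hinv
        (fun y hy => by
          rw [norm_inv]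
          exact inv_anti₀ ha (hfr hy).2.1) (subset_closure hz)
    rw [norm_inv] at h1
    have h2 : 0 < ‖F z‖ := norm_pos_iff.2 (hne z hz)
    exact (inv_le_inv₀ h2 ha).1 h1
  exact hx ⟨⟨hU hxU, (hUE hxU).2⟩, hge x hxU, hle x hxU⟩

/-- Uniform size of the balls around zeros where `F` is small. -/
theorem Holes.exists_radius (D : Dat L E F) : ∃ r : ℝ, 0 < r ∧ ∀ z ∈ L \ E, F z = 0 →
    ∀ z' ∈ L, dist z' z < r → z' ∉ E ∧ ‖F z'‖ < 1 := by
  have hN : IsCompact {z | z ∈ L \ E ∧ ‖F z‖ ≤ 0} := D.lev 0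
  have hM : IsClosed {z | z ∈ L ∧ (z ∈ E ∨ 1 ≤ ‖F z‖)} := by
    rw [← isOpen_compl_iff, isOpen_iff_mem_nhds]
    intro z hz
    by_cases hzL : z ∈ L
    · have hzE : z ∉ E := fun h => hz ⟨hzL, Or.inl h⟩
      have hzF : ‖F z‖ < 1 := by
        by_contra h
        exact hz ⟨hzL, Or.inr (not_lt.1 h)⟩
      have h1 : ∀ᶠ y in 𝓝[L \ E] z, ‖F y‖ < 1 :=
        ((D.cont z ⟨hzL, hzE⟩).norm).eventually_lt continuousWithinAt_const hzF
      rw [eventually_nhdsWithin_iff] at h1
      have h2 : ∀ᶠ y in 𝓝 z, y ∉ E := D.cl.isOpen_compl.mem_nhds hzE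
      filter_upwards [h1, h2] with y hy1 hy2
      rintro ⟨hyL, hy3 | hy3⟩
      · exact hy2 hy3
      · exact absurd (hy1 ⟨hyL, hy2⟩) (not_lt.2 hy3)
    · filter_upwards [D.cpt.isClosed.isOpen_compl.mem_nhds hzL] with y hy
      exact fun h => hy h.1
  have hdisj : Disjoint {z | z ∈ L \ E ∧ ‖F z‖ ≤ 0} {z | z ∈ L ∧ (z ∈ E ∨ 1 ≤ ‖F z‖)} := by
    rw [disjoint_left]
    rintro z ⟨h1, h2⟩ ⟨h3, h4 | h4⟩
    · exact h1.2 h4
    · linarith
  obtain ⟨r, hr, h⟩ := hdisj.exists_thickenings hN hM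
  refine ⟨r, hr, fun z hz hFz z' hz' hd => ?_⟩
  have h1 : z' ∈ Metric.thickening r {z | z ∈ L \ E ∧ ‖F z‖ ≤ 0} := by
    rw [Metric.mem_thickening_iff]
    exact ⟨z, ⟨hz, by simp [hFz]⟩, hd⟩
  have h2 : z' ∉ {z | z ∈ L ∧ (z ∈ E ∨ 1 ≤ ‖F z‖)} := fun h3 =>
    disjoint_left.1 h h1 (Metric.self_subset_thickening hr _ h3)
  refine ⟨fun h3 => h2 ⟨hz', Or.inl h3⟩, ?_⟩
  by_contra h3
  exact h2 ⟨hz', Or.inr (not_lt.1 h3)⟩

end

/-- Division by the zeros. -/
theorem Holes.factor {V : Set ℂ} (hV : IsOpen V) (hpre : IsPreconnected V) {F : ℂ → ℂ}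
    (hF : DifferentiableOn ℂ F V) (hfin : {z | z ∈ V ∧ F z = 0}.Finite) (hinf : V.Infinite) :
    ∃ q g : ℂ → ℂ, Continuous q ∧ DifferentiableOn ℂ g V ∧ (∀ z ∈ V, g z ≠ 0) ∧
      ∀ z ∈ V, F z = q z * g z := by
  have hA : AnalyticOnNhd ℂ F V := hF.analyticOnNhd hV
  obtain ⟨z₁, hz₁V, hz₁⟩ : ∃ z ∈ V, F z ≠ 0 := by
    by_contra h
    push Not at h
    exact hinf (hfin.subset fun z hz => ⟨hz, h z hz⟩)
  have hord : ∀ u : V, meromorphicOrderAt F u ≠ ⊤ := by
    intro u hu
    rw [meromorphicOrderAt_eq_top_iff] at hu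
    have h1 : ∃ᶠ z in 𝓝[≠] (u : ℂ), F z = 0 := hu.frequently
    exact hz₁ (hA.eqOn_zero_of_preconnected_of_frequently_eq_zero hpre u.2 h1 hz₁V)
  have hsupp : (MeromorphicOn.divisor F V).support.Finite := by
    apply hfin.subset
    intro z hz
    rw [Function.mem_support] at hz
    by_cases hzV : z ∈ V
    · refine ⟨hzV, ?_⟩
      by_contra hne
      apply hz
      rw [MeromorphicOn.divisor_apply hA.meromorphicOn hzV, (hA z hzV).meromorphicOrderAt_eq,
        (hA z hzV).analyticOrderAt_eq_zero.2 hne]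
      simp
    · exact absurd (Function.locallyFinsuppWithin.apply_eq_zero_of_notMem _ hzV) hz
  obtain ⟨g, hg1, hg2, hg3⟩ := hA.meromorphicOn.extract_zeros_poles hord hsupp
  refine ⟨∏ᶠ u, (· - u) ^ MeromorphicOn.divisor F V u, g, ?_, hg1.differentiableOn,
    fun z hz => hg2 ⟨z, hz⟩, ?_⟩
  · rw [continuous_iff_continuousAt]
    intro x
    exact (Function.FactorizedRational.analyticAt
      ((MeromorphicOn.AnalyticOnNhd.divisor_nonneg hA) x)).continuousAt
  · intro z hz
    have h1 : ∀ᶠ y in 𝓝[≠] z, F y =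
        ((∏ᶠ u, (· - u) ^ MeromorphicOn.divisor F V u : ℂ → ℂ) • g) y := by
      have h2 := mem_codiscreteWithin.1 hg3 z hz
      rw [Filter.disjoint_principal_right] at h2
      have h3 : V ∈ 𝓝[≠] z := mem_nhdsWithin_of_mem_nhds (hV.mem_nhds hz)
      filter_upwards [h2, h3] with y hy1 hy2
      by_contra hy3
      exact hy1 ⟨hy2, hy3⟩
    have h4 : ContinuousAt (fun y => ((∏ᶠ u, (· - u) ^ MeromorphicOn.divisor F V u : ℂ → ℂ) • g) y)
        z := by
      apply ContinuousAt.smul
      · exact (Function.FactorizedRational.analyticAt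
          ((MeromorphicOn.AnalyticOnNhd.divisor_nonneg hA) z)).continuousAt
      · exact (hg1 z hz).continuousAt
    have h5 : ContinuousAt F z := (hA z hz).continuousAt
    have h6 := tendsto_nhds_unique_of_eventuallyEq (h5.tendsto.mono_left nhdsWithin_le_nhds)
      (h4.tendsto.mono_left nhdsWithin_le_nhds) h1
    simpa using h6

theorem holes : Stmt_Holes := by
  intro L E F D
  obtain ⟨r, hr, hrad⟩ := Holes.exists_radius D
  by_contra hcontra
  push Not at hcontra
  have h1 : ∀ n : ℕ, ∃ (a b : ℝ) (z : ℂ), (n : ℝ) + 1 ≤ a ∧ z ∈ (zone L E F a b)ᶜ ∧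
      connectedComponentIn (zone L E F a b)ᶜ z ⊆ L ∧ F z = 0 := by
    intro n
    obtain ⟨a, b, hab, hnot⟩ := hcontra (n + 1) (by positivity)
    obtain ⟨x, hx, hxL⟩ := Holes.exists_component D.cpt D.con (Holes.zone_subset a b) hnot
    have ha : 0 < a := lt_of_lt_of_le (by positivity) hab
    obtain ⟨-, -, -, -, z, hz, hFz⟩ := Holes.component D ha hx hxL
    have h2 := connectedComponentIn_eq hz
    refine ⟨a, b, z, hab, connectedComponentIn_subset _ _ hz, ?_, hFz⟩
    rw [← h2]
    exact hxL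
  choose a b z ha hz hUL hFz using h1
  have ha1 : ∀ n, 1 ≤ a n := fun n => le_trans (by linarith [Nat.cast_nonneg (α := ℝ) n]) (ha n)
  have ha0 : ∀ n, 0 < a n := fun n => lt_of_lt_of_le one_pos (ha1 n)
  set U : ℕ → Set ℂ := fun n => connectedComponentIn (zone L E F (a n) (b n))ᶜ (z n) with hUdef
  have hcomp := fun n => Holes.component D (ha0 n) (hz n) (hUL n)
  have hopen : ∀ n, IsOpen (U n) := fun n => (hcomp n).1
  have hUE : ∀ n, U n ⊆ interior L \ E := fun n => (hcomp n).2.1
  have hfr : ∀ n, frontier (U n) ⊆ zone L E F (a n) (b n) := fun n => (hcomp n).2.2.1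
  have hfrne : ∀ n, (frontier (U n)).Nonempty := fun n => (hcomp n).2.2.2.1
  have hzU : ∀ n, z n ∈ U n := fun n => mem_connectedComponentIn (hz n)
  have hpre : ∀ n, IsPreconnected (U n) := fun n => isPreconnected_connectedComponentIn
  have hUsub : ∀ n, U n ⊆ (zone L E F (a n) (b n))ᶜ := fun n => connectedComponentIn_subset _ _
  have hclos : ∀ n, closure (U n) ⊆ L \ E := by
    intro n y hy
    rcases (closure_eq_self_union_frontier (U n) ▸ hy : y ∈ U n ∪ frontier (U n)) with h | h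
    · exact ⟨hUL n h, (hUE n h).2⟩
    · exact (hfr n h).1
  have habs : ∀ (n : ℕ) (S : Set ℂ) (y : ℂ), IsPreconnected S → S ⊆ (zone L E F (a n) (b n))ᶜ →
      y ∈ S → y ∈ U n → S ⊆ U n := by
    intro n S y hS hSsub hyS hyU
    have h2 := hS.subset_connectedComponentIn hyS hSsub
    rw [← connectedComponentIn_eq hyU] at h2
    exact h2
  have hball : ∀ n, ∀ y ∈ U n, F y = 0 → ball y r ⊆ U n := by
    intro n y hy hFy
    refine habs n _ y (convex_ball y r).isPreconnected ?_ (mem_ball_self hr) hy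
    intro w hw hwz
    have h2 := hrad y ⟨hUL n hy, (hUE n hy).2⟩ hFy w hwz.1.1 (mem_ball.1 hw)
    have h3 := hwz.2.1
    linarith [h2.2, ha1 n]
  obtain ⟨zs, hzs, φ, hφ, hlim⟩ := (D.lev 0).tendsto_subseq (x := z)
    (fun n => ⟨⟨hUL n (hzU n), (hUE n (hzU n)).2⟩, by rw [hFz n, norm_zero]⟩)
  have hFzs : F zs = 0 := norm_le_zero_iff.1 hzs.2
  have hev1 : ∀ᶠ k in atTop, zs ∈ U (φ k) := by
    filter_upwards [(Metric.tendsto_nhds.1 hlim) r hr] with k hk
    exact hball (φ k) _ (hzU _) (hFz _) (by rw [mem_ball, dist_comm]; exact hk)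
  have haφ : Tendsto (fun k => a (φ k)) atTop atTop := by
    refine tendsto_atTop_mono (f := fun k : ℕ => (k : ℝ)) (fun k => ?_) tendsto_natCast_atTop_atTop
    have h2 : (k : ℝ) ≤ (φ k : ℝ) := by exact_mod_cast hφ.id_le k
    linarith [ha (φ k)]
  obtain ⟨k₀, hk₀⟩ := hev1.exists
  have hzsint : zs ∈ interior L := (hUE _ hk₀).1
  set V := connectedComponentIn (interior L) zs with hVdef
  have hVopen : IsOpen V := isOpen_interior.connectedComponentIn
  have hVpre : IsPreconnected V := isPreconnected_connectedComponentIn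
  have hzsV : zs ∈ V := mem_connectedComponentIn hzsint
  have hVint : V ⊆ interior L := connectedComponentIn_subset _ _
  have hVE : Disjoint V E := D.comp zs hzsint hzs.1.2
  have hVsub : V ⊆ interior L \ E := fun y hy => ⟨hVint hy, disjoint_left.1 hVE hy⟩
  have hFV : DifferentiableOn ℂ F V := D.hol.mono hVsub
  have hUV : ∀ k, zs ∈ U (φ k) → U (φ k) ⊆ V := fun k hk =>
    (hpre _).subset_connectedComponentIn hk fun y hy => (hUE _ hy).1
  have hev2 : ∀ y ∈ V, ∀ᶠ k in atTop, y ∈ U (φ k) := by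
    intro y hy
    have h2 : IsPathConnected V := hVopen.isConnected_iff_isPathConnected.1 ⟨⟨zs, hzsV⟩, hVpre⟩
    obtain ⟨γ, hγ⟩ := h2.joinedIn zs hzsV y hy
    have h3 : IsCompact (range γ) := isCompact_range γ.continuous
    have h4 : range γ ⊆ V := range_subset_iff.2 hγ
    obtain ⟨R, hR⟩ := h3.exists_bound_of_continuousOn (hFV.continuousOn.mono h4)
    filter_upwards [hev1, haφ.eventually_gt_atTop R] with k hk hak
    refine habs (φ k) (range γ) zs (isPreconnected_range γ.continuous) ?_ ⟨0, γ.source⟩ hk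
      ⟨1, γ.target⟩
    intro w hw hwz
    linarith [hR w hw, hwz.2.1]
  have hfin : {y | y ∈ V ∧ F y = 0}.Finite := by
    by_contra hinf
    have hVc : (Vᶜ).Nonempty := by
      rw [nonempty_compl]
      intro h
      have h2 : L = univ := univ_subset_iff.1 (h ▸ hVint.trans interior_subset)
      have h4 := D.cpt
      rw [h2] at h4
      exact noncompact_univ ℂ h4
    have hK : IsCompact {y | y ∈ L ∧ r ≤ infDist y Vᶜ} := by
      have h2 : IsClosed {y | r ≤ infDist y Vᶜ} :=
        isClosed_le continuous_const (continuous_infDist_pt _)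
      exact D.cpt.inter_right h2
    have hsub : {y | y ∈ V ∧ F y = 0} ⊆ {y | y ∈ L ∧ r ≤ infDist y Vᶜ} := by
      rintro y ⟨hyV, hFy⟩
      refine ⟨interior_subset (hVint hyV), ?_⟩
      obtain ⟨k, hk, hk'⟩ := (hev1.and (hev2 y hyV)).exists
      have h2 : ball y r ⊆ V := (hball _ y hk' hFy).trans (hUV k hk)
      rw [le_infDist hVc]
      intro w hw
      by_contra h3
      exact hw (h2 (by rw [mem_ball, dist_comm]; exact not_le.1 h3))
    obtain ⟨p, hp, hacc⟩ := Set.Infinite.exists_accPt_of_subset_isCompact hinf hK hsub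
    have hpV : p ∈ V := by
      by_contra h
      have h2 : infDist p Vᶜ = 0 := infDist_zero_of_mem h
      have h3 : r ≤ infDist p Vᶜ := hp.2
      linarith
    have h2 : ∃ᶠ y in 𝓝[≠] p, F y = 0 := (accPt_iff_frequently_nhdsNE.1 hacc).mono fun y hy => hy.2
    have h3 := (hFV.analyticOnNhd hVopen).eqOn_zero_of_preconnected_of_frequently_eq_zero hVpre
      hpV h2
    have h4 : EqOn F 0 (closure (U (φ k₀))) := by
      refine EqOn.of_subset_closure (h3.mono (hUV k₀ hk₀)) (D.cont.mono (hclos _))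
        continuousOn_const subset_closure subset_rfl
    obtain ⟨y, hy⟩ := hfrne (φ k₀)
    have h5 := (hfr _ hy).2.1
    rw [h4 (frontier_subset_closure hy)] at h5
    simp only [Pi.zero_apply, norm_zero] at h5
    linarith [ha0 (φ k₀)]
  obtain ⟨q, g, hq, hg, hg0, hFqg⟩ := Holes.factor hVopen hVpre hFV hfin
    (infinite_of_mem_nhds zs (hVopen.mem_nhds hzsV))
  obtain ⟨C, hC⟩ := D.cpt.exists_bound_of_continuousOn (f := q) hq.continuousOn
  have hmax : ∀ k, zs ∈ U (φ k) → ‖(g zs)⁻¹‖ ≤ 2 * C / a (φ k) := by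
    intro k hk
    set W : Set ℂ := U (φ k) ∩ {y | ‖F y‖ < a (φ k) / 2} with hW
    have hak := ha0 (φ k)
    have hWopen : IsOpen W :=
      ((hFV.continuousOn.mono (hUV k hk)).norm).isOpen_inter_preimage (hopen _) isOpen_Iio
    have hWcl : closure W ⊆ {y | y ∈ U (φ k) ∧ ‖F y‖ ≤ a (φ k) / 2} := by
      have h2 : IsClosed (closure (U (φ k)) ∩ (fun y => ‖F y‖) ⁻¹' Iic (a (φ k) / 2)) :=
        ((D.cont.mono (hclos _)).norm).preimage_isClosed_of_isClosed isClosed_closure isClosed_Iic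
      have h3 : W ⊆ closure (U (φ k)) ∩ (fun y => ‖F y‖) ⁻¹' Iic (a (φ k) / 2) :=
        fun y hy => ⟨subset_closure hy.1, le_of_lt (show ‖F y‖ < a (φ k) / 2 from hy.2)⟩
      intro y hy
      obtain ⟨h4, h5⟩ := closure_minimal h3 h2 hy
      have h5' : ‖F y‖ ≤ a (φ k) / 2 := h5
      refine ⟨?_, h5'⟩
      rcases (closure_eq_self_union_frontier (U (φ k)) ▸ h4 :
        y ∈ U (φ k) ∪ frontier (U (φ k))) with h | h
      · exact h
      · have h6 := (hfr _ h).2.1
        linarith
    have hfrW : ∀ y ∈ frontier W, ‖(g y)⁻¹‖ ≤ 2 * C / a (φ k) := by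
      intro y hy
      rw [hWopen.frontier_eq] at hy
      obtain ⟨h2, h3⟩ := hWcl hy.1
      have h4 : a (φ k) / 2 ≤ ‖F y‖ := by
        by_contra h
        exact hy.2 ⟨h2, not_le.1 h⟩
      have h5 : ‖F y‖ = a (φ k) / 2 := le_antisymm h3 h4
      have hyV := hUV k hk h2
      have h6 := hFqg y hyV
      have h7 : 0 < ‖g y‖ := norm_pos_iff.2 (hg0 y hyV)
      have h8 : a (φ k) / 2 = ‖q y‖ * ‖g y‖ := by rw [← h5, h6, norm_mul]
      have h9 := hC y (hUL _ h2)
      rw [norm_inv, inv_le_comm₀ h7 (by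
        have : 0 < ‖q y‖ := by
          by_contra h
          have : ‖q y‖ = 0 := le_antisymm (not_lt.1 h) (norm_nonneg _)
          rw [this, zero_mul] at h8
          linarith
        have : 0 < C := lt_of_lt_of_le this h9
        positivity)]
      rw [inv_div, div_le_iff₀' (by
        have : 0 < ‖q y‖ := by
          by_contra h
          have : ‖q y‖ = 0 := le_antisymm (not_lt.1 h) (norm_nonneg _)
          rw [this, zero_mul] at h8
          linarith
        have : 0 < C := lt_of_lt_of_le this h9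
        positivity)]
      nlinarith
    have hWb : Bornology.IsBounded W :=
      D.cpt.isBounded.subset fun y hy => hUL _ hy.1
    have hd : DiffContOnCl ℂ (fun y => (g y)⁻¹) W := by
      apply DifferentiableOn.diffContOnCl
      have h2 : closure W ⊆ V := fun y hy => hUV k hk (hWcl hy).1
      exact (hg.mono h2).inv fun y hy => hg0 y (h2 hy)
    refine Complex.norm_le_of_forall_mem_frontier_norm_le hWb hd hfrW (subset_closure ⟨hk, ?_⟩)
    show ‖F zs‖ < a (φ k) / 2
    rw [hFzs, norm_zero]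
    linarith
  have hpos : 0 < ‖(g zs)⁻¹‖ := norm_pos_iff.2 (inv_ne_zero (hg0 zs hzsV))
  have hlim0 : Tendsto (fun k => 2 * C / a (φ k)) atTop (𝓝 0) :=
    tendsto_const_nhds.div_atTop haφ
  obtain ⟨k, hk, hk'⟩ := (hev1.and (hlim0.eventually_lt_const hpos)).exists
  exact absurd (hmax k hk) (not_le.2 hk')

end Pool.Agent.CMerg
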