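import Pool.Agent.CMerg.Low2

set_option autoImplicit false

/-!
# Chordal Mergelyan: the low zone (Step 9)
-/

namespace Pool.Agent.CMerg

open Complex Metric Set Filter Topology MeasureTheory
open scoped ContDiff
open LowM

theorem low (hX : Stmt_Xi) (hA : Stmt_AHC) (hP : Stmt_Pieces) (hL : Stmt_LogHol) : Stmt_Low := by
  intro Z F w₀ W x₀ x₁ l₀ l₃ η hZ hF hw₀ hW hx₀ hx₁ hFZ hl hη
  have hpi := Real.pi_pos
  -- the bound of the given branch
  obtain ⟨b₀, hb₀⟩ := hZ.exists_bound_of_continuousOn hw₀.1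
  set b : ℝ := |b₀| + 1 with hb
  have hbpos : 0 < b := by positivity
  have hwb : ∀ z ∈ Z, ‖w₀ z‖ ≤ b := fun z hz =>
    (hb₀ z hz).trans ((le_abs_self _).trans (by linarith))
  obtain ⟨C₂, H, hC₂, hH, hXi⟩ := hX b x₀ x₁ hbpos (by linarith) hx₁
  set Cb : ℝ := H + 1 + Real.pi + b + x₁ with hCb
  have hCb0 : 0 < Cb := by rw [hCb]; linarith
  set θ : ℝ := 1 / (4 * Cb) with hθ
  have hθ0 : 0 < θ := by positivity
  obtain ⟨c, M, hc, hM, ⟨s, hs, hs01, hs0, hs1, hsM⟩, hcut⟩ :=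
    hA Z (fun z => ‖F z‖) l₀ l₃ θ hZ hF.1.norm hl hθ0
  set c' : ℝ := c / √2 with hc'
  have hs2 : 0 < √(2 : ℝ) := by positivity
  have hc'0 : 0 < c' := by positivity
  have hcc : c = √2 * c' := by rw [hc']; field_simp
  obtain ⟨m, S, hS1, hS2, hS3, hS4⟩ := hP Z hZ
  set A : ℝ := (volume (interior Z)).toReal with hAr
  have hA0 : 0 ≤ A := ENNReal.toReal_nonneg
  obtain ⟨a₀, ha₀, hsmall⟩ := const_a0 (c := c') (Q := 16 * C₂ * A + 1) (R := 2 * M * Cb)
    (η := η) hc'0 (by positivity) (by positivity) hη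
  set K : ℝ := (∑ s ∈ S a₀, ‖W s‖) + 2 * b with hK
  have hK0 : 0 < K := by
    have : 0 ≤ ∑ s ∈ S a₀, ‖W s‖ := Finset.sum_nonneg fun _ _ => norm_nonneg _
    rw [hK]; linarith
  set η₁ : ℝ := η / M with hη₁
  have hη₁0 : 0 < η₁ := by positivity
  obtain ⟨J₀, hJ₀⟩ := hXi K η₁ hK0 hη₁0
  obtain ⟨J, a₁, hJ1, hJ2, hJ3, ha₁, ha₁₀, hJ4, hJ5⟩ := const_J (c := c') (a₀ := a₀)
    (R := 2 * Cb * M) (B := A * b) (η := η) (J₀ := J₀) (x₀ := x₀) hc'0 ha₀ (by positivity) hη
  have hJpos : 0 < J := by linarith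
  set T : ℂ → ℝ := fun s => Real.exp (c' / (2 * √(m s))) with hTd
  have hTpos : ∀ s, 0 < T s := fun s => Real.exp_pos _
  set y : ℂ → ℝ := fun s => (W s - w₀ s).im with hyd
  set V : Finset ℂ := (S a₁).filter (fun s => m s < a₀) with hVd
  have hm1 : ∀ s ∈ S a₁, a₁ ≤ m s := fun s hs => (hS1 a₁ ha₁ s hs).2
  have hmpos : ∀ s ∈ S a₁, 0 < m s := fun s hs => ha₁.trans_le (hm1 s hs)
  -- the sum condition
  have hsum : ∑ s ∈ V, (b + C₂ * J / T s) ≤ J / 4 := by
    have h1 : ∀ s ∈ V, b + C₂ * J / T s ≤ (b / a₁ + C₂ * J / (16 * C₂ * A + 1)) * m s := by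
      intro s hs
      rw [hVd, Finset.mem_filter] at hs
      obtain ⟨hs1, hs2⟩ := hs
      have h2 := hm1 s hs1
      have h3 := (hsmall (m s) (hmpos s hs1) hs2.le).1
      have h4 : b ≤ b / a₁ * m s := by
        rw [div_mul_eq_mul_div, le_div_iff₀ ha₁]
        nlinarith
      have h5 : C₂ * J / T s ≤ C₂ * J / (16 * C₂ * A + 1) * m s := by
        have h6 : C₂ * J / T s = C₂ * J * Real.exp (-(c' / (2 * √(m s)))) := by
          rw [hTd, Real.exp_neg, div_eq_mul_inv]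
        rw [h6]
        calc C₂ * J * Real.exp (-(c' / (2 * √(m s)))) ≤ C₂ * J * (m s / (16 * C₂ * A + 1)) := by
              gcongr
          _ = C₂ * J / (16 * C₂ * A + 1) * m s := by ring
      rw [add_mul]
      linarith
    have h2 : ∑ s ∈ V, m s ≤ A := by
      refine le_trans (Finset.sum_le_sum_of_subset_of_nonneg (Finset.filter_subset _ _) ?_)
        (hS3 a₁ ha₁)
      intro s hs _
      exact (hmpos s hs).le
    have h3 : (b / a₁ + C₂ * J / (16 * C₂ * A + 1)) * A ≤ J / 8 := by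
      have h4 : b / a₁ * A ≤ J / 16 := by
        have : b / a₁ * A = A * b / a₁ := by ring
        rw [this]; exact hJ5
      have h5 : C₂ * J / (16 * C₂ * A + 1) * A ≤ J / 16 := by
        rw [div_mul_eq_mul_div, div_le_iff₀ (by positivity)]
        nlinarith
      rw [add_mul]
      linarith
    calc ∑ s ∈ V, (b + C₂ * J / T s)
        ≤ ∑ s ∈ V, (b / a₁ + C₂ * J / (16 * C₂ * A + 1)) * m s := Finset.sum_le_sum h1
      _ = (b / a₁ + C₂ * J / (16 * C₂ * A + 1)) * ∑ s ∈ V, m s := by rw [Finset.mul_sum]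
      _ ≤ (b / a₁ + C₂ * J / (16 * C₂ * A + 1)) * A := by gcongr
      _ ≤ J / 8 := h3
      _ ≤ J / 4 := by linarith
  obtain ⟨Ξ, J₁, D, hΞ, hΞlow, hΞup, hΞK, hΞT, hΞJ, hΞH⟩ :=
    hJ₀ J hJ1 V y T (fun s _ => hTpos s) hsum
  have hlow : ∀ w : ℂ, x₀ ≤ w.re → x₀ / 10 ≤ (Ξ w).re := by
    intro w hw
    refine le_trans ?_ (hΞlow w (by linarith))
    have : x₀ ≤ min w.re J := le_min hw hJ2
    linarith
  refine ⟨Ξ, J₁, D, S a₁, hΞ, fun s hs => (hS1 a₁ ha₁ s hs).1, hlow, hΞJ, ?_⟩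
  intro w₁ hw₁ hw₁W
  -- the integer difference
  have hkex : ∀ z : ℂ, ∃ n : ℤ, z ∈ Z → w₁ z = w₀ z + n * (2 * Real.pi * I) := by
    intro z
    by_cases hz : z ∈ Z
    · have h1 : Complex.exp (w₁ z) = Complex.exp (w₀ z) := by
        rw [hw₁.2 z hz, hw₀.2 z hz]
      obtain ⟨n, hn⟩ := Complex.exp_eq_exp_iff_exists_int.1 h1
      exact ⟨n, fun _ => hn⟩
    · exact ⟨0, fun h => absurd h hz⟩
  choose k hk using hkex
  have hkim : ∀ z ∈ Z, (w₁ z).im = (w₀ z).im + 2 * Real.pi * k z := by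
    intro z hz
    rw [hk z hz]
    simp
    ring
  have hkcont : ContinuousOn k Z := by
    rw [Int.isClosedEmbedding_coe_real.isInducing.continuousOn_iff]
    have h1 : ContinuousOn (fun z => ((w₁ z).im - (w₀ z).im) / (2 * Real.pi)) Z := by
      refine ContinuousOn.div_const ?_ _
      exact (Complex.continuous_im.comp_continuousOn hw₁.1).sub
        (Complex.continuous_im.comp_continuousOn hw₀.1)
    refine h1.congr fun z hz => ?_
    simp only [Function.comp]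
    rw [hkim z hz]
    field_simp
    ring
  obtain ⟨n, P, hP1, hP2, hP3, hP4, hP5⟩ := hS4 a₁ k ha₁ hkcont
  have hw₁H : Hol Z w₁ := hL Z F w₁ hF hw₁
  have hreZ : ∀ z ∈ Z, x₀ ≤ (w₁ z).re ∧ (w₁ z).re ≤ x₁ := by
    intro z hz
    have h1 := hFZ z hz
    rw [← hw₁.2 z hz, Complex.norm_exp, Real.exp_le_exp, Real.exp_le_exp] at h1
    exact h1
  have himZ : ∀ z ∈ Z, |(w₁ z).im - 2 * Real.pi * k z| ≤ b := by
    intro z hz
    rw [hkim z hz, add_sub_cancel_right]
    exact (Complex.abs_im_le_norm _).trans (hwb z hz)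
  have hgood : ∀ i, Good (P i) F w₁ Ξ x₀ l₀ l₃ η := by
    intro i
    have hPi := hP1 i
    have hsub := hPi.1
    obtain ⟨k₀, hk₀⟩ : ∃ k₀ : ℤ, ∀ z ∈ P i, k z = k₀ := by
      rcases (P i).eq_empty_or_nonempty with he | ⟨z₀, hz₀⟩
      · exact ⟨0, fun z hz => by rw [he] at hz; exact absurd hz (Set.notMem_empty _)⟩
      · exact ⟨k z₀, fun z hz => hP4 i z hz z₀ hz₀⟩
    have hre : ∀ z ∈ P i, x₀ ≤ (w₁ z).re ∧ (w₁ z).re ≤ x₁ := fun z hz => hreZ z (hsub hz)
    have him : ∀ z ∈ P i, |(w₁ z).im - 2 * Real.pi * k₀| ≤ b := by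
      intro z hz
      rw [← hk₀ z hz]
      exact himZ z (hsub hz)
    have hwP : Hol (P i) w₁ := LowM.Hol.mono hw₁H hsub
    have hexpP : ∀ z ∈ P i, Complex.exp (w₁ z) = F z := fun z hz => hw₁.2 z (hsub hz)
    rcases hP5 i with ⟨p, hp1, hp2, hp3⟩ | hthin
    · have hpZ : p ∈ Z := hsub hp2
      have hpW : w₁ p = W p := hw₁W p hp1
      have hmp := hmpos p hp1
      by_cases hbig : a₀ ≤ m p
      · -- a fat piece
        have hp0 : p ∈ S a₀ := hS2 a₀ a₁ ha₀ ha₁ p hp1 hbig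
        have hKp : ∀ z ∈ P i, ‖w₁ z‖ ≤ K := by
          intro z hz
          have h1 := hk z (hsub hz)
          have h2 := hk p hpZ
          rw [hk₀ z hz] at h1
          rw [hk₀ p hp2, hpW] at h2
          have h3 : w₁ z = w₀ z + (W p - w₀ p) := by rw [h1, h2]; ring
          rw [h3]
          have h4 : ‖W p‖ ≤ ∑ s ∈ S a₀, ‖W s‖ :=
            Finset.single_le_sum (f := fun s => ‖W s‖) (fun _ _ => norm_nonneg _) hp0
          calc ‖w₀ z + (W p - w₀ p)‖ ≤ ‖w₀ z‖ + ‖W p - w₀ p‖ := norm_add_le _ _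
            _ ≤ ‖w₀ z‖ + (‖W p‖ + ‖w₀ p‖) := by gcongr; exact norm_sub_le _ _
            _ ≤ b + ((∑ s ∈ S a₀, ‖W s‖) + b) := by
                gcongr
                · exact hwb z (hsub hz)
                · exact hwb p hpZ
            _ = K := by rw [hK]; ring
        have := piece_fat (Z := Z) hsub hwP hexpP hx₀ (fun z hz => (hre z hz).1) hΞ hlow hM hs hs01
          hs0 hs1 hsM (η₁ := η₁)
          (fun z hz => hΞK (w₁ z) (by linarith [(hre z hz).1]) (hKp z hz))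
        have hMη : M * η₁ = η := by rw [hη₁]; field_simp
        rw [hMη] at this
        exact this
      · -- a piece with a valley
        push Not at hbig
        have hpV : p ∈ V := by rw [hVd, Finset.mem_filter]; exact ⟨hp1, hbig⟩
        have hyp : y p = 2 * Real.pi * k₀ := by
          have h1 := hkim p hpZ
          rw [hk₀ p hp2] at h1
          rw [hyd]
          simp only [sub_im]
          rw [← hpW, h1]
          ring
        obtain ⟨σ, hσ, hσ0, hσ1, hσ2⟩ := hcut (P i) (2 * m p) hPi (by positivity) hp3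
        have hTp : ∀ z ∈ P i, (Ξ (w₁ z)).re ≤ T p := by
          intro z hz
          obtain ⟨h1, h2⟩ := hre z hz
          refine hΞT p hpV (w₁ z) h1 h2 ?_
          rw [hyp]
          exact him z hz
        have hg := piece_thin hwP hexpP hx₀ hx₁ hbpos hH hre him hΞ hlow hΞH hCb hθ
          (by positivity) hTp hσ hσ0 hσ1 hσ2
        obtain ⟨Φ, hΦ, hΦ2⟩ := hg
        refine ⟨Φ, LowM.AHol.mono_const hΦ ?_, hΦ2⟩
        have h2 := (hsmall (m p) hmp hbig.le).2
        have hsq : √(2 * m p) = √2 * √(m p) := Real.sqrt_mul (by norm_num) _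
        have hsmp : 0 < √(m p) := Real.sqrt_pos.2 hmp
        have h3 : -c / √(2 * m p) = -(c' / (2 * √(m p))) + -(c' / (2 * √(m p))) := by
          rw [hsq, hcc]
          field_simp
          norm_num
        have h4 : T p * Real.exp (-(c' / (2 * √(m p)))) = 1 := by
          rw [hTd, ← Real.exp_add]
          simp
        have h5 : 1 ≤ T p := by
          rw [hTd]
          exact Real.one_le_exp (by positivity)
        rw [h3, Real.exp_add]
        set e := Real.exp (-(c' / (2 * √(m p)))) with he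
        have he0 : 0 < e := Real.exp_pos _
        calc M * (e * e) * (Cb * (1 + T p)) ≤ M * (e * e) * (Cb * (2 * T p)) := by
              gcongr; linarith
          _ = 2 * M * Cb * e * (T p * e) := by ring
          _ = 2 * M * Cb * e := by rw [h4, mul_one]
          _ ≤ η := h2
    · -- a thin piece
      obtain ⟨σ, hσ, hσ0, hσ1, hσ2⟩ := hcut (P i) a₁ hPi ha₁ hthin
      have hTp : ∀ z ∈ P i, (Ξ (w₁ z)).re ≤ 3 * J := by
        intro z hz
        exact hΞup (w₁ z) (by linarith [(hre z hz).1])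
      have hg := piece_thin hwP hexpP hx₀ hx₁ hbpos hH hre him hΞ hlow hΞH hCb hθ
        (by positivity) hTp hσ hσ0 hσ1 hσ2
      obtain ⟨Φ, hΦ, hΦ2⟩ := hg
      refine ⟨Φ, LowM.AHol.mono_const hΦ ?_, hΦ2⟩
      have h3 : -c / √a₁ = -(√2 * c' / √a₁) := by
        rw [hcc]; ring
      rw [h3]
      have hR0 : 0 < 2 * Cb * M * (1 + 3 * J) * Real.exp (-(√2 * c' / √a₁)) := by positivity
      calc M * Real.exp (-(√2 * c' / √a₁)) * (Cb * (1 + 3 * J))
          = 2 * Cb * M * (1 + 3 * J) * Real.exp (-(√2 * c' / √a₁)) / 2 := by ring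
        _ ≤ 2 * Cb * M * (1 + 3 * J) * Real.exp (-(√2 * c' / √a₁)) := by linarith
        _ ≤ η := hJ4
  choose Φ hΦ1 hΦ2 hΦ3 hΦ4 using hgood
  obtain ⟨Ψ, hΨ, hΨ2⟩ := glue hP1 hP2 hP3 Φ hΦ1
  have hcov : ∀ z ∈ Z, ∃ i, z ∈ P i := fun z hz => by rwa [← hP3, mem_iUnion] at hz
  refine ⟨Ψ, hΨ, ?_, ?_, ?_⟩
  · intro z hz hlz
    obtain ⟨i, hi⟩ := hcov z hz
    rw [hΨ2 i z hi]
    exact hΦ2 i z hi hlz
  · intro z hz hlz
    obtain ⟨i, hi⟩ := hcov z hz
    rw [hΨ2 i z hi]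
    exact hΦ3 i z hi hlz
  · intro z hz
    obtain ⟨i, hi⟩ := hcov z hz
    rw [hΨ2 i z hi]
    exact hΦ4 i z hi

end Pool.Agent.CMerg
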