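import Pool.Agent.CMerg.Defs

set_option autoImplicit false

/-!
# Chordal Mergelyan theorem, module Pieces (step 6)
-/

namespace Pool.Agent.CMerg

open Set Filter Topology MeasureTheory
open scoped ENNReal

namespace Pieces

section generic

variable {X : Type} [TopologicalSpace X] [CompactSpace X] [T2Space X]

lemma clopen_nhds (x : X) (U : Set X) (hU : IsOpen U) (h : connectedComponent x ⊆ U) :
    ∃ s : Set X, IsClopen s ∧ x ∈ s ∧ s ⊆ U := by
  rw [connectedComponent_eq_iInter_isClopen] at h
  let N := { s : Set X // IsClopen s ∧ x ∈ s }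
  rsuffices ⟨⟨s, hs, hs'⟩, hs''⟩ : ∃ s : N, s.val ⊆ U
  · exact ⟨s, hs, hs', hs''⟩
  have : Nonempty N := ⟨⟨univ, isClopen_univ, mem_univ x⟩⟩
  have hNcl : ∀ s : N, IsClosed s.val := fun s => s.property.1.1
  have hdir : Directed GE.ge fun s : N => s.val := by
    rintro ⟨s, hs, hxs⟩ ⟨t, ht, hxt⟩
    exact ⟨⟨s ∩ t, hs.inter ht, ⟨hxs, hxt⟩⟩, inter_subset_left, inter_subset_right⟩
  exact exists_subset_nhds_of_compactSpace hdir hNcl fun y hy => hU.mem_nhds (h hy)

variable [MeasurableSpace X] [BorelSpace X] (ν : Measure X) [IsFiniteMeasure ν] [ν.OuterRegular]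

omit [BorelSpace X] in
/-- A clopen neighbourhood of small measure on which `k` is constant. -/
lemma nbhd (k : X → ℤ) (hk : Continuous k) (x : X) (ε : ℝ≥0∞) (hε : ε ≠ 0) :
    ∃ s : Set X, IsClopen s ∧ x ∈ s ∧ (∀ z ∈ s, k z = k x) ∧
      ν s ≤ ν (connectedComponent x) + ε := by
  obtain ⟨U, hU, hUo, hUν⟩ :=
    (connectedComponent x).exists_isOpen_lt_add (measure_ne_top ν _) hε
  obtain ⟨s, hs, hxs, hsU⟩ := clopen_nhds x U hUo hU
  refine ⟨s ∩ k ⁻¹' {k x}, hs.inter ((isClopen_discrete {k x}).preimage hk), ⟨hxs, rfl⟩,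
    fun z hz => hz.2, ?_⟩
  exact (measure_mono (inter_subset_left.trans hsU)).trans hUν.le

theorem gen (k : X → ℤ) (hk : Continuous k) (a : ℝ≥0∞) (ha : a ≠ 0) :
    ∃ (n : ℕ) (P : Fin n → Set X), (∀ i, IsClopen (P i)) ∧
      (Pairwise fun i j => Disjoint (P i) (P j)) ∧
      (⋃ i, P i) = univ ∧ (∀ i, ∀ z ∈ P i, ∀ z' ∈ P i, k z = k z') ∧
      ∀ i, (∃ x, a ≤ ν (connectedComponent x) ∧ connectedComponent x ⊆ P i ∧
        ν (P i) ≤ 2 * ν (connectedComponent x)) ∨ ν (P i) ≤ a := by
  have H : ∀ x : X, ∃ s : Set X, IsClopen s ∧ x ∈ s ∧ (∀ z ∈ s, k z = k x) ∧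
      ((a ≤ ν (connectedComponent x) ∧ ν s ≤ ν (connectedComponent x) + a) ∨ ν s ≤ a) := by
    intro x
    by_cases h : a ≤ ν (connectedComponent x)
    · obtain ⟨s, h1, h2, h3, h4⟩ := nbhd ν k hk x a ha
      exact ⟨s, h1, h2, h3, Or.inl ⟨h, h4⟩⟩
    · push Not at h
      obtain ⟨s, h1, h2, h3, h4⟩ :=
        nbhd ν k hk x (a - ν (connectedComponent x)) (tsub_pos_of_lt h).ne'
      exact ⟨s, h1, h2, h3, Or.inr (h4.trans (le_of_eq (add_tsub_cancel_of_le h.le)))⟩
  choose U hUc hUx hUk hUν using H
  obtain ⟨t, ht⟩ := isCompact_univ.elim_finite_subcover U (fun x => (hUc x).2)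
    (fun x _ => mem_iUnion.2 ⟨x, hUx x⟩)
  let f : Fin t.card → X := fun i => (t.equivFin.symm i).1
  have hf : ∀ x : X, ∃ i, x ∈ U (f i) := by
    intro x
    have := ht (mem_univ x)
    simp only [mem_iUnion] at this
    obtain ⟨y, hy, hxy⟩ := this
    refine ⟨t.equivFin ⟨y, hy⟩, ?_⟩
    simpa [f] using hxy
  let P : Fin t.card → Set X := fun i => U (f i) \ ⋃ j : Fin t.card, ⋃ _ : j < i, U (f j)
  have hPc : ∀ i, IsClopen (P i) := fun i =>
    (hUc _).diff (isClopen_iUnion_of_finite fun j => isClopen_iUnion_of_finite fun _ => hUc _)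
  have hPU : ∀ i, P i ⊆ U (f i) := fun i => sdiff_subset
  have hdisj : ∀ i j, i < j → Disjoint (P i) (P j) := by
    intro i j hij
    rw [Set.disjoint_left]
    intro z hz hz'
    exact hz'.2 (mem_iUnion.2 ⟨i, mem_iUnion.2 ⟨hij, hPU i hz⟩⟩)
  refine ⟨t.card, P, hPc, ?_, ?_, ?_, ?_⟩
  · intro i j hij
    rcases lt_or_gt_of_ne hij with h | h
    · exact hdisj i j h
    · exact (hdisj j i h).symm
  · refine eq_univ_of_forall fun x => ?_
    obtain ⟨i, hi⟩ := hf x
    obtain ⟨m, hm, hmin⟩ := WellFounded.has_min (wellFounded_lt (α := Fin t.card))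
      {i | x ∈ U (f i)} ⟨i, hi⟩
    refine mem_iUnion.2 ⟨m, hm, ?_⟩
    intro h
    simp only [mem_iUnion] at h
    obtain ⟨j, hj, hxj⟩ := h
    exact hmin j hxj hj
  · intro i z hz z' hz'
    rw [hUk _ z (hPU i hz), hUk _ z' (hPU i hz')]
  · intro i
    rcases hUν (f i) with ⟨h1, h2⟩ | h1
    · by_cases hx : f i ∈ P i
      · left
        refine ⟨f i, h1, (hPc i).connectedComponent_subset hx, ?_⟩
        refine (measure_mono (hPU i)).trans (h2.trans ?_)
        rw [two_mul]
        gcongr
      · right
        have hd : Disjoint (connectedComponent (f i)) (P i) := by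
          rw [Set.disjoint_left]
          intro z hz hz'
          apply hx
          have := (hPc i).connectedComponent_subset hz'
          rw [← connectedComponent_eq hz] at this
          exact this mem_connectedComponent
        have hsub : connectedComponent (f i) ∪ P i ⊆ U (f i) :=
          union_subset ((hUc (f i)).connectedComponent_subset (hUx _)) (hPU i)
        have h3 := (measure_mono hsub).trans h2
        rw [measure_union hd (hPc i).1.measurableSet] at h3
        exact (ENNReal.add_le_add_iff_left (measure_ne_top ν _)).1 h3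
    · right
      exact (measure_mono (hPU i)).trans h1

/-- A representative of a connected component. -/
noncomputable def rep (c : ConnectedComponents X) : X :=
  Function.surjInv ConnectedComponents.surjective_coe c

omit [CompactSpace X] [T2Space X] [MeasurableSpace X] [BorelSpace X] in
lemma mk_rep (c : ConnectedComponents X) : ConnectedComponents.mk (rep c) = c :=
  Function.surjInv_eq ConnectedComponents.surjective_coe c

omit [CompactSpace X] [T2Space X] [MeasurableSpace X] [BorelSpace X] in
lemma fiber (c : ConnectedComponents X) :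
    connectedComponent (rep c) = (ConnectedComponents.mk : X → _) ⁻¹' {c} := by
  rw [← connectedComponents_preimage_singleton, mk_rep]

omit [CompactSpace X] [T2Space X] [ν.OuterRegular] in
lemma fin_big (a : ℝ≥0∞) (ha : 0 < a) :
    {c : ConnectedComponents X | a ≤ ν (connectedComponent (rep c))}.Finite := by
  refine Measure.finite_const_le_meas_of_disjoint_iUnion ν ha (fun c => ?_) ?_
    (measure_ne_top ν _)
  · exact isClosed_connectedComponent.measurableSet
  · intro c c' hcc
    rw [Function.onFun, Set.disjoint_left]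
    intro z hz hz'
    rw [fiber] at hz hz'
    exact hcc (hz.symm.trans hz')

omit [CompactSpace X] [T2Space X] [IsFiniteMeasure ν] [ν.OuterRegular] in
lemma sum_le (T : Finset (ConnectedComponents X)) :
    ∑ c ∈ T, ν (connectedComponent (rep c)) ≤ ν univ := by
  rw [← measure_biUnion_finset]
  · exact measure_mono (subset_univ _)
  · intro c _ c' _ hcc
    rw [Function.onFun, Set.disjoint_left]
    intro z hz hz'
    rw [fiber] at hz hz'
    exact hcc (hz.symm.trans hz')
  · intro c _
    exact isClosed_connectedComponent.measurableSet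

end generic

end Pieces

open Pieces in
theorem pieces : Stmt_Pieces := by
  classical
  intro Z hZ
  have hZc : CompactSpace ↥Z := isCompact_iff_compactSpace.1 hZ
  have hZm : MeasurableSet Z := hZ.isClosed.measurableSet
  let μ : Measure ℂ := volume.restrict (interior Z)
  have hμ : IsFiniteMeasure μ := by
    refine ⟨?_⟩
    rw [Measure.restrict_apply_univ]
    exact (measure_mono interior_subset).trans_lt hZ.measure_lt_top
  let ν : Measure ↥Z := Measure.comap (Subtype.val : ↥Z → ℂ) μ
  have hνa : ∀ P : Set ↥Z, ν P = μ (Subtype.val '' P) := fun P =>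
    (MeasurableEmbedding.subtype_coe hZm).comap_apply μ P
  have hν : IsFiniteMeasure ν := by
    refine ⟨?_⟩
    rw [hνa]
    exact measure_lt_top μ _
  have hνu : ν univ ≤ volume (interior Z) := by
    rw [hνa]
    refine (measure_mono (subset_univ _)).trans ?_
    rw [Measure.restrict_apply_univ]
  have hint : ∀ P : Set ↥Z, volume (interior (Subtype.val '' P)) ≤ ν P := by
    intro P
    rw [hνa]
    have h1 : interior (Subtype.val '' P) ⊆ interior Z :=
      interior_mono (by rintro _ ⟨x, -, rfl⟩; exact x.2)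
    calc volume (interior (Subtype.val '' P))
        = μ (interior (Subtype.val '' P)) := by
          rw [Measure.restrict_apply isOpen_interior.measurableSet, inter_eq_left.2 h1]
      _ ≤ μ (Subtype.val '' P) := measure_mono interior_subset
  let m : ℂ → ℝ := fun z => if h : z ∈ Z then (ν (connectedComponent ⟨z, h⟩)).toReal else 0
  have hm : ∀ x : ↥Z, m x = (ν (connectedComponent x)).toReal := by
    intro x
    simp [m]
  let S : ℝ → Finset ℂ := fun a => if h : 0 < a then
    (fin_big ν (ENNReal.ofReal a) (ENNReal.ofReal_pos.2 h)).toFinset.image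
      (fun c => ((rep c : ↥Z) : ℂ)) else ∅
  have hS : ∀ a, 0 < a → ∀ s, s ∈ S a ↔ ∃ c : ConnectedComponents ↥Z,
      a ≤ m (rep c : ↥Z) ∧ ((rep c : ↥Z) : ℂ) = s := by
    intro a ha s
    simp only [S, dif_pos ha, Finset.mem_image, Set.Finite.mem_toFinset, Set.mem_ofPred_eq]
    constructor
    · rintro ⟨c, hc, rfl⟩
      refine ⟨c, ?_, rfl⟩
      rw [hm]
      exact (ENNReal.ofReal_le_iff_le_toReal (measure_ne_top ν _)).1 hc
    · rintro ⟨c, hc, rfl⟩
      refine ⟨c, ?_, rfl⟩
      rw [hm] at hc
      exact (ENNReal.ofReal_le_iff_le_toReal (measure_ne_top ν _)).2 hc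
  refine ⟨m, S, ?_, ?_, ?_, ?_⟩
  · intro a ha s hs
    obtain ⟨c, hc, rfl⟩ := (hS a ha s).1 hs
    exact ⟨(rep c : ↥Z).2, hc⟩
  · intro a a' ha ha' s hs has
    obtain ⟨c, hc, rfl⟩ := (hS a' ha' s).1 hs
    exact (hS a ha _).2 ⟨c, has, rfl⟩
  · intro a ha
    have hSa : S a = (fin_big ν (ENNReal.ofReal a) (ENNReal.ofReal_pos.2 ha)).toFinset.image
      (fun c => ((rep c : ↥Z) : ℂ)) := dif_pos ha
    rw [hSa, Finset.sum_image]
    · simp only [hm]
      rw [← ENNReal.toReal_sum fun c _ => measure_ne_top ν _]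
      refine ENNReal.toReal_mono ?_ ((sum_le ν _).trans hνu)
      exact ((measure_mono interior_subset).trans_lt hZ.measure_lt_top).ne
    · intro c _ c' _ h
      have h1 : (rep c : ↥Z) = rep c' := Subtype.ext h
      rw [← mk_rep c, h1, mk_rep]
  · intro a k ha hk
    have hk' : Continuous fun x : ↥Z => k x := continuousOn_iff_continuous_domRestrict.1 hk
    obtain ⟨n, P, h1, h2, h3, h4, h5⟩ := gen ν (fun x : ↥Z => k x) hk' (ENNReal.ofReal a)
      (ENNReal.ofReal_pos.2 ha).ne'
    have hemb : IsClosedEmbedding (Subtype.val : ↥Z → ℂ) := hZ.isClosed.isClosedEmbedding_subtypeVal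
    refine ⟨n, fun i => Subtype.val '' P i, ?_, ?_, ?_, ?_, ?_⟩
    · intro i
      refine ⟨?_, ?_, ?_⟩
      · rintro _ ⟨x, -, rfl⟩
        exact x.2
      · exact hemb.isClosedMap _ (h1 i).1
      · have : Z \ Subtype.val '' P i = Subtype.val '' (P i)ᶜ := by
          ext z
          constructor
          · rintro ⟨hz, hz'⟩
            exact ⟨⟨z, hz⟩, fun h => hz' ⟨⟨z, hz⟩, h, rfl⟩, rfl⟩
          · rintro ⟨x, hx, rfl⟩
            refine ⟨x.2, ?_⟩
            rintro ⟨y, hy, hxy⟩
            exact hx (Subtype.ext hxy ▸ hy)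
        rw [this]
        exact hemb.isClosedMap _ (h1 i).compl.1
    · intro i j hij
      exact (Set.disjoint_image_iff Subtype.val_injective).2 (h2 hij)
    · rw [← image_iUnion, h3, image_univ, Subtype.range_coe]
    · rintro i _ ⟨x, hx, rfl⟩ _ ⟨y, hy, rfl⟩
      exact h4 i x hx y hy
    · intro i
      rcases h5 i with ⟨x, hx1, hx2, hx3⟩ | hx
      · left
        have hrep : connectedComponent (rep (ConnectedComponents.mk x) : ↥Z) =
            connectedComponent x := by
          rw [fiber, connectedComponents_preimage_singleton]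
        have hmem : (rep (ConnectedComponents.mk x) : ↥Z) ∈ connectedComponent x := by
          rw [← hrep]
          exact mem_connectedComponent
        have hmx : m (rep (ConnectedComponents.mk x) : ↥Z) =
            (ν (connectedComponent x)).toReal := by
          rw [hm, hrep]
        refine ⟨(rep (ConnectedComponents.mk x) : ↥Z), ?_, ⟨_, hx2 hmem, rfl⟩, ?_⟩
        · rw [hS a ha]
          refine ⟨ConnectedComponents.mk x, ?_, rfl⟩
          rw [hmx]
          exact (ENNReal.ofReal_le_iff_le_toReal (measure_ne_top ν _)).1 hx1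
        · rw [hmx, ENNReal.ofReal_mul zero_le_two, ENNReal.ofReal_toReal (measure_ne_top ν _)]
          refine (hint _).trans (hx3.trans (le_of_eq ?_))
          norm_num
      · right
        exact (hint _).trans hx

end Pool.Agent.CMerg
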