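import Pool.Agent.CMerg.Clop

set_option autoImplicit false

/-!
# Step 10: upper zones
-/

namespace Pool.Agent.CMerg

open Complex Metric Set Filter Topology MeasureTheory
open scoped ContDiff

theorem branch_re {X : Set ℂ} {F w : ℂ → ℂ} {x₁ : ℝ} (h : IsBr X F w)
    (hF : ∀ z ∈ X, Real.exp x₁ ≤ ‖F z‖) : ∀ z ∈ X, x₁ ≤ (w z).re := by
  intro z hz
  have h1 := hF z hz
  rw [← h.2 z hz, Complex.norm_exp] at h1
  exact Real.exp_le_exp.1 h1

/-- the composition of a branch with a function on the half plane -/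
theorem comp_branch {X : Set ℂ} {w Ξ : ℂ → ℂ} (h : Hol X w)
    (hΞ : DifferentiableOn ℂ Ξ {w | 0 < w.re}) (hre : ∀ z ∈ X, 0 < (w z).re) :
    Hol X fun z => Ξ (w z) :=
  ⟨hΞ.continuousOn.comp h.1 hre,
    hΞ.comp h.2 fun z hz => hre z (interior_subset hz)⟩

theorem Hol.subset {X Y : Set ℂ} {Φ : ℂ → ℂ} (h : Hol X Φ) (hY : Y ⊆ X) : Hol Y Φ :=
  ⟨h.1.mono hY, h.2.mono (interior_mono hY)⟩

/-- interpolation with an almost holomorphic cut-off -/
theorem AHol.interp {P : Set ℂ} {A B σ : ℂ → ℂ} {β κ : ℝ} (hA : Hol P A) (hB : Hol P B)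
    (hσ : AHol P σ β) {D' : ℝ} (hD : ∀ z ∈ P, ‖B z - A z‖ ≤ D') (hκ : D' * β ≤ κ) :
    AHol P (fun z => A z + σ z * (B z - A z)) κ := by
  refine ⟨hA.1.add (hσ.1.mul (hB.1.sub hA.1)), ?_, fun z hz => ?_⟩
  · have h1 := hA.ahol.2.1
    have h2 := hB.ahol.2.1
    exact h1.add (hσ.2.1.mul (h2.sub h1))
  · have h1 := hA.2.differentiableAt (isOpen_interior.mem_nhds hz)
    have h2 := hB.2.differentiableAt (isOpen_interior.mem_nhds hz)
    have h3 : DifferentiableAt ℝ σ z :=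
      (hσ.2.1.contDiffAt (isOpen_interior.mem_nhds hz)).differentiableAt (by norm_num)
    rw [dzb_interp h1 h2 h3, norm_mul]
    refine (mul_le_mul (hD z (interior_subset hz)) (hσ.2.2 z hz) (norm_nonneg _) ?_).trans hκ
    exact (norm_nonneg _).trans (hD z (interior_subset hz))

theorem upz (hA : Stmt_AHC) (hP : Stmt_Pieces) (hL : Stmt_LogHol) : Stmt_Up := by
  intro Z F Ξ J₁ D x₀ x₁ c₀ l₀ l₃ κ hZ hF hΞ hx₀ hc₀ hx hFx hc hJ hl hκ
  have hx₁ : 0 < x₁ := hx₀.trans_le hx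
  have hD : 0 ≤ D := by
    have := (norm_nonneg _).trans (hJ 1 (by simp))
    simpa using this
  set D' : ℝ := 2 * D / x₁ with hD'
  have hD'0 : 0 ≤ D' := by positivity
  set θ : ℝ := min (1 / 2) (c₀ / (2 * (D' + 1))) with hθ
  have hθ0 : 0 < θ := lt_min (by norm_num) (by positivity)
  have hθ1 : θ ≤ 1 / 2 := min_le_left _ _
  have hθ2 : θ * D' ≤ c₀ / 2 := by
    have h1 : θ ≤ c₀ / (2 * (D' + 1)) := min_le_right _ _
    have h2 : θ * D' ≤ c₀ / (2 * (D' + 1)) * (D' + 1) :=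
      mul_le_mul h1 (by linarith) hD'0 (by positivity)
    have h3 : c₀ / (2 * (D' + 1)) * (D' + 1) = c₀ / 2 := by
      field_simp
    linarith
  obtain ⟨c, M, hc', hM, -, hAH⟩ := hA Z (fun z => ‖F z‖) l₀ l₃ θ hZ hF.1.norm hl hθ0
  -- choice of the area
  obtain ⟨a, ha, haκ⟩ : ∃ a : ℝ, 0 < a ∧ D' * (M * Real.exp (-c / √a)) ≤ κ := by
    have h1 : Tendsto (fun x : ℝ => D' * (M * Real.exp (-(c * x)))) atTop (𝓝 (D' * (M * 0))) := by
      refine Tendsto.const_mul _ (Tendsto.const_mul _ ?_)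
      exact Real.tendsto_exp_neg_atTop_nhds_zero.comp (tendsto_id.const_mul_atTop hc')
    rw [mul_zero, mul_zero] at h1
    obtain ⟨x, hx1, hx2⟩ := ((h1.eventually (ge_mem_nhds hκ)).and (eventually_gt_atTop 0)).exists
    refine ⟨(1 / x) ^ 2, by positivity, ?_⟩
    rw [Real.sqrt_sq (by positivity)]
    have : -c / (1 / x) = -(c * x) := by
      field_simp
    rw [this]
    exact hx1
  obtain ⟨m, S, hS1, -, -, hS4⟩ := hP Z hZ
  refine ⟨S a, fun s hs => (hS1 a ha s hs).1, fun w w' hw hw' hww => ?_⟩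
  obtain ⟨k, hk, hkw⟩ := hw.exists_int hw'
  obtain ⟨n, P, hP1, hP2, hP3, hP4, hP5⟩ := hS4 a k ha hk
  have hre := branch_re hw hFx
  have hre' := branch_re hw' hFx
  have hAz : Hol Z fun z => Ξ (w z) :=
    comp_branch (hL Z F w hF hw) hΞ fun z hz => hx₁.trans_le (hre z hz)
  have hBz : Hol Z fun z => Ξ (w' z) :=
    comp_branch (hL Z F w' hF hw') hΞ fun z hz => hx₁.trans_le (hre' z hz)
  have hJw : ∀ z ∈ Z, ‖Ξ (w z) - J₁‖ ≤ D / x₁ := fun z hz =>
    (hJ _ (hx₁.trans_le (hre z hz))).trans (div_le_div_of_nonneg_left hD hx₁ (hre z hz))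
  have hJw' : ∀ z ∈ Z, ‖Ξ (w' z) - J₁‖ ≤ D / x₁ := fun z hz =>
    (hJ _ (hx₁.trans_le (hre' z hz))).trans (div_le_div_of_nonneg_left hD hx₁ (hre' z hz))
  have hdiff : ∀ z ∈ Z, ‖Ξ (w' z) - Ξ (w z)‖ ≤ D' := by
    intro z hz
    have h1 : Ξ (w' z) - Ξ (w z) = (Ξ (w' z) - J₁) - (Ξ (w z) - J₁) := by ring
    rw [h1]
    refine (norm_sub_le _ _).trans ?_
    have := hJw z hz
    have := hJw' z hz
    have h2 : D' = D / x₁ + D / x₁ := by
      rw [hD']
      ring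
    linarith
  have hcw : ∀ z ∈ Z, c₀ ≤ (Ξ (w z)).re := fun z hz => hc _ (hx.trans (hre z hz))
  have hcw' : ∀ z ∈ Z, c₀ ≤ (Ξ (w' z)).re := fun z hz => hc _ (hx.trans (hre' z hz))
  have h4D : D / x₁ ≤ 4 * D / x₁ := by
    have : 4 * D / x₁ = 4 * (D / x₁) := by ring
    have h0 : 0 ≤ D / x₁ := by positivity
    linarith
  -- the pieces
  have key : ∀ i, ∃ Ψ : ℂ → ℂ, AHol (P i) Ψ κ ∧ (∀ z ∈ P i, ‖F z‖ ≤ l₀ → Ψ z = Ξ (w z)) ∧
      (∀ z ∈ P i, l₃ ≤ ‖F z‖ → Ψ z = Ξ (w' z)) ∧ (∀ z ∈ P i, c₀ / 2 ≤ (Ψ z).re) ∧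
      ∀ z ∈ P i, ‖Ψ z - J₁‖ ≤ 4 * D / x₁ := by
    intro i
    have hPZ : P i ⊆ Z := (hP1 i).1
    rcases hP5 i with ⟨s, hs, hsP, -⟩ | hthin
    · -- tagged pieces
      have hks : k s = 0 := by
        have h1 := hkw s (hPZ hsP)
        rw [← hww s hs] at h1
        have h2 : (k s : ℂ) * (2 * Real.pi * I) = 0 := by
          have := h1
          linear_combination -this
        rcases mul_eq_zero.1 h2 with h3 | h3
        · exact_mod_cast h3
        · exact absurd h3 Complex.two_pi_I_ne_zero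
      have hww' : ∀ z ∈ P i, w' z = w z := by
        intro z hz
        rw [hkw z (hPZ hz), hP4 i z hz s hsP, hks]
        simp
      refine ⟨fun z => Ξ (w z), (hAz.ahol.subset hPZ).mono hκ.le, fun z hz _ => rfl,
        fun z hz _ => by rw [hww' z hz], fun z hz => ?_, fun z hz => ?_⟩
      · have := hcw z (hPZ hz)
        linarith
      · exact (hJw z (hPZ hz)).trans h4D
    · -- thin pieces
      obtain ⟨σ, hσ1, hσ2, hσ3, hσ4⟩ := hAH (P i) a (hP1 i) ha hthin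
      refine ⟨fun z => Ξ (w z) + σ z * (Ξ (w' z) - Ξ (w z)),
        AHol.interp (hAz.subset hPZ) (hBz.subset hPZ) hσ1 (fun z hz => hdiff z (hPZ hz)) haκ,
        fun z hz h1 => ?_, fun z hz h1 => ?_, fun z hz => ?_, fun z hz => ?_⟩
      · show Ξ (w z) + σ z * (Ξ (w' z) - Ξ (w z)) = Ξ (w z)
        rw [hσ2 z hz h1]
        ring
      · show Ξ (w z) + σ z * (Ξ (w' z) - Ξ (w z)) = Ξ (w' z)
        rw [hσ3 z hz h1]
        ring
      · obtain ⟨h1, h2, h3⟩ := hσ4 z hz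
        have h4 : |(Ξ (w' z) - Ξ (w z)).im| ≤ D' :=
          (Complex.abs_im_le_norm _).trans (hdiff z (hPZ hz))
        have h5 : |(σ z).im| ≤ θ := h3.trans (by nlinarith)
        have h6 : |(σ z).im * (Ξ (w' z) - Ξ (w z)).im| ≤ θ * D' := by
          rw [abs_mul]
          exact mul_le_mul h5 h4 (abs_nonneg _) hθ0.le
        have h7 := (le_abs_self _).trans h6
        have h8 := hcw z (hPZ hz)
        have h9 := hcw' z (hPZ hz)
        have h10 : (Ξ (w z) + σ z * (Ξ (w' z) - Ξ (w z))).re =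
            (1 - (σ z).re) * (Ξ (w z)).re + (σ z).re * (Ξ (w' z)).re -
              (σ z).im * (Ξ (w' z) - Ξ (w z)).im := by
          simp only [Complex.add_re, Complex.mul_re, Complex.sub_re, Complex.sub_im]
          ring
        show c₀ / 2 ≤ (Ξ (w z) + σ z * (Ξ (w' z) - Ξ (w z))).re
        rw [h10]
        nlinarith [mul_le_mul_of_nonneg_left h8 (sub_nonneg.2 h2),
          mul_le_mul_of_nonneg_left h9 h1]
      · obtain ⟨h1, h2, h3⟩ := hσ4 z hz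
        have h5 : |(σ z).im| ≤ θ := h3.trans (by nlinarith)
        have h6 : ‖σ z‖ ≤ 3 / 2 := by
          refine (Complex.norm_le_abs_re_add_abs_im _).trans ?_
          rw [abs_of_nonneg h1]
          linarith
        have h7 : Ξ (w z) + σ z * (Ξ (w' z) - Ξ (w z)) - J₁ =
            (Ξ (w z) - J₁) + σ z * (Ξ (w' z) - Ξ (w z)) := by ring
        show ‖Ξ (w z) + σ z * (Ξ (w' z) - Ξ (w z)) - J₁‖ ≤ 4 * D / x₁
        rw [h7]
        refine (norm_add_le _ _).trans ?_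
        rw [norm_mul]
        have h8 := hJw z (hPZ hz)
        have h9 : ‖σ z‖ * ‖Ξ (w' z) - Ξ (w z)‖ ≤ 3 / 2 * D' :=
          mul_le_mul h6 (hdiff z (hPZ hz)) (norm_nonneg _) (by norm_num)
        have h10 : D / x₁ + 3 / 2 * D' = 4 * D / x₁ := by
          rw [hD']
          ring
        linarith
  choose Ψ hΨ using key
  obtain ⟨Φ, hΦ1, hΦ2⟩ := AHol.exists_glue hP1 hP2 hP3 Ψ fun i => (hΨ i).1
  have hcov : ∀ z ∈ Z, ∃ i, z ∈ P i := fun z hz => mem_iUnion.1 (hP3.ge hz)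
  refine ⟨Φ, hΦ1, fun z hz h => ?_, fun z hz h => ?_, fun z hz => ?_, fun z hz => ?_⟩
  · obtain ⟨i, hi⟩ := hcov z hz
    rw [hΦ2 i z hi]
    exact (hΨ i).2.1 z hi h
  · obtain ⟨i, hi⟩ := hcov z hz
    rw [hΦ2 i z hi]
    exact (hΨ i).2.2.1 z hi h
  · obtain ⟨i, hi⟩ := hcov z hz
    rw [hΦ2 i z hi]
    exact (hΨ i).2.2.2.1 z hi
  · obtain ⟨i, hi⟩ := hcov z hz
    rw [hΦ2 i z hi]
    exact (hΨ i).2.2.2.2 z hi

end Pool.Agent.CMerg
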