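import Mathlib
import Pool.Agent.CMerg.Defs

set_option autoImplicit false

/-!
# Chordal Mergelyan theorem, module Xi: the kernel

`kern w t = w / (I t (w - I t)) = 1 / (w - I t) + 1 / (I t)`.
-/

namespace Pool.Agent.CMerg
namespace XiAux

open Complex Metric Set Filter Topology MeasureTheory

/-- The kernel. -/
noncomputable def kern (w : ℂ) (t : ℝ) : ℂ := w / (I * t * (w - I * t))

lemma sub_re (w : ℂ) (t : ℝ) : (w - I * t).re = w.re := by simp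

lemma sub_im (w : ℂ) (t : ℝ) : (w - I * t).im = w.im - t := by simp

lemma sub_ne {w : ℂ} (hw : 0 < w.re) (t : ℝ) : w - I * t ≠ 0 := by
  intro h
  have h1 : (w - I * t).re = 0 := by rw [h]; simp
  rw [sub_re] at h1
  linarith

lemma re_le_norm_sub (w : ℂ) (t : ℝ) : w.re ≤ ‖w - I * t‖ := by
  have h := Complex.re_le_norm (w - I * t)
  rwa [sub_re] at h

lemma im_le_norm_sub (w : ℂ) (t : ℝ) : |t - w.im| ≤ ‖w - I * t‖ := by
  have h := Complex.abs_im_le_norm (w - I * t)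
  rw [sub_im] at h
  rwa [abs_sub_comm]

lemma norm_It (t : ℝ) : ‖(I * t : ℂ)‖ = |t| := by simp

lemma abs_le_norm_sub (w : ℂ) (t : ℝ) : |t| ≤ ‖w - I * t‖ + ‖w‖ := by
  have h : (I * t : ℂ) = w - (w - I * t) := by ring
  calc |t| = ‖(I * t : ℂ)‖ := (norm_It t).symm
    _ = ‖w - (w - I * t)‖ := by rw [← h]
    _ ≤ ‖w‖ + ‖w - I * t‖ := norm_sub_le _ _
    _ = ‖w - I * t‖ + ‖w‖ := by ring

lemma lower {w : ℂ} (hw : 0 < w.re) (t : ℝ) :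
    |t| * (w.re / (w.re + ‖w‖)) ≤ ‖w - I * t‖ := by
  have h1 := re_le_norm_sub w t
  have h2 := abs_le_norm_sub w t
  have h0 : 0 ≤ ‖w‖ := norm_nonneg w
  have hpos : 0 < w.re + ‖w‖ := by linarith
  rw [mul_div_assoc', div_le_iff₀ hpos]
  nlinarith

lemma kern_eq {w : ℂ} (hw : 0 < w.re) {t : ℝ} (ht : t ≠ 0) :
    kern w t = 1 / (w - I * t) + 1 / (I * t) := by
  have h1 := sub_ne hw t
  have h2 : (t : ℂ) ≠ 0 := by exact_mod_cast ht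
  have h3 : (I : ℂ) ≠ 0 := I_ne_zero
  unfold kern
  field_simp
  ring

lemma norm_kern (w : ℂ) (t : ℝ) : ‖kern w t‖ = ‖w‖ / (|t| * ‖w - I * t‖) := by
  unfold kern
  rw [norm_div, norm_mul, norm_It]

/-- The measurable kernel. -/
lemma kern_meas (w : ℂ) : Measurable (kern w) := by
  unfold kern
  fun_prop

lemma norm_kern_le {w : ℂ} (hw : 0 < w.re) {t : ℝ} (ht : t ≠ 0) :
    ‖kern w t‖ ≤ ‖w‖ * ((w.re + ‖w‖) / w.re) * (t ^ 2)⁻¹ := by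
  have h0 : 0 ≤ ‖w‖ := norm_nonneg w
  have hpos : 0 < w.re + ‖w‖ := by linarith
  have hl := lower hw t
  have ha : 0 < |t| := abs_pos.mpr ht
  have hd : 0 < |t| * (w.re / (w.re + ‖w‖)) := by positivity
  rw [norm_kern]
  calc ‖w‖ / (|t| * ‖w - I * t‖) ≤ ‖w‖ / (|t| * (|t| * (w.re / (w.re + ‖w‖)))) := by
        apply div_le_div_of_nonneg_left h0 (by positivity)
        exact mul_le_mul_of_nonneg_left hl ha.le
    _ = ‖w‖ * ((w.re + ‖w‖) / w.re) * (t ^ 2)⁻¹ := by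
        rw [← sq_abs t]
        field_simp

lemma re_inv (w : ℂ) (t : ℝ) :
    (1 / (w - I * t)).re = w.re / (w.re ^ 2 + (w.im - t) ^ 2) := by
  rw [one_div, Complex.inv_re, sub_re, Complex.normSq_apply, sub_re, sub_im]
  ring_nf

lemma norm_sq_sub (w : ℂ) (t : ℝ) : ‖w - I * t‖ ^ 2 = w.re ^ 2 + (w.im - t) ^ 2 := by
  rw [← Complex.normSq_eq_norm_sq, Complex.normSq_apply, sub_re, sub_im]
  ring

lemma re_kern {w : ℂ} (hw : 0 < w.re) {t : ℝ} (ht : t ≠ 0) :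
    (kern w t).re = w.re / (w.re ^ 2 + (w.im - t) ^ 2) := by
  rw [kern_eq hw ht, Complex.add_re, re_inv]
  have : (1 / (I * t : ℂ)).re = 0 := by
    rw [one_div, mul_inv, Complex.inv_I, ← Complex.ofReal_inv]
    simp
  rw [this, add_zero]

/-! ### The sets `A ρ = {t | ρ < |t|}` -/

/-- The outer set. -/
def outer (ρ : ℝ) : Set ℝ := {t | ρ < |t|}

lemma outer_eq (ρ : ℝ) : outer ρ = Iio (-ρ) ∪ Ioi ρ := by
  ext t
  show ρ < |t| ↔ (t < -ρ ∨ ρ < t)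
  rw [lt_abs]
  constructor
  · rintro (h | h)
    · exact Or.inr h
    · exact Or.inl (by linarith)
  · rintro (h | h)
    · exact Or.inr (by linarith)
    · exact Or.inl h

lemma outer_meas (ρ : ℝ) : MeasurableSet (outer ρ) :=
  measurableSet_lt measurable_const measurable_id.abs

lemma intOn_Ioi {ρ : ℝ} (hρ : 0 < ρ) : IntegrableOn (fun t : ℝ => (t ^ 2)⁻¹) (Ioi ρ) := by
  have h := integrableOn_Ioi_rpow_of_lt (a := -2) (by norm_num) hρ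
  refine h.congr_fun (fun t ht => ?_) measurableSet_Ioi
  have ht0 : 0 < t := hρ.trans ht
  show t ^ (-2 : ℝ) = (t ^ 2)⁻¹
  rw [Real.rpow_neg ht0.le]
  norm_num

lemma int_Ioi {ρ : ℝ} (hρ : 0 < ρ) : ∫ t in Ioi ρ, (t ^ 2)⁻¹ = 1 / ρ := by
  have h := integral_Ioi_rpow_of_lt (a := -2) (by norm_num) hρ
  have h2 : ∫ t in Ioi ρ, (t ^ 2)⁻¹ = ∫ t in Ioi ρ, t ^ (-2 : ℝ) := by
    refine setIntegral_congr_fun measurableSet_Ioi (fun t ht => ?_)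
    have ht0 : 0 < t := hρ.trans ht
    show (t ^ 2)⁻¹ = t ^ (-2 : ℝ)
    rw [Real.rpow_neg ht0.le]
    norm_num
  rw [h2, h]
  have : (-2 + 1 : ℝ) = -1 := by norm_num
  rw [this, Real.rpow_neg_one]
  field_simp

lemma intOn_Iio {ρ : ℝ} (hρ : 0 < ρ) : IntegrableOn (fun t : ℝ => (t ^ 2)⁻¹) (Iio (-ρ)) := by
  have h1 : IntegrableOn (fun t : ℝ => (t ^ 2)⁻¹) (Ioi (-(-ρ))) := by
    rw [neg_neg]; exact intOn_Ioi hρ
  have h2 : IntegrableOn (fun t : ℝ => (fun t : ℝ => (t ^ 2)⁻¹) (-t)) (Iio (-ρ)) :=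
    IntegrableOn.comp_neg_Iio (c := -ρ) h1
  refine h2.congr_fun (fun t _ => ?_) measurableSet_Iio
  show ((-t) ^ 2)⁻¹ = (t ^ 2)⁻¹
  rw [neg_sq]

lemma int_Iio {ρ : ℝ} (hρ : 0 < ρ) : ∫ t in Iio (-ρ), (t ^ 2)⁻¹ = 1 / ρ := by
  have h := integral_comp_neg_Iic (c := -ρ) (f := fun t : ℝ => (t ^ 2)⁻¹)
  simp only [neg_sq, neg_neg] at h
  rw [← integral_Iic_eq_integral_Iio, h, int_Ioi hρ]

lemma intOn_outer {ρ : ℝ} (hρ : 0 < ρ) : IntegrableOn (fun t : ℝ => (t ^ 2)⁻¹) (outer ρ) := by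
  rw [outer_eq ρ]
  exact (intOn_Iio hρ).union (intOn_Ioi hρ)

lemma int_outer {ρ : ℝ} (hρ : 0 < ρ) : ∫ t in outer ρ, (t ^ 2)⁻¹ = 2 / ρ := by
  rw [outer_eq ρ, setIntegral_union _ measurableSet_Ioi (intOn_Iio hρ) (intOn_Ioi hρ), int_Iio hρ,
    int_Ioi hρ]
  · ring
  · rw [Set.disjoint_left]
    intro t h1 h2
    simp only [mem_Iio] at h1
    simp only [mem_Ioi] at h2
    linarith

/-! ### Fact A -/

lemma factA_int {x : ℝ} (hx : 0 < x) (y : ℝ) :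
    Integrable (fun t : ℝ => x / (x ^ 2 + (y - t) ^ 2)) := by
  have h1 : Integrable (fun t : ℝ => (1 + (t / x) ^ 2)⁻¹) := by
    have := integrable_inv_one_add_sq.comp_div hx.ne'
    exact this
  have h2 : Integrable (fun t : ℝ => (1 + ((t - y) / x) ^ 2)⁻¹) := h1.comp_sub_right y
  have h3 := h2.const_mul x⁻¹
  refine h3.congr (Filter.Eventually.of_forall fun t => ?_)
  show x⁻¹ * (1 + ((t - y) / x) ^ 2)⁻¹ = x / (x ^ 2 + (y - t) ^ 2)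
  have hpos : 0 < x ^ 2 + (y - t) ^ 2 := by positivity
  have hpos2 : 0 < 1 + ((t - y) / x) ^ 2 := by positivity
  field_simp
  ring

lemma factA {x : ℝ} (hx : 0 < x) (y : ℝ) :
    ∫ t : ℝ, x / (x ^ 2 + (y - t) ^ 2) = Real.pi := by
  have h0 : ∀ t : ℝ, x / (x ^ 2 + (y - t) ^ 2) = x⁻¹ * (1 + ((t - y) / x) ^ 2)⁻¹ := by
    intro t
    have hpos : 0 < x ^ 2 + (y - t) ^ 2 := by positivity
    have hpos2 : 0 < 1 + ((t - y) / x) ^ 2 := by positivity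
    field_simp
    ring
  have h1 : ∫ t : ℝ, x⁻¹ * (1 + ((t - y) / x) ^ 2)⁻¹ = ∫ t : ℝ, x⁻¹ * (1 + (t / x) ^ 2)⁻¹ :=
    integral_sub_right_eq_self (fun t : ℝ => x⁻¹ * (1 + (t / x) ^ 2)⁻¹) y
  calc ∫ t : ℝ, x / (x ^ 2 + (y - t) ^ 2) = ∫ t : ℝ, x⁻¹ * (1 + ((t - y) / x) ^ 2)⁻¹ := by
        simp_rw [h0]
    _ = ∫ t : ℝ, x⁻¹ * (1 + (t / x) ^ 2)⁻¹ := h1
    _ = x⁻¹ * ∫ t : ℝ, (1 + (t / x) ^ 2)⁻¹ := integral_const_mul _ _
    _ = x⁻¹ * (|x| • ∫ t : ℝ, (1 + t ^ 2)⁻¹) := by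
        rw [Measure.integral_comp_div (fun t : ℝ => (1 + t ^ 2)⁻¹) x]
    _ = Real.pi := by
        rw [integral_univ_inv_one_add_sq, abs_of_pos hx, smul_eq_mul]
        field_simp

end XiAux
end Pool.Agent.CMerg
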