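import Mathlib
import Pool.Agent.CMerg.Xi1

set_option autoImplicit false

/-!
# Chordal Mergelyan theorem, module Xi: Fact B, the function and its estimates
-/

namespace Pool.Agent.CMerg
namespace XiAux

open Complex Metric Set Filter Topology MeasureTheory

/-! ### Fact B -/

lemma inv_sq_int {w : ℂ} (hw : 0 < w.re) : Integrable (fun t : ℝ => 1 / ‖w - I * t‖ ^ 2) := by
  have h := (factA_int hw w.im).const_mul (w.re)⁻¹
  refine h.congr (Filter.Eventually.of_forall fun t => ?_)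
  show (w.re)⁻¹ * (w.re / (w.re ^ 2 + (w.im - t) ^ 2)) = 1 / ‖w - I * t‖ ^ 2
  rw [norm_sq_sub]
  have hpos : 0 < w.re ^ 2 + (w.im - t) ^ 2 := by positivity
  field_simp

lemma diff_eq {w w' : ℂ} (hw : 0 < w.re) (hw' : 0 < w'.re) (t : ℝ) :
    1 / (w - I * t) - 1 / (w' - I * t) = (w' - w) / ((w - I * t) * (w' - I * t)) := by
  have h1 := sub_ne hw t
  have h2 := sub_ne hw' t
  field_simp
  ring

lemma norm_diff_eq {w w' : ℂ} (hw : 0 < w.re) (hw' : 0 < w'.re) (t : ℝ) :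
    ‖1 / (w - I * t) - 1 / (w' - I * t)‖ = ‖w' - w‖ / (‖w - I * t‖ * ‖w' - I * t‖) := by
  rw [diff_eq hw hw', norm_div, norm_mul]

lemma inv_meas (w : ℂ) : Measurable (fun t : ℝ => 1 / (w - I * t)) := by fun_prop

lemma factB_int {w w' : ℂ} (hw : 0 < w.re) (hw' : 0 < w'.re) :
    Integrable (fun t : ℝ => 1 / (w - I * t) - 1 / (w' - I * t)) := by
  have h := ((inv_sq_int hw).add (inv_sq_int hw')).const_mul ‖w' - w‖
  refine h.mono' ((inv_meas w).sub (inv_meas w')).aestronglyMeasurable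
    (Filter.Eventually.of_forall fun t => ?_)
  rw [norm_diff_eq hw hw']
  show ‖w' - w‖ / (‖w - I * t‖ * ‖w' - I * t‖) ≤
    ‖w' - w‖ * (1 / ‖w - I * t‖ ^ 2 + 1 / ‖w' - I * t‖ ^ 2)
  have h1 : 0 < ‖w - I * t‖ := norm_pos_iff.mpr (sub_ne hw t)
  have h2 : 0 < ‖w' - I * t‖ := norm_pos_iff.mpr (sub_ne hw' t)
  rw [div_eq_mul_inv]
  apply mul_le_mul_of_nonneg_left _ (norm_nonneg _)
  have e1 : (‖w - I * t‖ * ‖w' - I * t‖)⁻¹ = (‖w - I * t‖)⁻¹ * (‖w' - I * t‖)⁻¹ := mul_inv _ _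
  have e2 : 1 / ‖w - I * t‖ ^ 2 = ((‖w - I * t‖)⁻¹) ^ 2 := by rw [one_div, inv_pow]
  have e3 : 1 / ‖w' - I * t‖ ^ 2 = ((‖w' - I * t‖)⁻¹) ^ 2 := by rw [one_div, inv_pow]
  rw [e1, e2, e3]
  nlinarith [sq_nonneg ((‖w - I * t‖)⁻¹ - (‖w' - I * t‖)⁻¹),
    sq_nonneg ((‖w - I * t‖)⁻¹ + (‖w' - I * t‖)⁻¹)]

lemma slit {w : ℂ} (hw : 0 < w.re) (t : ℝ) : w - I * t ∈ slitPlane :=
  Or.inl (by rw [sub_re]; exact hw)

lemma log_diff {w w' : ℂ} (hw : 0 < w.re) (hw' : 0 < w'.re) {t : ℝ} (ht : max ‖w‖ ‖w'‖ < |t|) :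
    ‖log (w - I * t) - log (w' - I * t)‖ ≤ 1 / (|t| - max ‖w‖ ‖w'‖) * ‖w - w'‖ := by
  have hconv : Convex ℝ ({v : ℂ | 0 < v.re} ∩ closedBall 0 (max ‖w‖ ‖w'‖)) :=
    (convex_halfSpace_re_gt 0).inter (convex_closedBall _ _)
  refine Convex.norm_image_sub_le_of_norm_hasDerivWithin_le
    (f := fun v : ℂ => log (v - I * t)) (f' := fun v => 1 / (v - I * t))
    (fun v hv => ?_) (fun v hv => ?_) hconv ⟨hw', ?_⟩ ⟨hw, ?_⟩
  · have h1 : HasDerivAt (fun v : ℂ => v - I * t) 1 v := (hasDerivAt_id v).sub_const _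
    exact (h1.clog (slit hv.1 t)).hasDerivWithinAt
  · rw [norm_div, norm_one]
    have h1 := abs_le_norm_sub v t
    have h2 : ‖v‖ ≤ max ‖w‖ ‖w'‖ := by
      have := hv.2
      rwa [mem_closedBall, dist_zero_right] at this
    apply one_div_le_one_div_of_le (by linarith)
    linarith
  · rw [mem_closedBall, dist_zero_right]; exact le_max_right _ _
  · rw [mem_closedBall, dist_zero_right]; exact le_max_left _ _

lemma log_tendsto {w w' : ℂ} (hw : 0 < w.re) (hw' : 0 < w'.re) {l : Filter ℝ}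
    (hl : Tendsto (fun t : ℝ => |t|) l atTop) :
    Tendsto (fun t : ℝ => I * (log (w - I * t) - log (w' - I * t))) l (𝓝 0) := by
  have h1 : Tendsto (fun t : ℝ => 1 / (|t| - max ‖w‖ ‖w'‖) * ‖w - w'‖) l (𝓝 0) := by
    have h2 : Tendsto (fun t : ℝ => |t| - max ‖w‖ ‖w'‖) l atTop :=
      tendsto_atTop_add_const_right _ _ hl
    have h3 := (tendsto_inv_atTop_zero.comp h2).mul_const ‖w - w'‖
    rw [zero_mul] at h3
    refine h3.congr (fun t => ?_)
    show (|t| - max ‖w‖ ‖w'‖)⁻¹ * ‖w - w'‖ = _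
    rw [one_div]
  refine squeeze_zero_norm' ?_ h1
  filter_upwards [hl.eventually_gt_atTop (max ‖w‖ ‖w'‖)] with t ht
  rw [norm_mul, Complex.norm_I, one_mul]
  exact log_diff hw hw' ht

lemma factB {w w' : ℂ} (hw : 0 < w.re) (hw' : 0 < w'.re) :
    ∫ t : ℝ, (1 / (w - I * t) - 1 / (w' - I * t)) = 0 := by
  have hder : ∀ v : ℂ, 0 < v.re → ∀ t : ℝ,
      HasDerivAt (fun t : ℝ => log (v - I * t)) (-I / (v - I * t)) t := by
    intro v hv t
    have h0 : HasDerivAt (fun t : ℝ => (I * (t : ℂ))) (I * 1) t :=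
      (Complex.ofRealCLM.hasDerivAt (x := t)).const_mul I
    have h1 : HasDerivAt (fun t : ℝ => v - I * (t : ℂ)) (-I) t := by
      have := h0.const_sub v
      rwa [mul_one] at this
    exact h1.clog_real (slit hv t)
  have h := integral_of_hasDerivAt_of_tendsto
    (f := fun t : ℝ => I * (log (w - I * t) - log (w' - I * t)))
    (f' := fun t : ℝ => 1 / (w - I * t) - 1 / (w' - I * t)) (m := 0) (n := 0)
    (fun t => ?_) (factB_int hw hw') (log_tendsto hw hw' tendsto_abs_atBot_atTop)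
    (log_tendsto hw hw' tendsto_abs_atTop_atTop)
  · rw [h, sub_zero]
  · have h1 := ((hder w hw t).sub (hder w' hw' t)).const_mul I
    refine h1.congr_deriv ?_
    have h2 := sub_ne hw t
    have h3 := sub_ne hw' t
    have hI : I * I = -1 := I_mul_I
    field_simp
    ring_nf
    rw [I_sq]
    ring

/-! ### Holomorphy -/

lemma lower' {w : ℂ} {x₀ M : ℝ} (h0 : 0 < x₀) (h1 : x₀ ≤ w.re) (h2 : ‖w‖ ≤ M) (t : ℝ) :
    |t| * (x₀ / (x₀ + M)) ≤ ‖w - I * t‖ := by
  have h3 := re_le_norm_sub w t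
  have h4 := abs_le_norm_sub w t
  have h5 : 0 ≤ ‖w‖ := norm_nonneg w
  have hpos : 0 < x₀ + M := by linarith
  rw [mul_div_assoc', div_le_iff₀ hpos]
  nlinarith

lemma ker_int {W : Set ℝ} {J : ℝ} (hJ : 0 < J) (hW : MeasurableSet W) (hWJ : W ⊆ outer J)
    {w : ℂ} (hw : 0 < w.re) : IntegrableOn (kern w) W := by
  have h := ((intOn_outer hJ).mono_set hWJ).const_mul (‖w‖ * ((w.re + ‖w‖) / w.re))
  refine Integrable.mono' h (kern_meas w).aestronglyMeasurable ?_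
  refine (ae_restrict_iff' hW).mpr (Filter.Eventually.of_forall fun t ht => ?_)
  have ht0 : t ≠ 0 := by
    have : J < |t| := hWJ ht
    intro h0
    rw [h0, abs_zero] at this
    linarith
  exact norm_kern_le hw ht0

lemma ne_of_outer {J : ℝ} (hJ : 0 < J) {t : ℝ} (ht : t ∈ outer J) : t ≠ 0 := by
  have : J < |t| := ht
  intro h0
  rw [h0, abs_zero] at this
  linarith

lemma ker_diff {W : Set ℝ} {J : ℝ} (hJ : 0 < J) (hW : MeasurableSet W) (hWJ : W ⊆ outer J) :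
    DifferentiableOn ℂ (fun w => ∫ t in W, kern w t) {w | 0 < w.re} := by
  intro w₀ hw₀
  have hw₀' : 0 < w₀.re := hw₀
  have hx : 0 < w₀.re / 2 := by linarith
  have hM : 0 < w₀.re / 2 + (‖w₀‖ + w₀.re / 2) := by
    have := norm_nonneg w₀
    linarith
  have hball : ∀ w ∈ ball w₀ (w₀.re / 2), w₀.re / 2 ≤ w.re ∧ ‖w‖ ≤ ‖w₀‖ + w₀.re / 2 := by
    intro w hw
    rw [mem_ball, dist_eq_norm] at hw
    constructor
    · have h1 := Complex.abs_re_le_norm (w - w₀)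
      rw [Complex.sub_re] at h1
      have h2 := (abs_le.mp (h1.trans hw.le)).1
      linarith
    · have h1 : w = w₀ + (w - w₀) := by ring
      calc ‖w‖ = ‖w₀ + (w - w₀)‖ := by rw [← h1]
        _ ≤ ‖w₀‖ + ‖w - w₀‖ := norm_add_le _ _
        _ ≤ ‖w₀‖ + w₀.re / 2 := by linarith
  have hres := hasDerivAt_integral_of_dominated_loc_of_deriv_le (𝕜 := ℂ)
    (μ := volume.restrict W) (F := fun w t => kern w t)
    (F' := fun w t => -1 / (w - I * t) ^ 2)
    (bound := fun t => ((w₀.re / 2 + (‖w₀‖ + w₀.re / 2)) / (w₀.re / 2)) ^ 2 * (t ^ 2)⁻¹)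
    (ball_mem_nhds w₀ hx)
    (Filter.Eventually.of_forall fun w => (kern_meas w).aestronglyMeasurable)
    (ker_int hJ hW hWJ hw₀')
    (by
      refine Measurable.aestronglyMeasurable ?_
      fun_prop)
    ?_ (((intOn_outer hJ).mono_set hWJ).const_mul _) ?_
  · exact hres.2.differentiableAt.differentiableWithinAt
  · refine (ae_restrict_iff' hW).mpr (Filter.Eventually.of_forall fun t ht w hw => ?_)
    have ht0 := ne_of_outer hJ (hWJ ht)
    have ha : 0 < |t| := abs_pos.mpr ht0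
    have hl := lower' hx (hball w hw).1 (hball w hw).2 t
    have hd : 0 < |t| * (w₀.re / 2 / (w₀.re / 2 + (‖w₀‖ + w₀.re / 2))) := by positivity
    rw [norm_div, norm_neg, norm_one, norm_pow]
    calc 1 / ‖w - I * t‖ ^ 2 ≤
        1 / (|t| * (w₀.re / 2 / (w₀.re / 2 + (‖w₀‖ + w₀.re / 2)))) ^ 2 := by
          apply one_div_le_one_div_of_le (by positivity)
          exact pow_le_pow_left₀ hd.le hl 2
      _ = ((w₀.re / 2 + (‖w₀‖ + w₀.re / 2)) / (w₀.re / 2)) ^ 2 * (t ^ 2)⁻¹ := by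
          rw [mul_pow, sq_abs]
          field_simp
  · refine (ae_restrict_iff' hW).mpr (Filter.Eventually.of_forall fun t ht w hw => ?_)
    have ht0 := ne_of_outer hJ (hWJ ht)
    have hwre : 0 < w.re := lt_of_lt_of_le hx (hball w hw).1
    have h1 : HasDerivAt (fun v : ℂ => v - I * t) 1 w := (hasDerivAt_id w).sub_const _
    have h2 : HasDerivAt (fun v : ℂ => (v - I * t)⁻¹ + 1 / (I * t)) (-1 / (w - I * t) ^ 2) w :=
      (h1.fun_inv (sub_ne hwre t)).add_const _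
    refine h2.congr_of_eventuallyEq ?_
    have hopen : {v : ℂ | 0 < v.re} ∈ 𝓝 w := (isOpen_lt continuous_const continuous_re).mem_nhds hwre
    filter_upwards [hopen] with v hv
    show kern v t = (v - I * t)⁻¹ + 1 / (I * t)
    rw [kern_eq hv ht0, one_div]

/-! ### Real part -/

lemma re_int {W : Set ℝ} {J : ℝ} (hJ : 0 < J) (hW : MeasurableSet W) (hWJ : W ⊆ outer J)
    {w : ℂ} (hw : 0 < w.re) :
    (∫ t in W, kern w t).re = ∫ t in W, w.re / (w.re ^ 2 + (w.im - t) ^ 2) := by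
  have h := integral_re (𝕜 := ℂ) (ker_int hJ hW hWJ hw)
  have h2 : (∫ t in W, kern w t).re = ∫ t in W, (kern w t).re := h.symm
  rw [h2]
  refine setIntegral_congr_fun hW (fun t ht => ?_)
  exact re_kern hw (ne_of_outer hJ (hWJ ht))

end XiAux
end Pool.Agent.CMerg
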