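import Mathlib
import Pool.Agent.CMerg.Xi2

set_option autoImplicit false

/-!
# Chordal Mergelyan theorem, module Xi: the statement
-/

namespace Pool.Agent.CMerg
namespace XiAux

open Complex Metric Set Filter Topology MeasureTheory

lemma low_re {W : Set ℝ} {J : ℝ} (hW : MeasurableSet W)
    (hc : volume Wᶜ ≤ ENNReal.ofReal (5 * J / 2)) (hJ : 0 < J) {x : ℝ} (hx : 0 < x) (y : ℝ) {R : ℝ}
    (hR : 0 < R) :
    (2 * R - 5 * J / 2) * (x / (x ^ 2 + R ^ 2)) ≤ ∫ t in W, x / (x ^ 2 + (y - t) ^ 2) := by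
  have hI : IntegrableOn (fun t : ℝ => x / (x ^ 2 + (y - t) ^ 2)) W := (factA_int hx y).integrableOn
  have hfin : volume (W ∩ Icc (y - R) (y + R)) ≠ ⊤ :=
    ne_top_of_le_ne_top (by rw [Real.volume_Icc]; exact ENNReal.ofReal_ne_top)
      (measure_mono inter_subset_right)
  have h1 : ∫ t in W ∩ Icc (y - R) (y + R), x / (x ^ 2 + (y - t) ^ 2) ≤
      ∫ t in W, x / (x ^ 2 + (y - t) ^ 2) := by
    refine setIntegral_mono_set hI (Filter.Eventually.of_forall fun t => ?_)
      (LE.le.eventuallyLE inter_subset_left)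
    show 0 ≤ x / (x ^ 2 + (y - t) ^ 2)
    positivity
  have h2 : x / (x ^ 2 + R ^ 2) * volume.real (W ∩ Icc (y - R) (y + R)) ≤
      ∫ t in W ∩ Icc (y - R) (y + R), x / (x ^ 2 + (y - t) ^ 2) := by
    refine setIntegral_ge_of_const_le_real (hW.inter measurableSet_Icc) hfin (fun t ht => ?_)
      (hI.mono_set inter_subset_left)
    have ht2 := ht.2
    rw [mem_Icc] at ht2
    apply div_le_div_of_nonneg_left hx.le (by positivity)
    have : (y - t) ^ 2 ≤ R ^ 2 := by
      apply sq_le_sq'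
      · linarith
      · linarith
    linarith
  have h3 : 2 * R - 5 * J / 2 ≤ volume.real (W ∩ Icc (y - R) (y + R)) := by
    have h4 : volume (Icc (y - R) (y + R)) ≤ volume (W ∩ Icc (y - R) (y + R)) + volume Wᶜ := by
      refine le_trans (measure_mono ?_) (measure_union_le _ _)
      intro t ht
      by_cases htW : t ∈ W
      · exact Or.inl ⟨htW, ht⟩
      · exact Or.inr htW
    rw [Real.volume_Icc] at h4
    have h5 : ENNReal.ofReal (y + R - (y - R)) ≤
        ENNReal.ofReal (volume.real (W ∩ Icc (y - R) (y + R)) + 5 * J / 2) := by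
      rw [ENNReal.ofReal_add measureReal_nonneg (by positivity)]
      refine h4.trans (add_le_add ?_ hc)
      rw [Measure.real, ENNReal.ofReal_toReal hfin]
    have h6 := (ENNReal.ofReal_le_ofReal_iff (by positivity)).mp h5
    linarith
  have h7 : 0 ≤ x / (x ^ 2 + R ^ 2) := by positivity
  nlinarith [mul_le_mul_of_nonneg_right h3 h7]

/-- The main construction, for a set `W`. -/
lemma main {W : Set ℝ} {J : ℝ} (hJ : 0 < J) (hW : MeasurableSet W) (hWJ : W ⊆ outer J)
    (hc : volume Wᶜ ≤ ENNReal.ofReal (5 * J / 2))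
    (hq1 : 3 / (2 * J) ≤ ∫ t in W, (t ^ 2)⁻¹) :
    ∃ (κ : ℝ) (Ξ : ℂ → ℂ) (J₁ : ℂ) (D : ℝ), J / 2 ≤ κ ∧ κ ≤ 2 * J / 3 ∧
      (∀ w, Ξ w = κ * ∫ t in W, kern w t) ∧
      DifferentiableOn ℂ Ξ {w | 0 < w.re} ∧
      (∀ w : ℂ, 0 < w.re → (Ξ w).re = κ * ∫ t in W, w.re / (w.re ^ 2 + (w.im - t) ^ 2)) ∧
      (∀ w : ℂ, 0 < w.re → min w.re J / 10 ≤ (Ξ w).re) ∧
      (∀ w : ℂ, 0 < w.re → (Ξ w).re ≤ 3 * J) ∧
      (∀ w : ℂ, 0 < w.re → 2 * ‖w‖ ≤ J → ‖Ξ w - w‖ ≤ 2 * ‖w‖ ^ 2 / J) ∧
      (∀ w : ℂ, 0 < w.re → ‖Ξ w - J₁‖ ≤ D / w.re) := by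
  have hq2 : ∫ t in W, (t ^ 2)⁻¹ ≤ 2 / J := by
    rw [← int_outer hJ]
    refine setIntegral_mono_set (intOn_outer hJ) (Filter.Eventually.of_forall fun t => ?_)
      (LE.le.eventuallyLE hWJ)
    show 0 ≤ (t ^ 2)⁻¹
    positivity
  obtain ⟨q, hq⟩ : ∃ q, q = ∫ t in W, (t ^ 2)⁻¹ := ⟨_, rfl⟩
  rw [← hq] at hq1 hq2
  have hqpos : 0 < q := lt_of_lt_of_le (by positivity) hq1
  have hκ1 : J / 2 ≤ 1 / q := by
    rw [le_div_iff₀ hqpos]
    have := mul_le_mul_of_nonneg_left hq2 (by positivity : 0 ≤ J / 2)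
    have h2 : J / 2 * (2 / J) = 1 := by field_simp
    linarith
  have hκ2 : 1 / q ≤ 2 * J / 3 := by
    rw [div_le_iff₀ hqpos]
    have := mul_le_mul_of_nonneg_left hq1 (by positivity : 0 ≤ 2 * J / 3)
    have h2 : 2 * J / 3 * (3 / (2 * J)) = 1 := by field_simp
    linarith
  have hκq : 1 / q * q = 1 := by field_simp
  obtain ⟨κ, hκ⟩ : ∃ κ, κ = 1 / q := ⟨_, rfl⟩
  rw [← hκ] at hκ1 hκ2 hκq
  have hκ0 : 0 < κ := by linarith
  have hre : ∀ w : ℂ, 0 < w.re → ((κ : ℂ) * ∫ t in W, kern w t).re =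
      κ * ∫ t in W, w.re / (w.re ^ 2 + (w.im - t) ^ 2) := by
    intro w hw
    rw [Complex.re_ofReal_mul, re_int hJ hW hWJ hw]
  have hcfin : volume Wᶜ < ⊤ := lt_of_le_of_lt hc ENNReal.ofReal_lt_top
  have hcreal : volume.real Wᶜ ≤ 5 * J / 2 := by
    rw [Measure.real]
    exact ENNReal.toReal_le_of_le_ofReal (by positivity) hc
  refine ⟨κ, fun w => κ * ∫ t in W, kern w t,
    (κ * ∫ t in W, kern 1 t) + κ * ∫ t in Wᶜ, 1 / (1 - I * (t : ℂ)), κ * (5 * J / 2),
    hκ1, hκ2, fun w => rfl, (ker_diff hJ hW hWJ).const_mul _, hre, ?_, ?_, ?_, ?_⟩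
  · intro w hw
    rw [hre w hw]
    rcases le_total w.re J with hxJ | hxJ
    · rw [min_eq_left hxJ]
      have h1 := low_re hW hc hJ hw w.im (R := 2 * J) (by positivity)
      have h2 : 1 / (5 * J ^ 2) * w.re ≤ w.re / (w.re ^ 2 + (2 * J) ^ 2) := by
        rw [one_div, ← div_eq_inv_mul]
        apply div_le_div_of_nonneg_left hw.le (by positivity)
        nlinarith
      have h3 : (3 * J / 2) * (1 / (5 * J ^ 2) * w.re) ≤
          ∫ t in W, w.re / (w.re ^ 2 + (w.im - t) ^ 2) := by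
        refine le_trans ?_ h1
        have h4 : 2 * (2 * J) - 5 * J / 2 = 3 * J / 2 := by ring
        rw [h4]
        exact mul_le_mul_of_nonneg_left h2 (by positivity)
      have h5 : (3 * J / 2) * (1 / (5 * J ^ 2) * w.re) = 3 * w.re / (10 * J) := by
        field_simp
        ring
      rw [h5] at h3
      have h6 : 0 ≤ 3 * w.re / (10 * J) := by positivity
      calc w.re / 10 ≤ J / 2 * (3 * w.re / (10 * J)) := by
            have : J / 2 * (3 * w.re / (10 * J)) = 3 * w.re / 20 := by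
              field_simp
              ring
            rw [this]
            linarith
        _ ≤ κ * (3 * w.re / (10 * J)) := mul_le_mul_of_nonneg_right hκ1 h6
        _ ≤ _ := mul_le_mul_of_nonneg_left h3 hκ0.le
    · rw [min_eq_right hxJ]
      have h1 := low_re hW hc hJ hw w.im (R := 2 * w.re) (by positivity)
      have h2 : w.re / (w.re ^ 2 + (2 * w.re) ^ 2) = 1 / (5 * w.re) := by
        field_simp
        ring
      rw [h2] at h1
      have h3 : 3 / 10 ≤ ∫ t in W, w.re / (w.re ^ 2 + (w.im - t) ^ 2) := by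
        refine le_trans ?_ h1
        have h4 : 3 * w.re / 2 ≤ 2 * (2 * w.re) - 5 * J / 2 := by linarith
        calc (3 / 10 : ℝ) = 3 * w.re / 2 * (1 / (5 * w.re)) := by
              field_simp
              ring
          _ ≤ _ := mul_le_mul_of_nonneg_right h4 (by positivity)
      calc J / 10 ≤ J / 2 * (3 / 10) := by linarith
        _ ≤ κ * (3 / 10) := mul_le_mul_of_nonneg_right hκ1 (by norm_num)
        _ ≤ _ := mul_le_mul_of_nonneg_left h3 hκ0.le
  · intro w hw
    rw [hre w hw]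
    have h1 : ∫ t in W, w.re / (w.re ^ 2 + (w.im - t) ^ 2) ≤ Real.pi := by
      rw [← factA hw w.im]
      refine setIntegral_le_integral (factA_int hw w.im) (Filter.Eventually.of_forall fun t => ?_)
      show 0 ≤ w.re / (w.re ^ 2 + (w.im - t) ^ 2)
      positivity
    have h2 := Real.pi_lt_four
    calc κ * ∫ t in W, w.re / (w.re ^ 2 + (w.im - t) ^ 2) ≤ κ * Real.pi :=
          mul_le_mul_of_nonneg_left h1 hκ0.le
      _ ≤ 2 * J / 3 * 4 := by
          apply mul_le_mul hκ2 h2.le Real.pi_pos.le (by positivity)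
      _ ≤ 3 * J := by linarith
  · intro w hw hwJ
    have hint : IntegrableOn (fun t : ℝ => w * ((t ^ 2)⁻¹ : ℝ)) W := by
      have h1 : IntegrableOn (fun t : ℝ => (((t ^ 2)⁻¹ : ℝ) : ℂ)) W :=
        ((intOn_outer hJ).mono_set hWJ).ofReal
      exact h1.const_mul w
    have h1 : ∫ t in W, w * (((t ^ 2)⁻¹ : ℝ) : ℂ) = w * (q : ℂ) := by
      rw [integral_const_mul, hq]
      congr 1
      exact integral_ofReal
    have h2 : (κ : ℂ) * (∫ t in W, kern w t) - w =
        κ * ∫ t in W, (kern w t - w * (((t ^ 2)⁻¹ : ℝ) : ℂ)) := by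
      rw [integral_sub (ker_int hJ hW hWJ hw) hint, h1, mul_sub]
      congr 1
      have : (κ : ℂ) * (w * q) = w * ((κ * q : ℝ) : ℂ) := by push_cast; ring
      rw [this, hκq]
      simp
    show ‖(κ : ℂ) * (∫ t in W, kern w t) - w‖ ≤ _
    rw [h2, norm_mul, Complex.norm_real, Real.norm_of_nonneg hκ0.le]
    have h3 : ‖∫ t in W, (kern w t - w * (((t ^ 2)⁻¹ : ℝ) : ℂ))‖ ≤
        ∫ t in W, 2 * ‖w‖ ^ 2 / J * (t ^ 2)⁻¹ := by
      refine norm_integral_le_of_norm_le (((intOn_outer hJ).mono_set hWJ).const_mul _) ?_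
      refine (ae_restrict_iff' hW).mpr (Filter.Eventually.of_forall fun t ht => ?_)
      have ht0 := ne_of_outer hJ (hWJ ht)
      have htJ : J < |t| := hWJ ht
      have ht0' : (t : ℂ) ≠ 0 := by exact_mod_cast ht0
      have hne := sub_ne hw t
      have hta : 0 < |t| := abs_pos.mpr ht0
      have e1 : kern w t - w * (((t ^ 2)⁻¹ : ℝ) : ℂ) = -w ^ 2 / ((t : ℂ) ^ 2 * (w - I * t)) := by
        unfold kern
        push_cast
        have hI : (I : ℂ) ≠ 0 := I_ne_zero
        field_simp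
        ring_nf
        rw [I_sq]
        ring
      rw [e1, norm_div, norm_neg, norm_mul, norm_pow, norm_pow, Complex.norm_real,
        Real.norm_eq_abs, sq_abs]
      have h4 := abs_le_norm_sub w t
      have h5 : J / 2 ≤ ‖w - I * t‖ := by linarith
      calc ‖w‖ ^ 2 / (t ^ 2 * ‖w - I * t‖) ≤ ‖w‖ ^ 2 / (t ^ 2 * (J / 2)) := by
            apply div_le_div_of_nonneg_left (by positivity) (by positivity)
            exact mul_le_mul_of_nonneg_left h5 (by positivity)
        _ = 2 * ‖w‖ ^ 2 / J * (t ^ 2)⁻¹ := by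
            field_simp
    rw [integral_const_mul, ← hq] at h3
    calc κ * ‖∫ t in W, (kern w t - w * (((t ^ 2)⁻¹ : ℝ) : ℂ))‖ ≤ κ * (2 * ‖w‖ ^ 2 / J * q) :=
          mul_le_mul_of_nonneg_left h3 hκ0.le
      _ = (κ * q) * (2 * ‖w‖ ^ 2 / J) := by ring
      _ = 2 * ‖w‖ ^ 2 / J := by rw [hκq, one_mul]
  · intro w hw
    have h1re : (0 : ℝ) < (1 : ℂ).re := by simp
    have e1 : (∫ t in W, kern w t) - (∫ t in W, kern 1 t) =
        ∫ t in W, (1 / (w - I * t) - 1 / (1 - I * t)) := by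
      rw [← integral_sub (ker_int hJ hW hWJ hw) (ker_int hJ hW hWJ h1re)]
      refine setIntegral_congr_fun hW (fun t ht => ?_)
      have ht0 := ne_of_outer hJ (hWJ ht)
      show kern w t - kern 1 t = _
      rw [kern_eq hw ht0, kern_eq h1re ht0]
      ring
    have e2 : (∫ t in W, (1 / (w - I * t) - 1 / (1 - I * t))) +
        (∫ t in Wᶜ, (1 / (w - I * t) - 1 / (1 - I * t))) = 0 := by
      rw [integral_add_compl hW (factB_int hw h1re), factB hw h1re]
    have hic : ∀ v : ℂ, 0 < v.re → IntegrableOn (fun t : ℝ => 1 / (v - I * t)) Wᶜ := by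
      intro v hv
      refine Measure.integrableOn_of_bounded hcfin.ne (inv_meas v).aestronglyMeasurable
        (M := 1 / v.re) ?_
      refine Filter.Eventually.of_forall fun t => ?_
      rw [norm_div, norm_one]
      exact one_div_le_one_div_of_le hv (re_le_norm_sub v t)
    have e3 : (∫ t in Wᶜ, (1 / (w - I * t) - 1 / (1 - I * t))) =
        (∫ t in Wᶜ, 1 / (w - I * t)) - (∫ t in Wᶜ, 1 / (1 - I * (t : ℂ))) :=
      integral_sub (hic w hw) (hic 1 h1re)
    have e4 : (κ : ℂ) * (∫ t in W, kern w t) -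
        ((κ * ∫ t in W, kern 1 t) + κ * ∫ t in Wᶜ, 1 / (1 - I * (t : ℂ))) =
        -(κ * ∫ t in Wᶜ, 1 / (w - I * t)) := by
      have e5 : (∫ t in W, kern w t) = (∫ t in W, kern 1 t) -
          ((∫ t in Wᶜ, 1 / (w - I * t)) - (∫ t in Wᶜ, 1 / (1 - I * (t : ℂ)))) := by
        rw [← e3]
        have := e2
        rw [← e1] at this
        linear_combination this
      rw [e5]
      ring
    show ‖(κ : ℂ) * (∫ t in W, kern w t) -
        ((κ * ∫ t in W, kern 1 t) + κ * ∫ t in Wᶜ, 1 / (1 - I * (t : ℂ)))‖ ≤ _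
    rw [e4, norm_neg, norm_mul, Complex.norm_real, Real.norm_of_nonneg hκ0.le]
    have h5 : ‖∫ t in Wᶜ, 1 / (w - I * t)‖ ≤ 1 / w.re * volume.real Wᶜ := by
      refine norm_setIntegral_le_of_norm_le_const hcfin (fun t _ => ?_)
      rw [norm_div, norm_one]
      exact one_div_le_one_div_of_le hw (re_le_norm_sub w t)
    calc κ * ‖∫ t in Wᶜ, 1 / (w - I * t)‖ ≤ κ * (1 / w.re * volume.real Wᶜ) :=
          mul_le_mul_of_nonneg_left h5 hκ0.le
      _ ≤ κ * (1 / w.re * (5 * J / 2)) := by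
          apply mul_le_mul_of_nonneg_left _ hκ0.le
          exact mul_le_mul_of_nonneg_left hcreal (by positivity)
      _ = κ * (5 * J / 2) / w.re := by
          field_simp

end XiAux

open Complex Metric Set Filter Topology MeasureTheory
open XiAux

theorem xi : Stmt_Xi := by
  intro b x₀ x₁ hb hx₀ hx₁
  have hx₁0 : 0 < x₁ := hx₀.trans hx₁
  refine ⟨2 * x₁, (x₁ + 2 * b) * (1 + (x₁ + 2 * b) / x₀) / x₀, by positivity, by positivity, ?_⟩
  intro K η hK hη
  refine ⟨max 1 (max (2 * K) (2 * K ^ 2 / η)), ?_⟩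
  intro J hJ₀ S y T hT hsum
  have hJ1 : 1 ≤ J := (le_max_left _ _).trans hJ₀
  have hJK : 2 * K ≤ J := ((le_max_left _ _).trans (le_max_right _ _)).trans hJ₀
  have hJη : 2 * K ^ 2 / η ≤ J := ((le_max_right _ _).trans (le_max_right _ _)).trans hJ₀
  have hJ : 0 < J := by linarith
  obtain ⟨r, hr⟩ : ∃ r : ℂ → ℝ, ∀ s, r s = b + 2 * x₁ * J / T s := ⟨_, fun s => rfl⟩
  have hrpos : ∀ s ∈ S, 0 < r s := by
    intro s hs
    rw [hr]
    have := hT s hs
    positivity
  obtain ⟨W, hWdef⟩ : ∃ W : Set ℝ, W = {t | J < |t| ∧ ∀ s ∈ S, r s < |t - y s|} := ⟨_, rfl⟩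
  have hWJ : W ⊆ outer J := by
    rw [hWdef]
    exact fun t ht => ht.1
  have hW : MeasurableSet W := by
    have h1 : W = outer J ∩ ⋂ s ∈ S, {t : ℝ | r s < |t - y s|} := by
      rw [hWdef]
      ext t
      simp only [outer, mem_inter_iff, mem_iInter]
      rfl
    rw [h1]
    refine (outer_meas J).inter (Finset.measurableSet_biInter S fun s _ => ?_)
    exact measurableSet_lt measurable_const ((measurable_id.sub_const _).abs)
  obtain ⟨V, hV⟩ : ∃ V : Set ℝ, V = ⋃ s ∈ S, Icc (y s - r s) (y s + r s) := ⟨_, rfl⟩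
  have hVvol : volume V ≤ ENNReal.ofReal (J / 2) := by
    rw [hV]
    refine (measure_biUnion_finset_le S _).trans ?_
    have h1 : ∀ s ∈ S, volume (Icc (y s - r s) (y s + r s)) = ENNReal.ofReal (2 * r s) := by
      intro s _
      rw [Real.volume_Icc]
      congr 1
      ring
    rw [Finset.sum_congr rfl h1, ← ENNReal.ofReal_sum_of_nonneg
      (fun s hs => by have := hrpos s hs; positivity)]
    apply ENNReal.ofReal_le_ofReal
    rw [← Finset.mul_sum]
    have h2 : ∑ s ∈ S, r s ≤ J / 4 := by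
      have h3 : ∑ s ∈ S, r s = ∑ s ∈ S, (b + 2 * x₁ * J / T s) :=
        Finset.sum_congr rfl (fun s _ => hr s)
      rw [h3]
      exact hsum
    linarith
  have hnotW : ∀ t, t ∉ W → J < |t| → t ∈ V := by
    intro t ht htJ
    rw [hWdef] at ht
    have h1 : ¬ ∀ s ∈ S, r s < |t - y s| := fun h => ht ⟨htJ, h⟩
    push Not at h1
    obtain ⟨s, hs, h2⟩ := h1
    rw [hV]
    simp only [mem_iUnion]
    refine ⟨s, hs, ?_⟩
    rw [abs_le] at h2
    exact ⟨by linarith, by linarith⟩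
  have hc : volume Wᶜ ≤ ENNReal.ofReal (5 * J / 2) := by
    have h1 : Wᶜ ⊆ Icc (-J) J ∪ V := by
      intro t ht
      by_cases htJ : J < |t|
      · exact Or.inr (hnotW t ht htJ)
      · left
        push Not at htJ
        exact abs_le.mp htJ
    refine (measure_mono h1).trans ((measure_union_le _ _).trans ?_)
    rw [Real.volume_Icc]
    have h2 : ENNReal.ofReal (5 * J / 2) = ENNReal.ofReal (J - -J) + ENNReal.ofReal (J / 2) := by
      rw [← ENNReal.ofReal_add (by linarith) (by linarith)]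
      congr 1
      ring
    rw [h2]
    gcongr
  have hq1 : 3 / (2 * J) ≤ ∫ t in W, (t ^ 2)⁻¹ := by
    have hsub : outer J \ W ⊆ V := fun t ht => hnotW t ht.2 ht.1
    have hvol : volume (outer J \ W) ≤ ENNReal.ofReal (J / 2) := (measure_mono hsub).trans hVvol
    have h1 : (∫ t in outer J, (t ^ 2)⁻¹) =
        (∫ t in W, (t ^ 2)⁻¹) + (∫ t in outer J \ W, (t ^ 2)⁻¹) := by
      rw [← setIntegral_union disjoint_sdiff_right ((outer_meas J).diff hW)
        ((intOn_outer hJ).mono_set hWJ) ((intOn_outer hJ).mono_set sdiff_subset),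
        union_sdiff_cancel hWJ]
    have h2 : ‖∫ t in outer J \ W, (t ^ 2)⁻¹‖ ≤ (J ^ 2)⁻¹ * volume.real (outer J \ W) := by
      refine norm_setIntegral_le_of_norm_le_const (lt_of_le_of_lt hvol ENNReal.ofReal_lt_top)
        (fun t ht => ?_)
      have htJ : J < |t| := ht.1
      rw [Real.norm_of_nonneg (by positivity)]
      apply inv_anti₀ (by positivity)
      rw [← sq_abs t]
      exact pow_le_pow_left₀ hJ.le htJ.le 2
    have h3 : volume.real (outer J \ W) ≤ J / 2 := by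
      rw [Measure.real]
      exact ENNReal.toReal_le_of_le_ofReal (by positivity) hvol
    have h4 : ∫ t in outer J \ W, (t ^ 2)⁻¹ ≤ (J ^ 2)⁻¹ * (J / 2) :=
      (le_abs_self _).trans (h2.trans (mul_le_mul_of_nonneg_left h3 (by positivity)))
    have h5 : (J ^ 2)⁻¹ * (J / 2) = 1 / (2 * J) := by
      field_simp
    rw [int_outer hJ] at h1
    have h6 : 3 / (2 * J) = 2 / J - 1 / (2 * J) := by
      field_simp
      ring
    rw [h6]
    linarith
  obtain ⟨κ, Ξ, J₁, D, hκ1, hκ2, hΞ, hdiff, hre, hlow, hup, happ, hinf⟩ := main hJ hW hWJ hc hq1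
  have hκ0 : 0 < κ := by linarith
  refine ⟨Ξ, J₁, D, hdiff, hlow, hup, ?_, ?_, hinf, ?_⟩
  · intro w hw hwK
    refine (happ w hw (by linarith)).trans ?_
    rw [div_le_iff₀ hJ]
    have h1 : ‖w‖ ^ 2 ≤ K ^ 2 := pow_le_pow_left₀ (norm_nonneg _) hwK 2
    rw [div_le_iff₀ hη] at hJη
    nlinarith
  · intro s hs w hw1 hw2 hwb
    have hw : 0 < w.re := hx₀.trans_le hw1
    have hTs := hT s hs
    rw [hre w hw]
    obtain ⟨ρ, hρ⟩ : ∃ ρ : ℝ, ρ = 2 * x₁ * J / T s := ⟨_, rfl⟩
    have hρ0 : 0 < ρ := by rw [hρ]; positivity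
    have hWρ : ∀ t ∈ W, t - w.im ∈ outer ρ := by
      intro t ht
      rw [hWdef] at ht
      have h1 := ht.2 s hs
      rw [hr, ← hρ] at h1
      show ρ < |t - w.im|
      have h2 : |t - y s| ≤ |t - w.im| + |w.im - y s| := by
        have : t - y s = (t - w.im) + (w.im - y s) := by ring
        rw [this]
        exact abs_add_le _ _
      linarith
    have hshift : IntegrableOn (fun t : ℝ => ((t - w.im) ^ 2)⁻¹)
        ((fun t : ℝ => t - w.im) ⁻¹' outer ρ) ∧
        ∫ t in (fun t : ℝ => t - w.im) ⁻¹' outer ρ, ((t - w.im) ^ 2)⁻¹ = 2 / ρ := by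
      have hmp : MeasurePreserving (fun t : ℝ => t - w.im) volume volume :=
        measurePreserving_sub_right volume w.im
      have hme : MeasurableEmbedding (fun t : ℝ => t - w.im) :=
        (MeasurableEquiv.subRight w.im).measurableEmbedding
      constructor
      · exact (hmp.integrableOn_comp_preimage hme).mpr (intOn_outer hρ0)
      · rw [← int_outer hρ0]
        exact hmp.setIntegral_preimage_emb hme (fun t : ℝ => (t ^ 2)⁻¹) (outer ρ)
    have hWsub : W ⊆ (fun t : ℝ => t - w.im) ⁻¹' outer ρ := fun t ht => hWρ t ht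
    have h1 : ∫ t in W, w.re / (w.re ^ 2 + (w.im - t) ^ 2) ≤
        ∫ t in W, x₁ * ((t - w.im) ^ 2)⁻¹ := by
      refine setIntegral_mono_on (factA_int hw w.im).integrableOn
        ((hshift.1.mono_set hWsub).const_mul _) hW (fun t ht => ?_)
      have h2 : ρ < |t - w.im| := hWρ t ht
      have h3 : 0 < (t - w.im) ^ 2 := by
        have : t - w.im ≠ 0 := by
          intro h0
          rw [h0, abs_zero] at h2
          linarith
        positivity
      rw [← div_eq_mul_inv]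
      apply div_le_div₀ hx₁0.le hw2 h3
      nlinarith [sq_nonneg w.re]
    have h2 : ∫ t in W, x₁ * ((t - w.im) ^ 2)⁻¹ ≤ x₁ * (2 / ρ) := by
      rw [integral_const_mul, ← hshift.2]
      apply mul_le_mul_of_nonneg_left _ hx₁0.le
      refine setIntegral_mono_set hshift.1 (Filter.Eventually.of_forall fun t => ?_)
        (LE.le.eventuallyLE hWsub)
      show 0 ≤ ((t - w.im) ^ 2)⁻¹
      positivity
    calc κ * ∫ t in W, w.re / (w.re ^ 2 + (w.im - t) ^ 2) ≤ κ * (x₁ * (2 / ρ)) :=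
          mul_le_mul_of_nonneg_left (h1.trans h2) hκ0.le
      _ ≤ 2 * J / 3 * (x₁ * (2 / ρ)) := mul_le_mul_of_nonneg_right hκ2 (by positivity)
      _ = 2 / 3 * T s := by
          rw [hρ]
          field_simp
      _ ≤ T s := by linarith
  · intro w w' hw1 hw2 hw1' hw2' hww
    have hw : 0 < w.re := hx₀.trans_le hw1
    have hw' : 0 < w'.re := hx₀.trans_le hw1'
    obtain ⟨B, hB⟩ : ∃ B : ℝ, B = x₁ + 2 * b := ⟨_, rfl⟩
    have hB0 : 0 < B := by rw [hB]; positivity
    have hdist : ‖w' - w‖ ≤ B := by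
      refine (Complex.norm_le_abs_re_add_abs_im _).trans ?_
      rw [Complex.sub_re, Complex.sub_im, hB, abs_sub_comm w'.im w.im]
      have : |w'.re - w.re| ≤ x₁ := by
        rw [abs_le]
        constructor <;> linarith
      linarith
    have hcmp : ∀ t : ℝ, ‖w - I * t‖ ≤ ‖w' - I * t‖ * (1 + B / x₀) := by
      intro t
      have h1 : w - I * t = (w' - I * t) - (w' - w) := by ring
      have h2 : x₀ ≤ ‖w' - I * t‖ := hw1'.trans (re_le_norm_sub w' t)
      calc ‖w - I * t‖ ≤ ‖w' - I * t‖ + ‖w' - w‖ := by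
            rw [h1]
            exact norm_sub_le _ _
        _ ≤ ‖w' - I * t‖ + B := by linarith
        _ = ‖w' - I * t‖ + x₀ * (B / x₀) := by
            field_simp
        _ ≤ ‖w' - I * t‖ + ‖w' - I * t‖ * (B / x₀) := by
            have : 0 ≤ B / x₀ := by positivity
            nlinarith
        _ = ‖w' - I * t‖ * (1 + B / x₀) := by ring
    have e1 : Ξ w - Ξ w' = κ * ∫ t in W, (kern w t - kern w' t) := by
      rw [hΞ, hΞ, integral_sub (ker_int hJ hW hWJ hw) (ker_int hJ hW hWJ hw')]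
      ring
    have h3 : ‖∫ t in W, (kern w t - kern w' t)‖ ≤
        ∫ t in W, B * (1 + B / x₀) / x₀ * (w.re / (w.re ^ 2 + (w.im - t) ^ 2)) := by
      refine norm_integral_le_of_norm_le ((factA_int hw w.im).integrableOn.const_mul _) ?_
      refine (ae_restrict_iff' hW).mpr (Filter.Eventually.of_forall fun t ht => ?_)
      have ht0 := ne_of_outer hJ (hWJ ht)
      have e2 : kern w t - kern w' t = 1 / (w - I * t) - 1 / (w' - I * t) := by
        rw [kern_eq hw ht0, kern_eq hw' ht0]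
        ring
      rw [e2, norm_diff_eq hw hw']
      have p1 : 0 < ‖w - I * t‖ := norm_pos_iff.mpr (sub_ne hw t)
      have p2 : 0 < ‖w' - I * t‖ := norm_pos_iff.mpr (sub_ne hw' t)
      rw [← norm_sq_sub]
      have h4 : 1 / ‖w' - I * t‖ ≤ (1 + B / x₀) / ‖w - I * t‖ := by
        rw [div_le_div_iff₀ p2 p1]
        have := hcmp t
        linarith
      calc ‖w' - w‖ / (‖w - I * t‖ * ‖w' - I * t‖)
          = ‖w' - w‖ * (1 / ‖w - I * t‖ * (1 / ‖w' - I * t‖)) := by
            field_simp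
        _ ≤ B * (1 / ‖w - I * t‖ * ((1 + B / x₀) / ‖w - I * t‖)) := by
            apply mul_le_mul hdist _ (by positivity) hB0.le
            exact mul_le_mul_of_nonneg_left h4 (by positivity)
        _ = B * (1 + B / x₀) * (1 / ‖w - I * t‖ ^ 2) := by
            field_simp
        _ ≤ B * (1 + B / x₀) * (w.re / x₀ / ‖w - I * t‖ ^ 2) := by
            apply mul_le_mul_of_nonneg_left _ (by positivity)
            apply div_le_div_of_nonneg_right _ (by positivity)
            rw [le_div_iff₀ hx₀]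
            linarith
        _ = B * (1 + B / x₀) / x₀ * (w.re / ‖w - I * t‖ ^ 2) := by
            field_simp
    rw [e1, norm_mul, Complex.norm_real, Real.norm_of_nonneg hκ0.le, hre w hw, ← hB]
    rw [integral_const_mul] at h3
    calc κ * ‖∫ t in W, (kern w t - kern w' t)‖ ≤
        κ * (B * (1 + B / x₀) / x₀ * ∫ t in W, w.re / (w.re ^ 2 + (w.im - t) ^ 2)) :=
          mul_le_mul_of_nonneg_left h3 hκ0.le
      _ = _ := by ring

end Pool.Agent.CMerg
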