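import Pool.Agent.CMerg.Corr
import Pool.Agent.CMerg.G
import Pool.Agent.CMerg.Smooth
import Pool.Agent.CMerg.MergMain
import Pool.Agent.CMerg.Log
import Pool.Agent.CMerg.Holes
import Pool.Agent.CMerg.EB
import Pool.Agent.CMerg.Pieces
import Pool.Agent.CMerg.AHC
import Pool.Agent.CMerg.Xi
import Pool.Agent.CMerg.Low
import Pool.Agent.CMerg.Up
import Pool.Agent.CMerg.Glob
import Pool.Agent.CMerg.Core
import Pool.Agent.CMerg.Easy
import Pool.Agent.CMerg.Hard

set_option autoImplicit false

/-!
# Chordal Mergelyan theorem: assembly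
-/

namespace Pool.Agent.CMerg

theorem final (L : Set ℂ) (hL : IsCompact L) (hc : IsConnected Lᶜ) (f : ℂ → OnePoint ℂ) :
    ChordLim L f ↔ InM L f := by
  have hM : Stmt_Mergelyan := merg g smooth
  have hA : Stmt_AHC := ahc corr
  have hLow : Stmt_Low := low xi hA pieces logHol
  have hUp : Stmt_Up := upz hA pieces logHol
  have hGlob : Stmt_Glob := glob holes (log hM) logHol eb hLow hUp
  have hCore : Stmt_Core := core corr hGlob
  exact ⟨easy L f hL, hard hCore hM L f hL hc⟩

end Pool.Agent.CMerg
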