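import Pool.Agent.CMerg.Defs
import Pool.Agent.BlMat.Basic

set_option autoImplicit false

/-!
# Chordal Mergelyan, the low zone: real constants, gluing, linear combinations
-/

namespace Pool.Agent.CMerg.LowM

open Complex Metric Set Filter Topology MeasureTheory
open scoped ContDiff
open Pool.Agent.CMerg

/-- `exp (-x) ≤ 6 / x ^ 3`. -/
theorem exp_neg_le {x : ℝ} (hx : 0 < x) : Real.exp (-x) ≤ 6 / x ^ 3 := by
  have h : x ^ 3 / 6 ≤ Real.exp x := by
    have := Real.pow_div_factorial_le_exp x hx.le 3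
    simpa [Nat.factorial] using this
  rw [Real.exp_neg, inv_eq_one_div, div_le_div_iff₀ (Real.exp_pos _) (by positivity)]
  linarith

/-- The first choice of constants. -/
theorem const_a0 {c Q R η : ℝ} (hc : 0 < c) (hQ : 0 < Q) (hR : 0 < R) (hη : 0 < η) :
    ∃ a₀ : ℝ, 0 < a₀ ∧ ∀ m : ℝ, 0 < m → m ≤ a₀ →
      Real.exp (-(c / (2 * √m))) ≤ m / Q ∧ R * Real.exp (-(c / (2 * √m))) ≤ η := by
  set r : ℝ := min 1 (min (c ^ 3 / (48 * Q)) (η * c ^ 3 / (48 * R))) with hr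
  have hr0 : 0 < r := by
    refine lt_min one_pos (lt_min ?_ ?_) <;> positivity
  have hr1 : r ≤ 1 := min_le_left _ _
  have hr2 : r ≤ c ^ 3 / (48 * Q) := (min_le_right _ _).trans (min_le_left _ _)
  have hr3 : r ≤ η * c ^ 3 / (48 * R) := (min_le_right _ _).trans (min_le_right _ _)
  refine ⟨r ^ 2, by positivity, fun m hm hmr => ?_⟩
  have hs0 : 0 < √m := Real.sqrt_pos.2 hm
  have hsr : √m ≤ r := by
    rw [Real.sqrt_le_left hr0.le]; exact hmr
  have hsm : √m ^ 2 = m := Real.sq_sqrt hm.le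
  have hc3 : 0 < c ^ 3 := by positivity
  have hE : Real.exp (-(c / (2 * √m))) ≤ 48 * √m ^ 3 / c ^ 3 := by
    refine (exp_neg_le (by positivity)).trans (le_of_eq ?_)
    field_simp
    norm_num
  have h1 : 48 * √m * Q ≤ c ^ 3 := by
    have := hsr.trans hr2
    rw [le_div_iff₀ (by positivity)] at this
    linarith
  have h2 : 48 * √m * R ≤ η * c ^ 3 := by
    have := hsr.trans hr3
    rw [le_div_iff₀ (by positivity)] at this
    linarith
  have hs1 : √m ≤ 1 := hsr.trans hr1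
  constructor
  · refine hE.trans ?_
    rw [div_le_div_iff₀ hc3 hQ]
    calc 48 * √m ^ 3 * Q = √m ^ 2 * (48 * √m * Q) := by ring
      _ = m * (48 * √m * Q) := by rw [hsm]
      _ ≤ m * c ^ 3 := mul_le_mul_of_nonneg_left h1 hm.le
  · calc R * Real.exp (-(c / (2 * √m))) ≤ R * (48 * √m ^ 3 / c ^ 3) :=
          mul_le_mul_of_nonneg_left hE hR.le
      _ = (√m ^ 2) * (48 * √m * R) / c ^ 3 := by ring
      _ ≤ 1 * (48 * √m * R) / c ^ 3 := by
          gcongr
          nlinarith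
      _ ≤ η := by
          rw [div_le_iff₀ hc3, one_mul]; exact h2

/-- The second choice of constants. -/
theorem const_J {c a₀ R B η J₀ x₀ : ℝ} (hc : 0 < c) (ha₀ : 0 < a₀) (hR : 0 < R)
    (hη : 0 < η) :
    ∃ J a₁ : ℝ, J₀ ≤ J ∧ x₀ ≤ J ∧ 1 ≤ J ∧ 0 < a₁ ∧ a₁ < a₀ ∧
      R * (1 + 3 * J) * Real.exp (-(√2 * c / √a₁)) ≤ η ∧ B / a₁ ≤ J / 16 := by
  have e1 : ∀ᶠ u : ℝ in atTop, J₀ ≤ Real.exp u := Real.tendsto_exp_atTop.eventually_ge_atTop _
  have e2 : ∀ᶠ u : ℝ in atTop, x₀ ≤ Real.exp u := Real.tendsto_exp_atTop.eventually_ge_atTop _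
  have e3 : ∀ᶠ u : ℝ in atTop, 4 * R / η ≤ Real.exp u :=
    Real.tendsto_exp_atTop.eventually_ge_atTop _
  have e4 : ∀ᶠ u : ℝ in atTop, c / (2 * √a₀) < u := eventually_gt_atTop _
  have e5 : ∀ᶠ u : ℝ in atTop, 384 * B / c ^ 2 ≤ u := eventually_ge_atTop _
  have e6 : ∀ᶠ u : ℝ in atTop, (1 : ℝ) ≤ u := eventually_ge_atTop _
  obtain ⟨u, h1, h2, h3, h4, h5, h6⟩ :=
    (e1.and (e2.and (e3.and (e4.and (e5.and e6))))).exists
  have hu : 0 < u := by linarith
  have hsa : 0 < √a₀ := Real.sqrt_pos.2 ha₀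
  have hE1 : 1 ≤ Real.exp u := Real.one_le_exp hu.le
  have hsq : √((c / (2 * u)) ^ 2) = c / (2 * u) := Real.sqrt_sq (by positivity)
  have hs2 : (1 : ℝ) ≤ √2 := by
    rw [Real.one_le_sqrt]; norm_num
  have hs2' : √2 * √2 = (2 : ℝ) := Real.mul_self_sqrt (by norm_num)
  refine ⟨Real.exp u, (c / (2 * u)) ^ 2, h1, h2, hE1, by positivity, ?_, ?_, ?_⟩
  · have h7 : c / (2 * u) < √a₀ := by
      rw [div_lt_iff₀ (by positivity)] at h4 ⊢
      linarith
    calc (c / (2 * u)) ^ 2 < √a₀ ^ 2 := by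
          apply pow_lt_pow_left₀ h7 (by positivity) (by norm_num)
      _ = a₀ := Real.sq_sqrt ha₀.le
  · rw [hsq]
    have h8 : √2 * c / (c / (2 * u)) = 2 * √2 * u := by
      field_simp
    rw [h8]
    have h9 : Real.exp (-(2 * √2 * u)) ≤ Real.exp (-(2 * u)) := by
      apply Real.exp_le_exp.2
      nlinarith
    have h10 : Real.exp (-(2 * u)) = (Real.exp u)⁻¹ * (Real.exp u)⁻¹ := by
      rw [← Real.exp_neg, ← Real.exp_add]; congr 1; ring
    have hEp := Real.exp_pos u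
    calc R * (1 + 3 * Real.exp u) * Real.exp (-(2 * √2 * u))
        ≤ R * (4 * Real.exp u) * ((Real.exp u)⁻¹ * (Real.exp u)⁻¹) := by
          rw [← h10]
          gcongr
          linarith
      _ = 4 * R * (Real.exp u)⁻¹ := by
          field_simp
      _ ≤ η := by
          rw [div_le_iff₀ hη] at h3
          rw [← div_eq_mul_inv, div_le_iff₀ hEp]
          linarith
  · have h7 : u ^ 3 / 6 ≤ Real.exp u := by
      have := Real.pow_div_factorial_le_exp u hu.le 3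
      simpa [Nat.factorial] using this
    rw [div_le_iff₀ (by positivity)] at h5
    have h8 : B / (c / (2 * u)) ^ 2 = 4 * B * u ^ 2 / c ^ 2 := by
      field_simp
      ring
    rw [h8, div_le_iff₀ (by positivity)]
    have h9 : u ^ 3 / 96 ≤ Real.exp u / 16 := by linarith
    calc 4 * B * u ^ 2 = (384 * B) * (u ^ 2 / 96) := by ring
      _ ≤ (u * c ^ 2) * (u ^ 2 / 96) := by gcongr
      _ = u ^ 3 / 96 * c ^ 2 := by ring
      _ ≤ Real.exp u / 16 * c ^ 2 := by gcongr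

/-- Points of a clopen piece inside `Z` are inner points of the piece. -/
theorem clop_interior {Z P : Set ℂ} (h : Clop Z P) {z : ℂ} (hz : z ∈ P) (hZ : z ∈ interior Z) :
    z ∈ interior P := by
  rw [mem_interior]
  refine ⟨interior Z ∩ (Z \ P)ᶜ, ?_, isOpen_interior.inter h.2.2.isOpen_compl, hZ, ?_⟩
  · rintro w ⟨hw1, hw2⟩
    by_contra hw3
    exact hw2 ⟨interior_subset hw1, hw3⟩
  · intro h2
    exact h2.2 hz

/-- Gluing over a finite clopen partition. -/
theorem glue {Z : Set ℂ} {n : ℕ} {P : Fin n → Set ℂ} {κ : ℝ} (hP : ∀ i, Clop Z (P i))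
    (hd : Pairwise fun i j => Disjoint (P i) (P j)) (hU : (⋃ i, P i) = Z) (Φ : Fin n → ℂ → ℂ)
    (hΦ : ∀ i, AHol (P i) (Φ i) κ) :
    ∃ Ψ : ℂ → ℂ, AHol Z Ψ κ ∧ ∀ i, ∀ z ∈ P i, Ψ z = Φ i z := by
  classical
  set Ψ : ℂ → ℂ := fun z => if h : ∃ i, z ∈ P i then Φ h.choose z else 0 with hΨ
  have key : ∀ i, ∀ z ∈ P i, Ψ z = Φ i z := by
    intro i z hz
    have h : ∃ i, z ∈ P i := ⟨i, hz⟩
    have h1 : h.choose = i := by
      by_contra hne
      exact Set.disjoint_left.1 (hd hne) h.choose_spec hz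
    rw [hΨ]
    simp only [h, dif_pos, h1]
  have hloc : ∀ z ∈ interior Z, ∃ i, z ∈ interior (P i) ∧ Ψ =ᶠ[𝓝 z] Φ i := by
    intro z hz
    have hz2 := interior_subset hz
    rw [← hU, mem_iUnion] at hz2
    obtain ⟨i, hi⟩ := hz2
    have h2 := clop_interior (hP i) hi hz
    refine ⟨i, h2, ?_⟩
    filter_upwards [isOpen_interior.mem_nhds h2] with w hw
    exact key i w (interior_subset hw)
  refine ⟨Ψ, ⟨?_, ?_, ?_⟩, key⟩
  · rw [← hU]
    refine (locallyFinite_of_finite P).continuousOn_iUnion (fun i => (hP i).2.1) (fun i => ?_)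
    exact (hΦ i).1.congr (key i)
  · intro z hz
    obtain ⟨i, h1, h2⟩ := hloc z hz
    have h3 : ContDiffAt ℝ 2 (Φ i) z := (hΦ i).2.1.contDiffAt (isOpen_interior.mem_nhds h1)
    exact (h3.congr_of_eventuallyEq h2).contDiffWithinAt
  · intro z hz
    obtain ⟨i, h1, h2⟩ := hloc z hz
    have h3 : dzb Ψ z = dzb (Φ i) z := (Pool.Agent.BlMat.dz_congr h2).2
    rw [h3]
    exact (hΦ i).2.2 z h1

theorem Hol.mono {K K' : Set ℂ} {g : ℂ → ℂ} (h : Hol K g) (hK : K' ⊆ K) : Hol K' g :=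
  ⟨h.1.mono hK, h.2.mono (interior_mono hK)⟩

theorem contDiffOn_of_hol {U : Set ℂ} {g : ℂ → ℂ} (hU : IsOpen U) (h : DifferentiableOn ℂ g U) :
    ContDiffOn ℝ 2 g U := (h.contDiffOn (n := 2) hU).restrict_scalars ℝ

/-- `A + σ (B - A)` with holomorphic `A`, `B` and almost holomorphic `σ`. -/
theorem combo {P : Set ℂ} {A B σ : ℂ → ℂ} {κ R : ℝ} (hA : Hol P A) (hB : Hol P B)
    (hσ : AHol P σ κ) (hR : ∀ z ∈ P, ‖B z - A z‖ ≤ R) (hκ : 0 ≤ κ) :
    AHol P (fun z => A z + σ z * (B z - A z)) (κ * R) := by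
  refine ⟨hA.1.add (hσ.1.mul (hB.1.sub hA.1)), ?_, ?_⟩
  · have h1 := contDiffOn_of_hol isOpen_interior hA.2
    have h2 := contDiffOn_of_hol isOpen_interior hB.2
    exact h1.add (hσ.2.1.mul (h2.sub h1))
  · intro z hz
    have hn := isOpen_interior.mem_nhds hz
    have dA : DifferentiableAt ℂ A z := hA.2.differentiableAt hn
    have dB : DifferentiableAt ℂ B z := hB.2.differentiableAt hn
    have dS : DifferentiableAt ℝ σ z := (hσ.2.1.contDiffAt hn).differentiableAt (by norm_num)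
    have dA' : DifferentiableAt ℝ A z := dA.restrictScalars ℝ
    have dB' : DifferentiableAt ℝ B z := dB.restrictScalars ℝ
    have dD : DifferentiableAt ℝ (fun w => B w - A w) z := dB'.sub dA'
    have dM : DifferentiableAt ℝ (fun w => σ w * (B w - A w)) z := dS.mul dD
    have h1 := (Pool.Agent.BlMat.dz_sub dB' dA').2
    have h2 := (Pool.Agent.BlMat.dz_mul dS dD).2
    have h3 := (Pool.Agent.BlMat.dz_add dA' dM).2
    have zA := (Pool.Agent.BlMat.dzb_eq_zero_of_differentiableAt dA).1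
    have zB := (Pool.Agent.BlMat.dzb_eq_zero_of_differentiableAt dB).1
    have h4 : dzb (fun z => A z + σ z * (B z - A z)) z = dzb σ z * (B z - A z) := by
      refine h3.trans ?_
      rw [zA, zero_add]
      refine h2.trans ?_
      rw [h1, zA, zB, sub_self, mul_zero, zero_add]
    rw [h4, norm_mul]
    exact mul_le_mul (hσ.2.2 z hz) (hR z (interior_subset hz)) (norm_nonneg _) hκ

end Pool.Agent.CMerg.LowM
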