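import Pool.Agent.CMerg.Low1

set_option autoImplicit false

/-!
# Chordal Mergelyan, the low zone: one piece
-/

namespace Pool.Agent.CMerg.LowM

open Complex Metric Set Filter Topology MeasureTheory
open scoped ContDiff
open Pool.Agent.CMerg

theorem AHol.mono_const {X : Set ℂ} {Φ : ℂ → ℂ} {κ κ' : ℝ} (h : AHol X Φ κ) (hκ : κ ≤ κ') :
    AHol X Φ κ' := ⟨h.1, h.2.1, fun z hz => (h.2.2 z hz).trans hκ⟩

/-- Composition of a branch with a function holomorphic in the right half plane. -/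
theorem hol_comp {P : Set ℂ} {w Ξ : ℂ → ℂ} (hΞ : DifferentiableOn ℂ Ξ {w | 0 < w.re})
    (hw : Hol P w) (hp : ∀ z ∈ P, 0 < (w z).re) : Hol P (fun z => Ξ (w z)) :=
  ⟨hΞ.continuousOn.comp hw.1 hp, hΞ.comp hw.2 fun z hz => hp z (interior_subset hz)⟩

/-- The conclusion for a piece. -/
def Good (P : Set ℂ) (F w₁ Ξ : ℂ → ℂ) (x₀ l₀ l₃ η : ℝ) : Prop :=
  ∃ Φ : ℂ → ℂ, AHol P Φ η ∧
    (∀ z ∈ P, ‖F z‖ ≤ l₀ → Complex.exp (Φ z) = F z) ∧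
    (∀ z ∈ P, l₃ ≤ ‖F z‖ → Φ z = Ξ (w₁ z)) ∧ ∀ z ∈ P, x₀ / 20 ≤ (Φ z).re

/-- A fat piece. -/
theorem piece_fat {P Z : Set ℂ} {F w₁ Ξ : ℂ → ℂ} {s : ℂ → ℝ} {x₀ l₀ l₃ M η₁ : ℝ} (hPZ : P ⊆ Z)
    (hw : Hol P w₁) (hexp : ∀ z ∈ P, Complex.exp (w₁ z) = F z) (hx₀ : 10 ≤ x₀)
    (hre : ∀ z ∈ P, x₀ ≤ (w₁ z).re) (hΞ : DifferentiableOn ℂ Ξ {w | 0 < w.re})
    (hlow : ∀ w : ℂ, x₀ ≤ w.re → x₀ / 10 ≤ (Ξ w).re)
    (hM : 0 < M) (hs : ContDiff ℝ ∞ s) (hs01 : ∀ z, 0 ≤ s z ∧ s z ≤ 1)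
    (hs0 : ∀ z ∈ Z, ‖F z‖ ≤ l₀ → s z = 0) (hs1 : ∀ z ∈ Z, l₃ ≤ ‖F z‖ → s z = 1)
    (hsM : ∀ z ∈ Z, ‖dzb (fun z => (s z : ℂ)) z‖ ≤ M)
    (hη : ∀ z ∈ P, ‖Ξ (w₁ z) - w₁ z‖ ≤ η₁) :
    Good P F w₁ Ξ x₀ l₀ l₃ (M * η₁) := by
  have hB : Hol P (fun z => Ξ (w₁ z)) :=
    hol_comp hΞ hw fun z hz => by have := hre z hz; linarith
  have hsC : ContDiff ℝ ∞ (fun z => (s z : ℂ)) := Complex.ofRealCLM.contDiff.comp hs
  have hσ : AHol P (fun z => (s z : ℂ)) M := by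
    refine ⟨hsC.continuous.continuousOn, ContDiff.contDiffOn ?_, fun z hz => ?_⟩
    · exact_mod_cast contDiff_infty.1 hsC 2
    · exact hsM z (hPZ (interior_subset hz))
  refine ⟨_, combo hw hB hσ hη hM.le, ?_, ?_, ?_⟩
  · intro z hz hl
    simp only [hs0 z (hPZ hz) hl, ofReal_zero, zero_mul, add_zero]
    exact hexp z hz
  · intro z hz hl
    simp only [hs1 z (hPZ hz) hl, ofReal_one, one_mul]
    ring
  · intro z hz
    have h1 := hre z hz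
    have h2 := hlow (w₁ z) h1
    obtain ⟨h3, h4⟩ := hs01 z
    simp only [add_re, re_ofReal_mul, sub_re]
    nlinarith

/-- A thin piece, or a piece with a valley. -/
theorem piece_thin {P : Set ℂ} {F w₁ Ξ σ : ℂ → ℂ} {x₀ x₁ b y l₀ l₃ κ T H Cb θ : ℝ}
    (hw : Hol P w₁) (hexp : ∀ z ∈ P, Complex.exp (w₁ z) = F z) (hx₀ : 10 ≤ x₀) (hx₁ : x₀ < x₁)
    (hb : 0 < b) (hH : 0 < H)
    (hre : ∀ z ∈ P, x₀ ≤ (w₁ z).re ∧ (w₁ z).re ≤ x₁) (him : ∀ z ∈ P, |(w₁ z).im - y| ≤ b)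
    (hΞ : DifferentiableOn ℂ Ξ {w | 0 < w.re})
    (hlow : ∀ w : ℂ, x₀ ≤ w.re → x₀ / 10 ≤ (Ξ w).re)
    (hHar : ∀ w w' : ℂ, x₀ ≤ w.re → w.re ≤ x₁ → x₀ ≤ w'.re → w'.re ≤ x₁ →
      |w.im - w'.im| ≤ 2 * b → ‖Ξ w - Ξ w'‖ ≤ H * (Ξ w).re)
    (hCb : Cb = H + 1 + Real.pi + b + x₁) (hθ : θ = 1 / (4 * Cb)) (hκ : 0 ≤ κ)
    (hT : ∀ z ∈ P, (Ξ (w₁ z)).re ≤ T) (hσ : AHol P σ κ)
    (hσ0 : ∀ z ∈ P, ‖F z‖ ≤ l₀ → σ z = 0) (hσ1 : ∀ z ∈ P, l₃ ≤ ‖F z‖ → σ z = 1)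
    (hσ2 : ∀ z ∈ P, 0 ≤ (σ z).re ∧ (σ z).re ≤ 1 ∧ |(σ z).im| ≤ θ * (σ z).re) :
    Good P F w₁ Ξ x₀ l₀ l₃ (κ * (Cb * (1 + T))) := by
  have hpi := Real.pi_pos
  have hCb0 : 0 < Cb := by rw [hCb]; linarith
  have hB : Hol P (fun z => Ξ (w₁ z)) :=
    hol_comp hΞ hw fun z hz => by have := (hre z hz).1; linarith
  set q : ℂ := ⟨x₀, y⟩ with hq
  set N : ℤ := round ((y - (Ξ q).im) / (2 * Real.pi)) with hN
  have hN1 : |(Ξ q).im - (y - 2 * Real.pi * N)| ≤ Real.pi := by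
    have h1 := abs_sub_round ((y - (Ξ q).im) / (2 * Real.pi))
    rw [← hN] at h1
    have h2 : (Ξ q).im - (y - 2 * Real.pi * N)
        = -(2 * Real.pi) * ((y - (Ξ q).im) / (2 * Real.pi) - N) := by
      field_simp
      ring
    rw [h2, abs_mul, abs_neg, abs_of_pos (by positivity : (0:ℝ) < 2 * Real.pi)]
    nlinarith
  set A : ℂ → ℂ := fun z => w₁ z - N * (2 * Real.pi * I) with hA
  have hAre : ∀ z, (A z).re = (w₁ z).re := by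
    intro z; simp [hA]
  have hAim : ∀ z, (A z).im = (w₁ z).im - 2 * Real.pi * N := by
    intro z; simp [hA]; ring
  have hAH : Hol P A := ⟨hw.1.sub continuousOn_const, hw.2.sub_const _⟩
  have hAexp : ∀ z ∈ P, Complex.exp (A z) = F z := by
    intro z hz
    rw [← hexp z hz, Complex.exp_eq_exp_iff_exists_int]
    exact ⟨-N, by simp only [hA]; push_cast; ring⟩
  have hmain : ∀ z ∈ P, |(Ξ (w₁ z)).im - (A z).im| ≤ H * (Ξ (w₁ z)).re + Real.pi + b := by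
    intro z hz
    obtain ⟨h1, h2⟩ := hre z hz
    have h3 := him z hz
    have h4 := hHar (w₁ z) q h1 h2 le_rfl hx₁.le (by
      simp only [hq]; linarith)
    have h5 := (Complex.abs_im_le_norm _).trans h4
    rw [sub_im] at h5
    rw [hAim]
    rw [abs_le] at h3 h5 hN1 ⊢
    constructor <;> linarith [h3.1, h3.2, h5.1, h5.2, hN1.1, hN1.2]
  have hlowB : ∀ z ∈ P, 1 ≤ (Ξ (w₁ z)).re ∧ x₀ / 10 ≤ (Ξ (w₁ z)).re := by
    intro z hz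
    have := hlow (w₁ z) (hre z hz).1
    constructor <;> linarith
  have hdiff : ∀ z ∈ P, ‖Ξ (w₁ z) - A z‖ ≤ Cb * (1 + T) := by
    intro z hz
    have h1 := hmain z hz
    obtain ⟨h2, h3⟩ := hlowB z hz
    obtain ⟨h4, h5⟩ := hre z hz
    have h6 := Complex.norm_le_abs_re_add_abs_im (Ξ (w₁ z) - A z)
    rw [sub_re, sub_im, hAre] at h6
    have h7 : |(Ξ (w₁ z)).re - (w₁ z).re| ≤ (Ξ (w₁ z)).re + x₁ := by
      rw [abs_le]; constructor <;> linarith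
    have h8 := hT z hz
    have h9 : ‖Ξ (w₁ z) - A z‖ ≤ Cb * (1 + (Ξ (w₁ z)).re) := by
      rw [hCb]
      nlinarith
    refine h9.trans ?_
    gcongr
  refine ⟨_, combo hAH hB hσ hdiff hκ, ?_, ?_, ?_⟩
  · intro z hz hl
    simp only [hσ0 z hz hl, zero_mul, add_zero]
    exact hAexp z hz
  · intro z hz hl
    simp only [hσ1 z hz hl, one_mul]
    ring
  · intro z hz
    obtain ⟨h1, h2, h3⟩ := hσ2 z hz
    obtain ⟨h4, h5⟩ := hlowB z hz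
    obtain ⟨h6, h7⟩ := hre z hz
    have h8 := hmain z hz
    simp only [add_re, mul_re, sub_re, sub_im]
    rw [hAre]
    set B := Ξ (w₁ z) with hBz
    have h9 : |(σ z).im * (B.im - (A z).im)| ≤ (σ z).re * ((1 + B.re) / 4) := by
      rw [abs_mul]
      have h10 : |B.im - (A z).im| ≤ Cb * (1 + B.re) := by
        refine h8.trans ?_
        rw [hCb]
        nlinarith
      calc |(σ z).im| * |B.im - (A z).im| ≤ (θ * (σ z).re) * (Cb * (1 + B.re)) :=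
            mul_le_mul h3 h10 (abs_nonneg _) ((abs_nonneg _).trans h3)
        _ = (σ z).re * ((1 + B.re) / 4) := by
            rw [hθ]; field_simp
    have h11 := le_abs_self ((σ z).im * (B.im - (A z).im))
    have h12 : x₀ / 20 ≤ 3 / 4 * B.re - 1 / 4 := by linarith
    have h13 : (1 - (σ z).re) * (x₀ / 20) ≤ (1 - (σ z).re) * (w₁ z).re :=
      mul_le_mul_of_nonneg_left (by linarith) (by linarith)
    have h14 : (σ z).re * (x₀ / 20) ≤ (σ z).re * (3 / 4 * B.re - 1 / 4) :=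
      mul_le_mul_of_nonneg_left h12 h1
    nlinarith

end Pool.Agent.CMerg.LowM
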