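import Pool.Agent.CMerg.Defs

set_option autoImplicit false

/-!
# Chordal Mergelyan theorem: the algebra of uniform limits of polynomials
-/

namespace Pool.Agent.CMerg

open Complex Metric Set Filter Topology Polynomial

variable {K : Set ℂ} {f g u : ℂ → ℂ}

theorem PA.of_poly (p : ℂ[X]) : PA K (fun z => p.eval z) :=
  fun ε hε => ⟨p, fun z _ => by simpa using hε⟩

theorem PA.const (c : ℂ) : PA K (fun _ => c) :=
  fun ε hε => ⟨C c, fun z _ => by simpa using hε⟩

theorem PA.ident : PA K (fun z => z) :=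
  fun ε hε => ⟨X, fun z _ => by simpa using hε⟩

theorem PA.congr (hf : PA K f) (h : ∀ z ∈ K, f z = g z) : PA K g := by
  intro ε hε
  obtain ⟨p, hp⟩ := hf ε hε
  exact ⟨p, fun z hz => by rw [← h z hz]; exact hp z hz⟩

theorem PA.mono {K' : Set ℂ} (hf : PA K f) (h : K' ⊆ K) : PA K' f := by
  intro ε hε
  obtain ⟨p, hp⟩ := hf ε hε
  exact ⟨p, fun z hz => hp z (h hz)⟩

/-- uniform limits -/
theorem PA.of_approx (h : ∀ ε : ℝ, 0 < ε → ∃ f, PA K f ∧ ∀ z ∈ K, ‖f z - g z‖ < ε) : PA K g := by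
  intro ε hε
  obtain ⟨f, hf, hfg⟩ := h (ε / 2) (by linarith)
  obtain ⟨p, hp⟩ := hf (ε / 2) (by linarith)
  refine ⟨p, fun z hz => ?_⟩
  calc ‖p.eval z - g z‖ ≤ ‖p.eval z - f z‖ + ‖f z - g z‖ := norm_sub_le_norm_sub_add_norm_sub _ _ _
    _ < ε / 2 + ε / 2 := add_lt_add (hp z hz) (hfg z hz)
    _ = ε := by ring

theorem PA.bounded (hK : IsCompact K) (hf : PA K f) : ∃ B : ℝ, 0 < B ∧ ∀ z ∈ K, ‖f z‖ ≤ B := by
  obtain ⟨p, hp⟩ := hf 1 one_pos
  obtain ⟨B, hB⟩ := hK.exists_bound_of_continuousOn (f := fun z => p.eval z)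
    p.continuous.continuousOn
  refine ⟨max B 0 + 1, by positivity, fun z hz => ?_⟩
  have h1 := hp z hz
  have h2 := hB z hz
  have h3 : ‖f z‖ ≤ ‖p.eval z - f z‖ + ‖p.eval z‖ := by
    have : f z = p.eval z - (p.eval z - f z) := by ring
    calc ‖f z‖ = ‖p.eval z - (p.eval z - f z)‖ := by rw [← this]
      _ ≤ ‖p.eval z‖ + ‖p.eval z - f z‖ := norm_sub_le _ _
      _ = _ := add_comm _ _
  have h4 : B ≤ max B 0 := le_max_left _ _
  linarith

theorem PA.continuousOn (hf : PA K f) : ContinuousOn f K := by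
  have h : ∀ n : ℕ, ∃ p : ℂ[X], ∀ z ∈ K, ‖p.eval z - f z‖ < 1 / (n + 1 : ℝ) := fun n =>
    hf _ (by positivity)
  choose p hp using h
  have hu : TendstoUniformlyOn (fun n z => (p n).eval z) f atTop K := by
    rw [Metric.tendstoUniformlyOn_iff]
    intro ε hε
    obtain ⟨N, hN⟩ := exists_nat_one_div_lt hε
    filter_upwards [eventually_ge_atTop N] with n hn z hz
    rw [dist_comm, dist_eq_norm]
    refine (hp n z hz).trans (lt_of_le_of_lt ?_ hN)
    apply one_div_le_one_div_of_le (by positivity)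
    have : (N : ℝ) ≤ n := by exact_mod_cast hn
    linarith
  exact hu.continuousOn (Frequently.of_forall fun n => (p n).continuous.continuousOn)

theorem PA.add (hf : PA K f) (hg : PA K g) : PA K (fun z => f z + g z) := by
  intro ε hε
  obtain ⟨p, hp⟩ := hf (ε / 2) (by linarith)
  obtain ⟨q, hq⟩ := hg (ε / 2) (by linarith)
  refine ⟨p + q, fun z hz => ?_⟩
  rw [eval_add]
  calc ‖p.eval z + q.eval z - (f z + g z)‖ = ‖(p.eval z - f z) + (q.eval z - g z)‖ := by
        congr 1; ring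
    _ ≤ ‖p.eval z - f z‖ + ‖q.eval z - g z‖ := norm_add_le _ _
    _ < ε / 2 + ε / 2 := add_lt_add (hp z hz) (hq z hz)
    _ = ε := by ring

theorem PA.mul (hK : IsCompact K) (hf : PA K f) (hg : PA K g) : PA K (fun z => f z * g z) := by
  obtain ⟨A, hA0, hA⟩ := hf.bounded hK
  obtain ⟨B, hB0, hB⟩ := hg.bounded hK
  intro ε hε
  have hS : 0 < A + B + 1 := by linarith
  obtain ⟨p, hp⟩ := hf (min 1 (ε / (A + B + 1))) (by positivity)
  obtain ⟨q, hq⟩ := hg (min 1 (ε / (A + B + 1))) (by positivity)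
  refine ⟨p * q, fun z hz => ?_⟩
  have h1 := hp z hz
  have h2 := hq z hz
  have h1' : ‖p.eval z - f z‖ < ε / (A + B + 1) := h1.trans_le (min_le_right _ _)
  have h2' : ‖q.eval z - g z‖ < ε / (A + B + 1) := h2.trans_le (min_le_right _ _)
  have h3 : ‖q.eval z‖ ≤ B + 1 := by
    have : q.eval z = g z + (q.eval z - g z) := by ring
    calc ‖q.eval z‖ = ‖g z + (q.eval z - g z)‖ := by rw [← this]
      _ ≤ ‖g z‖ + ‖q.eval z - g z‖ := norm_add_le _ _
      _ ≤ B + 1 := add_le_add (hB z hz) (h2.le.trans (min_le_left _ _))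
  rw [eval_mul]
  calc ‖p.eval z * q.eval z - f z * g z‖
      = ‖(p.eval z - f z) * q.eval z + f z * (q.eval z - g z)‖ := by congr 1; ring
    _ ≤ ‖p.eval z - f z‖ * ‖q.eval z‖ + ‖f z‖ * ‖q.eval z - g z‖ := by
        refine (norm_add_le _ _).trans ?_
        rw [norm_mul, norm_mul]
    _ ≤ ‖p.eval z - f z‖ * (B + 1) + A * ‖q.eval z - g z‖ := by
        gcongr
        exact hA z hz
    _ < ε / (A + B + 1) * (B + 1) + A * (ε / (A + B + 1)) := by
        have hB1 : 0 < B + 1 := by linarith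
        have i1 := mul_lt_mul_of_pos_right h1' hB1
        have i2 := mul_lt_mul_of_pos_left h2' hA0
        exact add_lt_add i1 i2
    _ = ε := by field_simp; ring

theorem PA.const_mul (c : ℂ) (hf : PA K f) : PA K (fun z => c * f z) := by
  intro ε hε
  obtain ⟨p, hp⟩ := hf (ε / (‖c‖ + 1)) (by positivity)
  refine ⟨C c * p, fun z hz => ?_⟩
  rw [eval_mul, eval_C, ← mul_sub, norm_mul]
  calc ‖c‖ * ‖p.eval z - f z‖ ≤ ‖c‖ * (ε / (‖c‖ + 1)) :=
        mul_le_mul_of_nonneg_left (hp z hz).le (norm_nonneg _)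
    _ < (‖c‖ + 1) * (ε / (‖c‖ + 1)) := by
        apply mul_lt_mul_of_pos_right (by linarith)
        positivity
    _ = ε := by field_simp

theorem PA.neg (hf : PA K f) : PA K (fun z => -f z) :=
  (hf.const_mul (-1)).congr fun z _ => by ring

theorem PA.sub (hf : PA K f) (hg : PA K g) : PA K (fun z => f z - g z) :=
  (hf.add hg.neg).congr fun z _ => by ring

theorem PA.pow (hK : IsCompact K) (hf : PA K f) (n : ℕ) : PA K (fun z => f z ^ n) := by
  induction n with
  | zero => exact (PA.const 1).congr fun z _ => by simp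
  | succ n ih => exact (PA.mul hK ih hf).congr fun z _ => by rw [pow_succ]

theorem PA.sum {ι : Type*} (s : Finset ι) (F : ι → ℂ → ℂ) (h : ∀ i ∈ s, PA K (F i)) :
    PA K (fun z => ∑ i ∈ s, F i z) := by
  classical
  induction s using Finset.induction_on with
  | empty => exact (PA.const 0).congr fun z _ => by simp
  | insert a s ha ih =>
    refine ((h a (Finset.mem_insert_self _ _)).add
      (ih fun i hi => h i (Finset.mem_insert_of_mem hi))).congr fun z _ => ?_
    rw [Finset.sum_insert ha]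

/-- power series -/
theorem PA.series (hK : IsCompact K) (hu : PA K u) (a : ℕ → ℂ) (r : ℝ)
    (hr : ∀ z ∈ K, ‖u z‖ ≤ r) (hs : Summable fun n => ‖a n‖ * r ^ n)
    (h : ∀ z ∈ K, HasSum (fun n => a n * u z ^ n) (g z)) : PA K g := by
  apply PA.of_approx
  intro ε hε
  have hun : TendstoUniformlyOn (fun N => fun z => ∑ n ∈ Finset.range N, a n * u z ^ n)
      (fun z => ∑' n, a n * u z ^ n) atTop K := by
    apply tendstoUniformlyOn_tsum_nat hs
    intro n z hz
    rw [norm_mul, norm_pow]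
    exact mul_le_mul_of_nonneg_left (pow_le_pow_left₀ (norm_nonneg _) (hr z hz) n) (norm_nonneg _)
  rw [Metric.tendstoUniformlyOn_iff] at hun
  obtain ⟨N, hN⟩ := (hun ε hε).exists
  refine ⟨fun z => ∑ n ∈ Finset.range N, a n * u z ^ n,
    PA.sum _ _ fun n _ => (hu.pow hK n).const_mul (a n), fun z hz => ?_⟩
  have h1 := hN z hz
  rw [(h z hz).tsum_eq, dist_comm, dist_eq_norm] at h1
  exact h1

theorem PA.exp (hK : IsCompact K) (hf : PA K f) : PA K (fun z => Complex.exp (f z)) := by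
  obtain ⟨B, hB0, hB⟩ := hf.bounded hK
  refine PA.series hK hf (fun n => ((Nat.factorial n : ℂ))⁻¹) B hB ?_ fun z _ => ?_
  · have := Real.summable_pow_div_factorial B
    refine this.congr fun n => ?_
    rw [norm_inv, Complex.norm_natCast]
    field_simp
  · have h := NormedSpace.expSeries_div_hasSum_exp (𝔸 := ℂ) (f z)
    rw [← Complex.exp_eq_exp_ℂ] at h
    refine h.congr_fun ?_ 
    intro n
    simp [div_eq_inv_mul]

theorem PA.inv_one_sub (hK : IsCompact K) (hu : PA K u) {r : ℝ} (hr0 : 0 ≤ r) (hr1 : r < 1)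
    (hr : ∀ z ∈ K, ‖u z‖ ≤ r) : PA K (fun z => (1 - u z)⁻¹) := by
  refine PA.series hK hu (fun _ => 1) r hr ?_ fun z hz => ?_
  · simpa using summable_geometric_of_lt_one hr0 hr1
  · simpa using hasSum_geometric_of_norm_lt_one (lt_of_le_of_lt (hr z hz) hr1)

theorem PA.log_one_sub (hK : IsCompact K) (hu : PA K u) {r : ℝ} (hr0 : 0 ≤ r) (hr1 : r < 1)
    (hr : ∀ z ∈ K, ‖u z‖ ≤ r) : PA K (fun z => Complex.log (1 - u z)) := by
  have h1 : PA K (fun z => -Complex.log (1 - u z)) := by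
    refine PA.series hK hu (fun n => ((n : ℂ))⁻¹) r hr ?_ fun z hz => ?_
    · refine Summable.of_nonneg_of_le (fun n => by positivity) (fun n => ?_)
        (summable_geometric_of_lt_one hr0 hr1)
      rw [norm_inv, Complex.norm_natCast]
      have h2 : ((n : ℝ))⁻¹ ≤ 1 := by
        rcases Nat.eq_zero_or_pos n with h | h
        · subst h; simp
        · exact inv_le_one_of_one_le₀ (by exact_mod_cast h)
      calc ((n : ℝ))⁻¹ * r ^ n ≤ 1 * r ^ n := by gcongr
        _ = r ^ n := one_mul _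
    · have h := Complex.hasSum_taylorSeries_neg_log (lt_of_le_of_lt (hr z hz) hr1)
      refine h.congr_fun ?_
      intro n
      rw [div_eq_inv_mul]
  exact h1.neg.congr fun z _ => by ring

/-! ### inverses of linear functions -/

/-- induction over a connected open set -/
theorem preconn_all {V : Set ℂ} (hV : IsPreconnected V) (P : ℂ → Prop)
    (hloc : ∀ x ∈ V, ∃ r > 0, ball x r ⊆ V ∧ ∀ a ∈ ball x r, ∀ a' ∈ ball x r, P a → P a')
    {b : ℂ} (hb : b ∈ V) (hPb : P b) : ∀ x ∈ V, P x := by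
  have hu : IsOpen {x | x ∈ V ∧ P x} := by
    rw [Metric.isOpen_iff]
    rintro x ⟨hx, hPx⟩
    obtain ⟨r, hr, h1, h2⟩ := hloc x hx
    exact ⟨r, hr, fun y hy => ⟨h1 hy, h2 x (mem_ball_self hr) y hy hPx⟩⟩
  have hv : IsOpen {x | x ∈ V ∧ ¬ P x} := by
    rw [Metric.isOpen_iff]
    rintro x ⟨hx, hPx⟩
    obtain ⟨r, hr, h1, h2⟩ := hloc x hx
    exact ⟨r, hr, fun y hy => ⟨h1 hy, fun h => hPx (h2 y hy x (mem_ball_self hr) h)⟩⟩
  have := hV.subset_left_of_subset_union hu hv
    (Set.disjoint_left.2 fun x hx hx' => hx'.2 hx.2) (fun x hx => by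
      by_cases h : P x
      · exact Or.inl ⟨hx, h⟩
      · exact Or.inr ⟨hx, h⟩) ⟨b, hb, hb, hPb⟩
  exact fun x hx => (this hx).2

theorem PA.inv_sub_near (hK : IsCompact K) {a a' : ℂ} {d : ℝ} (hd : 0 < d)
    (h1 : ∀ z ∈ K, d ≤ ‖z - a‖) (h2 : ‖a' - a‖ ≤ 2 / 3 * d) (h : PA K fun z => (z - a)⁻¹) :
    PA K fun z => (z - a')⁻¹ := by
  have hu : PA K fun z => (a' - a) * (z - a)⁻¹ := h.const_mul _
  have hr : ∀ z ∈ K, ‖(a' - a) * (z - a)⁻¹‖ ≤ 2 / 3 := by
    intro z hz
    rw [norm_mul, norm_inv]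
    have h3 := h1 z hz
    have h4 : 0 < ‖z - a‖ := hd.trans_le h3
    rw [← div_eq_mul_inv, div_le_iff₀ h4]
    nlinarith
  refine (PA.mul hK h (hu.inv_one_sub hK (by norm_num) (by norm_num) hr)).congr fun z hz => ?_
  have h5 : z - a ≠ 0 := norm_pos_iff.1 (hd.trans_le (h1 z hz))
  rw [← mul_inv]
  congr 1
  field_simp
  ring

/-- `1/(z-a)` is a limit of polynomials if `a` is outside `K`. -/
theorem PA.inv_sub (hK : IsCompact K) (hcon : IsPreconnected Kᶜ) {a : ℂ} (ha : a ∉ K) :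
    PA K fun z => (z - a)⁻¹ := by
  obtain ⟨B, hB⟩ := hK.isBounded.exists_norm_le
  set R : ℝ := max B 0 + 1 with hR
  have hR1 : 1 ≤ R := by rw [hR]; linarith [le_max_right B 0]
  have hRB : ∀ z ∈ K, ‖z‖ ≤ R := fun z hz => (hB z hz).trans (by
    rw [hR]; linarith [le_max_left B 0])
  -- a far point
  set b : ℂ := ((2 * R : ℝ) : ℂ) with hb
  have hbn : ‖b‖ = 2 * R := by
    rw [hb, Complex.norm_real, Real.norm_of_nonneg (by linarith)]
  have hb0 : b ≠ 0 := norm_pos_iff.1 (by rw [hbn]; linarith)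
  have hbK : b ∈ Kᶜ := fun h => by
    have := hRB b h
    rw [hbn] at this
    linarith
  have hPb : PA K fun z => (z - b)⁻¹ := by
    have hu : PA K fun z => b⁻¹ * z := PA.ident.const_mul _
    have hr : ∀ z ∈ K, ‖b⁻¹ * z‖ ≤ 1 / 2 := by
      intro z hz
      rw [norm_mul, norm_inv, hbn, inv_mul_eq_div, div_le_iff₀ (by linarith)]
      linarith [hRB z hz]
    refine ((hu.inv_one_sub hK (by norm_num) (by norm_num) hr).const_mul (-b⁻¹)).congr
      fun z hz => ?_
    have h1 : z - b ≠ 0 := by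
      intro h
      exact hbK (by rw [← sub_eq_zero.1 h]; exact hz)
    have h2 : 1 - b⁻¹ * z ≠ 0 := by
      intro h
      apply h1
      have : b * (1 - b⁻¹ * z) = 0 := by rw [h, mul_zero]
      rw [mul_sub, mul_one, ← mul_assoc, mul_inv_cancel₀ hb0, one_mul] at this
      rw [← neg_eq_zero, neg_sub]
      exact this
    rw [eq_comm, inv_eq_iff_eq_inv]
    rw [mul_inv, inv_inv, inv_neg, inv_inv]
    rw [mul_sub, mul_one, ← mul_assoc, neg_mul, mul_inv_cancel₀ hb0]
    ring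
  refine preconn_all hcon (fun a => PA K fun z => (z - a)⁻¹) ?_ hbK hPb a ha
  intro x hx
  obtain ⟨ε, hε, hball⟩ := Metric.isOpen_iff.1 hK.isClosed.isOpen_compl x hx
  refine ⟨ε / 4, by positivity, (ball_subset_ball (by linarith)).trans hball, ?_⟩
  intro a ha a' ha' hPa
  refine PA.inv_sub_near hK (d := 3 / 4 * ε) (by positivity) (fun z hz => ?_) ?_ hPa
  · have h1 : ε ≤ ‖z - x‖ := by
      by_contra h
      push Not at h
      exact hball (by rw [mem_ball, dist_eq_norm]; exact h) hz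
    have h2 : ‖a - x‖ < ε / 4 := by rw [← dist_eq_norm]; exact ha
    have h3 : ‖z - x‖ ≤ ‖z - a‖ + ‖a - x‖ := norm_sub_le_norm_sub_add_norm_sub _ _ _
    linarith
  · have h2 : ‖a - x‖ < ε / 4 := by rw [← dist_eq_norm]; exact ha
    have h3 : ‖a' - x‖ < ε / 4 := by rw [← dist_eq_norm]; exact ha'
    have h4 : ‖a' - a‖ ≤ ‖a' - x‖ + ‖x - a‖ := norm_sub_le_norm_sub_add_norm_sub _ _ _
    rw [norm_sub_rev x a] at h4
    linarith

/-- `z - a` has a logarithm which is a limit of polynomials if `a` is outside `K`. -/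
theorem PA.exists_log_sub (hK : IsCompact K) (hcon : IsPreconnected Kᶜ) {a : ℂ} (ha : a ∉ K) :
    ∃ l : ℂ → ℂ, PA K l ∧ ContinuousOn l K ∧ ∀ z ∈ K, Complex.exp (l z) = z - a := by
  suffices h : ∀ a ∈ Kᶜ, ∃ l : ℂ → ℂ, PA K l ∧ ∀ z ∈ K, Complex.exp (l z) = z - a by
    obtain ⟨l, h1, h2⟩ := h a ha
    exact ⟨l, h1, h1.continuousOn, h2⟩
  obtain ⟨B, hB⟩ := hK.isBounded.exists_norm_le
  set R : ℝ := max B 0 + 1 with hR
  have hR1 : 1 ≤ R := by rw [hR]; linarith [le_max_right B 0]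
  have hRB : ∀ z ∈ K, ‖z‖ ≤ R := fun z hz => (hB z hz).trans (by
    rw [hR]; linarith [le_max_left B 0])
  set b : ℂ := ((2 * R : ℝ) : ℂ) with hb
  have hbn : ‖b‖ = 2 * R := by
    rw [hb, Complex.norm_real, Real.norm_of_nonneg (by linarith)]
  have hb0 : b ≠ 0 := norm_pos_iff.1 (by rw [hbn]; linarith)
  have hbK : b ∈ Kᶜ := fun h => by
    have := hRB b h
    rw [hbn] at this
    linarith
  refine preconn_all hcon (fun a => ∃ l : ℂ → ℂ, PA K l ∧ ∀ z ∈ K, Complex.exp (l z) = z - a)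
    ?_ hbK ?_
  · intro x hx
    obtain ⟨ε, hε, hball⟩ := Metric.isOpen_iff.1 hK.isClosed.isOpen_compl x hx
    refine ⟨ε / 4, by positivity, (ball_subset_ball (by linarith)).trans hball, ?_⟩
    rintro a ha a' ha' ⟨l, hl, hl'⟩
    have haK : a ∉ K := hball (ball_subset_ball (by linarith) ha)
    have hu : PA K fun z => (a' - a) * (z - a)⁻¹ := (PA.inv_sub hK hcon haK).const_mul _
    have hza : ∀ z ∈ K, 3 / 4 * ε ≤ ‖z - a‖ := by
      intro z hz
      have h1 : ε ≤ ‖z - x‖ := by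
        by_contra h
        push Not at h
        exact hball (by rw [mem_ball, dist_eq_norm]; exact h) hz
      have h2 : ‖a - x‖ < ε / 4 := by rw [← dist_eq_norm]; exact ha
      have h3 : ‖z - x‖ ≤ ‖z - a‖ + ‖a - x‖ := norm_sub_le_norm_sub_add_norm_sub _ _ _
      linarith
    have haa : ‖a' - a‖ ≤ ε / 2 := by
      have h2 : ‖a - x‖ < ε / 4 := by rw [← dist_eq_norm]; exact ha
      have h3 : ‖a' - x‖ < ε / 4 := by rw [← dist_eq_norm]; exact ha'
      have h4 : ‖a' - a‖ ≤ ‖a' - x‖ + ‖x - a‖ := norm_sub_le_norm_sub_add_norm_sub _ _ _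
      rw [norm_sub_rev x a] at h4
      linarith
    have hr : ∀ z ∈ K, ‖(a' - a) * (z - a)⁻¹‖ ≤ 2 / 3 := by
      intro z hz
      rw [norm_mul, norm_inv]
      have h3 := hza z hz
      have h4 : 0 < ‖z - a‖ := lt_of_lt_of_le (by positivity) h3
      rw [← div_eq_mul_inv, div_le_iff₀ h4]
      linarith
    refine ⟨fun z => l z + Complex.log (1 - (a' - a) * (z - a)⁻¹),
      hl.add (hu.log_one_sub hK (by norm_num) (by norm_num) hr), fun z hz => ?_⟩
    have h5 : z - a ≠ 0 := norm_pos_iff.1 (lt_of_lt_of_le (by positivity) (hza z hz))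
    have h6 : 1 - (a' - a) * (z - a)⁻¹ ≠ 0 := by
      intro h
      have h7 := hr z hz
      rw [← sub_eq_zero.1 h] at h7
      norm_num at h7
    rw [Complex.exp_add, hl' z hz, Complex.exp_log h6]
    field_simp
    ring
  · have hu : PA K fun z => b⁻¹ * z := PA.ident.const_mul _
    have hr : ∀ z ∈ K, ‖b⁻¹ * z‖ ≤ 1 / 2 := by
      intro z hz
      rw [norm_mul, norm_inv, hbn, inv_mul_eq_div, div_le_iff₀ (by linarith)]
      linarith [hRB z hz]
    refine ⟨fun z => Complex.log (-b) + Complex.log (1 - b⁻¹ * z),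
      (PA.const _).add (hu.log_one_sub hK (by norm_num) (by norm_num) hr), fun z hz => ?_⟩
    have h6 : 1 - b⁻¹ * z ≠ 0 := by
      intro h
      have h7 := hr z hz
      rw [← sub_eq_zero.1 h] at h7
      norm_num at h7
    rw [Complex.exp_add, Complex.exp_log (neg_ne_zero.2 hb0), Complex.exp_log h6]
    field_simp
    ring

end Pool.Agent.CMerg
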